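import Pool.Agent.SA.Defs

/-! MODULE SA-AbC: a normal subgroup centralizing all chief factors of a finite group with abelian Sylow
subgroups is abelian.

`D` is nilpotent: by induction every normal subgroup of `K` inside `D` is contained in a term of the upper central
series of `D` (take a maximal smaller normal subgroup).  Then `D` is the product of its Sylow subgroups, which
are abelian. -/

namespace SA

open scoped commutatorElement

private theorem abc_series (K : Type) [Group K] [Finite K] (D : Subgroup K) [D.Normal]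
    (hD : ∀ (F0 F1 : Subgroup K) [F0.Normal] [F1.Normal], IsChief F0 F1 → D ≤ cen F0 F1) :
    ∀ (n : ℕ) (F : Subgroup K), F.Normal → Nat.card F ≤ n → F ≤ D →
      ∃ m, F.subgroupOf D ≤ Subgroup.upperCentralSeries D m := by
  intro n
  induction n with
  | zero =>
    intro F _ h
    have h1 : 0 < Nat.card F := Nat.card_pos
    omega
  | succ n ih =>
    intro F hF hc hFD
    by_cases hb : F = ⊥
    · refine ⟨0, ?_⟩
      rw [hb]
      intro x hx
      rw [Subgroup.mem_subgroupOf, Subgroup.mem_bot] at hx
      have h1 : x = 1 := Subtype.ext hx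
      rw [h1]
      exact Subgroup.one_mem _
    · have hfin : {X : Subgroup K | X.Normal ∧ X < F}.Finite := Set.toFinite _
      obtain ⟨F0, hF0, hmax⟩ := hfin.exists_maximal ⟨⊥, inferInstance, bot_lt_iff_ne_bot.2 hb⟩
      have := hF0.1
      have hch : IsChief F0 F := by
        refine ⟨hF0.2, fun X hX h1 h2 => ?_⟩
        by_cases h3 : X = F
        · exact Or.inr h3
        · exact Or.inl (le_antisymm (hmax ⟨hX, lt_of_le_of_ne h2 h3⟩ h1) h1)
      have hlt : Nat.card F0 < Nat.card F := by
        have h1 : (F0 : Set K) ⊂ (F : Set K) := hF0.2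
        have h2 := Set.ncard_lt_ncard h1 (Set.toFinite _)
        rwa [← Nat.card_coe_set_eq, ← Nat.card_coe_set_eq] at h2
      obtain ⟨m, hm⟩ := ih F0 hF0.1 (by omega) (hF0.2.le.trans hFD)
      refine ⟨m + 1, fun x hx => ?_⟩
      rw [Subgroup.mem_upperCentralSeries_succ_iff]
      intro g
      apply hm
      rw [Subgroup.mem_subgroupOf] at hx ⊢
      have h1 := hD F0 F hch g.2 (x : K) hx
      have h2 := F0.inv_mem h1
      have h3 : ((⁅x, g⁆ : D) : K) = ((g : K) * (x : K) * (g : K)⁻¹ * (x : K)⁻¹)⁻¹ := by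
        rw [commutatorElement_def]
        push_cast
        group
      rw [h3]
      exact h2

theorem abelian_of_cen (K : Type) [Group K] [Finite K] (hq : ∀ q : ℕ, q.Prime → QAb q K)
    (D : Subgroup K) [D.Normal]
    (hD : ∀ (F0 F1 : Subgroup K) [F0.Normal] [F1.Normal], IsChief F0 F1 → D ≤ cen F0 F1) :
    ∀ x ∈ D, ∀ y ∈ D, x * y = y * x := by
  obtain ⟨m, hm⟩ := abc_series K D hD (Nat.card D) D inferInstance le_rfl le_rfl
  have hnil : Group.IsNilpotent D := by
    refine ⟨⟨m, ?_⟩⟩
    rw [Subgroup.subgroupOf_self] at hm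
    exact top_le_iff.1 hm
  obtain ⟨e⟩ := (Group.isNilpotent_of_finite_tfae (G := D)).out 0 4 |>.1 hnil
  have hcomm : ∀ a b : (∀ p : (Nat.card D).primeFactors, ∀ P : Sylow p D, (↑P : Subgroup D)),
      a * b = b * a := by
    intro a b
    funext p P
    have hp : (p : ℕ).Prime := Nat.prime_of_mem_primeFactors p.2
    apply Subtype.ext
    apply Subtype.ext
    exact hq p hp ((P : Subgroup D).map D.subtype) (P.isPGroup'.map D.subtype) _
      ⟨_, (a p P).2, rfl⟩ _ ⟨_, (b p P).2, rfl⟩
  intro x hx y hy
  have h1 := hcomm (e.symm ⟨x, hx⟩) (e.symm ⟨y, hy⟩)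
  rw [← map_mul, ← map_mul] at h1
  exact congrArg Subtype.val (e.symm.injective h1)

end SA
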