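import Pool.Agent.SA.Defs

/-! MODULE SA-Av: averaging operators.
Plan. `V` is abelian (`hab`). Let `Z = {c ∈ C | c commutes with all of V}` (a normal subgroup of `C`). Every
`q`-element `x ∈ C` is in `Z`: `V ⊔ zpowers x` is a `q`-group (`x` normalizes `V`; `IsPGroup.to_sup_of_normal_left'`-like
lemmas or cardinality), abelian by `hab`. So `Z` contains a Sylow `q`-subgroup of `C`, and
`d = Nat.card (C ⧸ Z)` is prime to `q`. Let `N = Nat.card V = q ^ k`, choose `v` with `v * d ≡ 1 mod N`. Define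
`e x = (∏ over c̄ ∈ C ⧸ Z of c x c⁻¹) ^ v` for `x ∈ V` (the factor only depends on the class of `c`, the factors
are in the abelian group `V`; use the commutative group structure on `V` or `Finset.noncommProd`;
outside `V` put `e x = x`). All fields of `IsAvg` are direct: `id` and `cong` use `x ^ (d * v) = x`
(`x ^ N = 1`); `kill`: `e (⁅v, c⁆) = e (v * (c v⁻¹ c⁻¹)) = 1` (the product is invariant under `x ↦ c x c⁻¹`), and
`⁅V, C⁆` is generated by the `⁅v, c⁆`, contained in `V`. Suggestion: first build the additive/multiplicative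
endomorphism of the type `V`. -/

namespace SA

private theorem av_core {A : Type} [CommGroup A] [Finite A] (D : Subgroup (MulAut A)) [Finite D]
    (hD : Nat.Coprime (Nat.card D) (Nat.card A)) : ∃ f : A →* A,
      (∀ α ∈ D, ∀ x, α (f x) = f x) ∧ (∀ x, (∀ α ∈ D, α x = x) → f x = x) ∧
      (∀ γ : MulAut A, (∀ α ∈ D, γ * α * γ⁻¹ ∈ D) → ∀ x, f (γ x) = γ (f x)) ∧
      (∀ B : Subgroup A, (∀ α ∈ D, ∀ b ∈ B, α b ∈ B) → ∀ x ∈ B, f x ∈ B) ∧
      (∀ B : Subgroup A, ∀ x, (∀ α ∈ D, α x * x⁻¹ ∈ B) → x * (f x)⁻¹ ∈ B) ∧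
      (∀ α ∈ D, ∀ x, f (α x) = f x) := by
  classical
  have : Fintype D := Fintype.ofFinite D
  obtain ⟨N, hN⟩ : ∃ N : ℕ, N = Nat.card A := ⟨_, rfl⟩
  have hN0 : NeZero N := ⟨by rw [hN]; exact Nat.card_pos.ne'⟩
  rw [← hN] at hD
  obtain ⟨v, hv⟩ : ∃ v : ℕ, Nat.card D * v ≡ 1 [MOD N] := by
    refine ⟨(((ZMod.unitOfCoprime _ hD)⁻¹ : (ZMod N)ˣ) : ZMod N).val, ?_⟩
    rw [← ZMod.natCast_eq_natCast_iff, Nat.cast_mul, ZMod.natCast_zmod_val, Nat.cast_one,
      ← ZMod.coe_unitOfCoprime _ hD, Units.mul_inv]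
  have hx : ∀ x : A, (x ^ Nat.card D) ^ v = x := by
    intro x
    rw [← pow_mul]
    have h1 : x ^ (Nat.card D * v) = x ^ 1 := by
      rw [pow_eq_pow_iff_modEq]
      refine hv.of_dvd ?_
      rw [hN]
      exact orderOf_dvd_natCard x
    rw [h1, pow_one]
  have hcard : ∀ x : A, ∏ _α : D, x = x ^ Nat.card D := by
    intro x
    rw [Finset.prod_const, Finset.card_univ, Nat.card_eq_fintype_card]
  let f : A →* A :=
    { toFun := fun x => (∏ α : D, (α : MulAut A) x) ^ v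
      map_one' := by simp
      map_mul' := fun x y => by simp only [map_mul, Finset.prod_mul_distrib, mul_pow] }
  have hf : ∀ x, f x = (∏ α : D, (α : MulAut A) x) ^ v := fun _ => rfl
  have hcong : ∀ B : Subgroup A, ∀ x, (∀ α ∈ D, α x * x⁻¹ ∈ B) → x * (f x)⁻¹ ∈ B := by
    intro B x h
    have h1 : x * (f x)⁻¹ = (∏ α : D, x * ((α : MulAut A) x)⁻¹) ^ v := by
      rw [Finset.prod_mul_distrib, Finset.prod_inv_distrib, mul_pow, hcard, hx, hf, inv_pow]
    rw [h1]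
    refine B.pow_mem (B.prod_mem fun α _ => ?_) v
    have h2 := B.inv_mem (h α α.2)
    rwa [mul_inv_rev, inv_inv] at h2
  refine ⟨f, ?_, ?_, ?_, ?_, hcong, ?_⟩
  · intro α hα x
    rw [hf, map_pow, map_prod]
    congr 1
    exact Fintype.prod_equiv (Equiv.mulLeft (⟨α, hα⟩ : D)) _ _ fun β => rfl
  · intro x h
    have h1 := hcong ⊥ x fun α hα => by
      rw [h α hα, mul_inv_cancel]
      exact Subgroup.one_mem _
    rw [Subgroup.mem_bot, mul_inv_eq_one] at h1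
    exact h1.symm
  · intro γ hγ x
    rw [hf, hf, map_pow, map_prod]
    congr 1
    let c : D → D := fun α => ⟨γ * α * γ⁻¹, hγ α α.2⟩
    have hc : Function.Injective c := by
      intro α β h
      have h1 : γ * (α : MulAut A) * γ⁻¹ = γ * (β : MulAut A) * γ⁻¹ := congrArg Subtype.val h
      exact Subtype.ext (mul_left_cancel (mul_right_cancel h1))
    have hcb : Function.Bijective c := (Finite.injective_iff_bijective).1 hc
    refine (Fintype.prod_bijective c hcb _ _ fun α => ?_).symm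
    show γ ((α : MulAut A) x) = (γ * (α : MulAut A) * γ⁻¹) (γ x)
    rw [MulAut.mul_apply, MulAut.mul_apply, MulAut.inv_apply_self]
  · intro B hB x hxB
    rw [hf]
    exact B.pow_mem (B.prod_mem fun α _ => hB _ α.2 x hxB) v
  · intro α hα x
    rw [hf, hf]
    congr 1
    exact Fintype.prod_equiv (Equiv.mulRight (⟨α, hα⟩ : D)) _ _ fun β => rfl

private theorem av_core' {A : Type} [Group A] (hA : ∀ x y : A, x * y = y * x) [Finite A]
    (D : Subgroup (MulAut A)) [Finite D]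
    (hD : Nat.Coprime (Nat.card D) (Nat.card A)) : ∃ f : A →* A,
      (∀ α ∈ D, ∀ x, α (f x) = f x) ∧ (∀ x, (∀ α ∈ D, α x = x) → f x = x) ∧
      (∀ γ : MulAut A, (∀ α ∈ D, γ * α * γ⁻¹ ∈ D) → ∀ x, f (γ x) = γ (f x)) ∧
      (∀ B : Subgroup A, (∀ α ∈ D, ∀ b ∈ B, α b ∈ B) → ∀ x ∈ B, f x ∈ B) ∧
      (∀ B : Subgroup A, ∀ x, (∀ α ∈ D, α x * x⁻¹ ∈ B) → x * (f x)⁻¹ ∈ B) ∧
      (∀ α ∈ D, ∀ x, f (α x) = f x) := by
  let _ : CommGroup A := { ‹Group A› with mul_comm := hA }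
  exact av_core D hD

variable {H : Type} [Group H]

theorem exists_avg [Finite H] {q : ℕ} (hq : q.Prime) (hab : QAb q H) (V C : Subgroup H)
    (hV : IsPGroup q V) (hVC : ∀ c ∈ C, ∀ v ∈ V, c * v * c⁻¹ ∈ V) : ∃ e : H → H, IsAvg V C e := by
  classical
  have : Fact q.Prime := ⟨hq⟩
  have hnorm : ∀ g : H, (∀ v ∈ V, g * v * g⁻¹ ∈ V) → g ∈ Subgroup.normalizer (V : Set H) :=
    fun g hg => Subgroup.mem_normalizer_fintype fun n hn => hg n hn
  have hCN : C ≤ Subgroup.normalizer (V : Set H) := fun c hc => hnorm c (hVC c hc)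
  let φ : C →* MulAut V := V.normalizerMonoidHom.comp (Subgroup.inclusion hCN)
  have hφ : ∀ (c : C) (x : V), ((φ c x : V) : H) = (c : H) * x * (c : H)⁻¹ := fun _ _ => rfl
  have hVab : ∀ x y : V, x * y = y * x := fun x y =>
    Subtype.ext (hab V hV x x.2 y y.2)
  have hDfin : Finite φ.range := by
    have : Finite (MulAut V) := inferInstance
    infer_instance
  -- `q`-elements of `C` act trivially
  have hqel : ∀ c : C, (∃ k : ℕ, (c : H) ^ q ^ k = 1) → φ c = 1 := by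
    rintro c ⟨k, hk⟩
    have h1 : IsPGroup q (Subgroup.zpowers (c : H)) := by
      rintro ⟨y, hy⟩
      obtain ⟨m, rfl⟩ := Subgroup.mem_zpowers_iff.1 hy
      refine ⟨k, Subtype.ext ?_⟩
      show ((c : H) ^ m) ^ q ^ k = 1
      rw [← zpow_natCast, ← zpow_mul, mul_comm, zpow_mul, zpow_natCast, hk, one_zpow]
    have h2 : Subgroup.zpowers (c : H) ≤ Subgroup.normalizer (V : Set H) := by
      rw [Subgroup.zpowers_le]
      exact hCN c.2
    have h3 := IsPGroup.to_sup_of_normal_right' h1 hV h2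
    apply MulEquiv.ext
    intro x
    apply Subtype.ext
    rw [hφ]
    have h4 := hab _ h3 c (Subgroup.mem_sup_left (Subgroup.mem_zpowers _)) x
      (Subgroup.mem_sup_right x.2)
    rw [h4, mul_inv_cancel_right]
    rfl
  have hcop : Nat.Coprime (Nat.card φ.range) (Nat.card V) := by
    obtain ⟨k, hk⟩ := IsPGroup.iff_card.1 hV
    rw [hk]
    refine Nat.Coprime.pow_right k ?_
    rw [Nat.coprime_comm, Nat.Prime.coprime_iff_not_dvd hq]
    intro hdvd
    obtain ⟨δ, hδ⟩ := exists_prime_orderOf_dvd_card' q hdvd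
    obtain ⟨c, hc⟩ := δ.2
    have h1 : orderOf (δ : MulAut V) = q := by
      rw [← hδ]
      exact Subgroup.orderOf_coe δ
    -- write the order of `c` as `q ^ a * m`
    have hc0 : 0 < orderOf (c : H) := orderOf_pos _
    obtain ⟨a, m, hm, ham⟩ := Nat.exists_eq_pow_mul_and_not_dvd hc0.ne' q hq.ne_one
    have h2 : φ (c ^ m) = 1 := by
      refine hqel _ ⟨a, ?_⟩
      rw [Subgroup.coe_pow, ← pow_mul, mul_comm, ← ham, pow_orderOf_eq_one]
    rw [map_pow, hc] at h2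
    have h3 := orderOf_dvd_of_pow_eq_one h2
    rw [h1] at h3
    exact hm h3
  obtain ⟨f, hf1, hf2, hf3, hf4, hf5, hf6⟩ := av_core' hVab φ.range hcop
  have hmemr : ∀ c : C, φ c ∈ φ.range := fun c => ⟨c, rfl⟩
  obtain ⟨e, he, he'⟩ : ∃ e : H → H, (∀ x : V, e x = f x) ∧ ∀ x, x ∈ V → e x ∈ V := by
    refine ⟨fun x => if h : x ∈ V then (f ⟨x, h⟩ : H) else x, ?_, ?_⟩
    · rintro ⟨x, hx⟩
      show (if h : x ∈ V then (f ⟨x, h⟩ : H) else x) = f ⟨x, hx⟩
      rw [dif_pos hx]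
    · intro x hx
      show (if h : x ∈ V then (f ⟨x, h⟩ : H) else x) ∈ V
      rw [dif_pos hx]
      exact (f ⟨x, hx⟩).2
  refine ⟨e, ?_⟩
  refine { mem := he', mul := ?_, fix := ?_, id := ?_, conj := ?_, inv := ?_, cong := ?_,
           kill := ?_ }
  · intro x hx y hy
    have h1 := he (⟨x, hx⟩ * ⟨y, hy⟩ : V)
    rw [map_mul, Subgroup.coe_mul, Subgroup.coe_mul, ← he, ← he] at h1
    exact h1
  · intro x hx c hc
    have h1 := hf1 (φ ⟨c, hc⟩) (hmemr _) ⟨x, hx⟩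
    have h2 := congrArg Subtype.val h1
    rw [hφ, ← he] at h2
    exact h2
  · intro x hx h
    have h1 := hf2 ⟨x, hx⟩ (by
      rintro _ ⟨c, rfl⟩
      apply Subtype.ext
      rw [hφ]
      exact h c c.2)
    have h2 := congrArg Subtype.val h1
    rw [← he] at h2
    exact h2
  · intro g hgC hgV x hx
    have hg := hnorm g hgV
    obtain ⟨γ, hγ⟩ : ∃ γ : MulAut V, γ = V.normalizerMonoidHom ⟨g, hg⟩ := ⟨_, rfl⟩
    have hγ' : ∀ x : V, ((γ x : V) : H) = g * x * g⁻¹ := by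
      intro x
      rw [hγ]
      rfl
    have h1 := hf3 γ (by
      rintro _ ⟨c, rfl⟩
      refine ⟨⟨g * c * g⁻¹, hgC c c.2⟩, ?_⟩
      rw [hγ]
      have h2 : φ ⟨g * c * g⁻¹, hgC c c.2⟩ * V.normalizerMonoidHom ⟨g, hg⟩ =
          V.normalizerMonoidHom ⟨g, hg⟩ * φ c := by
        apply MulEquiv.ext
        intro y
        apply Subtype.ext
        show g * c * g⁻¹ * (g * y * g⁻¹) * (g * c * g⁻¹)⁻¹ = g * (c * y * (c : H)⁻¹) * g⁻¹
        group
      exact eq_mul_inv_of_mul_eq h2) ⟨x, hx⟩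
    have h2 := congrArg Subtype.val h1
    rw [hγ', ← he, ← he, hγ'] at h2
    exact h2
  · intro B hB x hx hxB
    have h1 := hf4 (B.subgroupOf V) (by
      rintro _ ⟨c, rfl⟩ b hb
      rw [Subgroup.mem_subgroupOf] at hb ⊢
      rw [hφ]
      exact hB c c.2 b hb) ⟨x, hx⟩ (Subgroup.mem_subgroupOf.2 hxB)
    rw [Subgroup.mem_subgroupOf, ← he] at h1
    exact h1
  · intro B x hx h
    have h1 := hf5 (B.subgroupOf V) ⟨x, hx⟩ (by
      rintro _ ⟨c, rfl⟩
      rw [Subgroup.mem_subgroupOf, Subgroup.coe_mul, Subgroup.coe_inv, hφ]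
      exact h c c.2)
    rw [Subgroup.mem_subgroupOf, Subgroup.coe_mul, Subgroup.coe_inv, ← he] at h1
    exact h1
  · have h1 : ⁅V, C⁆ ≤ f.ker.map V.subtype := by
      rw [Subgroup.commutator_le]
      intro g₁ hg₁ g₂ hg₂
      have h2 : f (⟨g₁, hg₁⟩ * φ ⟨g₂, hg₂⟩ (⟨g₁, hg₁⟩)⁻¹) = 1 := by
        rw [map_mul, hf6 _ (hmemr _), map_inv, mul_inv_cancel]
      refine ⟨_, h2, ?_⟩
      rw [commutatorElement_def]
      show g₁ * (g₂ * g₁⁻¹ * g₂⁻¹) = g₁ * g₂ * g₁⁻¹ * g₂⁻¹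
      group
    intro x hx
    obtain ⟨y, hy, rfl⟩ := h1 hx
    show e y = 1
    rw [he]
    have h2 : f y = 1 := hy
    rw [h2]
    rfl

end SA
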