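import Pool.Agent.SA.Defs

/-! MODULE SA-BasicA: elementary facts about `Loc`.
Plan. `loc_of_type`: choose an injection `α → Fin n` (`Nat.card α ≤ n`, `Finite.equivFin`,
`Fin.castLE`), map `w` along it (`FreeGroup.map`), it is a law of `G` in `n` variables because every
`Fin n → G` restricts to `α → G`; a function `f : α → H` is extended to `Fin n → H` by `1`
(`Function.extend`, injectivity). `loc_mono`: `loc_of_type` with `α = Fin m`. `loc_inj`:
`φ (lift f w) = lift (φ ∘ f) w`. `loc_surj`: lift the values (`Function.surjInv`). -/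

namespace SA

variable {G H K : Type} [Group G] [Group H] [Group K]

private theorem lift_map_aux {α β K : Type} [Group K] (e : α → β) (g : β → K) (w : FreeGroup α) :
    FreeGroup.lift g (FreeGroup.map e w) = FreeGroup.lift (g ∘ e) w := by
  have h : (FreeGroup.lift g).comp (FreeGroup.map e) = FreeGroup.lift (g ∘ e) := by
    apply FreeGroup.ext_hom
    intro a
    simp
  exact DFunLike.congr_fun h w

private theorem hom_lift_aux {α K L : Type} [Group K] [Group L] (φ : K →* L) (f : α → K)
    (w : FreeGroup α) : φ (FreeGroup.lift f w) = FreeGroup.lift (φ ∘ f) w := by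
  have h : φ.comp (FreeGroup.lift f) = FreeGroup.lift (φ ∘ f) := by
    apply FreeGroup.ext_hom
    intro a
    simp
  exact DFunLike.congr_fun h w

/-- a law of `G` in a finite set of at most `n` variables is a law of `H` -/
theorem loc_of_type {α : Type} [Finite α] {n : ℕ} (hα : Nat.card α ≤ n) (hL : Loc n G H)
    (w : FreeGroup α) (hw : ∀ f : α → G, FreeGroup.lift f w = 1) (f : α → H) :
    FreeGroup.lift f w = 1 := by
  obtain ⟨e, he⟩ : ∃ e : α → Fin n, Function.Injective e :=
    ⟨fun a => Fin.castLE hα (Finite.equivFin α a), fun a b h =>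
      (Finite.equivFin α).injective (Fin.castLE_injective hα h)⟩
  have h1 : FreeGroup.map e w ∈ LawN n G := by
    intro g
    rw [lift_map_aux]
    exact hw _
  have h2 : FreeGroup.map e w ∈ LawN n H := hL h1
  have h3 := h2 (Function.extend e f (fun _ => 1))
  rw [lift_map_aux, Function.extend_comp he] at h3
  exact h3

theorem loc_mono {m n : ℕ} (h : m ≤ n) (hL : Loc n G H) : Loc m G H := by
  intro w hw f
  exact loc_of_type (α := Fin m) (n := n) (by simpa using h) hL w hw f

theorem loc_inj {n : ℕ} (φ : K →* H) (hφ : Function.Injective φ) (hL : Loc n G H) :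
    Loc n G K := by
  intro w hw f
  apply hφ
  rw [hom_lift_aux, map_one]
  exact hL hw _

theorem loc_surj {n : ℕ} (φ : H →* K) (hφ : Function.Surjective φ) (hL : Loc n G H) :
    Loc n G K := by
  intro w hw f
  have h1 : f = φ ∘ (fun i => Function.surjInv hφ (f i)) := by
    funext i
    exact (Function.surjInv_eq hφ (f i)).symm
  rw [h1, ← hom_lift_aux, hL hw _, map_one]

/-- substitution of words into a law gives a law -/
theorem law_comp {k n : ℕ} {w : FreeGroup (Fin k)} (hw : w ∈ LawN k G)
    (u : Fin k → FreeGroup (Fin n)) : FreeGroup.lift u w ∈ LawN n G := by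
  intro f
  rw [hom_lift_aux]
  exact hw _

end SA
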