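import Pool.Agent.SA.BasicA

/-! MODULE SA-BasicB: elementary facts about `InVar`.
Plan. `inVar_of_inf`: `lift f w` is `1` in both quotients (`QuotientGroup.mk' N`), so lies in
`N1 ⊓ N2`. `inVar_closure`: let `w` be a `k`-variable law of `G` and `g : Fin k → closure (range f)`;
every `g i` is `lift f (u i)` for a word `u i : FreeGroup α` (`FreeGroup.range_lift_eq_closure` or
`Subgroup.closure_induction`); `lift u w : FreeGroup α` is a law of `G` (as in `law_comp`), so
`loc_of_type` gives `lift f (lift u w) = 1`, i.e. `lift g w = 1`. `inVar_iff`: a word of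
`FreeGroup ℕ` is the image of a word of `FreeGroup (Fin n)` for some `n` (induction on the word, or
`FreeGroup.map` with the finite set of letters); conversely map `Fin n → ℕ`. -/

namespace SA

variable {G H K : Type} [Group G] [Group H] [Group K]

private theorem bb_map_lift {α : Type} {A B : Type} [Group A] [Group B] (φ : A →* B) (f : α → A)
    (w : FreeGroup α) : φ (FreeGroup.lift f w) = FreeGroup.lift (fun i => φ (f i)) w := by
  have h : φ.comp (FreeGroup.lift f) = FreeGroup.lift (fun i => φ (f i)) := by
    apply FreeGroup.ext_hom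
    intro i
    simp
  exact DFunLike.congr_fun h w

private theorem bb_lift_map {α β : Type} {A : Type} [Group A] (g : α → β) (f : β → A)
    (w : FreeGroup α) :
    FreeGroup.lift f (FreeGroup.map g w) = FreeGroup.lift (fun i => f (g i)) w := by
  have h : (FreeGroup.lift f).comp (FreeGroup.map g) = FreeGroup.lift (fun i => f (g i)) := by
    apply FreeGroup.ext_hom
    intro i
    simp
  exact DFunLike.congr_fun h w

/-- restriction of the letters -/
private def bbr (m : ℕ) : FreeGroup ℕ →* FreeGroup (Fin m) :=
  FreeGroup.lift (fun i => if h : i < m then FreeGroup.of (⟨i, h⟩ : Fin m) else 1)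

private theorem bb_exists (w : FreeGroup ℕ) : ∃ n, ∀ m, n ≤ m →
    FreeGroup.map (fun i : Fin m => (i : ℕ)) (bbr m w) = w := by
  induction w using FreeGroup.induction_on with
  | C1 => exact ⟨0, fun m _ => by rw [map_one, map_one]⟩
  | of i =>
    refine ⟨i + 1, fun m hm => ?_⟩
    unfold bbr
    rw [FreeGroup.lift_apply_of, dif_pos (show i < m by omega), FreeGroup.map.of]
  | inv_of i ih =>
    obtain ⟨n, hn⟩ := ih
    exact ⟨n, fun m hm => by rw [map_inv, map_inv, hn m hm]⟩
  | mul x y hx hy =>
    obtain ⟨n, hn⟩ := hx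
    obtain ⟨n', hn'⟩ := hy
    refine ⟨max n n', fun m hm => ?_⟩
    rw [map_mul, map_mul, hn m (le_of_max_le_left hm), hn' m (le_of_max_le_right hm)]

theorem inVar_subgroup (h : InVar G H) (K : Subgroup H) : InVar G K := by
  exact fun n => loc_inj K.subtype K.subtype_injective (h n)


theorem inVar_surj (φ : H →* K) (hφ : Function.Surjective φ) (h : InVar G H) : InVar G K := by
  exact fun n => loc_surj φ hφ (h n)


theorem inVar_of_inf (N1 N2 : Subgroup H) [N1.Normal] [N2.Normal] (h : N1 ⊓ N2 = ⊥)
    (h1 : InVar G (H ⧸ N1)) (h2 : InVar G (H ⧸ N2)) : InVar G H := by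
  intro n w hw f
  have e1 : QuotientGroup.mk' N1 (FreeGroup.lift f w) = 1 := by
    rw [bb_map_lift]
    exact h1 n hw _
  have e2 : QuotientGroup.mk' N2 (FreeGroup.lift f w) = 1 := by
    rw [bb_map_lift]
    exact h2 n hw _
  have f1 : FreeGroup.lift f w ∈ N1 := (QuotientGroup.eq_one_iff _).mp e1
  have f2 : FreeGroup.lift f w ∈ N2 := (QuotientGroup.eq_one_iff _).mp e2
  have f3 : FreeGroup.lift f w ∈ N1 ⊓ N2 := ⟨f1, f2⟩
  rw [h] at f3
  exact Subgroup.mem_bot.mp f3


/-- an `n`-generated subgroup of a group with `Loc n` satisfies all laws -/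
theorem inVar_closure {α : Type} [Finite α] {n : ℕ} (hα : Nat.card α ≤ n) (hL : Loc n G H)
    (f : α → H) : InVar G (Subgroup.closure (Set.range f)) := by
  intro k w hw g
  have h1 : ∀ i, ∃ u : FreeGroup α, FreeGroup.lift f u = (g i : H) := by
    intro i
    have h2 : ((g i : H)) ∈ (FreeGroup.lift f).range :=
      (FreeGroup.range_lift_eq_closure (f := f)).symm.le (g i).2
    exact h2
  choose u hu using h1
  have h3 : ((FreeGroup.lift g w : Subgroup.closure (Set.range f)) : H) = 1 := by
    have h4 := bb_map_lift (Subgroup.closure (Set.range f)).subtype g w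
    have h5 : ((FreeGroup.lift g w : Subgroup.closure (Set.range f)) : H) =
        FreeGroup.lift (fun i => FreeGroup.lift f (u i)) w := by
      refine h4.trans ?_
      have : (fun i => (Subgroup.closure (Set.range f)).subtype (g i)) =
          fun i => FreeGroup.lift f (u i) := by
        funext i
        exact (hu i).symm
      rw [this]
    rw [h5, ← bb_map_lift]
    refine loc_of_type hα hL _ (fun h => ?_) f
    rw [bb_map_lift]
    exact hw _
  exact Subtype.ext h3


theorem inVar_iff : InVar G H ↔ ∀ w : FreeGroup ℕ, (∀ f : ℕ → G, FreeGroup.lift f w = 1) →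
    ∀ f : ℕ → H, FreeGroup.lift f w = 1 := by
  constructor
  · intro h w hw f
    obtain ⟨n, hn⟩ := bb_exists w
    have h1 := hn n le_rfl
    have h2 : bbr n w ∈ LawN n G := by
      intro g
      have h3 := hw (fun i => if h : i < n then g ⟨i, h⟩ else 1)
      rw [← h1, bb_lift_map] at h3
      have h4 : (fun i : Fin n => (if h : (i : ℕ) < n then g ⟨(i : ℕ), h⟩ else 1)) = g := by
        funext i
        rw [dif_pos i.2]
      rw [h4] at h3
      exact h3
    rw [← h1, bb_lift_map]
    exact h n h2 _
  · intro h n w hw f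
    have h1 := h (FreeGroup.map (fun i : Fin n => (i : ℕ)) w) (fun g => by
      rw [bb_lift_map]
      exact hw _) (fun i => if h : i < n then f ⟨i, h⟩ else 1)
    rw [bb_lift_map] at h1
    have h4 : (fun i : Fin n => (if h : (i : ℕ) < n then f ⟨(i : ℕ), h⟩ else 1)) = f := by
      funext i
      rw [dif_pos i.2]
    rw [h4] at h1
    exact h1


end SA
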