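import Pool.Agent.SA.Defs

/-! MODULE SA-ChinF: `index_cen_le` for arbitrary (infinite) groups: the index is finite and at most `m`.
Plan. Adapt the proof of `index_cen_le` in Pool/Agent/SA/Chin.lean (complete, on main; copy the private lemmas): if the
quotient by the normal subgroup `cen F0 F1` is infinite or has more than `m` elements there is an injection of
`Fin (m + 1)` into it; so there are `x i` with `x i * (x j)⁻¹ ∉ cen F0 F1` for `i ≠ j`, and as there one finds `z` with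
`chin y x z ∉ F0`, contradiction. So the quotient is finite of order `≤ m` (`Subgroup.index = Nat.card`). -/

namespace SA

open scoped commutatorElement

variable {H : Type} [Group H]

private theorem claim (F0 F1 : Subgroup H) [h0 : F0.Normal] [h1 : F1.Normal]
    (hch : IsChief F0 F1) {v g : H} (hv : v ∈ F1) (hv0 : v ∉ F0) (hg : g ∉ cen F0 F1) :
    ∃ z : H, ⁅v, z * g * z⁻¹⁆ ∉ F0 ∧ ⁅v, z * g * z⁻¹⁆ ∈ F1 := by
  have hF1 : ∀ g' : H, ⁅v, g'⁆ ∈ F1 := by
    intro g'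
    have h2 := F1.mul_mem hv (h1.conj_mem _ (F1.inv_mem hv) g')
    have h3 : v * (g' * v⁻¹ * g'⁻¹) = ⁅v, g'⁆ := by rw [commutatorElement_def]; group
    rwa [h3] at h2
  by_contra hcon
  push Not at hcon
  have hall : ∀ z : H, ⁅v, z * g * z⁻¹⁆ ∈ F0 := by
    intro z
    by_contra hz
    exact hcon z hz (hF1 _)
  let X : Subgroup H :=
    { carrier := {w | w ∈ F1 ∧ ∀ z : H, ⁅w, z * g * z⁻¹⁆ ∈ F0}
      one_mem' := by
        refine ⟨F1.one_mem, fun z => ?_⟩
        rw [commutatorElement_one_left]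
        exact F0.one_mem
      mul_mem' := by
        rintro a b ⟨ha, ha'⟩ ⟨hb, hb'⟩
        refine ⟨F1.mul_mem ha hb, fun z => ?_⟩
        have h2 := F0.mul_mem (h0.conj_mem _ (hb' z) a) (ha' z)
        have h3 : a * ⁅b, z * g * z⁻¹⁆ * a⁻¹ * ⁅a, z * g * z⁻¹⁆ = ⁅a * b, z * g * z⁻¹⁆ := by
          simp only [commutatorElement_def]; group
        rwa [h3] at h2
      inv_mem' := by
        rintro a ⟨ha, ha'⟩
        refine ⟨F1.inv_mem ha, fun z => ?_⟩
        have h2 := h0.conj_mem _ (F0.inv_mem (ha' z)) a⁻¹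
        have h3 : a⁻¹ * ⁅a, z * g * z⁻¹⁆⁻¹ * a⁻¹⁻¹ = ⁅a⁻¹, z * g * z⁻¹⁆ := by
          simp only [commutatorElement_def]; group
        rwa [h3] at h2 }
  have hXn : X.Normal := by
    constructor
    rintro a ⟨ha, ha'⟩ h
    refine ⟨h1.conj_mem a ha h, fun z => ?_⟩
    have h2 := h0.conj_mem _ (ha' (h⁻¹ * z)) h
    have h3 : h * ⁅a, h⁻¹ * z * g * (h⁻¹ * z)⁻¹⁆ * h⁻¹ = ⁅h * a * h⁻¹, z * g * z⁻¹⁆ := by
      simp only [commutatorElement_def]; group
    rwa [h3] at h2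
  have hX0 : F0 ≤ X := by
    intro a ha
    refine ⟨hch.lt.le ha, fun z => ?_⟩
    have h2 := F0.mul_mem ha (h0.conj_mem _ (F0.inv_mem ha) (z * g * z⁻¹))
    have h3 : a * (z * g * z⁻¹ * a⁻¹ * (z * g * z⁻¹)⁻¹) = ⁅a, z * g * z⁻¹⁆ := by
      rw [commutatorElement_def]; group
    rwa [h3] at h2
  have hX1 : X ≤ F1 := fun a ha => ha.1
  have hvX : v ∈ X := ⟨hv, hall⟩
  rcases hch.irr X hXn hX0 hX1 with h | h
  · exact hv0 (h ▸ hvX)
  · apply hg
    rw [mem_cen]
    intro a ha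
    have haX : a ∈ X := h ▸ ha
    have h2 := F0.inv_mem (haX.2 1)
    have h3 : ⁅a, 1 * g * 1⁻¹⁆⁻¹ = g * a * g⁻¹ * a⁻¹ := by
      simp only [commutatorElement_def]; group
    rwa [h3] at h2

private theorem fold_ne (F0 F1 : Subgroup H) [F0.Normal] [F1.Normal]
    (hch : IsChief F0 F1) {m : ℕ} (x : Fin (m + 1) → H)
    (hx : ∀ i j, i ≠ j → x i * (x j)⁻¹ ∉ cen F0 F1)
    (l : List (Fin (m + 1) × Fin (m + 1))) (hl : l.Nodup) (hp : ∀ p ∈ l, p.1 < p.2) :
    ∀ v ∈ F1, v ∉ F0 → ∃ z : Fin (m + 1) × Fin (m + 1) → H,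
      l.foldl (fun v p => ⁅v, z p * (x p.1 * (x p.2)⁻¹) * (z p)⁻¹⁆) v ∉ F0 := by
  induction l with
  | nil =>
    intro v _ hv0
    exact ⟨fun _ => 1, hv0⟩
  | cons p l ih =>
    intro v hv hv0
    rw [List.nodup_cons] at hl
    obtain ⟨z0, hz0, hz1⟩ := claim F0 F1 hch hv hv0
      (hx p.1 p.2 (ne_of_lt (hp p List.mem_cons_self)))
    obtain ⟨z, hz⟩ := ih hl.2 (fun q hq => hp q (List.mem_cons_of_mem _ hq)) _ hz1 hz0
    refine ⟨Function.update z p z0, ?_⟩
    rw [List.foldl_cons, Function.update_self]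
    have h2 : l.foldl (fun v q => ⁅v, Function.update z p z0 q * (x q.1 * (x q.2)⁻¹) *
        (Function.update z p z0 q)⁻¹⁆) ⁅v, z0 * (x p.1 * (x p.2)⁻¹) * z0⁻¹⁆ =
        l.foldl (fun v q => ⁅v, z q * (x q.1 * (x q.2)⁻¹) * (z q)⁻¹⁆)
          ⁅v, z0 * (x p.1 * (x p.2)⁻¹) * z0⁻¹⁆ := by
      refine List.foldl_ext _ _ _ ?_
      intro a q hq
      rw [Function.update_of_ne (by rintro rfl; exact hl.1 hq)]
    rw [h2]
    exact hz

private theorem prs_nodup (m : ℕ) : (prs m).Nodup :=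
  ((List.nodup_finRange _).product (List.nodup_finRange _)).filter _

theorem index_cen_fin (F0 F1 : Subgroup H) [F0.Normal] [F1.Normal] (hch : IsChief F0 F1) {m : ℕ}
    {y : H} (hy : y ∈ F1) (hy0 : y ∉ F0)
    (hc : ∀ (x : Fin (m + 1) → H) (z : Fin (m + 1) × Fin (m + 1) → H), chin y x z ∈ F0) :
    (cen F0 F1).index ≠ 0 ∧ (cen F0 F1).index ≤ m := by
  have key : (Fin (m + 1) ↪ H ⧸ cen F0 F1) → False := by
    intro φ
    let x : Fin (m + 1) → H := fun i => (φ i).out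
    have hxφ : ∀ i, (QuotientGroup.mk (x i) : H ⧸ cen F0 F1) = φ i := fun i =>
      QuotientGroup.out_eq' _
    have hx : ∀ i j, i ≠ j → x i * (x j)⁻¹ ∉ cen F0 F1 := by
      intro i j hij hmem
      apply hij
      apply φ.injective
      rw [← hxφ i, ← hxφ j]
      have h2 : (QuotientGroup.mk (x i * (x j)⁻¹) : H ⧸ cen F0 F1) = 1 :=
        (QuotientGroup.eq_one_iff _).2 hmem
      rw [QuotientGroup.mk_mul, QuotientGroup.mk_inv, mul_inv_eq_one] at h2
      exact h2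
    obtain ⟨z, hz⟩ := fold_ne F0 F1 hch x hx (prs m) (prs_nodup m) (fun p hp => mem_prs.1 hp)
      y hy hy0
    exact hz (hc x z)
  have hfin : Finite (H ⧸ cen F0 F1) := by
    by_contra hinf
    rw [not_finite_iff_infinite] at hinf
    exact key (Fin.valEmbedding.trans (Infinite.natEmbedding _))
  have := Fintype.ofFinite (H ⧸ cen F0 F1)
  constructor
  · exact Subgroup.index_ne_zero_of_finite
  · by_contra hcon
    rw [not_le] at hcon
    have hcard : Fintype.card (Fin (m + 1)) ≤ Fintype.card (H ⧸ cen F0 F1) := by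
      rw [Fintype.card_fin, ← Nat.card_eq_fintype_card]
      exact hcon
    obtain ⟨φ⟩ := Function.Embedding.nonempty_of_card_le hcard
    exact key φ

end SA
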