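import Pool.Agent.SA.Ver

/-! MODULE SA-ChinL: the laws behind SA-Chin.
Plan. `chin` commutes with homomorphisms (`List.foldl_hom` or induction). First theorem: consider the
word `chin (of y) (of x_i) (of z_p)` over the finite variable type
`Unit ⊕ Fin (m+1) ⊕ (Fin (m+1) × Fin (m+1))` (`Nat.card = 1 + (m+1) + (m+1)*(m+1) ≤ n0`), `m = A.index`. It is a law of
`G ⧸ A`: among the `m + 1` values of the `x i` in the group `G ⧸ A` of order `m` two coincide, `i < j`
(`Finite.exists_ne_map_eq_of_infinite`-like pigeonhole `Fintype.exists_ne_map_eq_of_card_lt`), so one step of the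
fold is `⁅v, z * 1 * z⁻¹⁆ = 1`, and afterwards the value stays `1`. Rename the variables to `Fin n0` (injection,
extension by `1`), so the value in `H` is in `ver n0 (G ⧸ A) H` (`mem_ver`). Second theorem: variable type
`Fin n0 ⊕ Fin (m+1) ⊕ (Fin (m+1) × Fin (m+1))`, word `chin (w in the first variables) ..`; in `G`: the value of
`w` is in `A` (law of `G ⧸ A`), `A` is normal so all partial commutators are in `A`, two of the `x i` are
congruent modulo `A`, so `z (x i (x j)⁻¹) z⁻¹ ∈ A` commutes with the partial commutator: the value is `1`.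
Apply `loc_of_type`. -/

namespace SA

open scoped commutatorElement

variable {G H : Type} [Group G] [Group H]

private theorem chinl_fold_map {m : ℕ} {K : Type} [Group K] (φ : H →* K)
    (x : Fin (m + 1) → H) (z : Fin (m + 1) × Fin (m + 1) → H)
    (l : List (Fin (m + 1) × Fin (m + 1))) (y : H) :
    φ (l.foldl (fun v p => ⁅v, z p * (x p.1 * (x p.2)⁻¹) * (z p)⁻¹⁆) y) =
      l.foldl (fun v p => ⁅v, φ (z p) * (φ (x p.1) * (φ (x p.2))⁻¹) * (φ (z p))⁻¹⁆) (φ y) := by
  induction l generalizing y with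
  | nil => rfl
  | cons p l ih =>
    rw [List.foldl_cons, List.foldl_cons, ih]
    congr 1
    simp only [commutatorElement_def, map_mul, map_inv]

private theorem chinl_map {m : ℕ} {K : Type} [Group K] (φ : H →* K) (y : H)
    (x : Fin (m + 1) → H) (z : Fin (m + 1) × Fin (m + 1) → H) :
    φ (chin y x z) = chin (φ y) (fun i => φ (x i)) (fun p => φ (z p)) :=
  chinl_fold_map φ x z (prs m) y

private theorem chinl_one {m : ℕ} (x : Fin (m + 1) → H) (z : Fin (m + 1) × Fin (m + 1) → H)
    (l : List (Fin (m + 1) × Fin (m + 1))) :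
    l.foldl (fun v p => ⁅v, z p * (x p.1 * (x p.2)⁻¹) * (z p)⁻¹⁆) (1 : H) = 1 := by
  induction l with
  | nil => rfl
  | cons p l ih => rw [List.foldl_cons, commutatorElement_one_left, ih]

private theorem chinl_rep {m : ℕ} (x : Fin (m + 1) → H) (z : Fin (m + 1) × Fin (m + 1) → H)
    (l : List (Fin (m + 1) × Fin (m + 1))) (h : ∃ p ∈ l, x p.1 = x p.2) (y : H) :
    l.foldl (fun v p => ⁅v, z p * (x p.1 * (x p.2)⁻¹) * (z p)⁻¹⁆) y = 1 := by
  induction l generalizing y with
  | nil =>
    obtain ⟨p, hp, _⟩ := h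
    exact absurd hp List.not_mem_nil
  | cons p l ih =>
    rw [List.foldl_cons]
    by_cases hp : x p.1 = x p.2
    · have h2 : ⁅y, z p * (x p.1 * (x p.2)⁻¹) * (z p)⁻¹⁆ = 1 := by
        rw [hp, mul_inv_cancel, mul_one, mul_inv_cancel, commutatorElement_one_right]
      rw [h2, chinl_one]
    · apply ih
      obtain ⟨q, hq, hqA⟩ := h
      rcases List.mem_cons.mp hq with rfl | hq
      · exact absurd hqA hp
      · exact ⟨q, hq, hqA⟩

private theorem chinl_fold {m : ℕ} (A : Subgroup H) [hn : A.Normal]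
    (hA : ∀ a ∈ A, ∀ b ∈ A, a * b = b * a) (x : Fin (m + 1) → H)
    (z : Fin (m + 1) × Fin (m + 1) → H) (l : List (Fin (m + 1) × Fin (m + 1)))
    (h : ∃ p ∈ l, x p.1 * (x p.2)⁻¹ ∈ A) (y : H) (hy : y ∈ A) :
    l.foldl (fun v p => ⁅v, z p * (x p.1 * (x p.2)⁻¹) * (z p)⁻¹⁆) y = 1 := by
  induction l generalizing y with
  | nil =>
    obtain ⟨p, hp, _⟩ := h
    exact absurd hp List.not_mem_nil
  | cons p l ih =>
    rw [List.foldl_cons]
    by_cases hp : x p.1 * (x p.2)⁻¹ ∈ A
    · have h1 : z p * (x p.1 * (x p.2)⁻¹) * (z p)⁻¹ ∈ A := hn.conj_mem _ hp _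
      have h2 : ⁅y, z p * (x p.1 * (x p.2)⁻¹) * (z p)⁻¹⁆ = 1 :=
        commutatorElement_eq_one_iff_mul_comm.mpr (hA _ hy _ h1)
      rw [h2, chinl_one]
    · apply ih
      · obtain ⟨q, hq, hqA⟩ := h
        rcases List.mem_cons.mp hq with rfl | hq
        · exact absurd hqA hp
        · exact ⟨q, hq, hqA⟩
      · rw [commutatorElement_def]
        have h3 := hn.conj_mem _ (A.inv_mem hy) (z p * (x p.1 * (x p.2)⁻¹) * (z p)⁻¹)
        have h4 := A.mul_mem hy h3
        simpa only [mul_assoc] using h4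

private theorem chinl_pigeon (A : Subgroup G) [A.Normal] [A.FiniteIndex] {m : ℕ}
    (hm : A.index = m) (x : Fin (m + 1) → G ⧸ A) : ∃ p ∈ prs m, x p.1 = x p.2 := by
  have : Finite (G ⧸ A) := A.finite_quotient_of_finiteIndex
  have hc : Nat.card (G ⧸ A) = m := hm
  have : Fintype (G ⧸ A) := Fintype.ofFinite _
  obtain ⟨i, j, hij, h⟩ := Fintype.exists_ne_map_eq_of_card_lt x (by
    rw [Fintype.card_fin, ← Nat.card_eq_fintype_card, hc]
    exact Nat.lt_succ_self m)
  rcases lt_or_gt_of_ne hij with h1 | h1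
  · exact ⟨(i, j), mem_prs.mpr h1, h⟩
  · exact ⟨(j, i), mem_prs.mpr h1, h.symm⟩

theorem chin_mem_ver (A : Subgroup G) [A.Normal] [A.FiniteIndex] {n0 m : ℕ} (hm : A.index = m)
    (hn0 : 1 + (m + 1) + (m + 1) * (m + 1) ≤ n0) (y : H) (x : Fin (m + 1) → H)
    (z : Fin (m + 1) × Fin (m + 1) → H) : chin y x z ∈ ver n0 (G ⧸ A) H := by
  classical
  let α : Type := Unit ⊕ (Fin (m + 1) ⊕ (Fin (m + 1) × Fin (m + 1)))
  let w0 : FreeGroup α := chin (FreeGroup.of (Sum.inl ()))
    (fun i => FreeGroup.of (Sum.inr (Sum.inl i))) (fun p => FreeGroup.of (Sum.inr (Sum.inr p)))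
  have hlift : ∀ {K : Type} [Group K] (f : α → K), FreeGroup.lift f w0 =
      chin (f (Sum.inl ())) (fun i => f (Sum.inr (Sum.inl i)))
        (fun p => f (Sum.inr (Sum.inr p))) := by
    intro K _ f
    simp only [w0]
    rw [chinl_map]
    simp only [FreeGroup.lift_apply_of]
  have hcard : Fintype.card α ≤ Fintype.card (Fin n0) := by
    simp only [α, Fintype.card_sum, Fintype.card_prod, Fintype.card_fin, Fintype.card_unit]
    omega
  obtain ⟨ι⟩ := Function.Embedding.nonempty_of_card_le hcard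
  have hlaw : FreeGroup.map ι w0 ∈ LawN n0 (G ⧸ A) := by
    intro f
    have h1 : FreeGroup.lift f (FreeGroup.map ι w0) = FreeGroup.lift (fun a => f (ι a)) w0 := by
      have h2 : (FreeGroup.lift f).comp (FreeGroup.map ι) = FreeGroup.lift (fun a => f (ι a)) := by
        apply FreeGroup.ext_hom
        intro a
        simp
      exact DFunLike.congr_fun h2 w0
    rw [h1, hlift]
    have h3 := chinl_pigeon A hm (fun i => f (ι (Sum.inr (Sum.inl i))))
    exact chinl_rep (fun i => f (ι (Sum.inr (Sum.inl i)))) (fun p => f (ι (Sum.inr (Sum.inr p))))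
      (prs m) h3 _
  have hval := mem_ver hlaw (Function.extend ι (Sum.elim (fun _ => y) (Sum.elim x z)) fun _ => 1)
  have h1 : FreeGroup.lift
      (Function.extend ι (Sum.elim (fun _ => y) (Sum.elim x z)) fun _ => (1 : H))
      (FreeGroup.map ι w0) = chin y x z := by
    have h2 : (FreeGroup.lift
        (Function.extend ι (Sum.elim (fun _ => y) (Sum.elim x z)) fun _ => (1 : H))).comp
        (FreeGroup.map ι) = FreeGroup.lift (Sum.elim (fun _ => y) (Sum.elim x z)) := by
      apply FreeGroup.ext_hom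
      intro a
      simp [ι.injective.extend_apply]
    have h3 := DFunLike.congr_fun h2 w0
    rw [hlift] at h3
    exact h3
  rw [h1] at hval
  exact hval

theorem chin_eq_one (A : Subgroup G) [A.Normal] [A.FiniteIndex]
    (hA : ∀ a ∈ A, ∀ b ∈ A, a * b = b * a) {n0 n m : ℕ} (hm : A.index = m)
    (hn : n0 + (m + 1) + (m + 1) * (m + 1) ≤ n) (hL : Loc n G H) {w : FreeGroup (Fin n0)}
    (hw : w ∈ LawN n0 (G ⧸ A)) (f : Fin n0 → H) (x : Fin (m + 1) → H)
    (z : Fin (m + 1) × Fin (m + 1) → H) : chin (FreeGroup.lift f w) x z = 1 := by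
  classical
  let α : Type := Fin n0 ⊕ (Fin (m + 1) ⊕ (Fin (m + 1) × Fin (m + 1)))
  let w1 : FreeGroup α := chin (FreeGroup.map Sum.inl w)
    (fun i => FreeGroup.of (Sum.inr (Sum.inl i))) (fun p => FreeGroup.of (Sum.inr (Sum.inr p)))
  have hlift : ∀ {K : Type} [Group K] (g : α → K), FreeGroup.lift g w1 =
      chin (FreeGroup.lift (fun a => g (Sum.inl a)) w) (fun i => g (Sum.inr (Sum.inl i)))
        (fun p => g (Sum.inr (Sum.inr p))) := by
    intro K _ g
    simp only [w1]
    rw [chinl_map]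
    simp only [FreeGroup.lift_apply_of]
    congr 1
    have h2 : (FreeGroup.lift g).comp (FreeGroup.map Sum.inl) =
        FreeGroup.lift (fun a => g (Sum.inl a)) := by
      apply FreeGroup.ext_hom
      intro a
      simp
    exact DFunLike.congr_fun h2 w
  have hcard : Nat.card α ≤ n := by
    rw [Nat.card_eq_fintype_card]
    simp only [α, Fintype.card_sum, Fintype.card_prod, Fintype.card_fin]
    omega
  have hlaw : ∀ g : α → G, FreeGroup.lift g w1 = 1 := by
    intro g
    rw [hlift]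
    have hwA : FreeGroup.lift (fun a => g (Sum.inl a)) w ∈ A := by
      rw [← QuotientGroup.eq_one_iff]
      have h1 := hw (fun a => (QuotientGroup.mk' A) (g (Sum.inl a)))
      have h2 : (QuotientGroup.mk' A).comp (FreeGroup.lift (fun a => g (Sum.inl a))) =
          FreeGroup.lift (fun a => (QuotientGroup.mk' A) (g (Sum.inl a))) := by
        apply FreeGroup.ext_hom
        intro a
        simp
      have h3 := DFunLike.congr_fun h2 w
      rw [h1] at h3
      exact h3
    obtain ⟨p, hp, hpx⟩ := chinl_pigeon A hm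
      (fun i => (QuotientGroup.mk' A) (g (Sum.inr (Sum.inl i))))
    refine chinl_fold A hA (fun i => g (Sum.inr (Sum.inl i))) (fun p => g (Sum.inr (Sum.inr p)))
      (prs m) ⟨p, hp, ?_⟩ _ hwA
    rw [← QuotientGroup.eq_one_iff]
    have h4 : (QuotientGroup.mk' A) (g (Sum.inr (Sum.inl p.1)) * (g (Sum.inr (Sum.inl p.2)))⁻¹) =
        1 := by
      rw [map_mul, map_inv]
      rw [hpx, mul_inv_cancel]
    exact h4
  have hval := loc_of_type (α := α) hcard hL w1 hlaw (Sum.elim f (Sum.elim x z))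
  rw [hlift] at hval
  exact hval

end SA
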