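import Pool.Agent.SA.Av

/-! MODULE SA-ClA: an element moved by `C'` and fixed by `C` is moved by `C' ⊓ K0` if `K0 ⊔ C = ⊤`.
Plan. `V0 = V ⊓ K0`, `D = C' ⊓ K0`; `D` normalizes `V0`. Let `e0` be the operator of `exists_avg` for `V0`, `D` and
`e` the one for `V`, `C'`. `u = e0 p ∈ V0`. `u` is fixed by `D` (`fix`). `u` is fixed by `C`: the subgroup
`B = {y | ∀ c ∈ C, c * y * c⁻¹ = y}` (centralizer of `C`) is normalized by every element (`C` normal), contains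
`p`, so contains `u` (`inv`). `C' = (C' ⊓ K0) ⊔ C` (Dedekind: `c' = k * c`, `k ∈ K0`, `c ∈ C ≤ C'`, `k ∈ C'`;
`Subgroup.mem_sup_of_normal_right`), so `u` is fixed by `C'` and `e u = u` (`id`). `p * u⁻¹ ∈ ⁅V0, D⁆` (`cong` with
`B := ⁅V0, D⁆`) `≤ ⁅V, C'⁆`, so `u ∈ ⁅V, C'⁆` and `e u = 1` (`kill`). Hence `u = 1` and `p ∈ ⁅V0, D⁆`. -/

namespace SA

variable {H : Type} [Group H]

theorem claim_a [Finite H] {q : ℕ} (hq : q.Prime) (hab : QAb q H) (V C C' K0 : Subgroup H)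
    [V.Normal] [C.Normal] [C'.Normal] (hV : IsPGroup q V) (hCC : C ≤ C') (hK : K0 ⊔ C = ⊤)
    (p : H) (hp : p ∈ V) (hp0 : p ∈ K0) (hfix : ∀ c ∈ C, c * p * c⁻¹ = p)
    (hmov : p ∈ ⁅V, C'⁆) : p ∈ ⁅V ⊓ K0, C' ⊓ K0⁆ := by
  obtain ⟨e0, h0⟩ := exists_avg hq hab (V ⊓ K0) (C' ⊓ K0) (hV.to_le inf_le_left)
    (fun c hc v hv => ⟨Subgroup.Normal.conj_mem inferInstance v hv.1 c,
      K0.mul_mem (K0.mul_mem hc.2 hv.2) (K0.inv_mem hc.2)⟩)
  obtain ⟨e, h⟩ := exists_avg hq hab V C' hV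
    (fun c _ v hv => Subgroup.Normal.conj_mem inferInstance v hv c)
  have hpV0 : p ∈ V ⊓ K0 := ⟨hp, hp0⟩
  have hu : e0 p ∈ V ⊓ K0 := h0.mem p hpV0
  -- the centralizer of `C`
  have hB : ∀ c ∈ C' ⊓ K0, ∀ b ∈ Subgroup.centralizer (C : Set H),
      c * b * c⁻¹ ∈ Subgroup.centralizer (C : Set H) := by
    intro g _ b hb
    rw [Subgroup.mem_centralizer_iff] at hb ⊢
    intro c hc
    have h1 : g⁻¹ * c * g ∈ C := by
      have := Subgroup.Normal.conj_mem (inferInstance : C.Normal) c hc g⁻¹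
      rwa [inv_inv] at this
    have h2 := hb _ h1
    calc c * (g * b * g⁻¹) = g * ((g⁻¹ * c * g) * b) * g⁻¹ := by group
      _ = g * (b * (g⁻¹ * c * g)) * g⁻¹ := by rw [h2]
      _ = g * b * g⁻¹ * c := by group
  have hpB : p ∈ Subgroup.centralizer (C : Set H) := by
    rw [Subgroup.mem_centralizer_iff]
    intro c hc
    have h1 := hfix c hc
    calc c * p = c * p * c⁻¹ * c := by group
      _ = p * c := by rw [h1]
  have huB := h0.inv _ hB p hpV0 hpB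
  rw [Subgroup.mem_centralizer_iff] at huB
  -- `u` is fixed by `C'`
  have hfixu : ∀ c ∈ C', c * e0 p * c⁻¹ = e0 p := by
    intro c' hc'
    have h1 : c' ∈ K0 ⊔ C := by
      rw [hK]
      trivial
    obtain ⟨k, hk, c, hc, rfl⟩ := Subgroup.mem_sup_of_normal_right.mp h1
    have hkC : k ∈ C' := by
      have := C'.mul_mem hc' (C'.inv_mem (hCC hc))
      rwa [mul_inv_cancel_right] at this
    have h2 := h0.fix p hpV0 k ⟨hkC, hk⟩
    have h3 := huB c hc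
    calc k * c * e0 p * (k * c)⁻¹ = k * (c * e0 p) * c⁻¹ * k⁻¹ := by group
      _ = k * (e0 p * c) * c⁻¹ * k⁻¹ := by rw [h3]
      _ = k * e0 p * k⁻¹ := by group
      _ = e0 p := h2
  have h1 : e (e0 p) = e0 p := h.id _ hu.1 hfixu
  have h2 : p * (e0 p)⁻¹ ∈ ⁅V ⊓ K0, C' ⊓ K0⁆ := by
    refine h0.cong _ p hpV0 fun c hc => ?_
    have h3 := Subgroup.commutator_mem_commutator hc hpV0
    rw [Subgroup.commutator_comm, commutatorElement_def] at h3
    exact h3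
  have h4 : p * (e0 p)⁻¹ ∈ ⁅V, C'⁆ := Subgroup.commutator_mono inf_le_left inf_le_left h2
  have h5 : e0 p ∈ ⁅V, C'⁆ := by
    have h6 := Subgroup.mul_mem _ (Subgroup.inv_mem _ h4) hmov
    have h7 : (p * (e0 p)⁻¹)⁻¹ * p = e0 p := by group
    rwa [h7] at h6
  have h8 : e0 p = 1 := by
    rw [← h1]
    exact h.kill _ h5
  rw [h8, inv_one, mul_one] at h2
  exact h2


end SA
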