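import Pool.Agent.SA.ClA

/-! MODULE SA-ClB: SA-ClA modulo `A`.
`claim_a` is applied in `H ⧸ A` to the images of `F`, `C`, `C'`, `H0` and `p`; the intersections of the
images are the images of the intersections because `F` and `C'` contain `A`. -/

namespace SA

variable {H : Type} [Group H]

private theorem clb_inf (A X K : Subgroup H) [A.Normal] (hA : A ≤ X) :
    X.map (QuotientGroup.mk' A) ⊓ K.map (QuotientGroup.mk' A) ≤
      (X ⊓ K).map (QuotientGroup.mk' A) := by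
  rintro y ⟨⟨x, hx, hxy⟩, ⟨k, hk, hky⟩⟩
  refine ⟨k, ⟨?_, hk⟩, hky⟩
  have h1 : x⁻¹ * k ∈ A := by
    rw [← QuotientGroup.eq_one_iff]
    have h2 : QuotientGroup.mk' A (x⁻¹ * k) = 1 := by
      rw [map_mul, map_inv, hxy, hky, inv_mul_cancel]
    exact h2
  have h3 := X.mul_mem hx (hA h1)
  rwa [mul_inv_cancel_left] at h3

theorem claim_b [Finite H] {q : ℕ} (hq : q.Prime) (A F : Subgroup H) [A.Normal] [F.Normal]
    (hAF : A ≤ F) (hF : IsPGroup q F) (hab : QAb q (H ⧸ A)) (C C' H0 : Subgroup H) [C.Normal]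
    [C'.Normal] (hFC : F ≤ C) (hCC : C ≤ C') (hH : H0 ⊔ C = ⊤) (p : H) (hp : p ∈ F)
    (hp0 : p ∈ H0) (hfix : ∀ c ∈ C, p * c * p⁻¹ * c⁻¹ ∈ A) (hmov : p ∈ ⁅F, C'⁆ ⊔ A) :
    p ∈ ⁅F ⊓ H0, C' ⊓ H0⁆ ⊔ (A ⊓ H0) := by
  have hs : Function.Surjective (QuotientGroup.mk' A) := QuotientGroup.mk'_surjective A
  have n1 : (F.map (QuotientGroup.mk' A)).Normal := Subgroup.Normal.map ‹F.Normal› _ hs
  have n2 : (C.map (QuotientGroup.mk' A)).Normal := Subgroup.Normal.map ‹C.Normal› _ hs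
  have n3 : (C'.map (QuotientGroup.mk' A)).Normal := Subgroup.Normal.map ‹C'.Normal› _ hs
  have hK : H0.map (QuotientGroup.mk' A) ⊔ C.map (QuotientGroup.mk' A) = ⊤ := by
    rw [← Subgroup.map_sup, hH, Subgroup.map_top_of_surjective _ hs]
  have hfix' : ∀ c ∈ C.map (QuotientGroup.mk' A),
      c * QuotientGroup.mk' A p * c⁻¹ = QuotientGroup.mk' A p := by
    rintro _ ⟨c, hc, rfl⟩
    have h1 : QuotientGroup.mk' A (p * c * p⁻¹ * c⁻¹) = 1 :=
      (QuotientGroup.eq_one_iff _).2 (hfix c hc)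
    rw [map_mul, map_mul, map_mul, map_inv, map_inv, mul_inv_eq_one, mul_inv_eq_iff_eq_mul] at h1
    rw [mul_inv_eq_iff_eq_mul, h1]
  have hmov' : QuotientGroup.mk' A p ∈
      ⁅F.map (QuotientGroup.mk' A), C'.map (QuotientGroup.mk' A)⁆ := by
    have h1 : QuotientGroup.mk' A p ∈ (⁅F, C'⁆ ⊔ A).map (QuotientGroup.mk' A) :=
      Subgroup.mem_map_of_mem _ hmov
    rw [Subgroup.map_sup, Subgroup.map_commutator, QuotientGroup.map_mk'_self, sup_bot_eq] at h1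
    exact h1
  have h1 := claim_a hq hab (F.map (QuotientGroup.mk' A)) (C.map (QuotientGroup.mk' A))
    (C'.map (QuotientGroup.mk' A)) (H0.map (QuotientGroup.mk' A)) (hF.map _)
    (Subgroup.map_mono hCC) hK (QuotientGroup.mk' A p) (Subgroup.mem_map_of_mem _ hp)
    (Subgroup.mem_map_of_mem _ hp0) hfix' hmov'
  have h2 : QuotientGroup.mk' A p ∈ (⁅F ⊓ H0, C' ⊓ H0⁆).map (QuotientGroup.mk' A) := by
    rw [Subgroup.map_commutator]
    exact Subgroup.commutator_mono (clb_inf A F H0 hAF)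
      (clb_inf A C' H0 (hAF.trans (hFC.trans hCC))) h1
  obtain ⟨y, hy, hyp⟩ := h2
  have hy0 : y ∈ H0 := by
    have h3 : ⁅F ⊓ H0, C' ⊓ H0⁆ ≤ H0 := by
      rw [Subgroup.commutator_le]
      intro a ha b hb
      rw [commutatorElement_def]
      exact H0.mul_mem (H0.mul_mem (H0.mul_mem ha.2 hb.2) (H0.inv_mem ha.2)) (H0.inv_mem hb.2)
    exact h3 hy
  have h4 : y⁻¹ * p ∈ A := by
    rw [← QuotientGroup.eq_one_iff]
    have h5 : QuotientGroup.mk' A (y⁻¹ * p) = 1 := by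
      rw [map_mul, map_inv, hyp, inv_mul_cancel]
    exact h5
  have h6 := Subgroup.mul_mem_sup hy
    (show y⁻¹ * p ∈ A ⊓ H0 from ⟨h4, H0.mul_mem (H0.inv_mem hy0) hp0⟩)
  rwa [mul_inv_cancel_left] at h6

end SA
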