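import Pool.Agent.SA.Av

/-! MODULE SA-Cnt: elements with different exact kernels are independent.
Plan. Suppose `π (x k) ≠ 1` for all `k`. Then `T ↦ ∏ k ∈ T, π (x k)` (`V` is abelian; e.g. work in the
commutative group `V` and apply `π`) is injective on `Finset (Fin t)`, so `2 ^ t ≤ Nat.card Q'`, contradiction.
Injectivity: let `T ≠ T'` have the same image. Let `Δ` be the symmetric difference, `k ∈ Δ` with `P k`
minimal in `P '' Δ`: for `i ∈ Δ`, `i ≠ k`: not `P i ≤ P k`, so `x k ∈ ⁅V, c i ⊔ c k⁆`. The element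
`y = ∏_{T} x * (∏_{T'} x)⁻¹ = x k ^ (±1) * ∏_{i ∈ Δ, i ≠ k} x i ^ (±1)` is in `B = V ⊓ ker π`. Apply the composite `Φ` of
`e_(c k)` and then the maps `u ↦ u * (e_(c i ⊔ c k) u)⁻¹`, `i ∈ Δ`, `i ≠ k` (operators of `exists_avg`; all groups
involved are `≤ N` and normalize everything): homomorphisms `V → V` preserving `B` (`inv`).
`Φ (x k) = x k` (`id`, `kill`). `Φ (x i) = 1` for the other `i ∈ Δ`: `u = e_(c k) (x i)` is fixed by `c k` (`fix`) and
by `c i` (`conj`, `hfix`), so by `c i ⊔ c k`, this is preserved by the maps (`conj`), and the map for `i` sends it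
to `1` (`id`). So `x k ^ (±1) ∈ B`, `π (x k) = 1`, contradiction. -/

namespace SA

variable {H : Type} [Group H]

/-- the operators used in the proof of `count` -/
private structure CntOp (N V B ck : Subgroup H) (Φ : H → H) : Prop where
  mem : ∀ v ∈ V, Φ v ∈ V
  mul : ∀ v ∈ V, ∀ w ∈ V, Φ (v * w) = Φ v * Φ w
  inv : ∀ v ∈ V, v ∈ B → Φ v ∈ B
  conj : ∀ g ∈ N, ∀ v ∈ V, Φ (g * v * g⁻¹) = g * Φ v * g⁻¹
  fix : ∀ v ∈ V, ∀ g ∈ ck, g * Φ v * g⁻¹ = Φ v

private theorem cnt_one {V : Subgroup H} {e : H → H} (he : ∀ v ∈ V, ∀ w ∈ V, e (v * w) = e v * e w) :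
    e 1 = 1 := by
  have h := he 1 V.one_mem 1 V.one_mem
  rw [mul_one] at h
  exact (mul_eq_left (a := e 1)).1 h.symm

private theorem cnt_op [Finite H] {q : ℕ} (hq : q.Prime) (hab : QAb q H) (N V : Subgroup H)
    (hV : IsPGroup q V) (nV : Nrm N V) {t : ℕ} (c : Fin t → Subgroup H) (hcN : ∀ k, c k ≤ N)
    (nc : ∀ k, Nrm N (c k)) (x : Fin t → H) (hx : ∀ k, x k ∈ V)
    (hfix : ∀ k, ∀ g ∈ c k, g * x k * g⁻¹ = x k) (B : Subgroup H) (hB : B.Normal) (k : Fin t)
    (S : Finset (Fin t)) (hmov : ∀ i ∈ S, x k ∈ ⁅V, c i ⊔ c k⁆) :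
    ∃ Φ : H → H, CntOp N V B (c k) Φ ∧ Φ (x k) = x k ∧ ∀ i ∈ S, Φ (x i) = 1 := by
  classical
  induction S using Finset.induction_on with
  | empty =>
    obtain ⟨e, he⟩ := exists_avg hq hab V (c k) hV fun g hg v hv => nV g (hcN k hg) v hv
    refine ⟨e, ⟨he.mem, he.mul, ?_, ?_, he.fix⟩, he.id _ (hx k) (hfix k), ?_⟩
    · intro v hv hvB
      exact he.inv B (fun g _ b hb => hB.conj_mem b hb g) v hv hvB
    · intro g hg v hv
      exact he.conj g (nc k g hg) (nV g hg) v hv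
    · intro i hi
      exact absurd hi (Finset.notMem_empty i)
  | insert i S hiS ih =>
    obtain ⟨Φ, hΦ, hk, hS⟩ := ih fun j hj => hmov j (Finset.mem_insert_of_mem hj)
    have hCN : c i ⊔ c k ≤ N := sup_le (hcN i) (hcN k)
    have nC : Nrm N (c i ⊔ c k) := by
      intro g hg
      have h1 : c i ⊔ c k ≤ (c i ⊔ c k).comap (MulAut.conj g).toMonoidHom := by
        refine sup_le ?_ ?_
        · intro y hy
          exact (le_sup_left : c i ≤ c i ⊔ c k) (nc i g hg y hy)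
        · intro y hy
          exact (le_sup_right : c k ≤ c i ⊔ c k) (nc k g hg y hy)
      intro y hy
      exact h1 hy
    obtain ⟨e, he⟩ := exists_avg hq hab V (c i ⊔ c k) hV fun g hg v hv => nV g (hCN hg) v hv
    have hcomm : ∀ v ∈ V, ∀ w ∈ V, v * w = w * v := hab V hV
    have hfk : ∀ g ∈ c i ⊔ c k, g * Φ (x i) * g⁻¹ = Φ (x i) := by
      have h1 : c i ⊔ c k ≤ Subgroup.centralizer {Φ (x i)} := by
        refine sup_le ?_ ?_
        · intro g hg
          rw [Subgroup.mem_centralizer_singleton_iff]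
          have h2 : g * Φ (x i) * g⁻¹ = Φ (x i) := by
            rw [← hΦ.conj g (hcN i hg) _ (hx i), hfix i g hg]
          exact mul_inv_eq_iff_eq_mul.1 h2
        · intro g hg
          rw [Subgroup.mem_centralizer_singleton_iff]
          exact mul_inv_eq_iff_eq_mul.1 (hΦ.fix _ (hx i) g hg)
      intro g hg
      have h3 := Subgroup.mem_centralizer_singleton_iff.1 (h1 hg)
      exact mul_inv_eq_iff_eq_mul.2 h3
    refine ⟨fun v => Φ v * (e (Φ v))⁻¹, ⟨?_, ?_, ?_, ?_, ?_⟩, ?_, ?_⟩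
    · intro v hv
      exact V.mul_mem (hΦ.mem v hv) (V.inv_mem (he.mem _ (hΦ.mem v hv)))
    · intro v hv w hw
      have a1 := hΦ.mem v hv
      have a2 := hΦ.mem w hw
      have a3 := he.mem _ a1
      have a4 := he.mem _ a2
      show Φ (v * w) * (e (Φ (v * w)))⁻¹ = Φ v * (e (Φ v))⁻¹ * (Φ w * (e (Φ w))⁻¹)
      rw [hΦ.mul v hv w hw, he.mul _ a1 _ a2, mul_inv_rev]
      have h2 : Φ v * Φ w * ((e (Φ w))⁻¹ * (e (Φ v))⁻¹) =
          Φ v * (Φ w * (e (Φ w))⁻¹ * (e (Φ v))⁻¹) := by group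
      have h3 : Φ w * (e (Φ w))⁻¹ * (e (Φ v))⁻¹ = (e (Φ v))⁻¹ * (Φ w * (e (Φ w))⁻¹) :=
        hcomm _ (V.mul_mem a2 (V.inv_mem a4)) _ (V.inv_mem a3)
      rw [h2, h3, mul_assoc]
    · intro v hv hvB
      have a1 := hΦ.inv v hv hvB
      exact B.mul_mem a1 (B.inv_mem
        (he.inv B (fun g _ b hb => hB.conj_mem b hb g) _ (hΦ.mem v hv) a1))
    · intro g hg v hv
      show Φ (g * v * g⁻¹) * (e (Φ (g * v * g⁻¹)))⁻¹ = g * (Φ v * (e (Φ v))⁻¹) * g⁻¹
      rw [hΦ.conj g hg v hv, he.conj g (nC g hg) (nV g hg) _ (hΦ.mem v hv)]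
      group
    · intro v hv g hg
      have a1 := hΦ.fix v hv g hg
      have a2 := he.fix _ (hΦ.mem v hv) g ((le_sup_right : c k ≤ c i ⊔ c k) hg)
      show g * (Φ v * (e (Φ v))⁻¹) * g⁻¹ = Φ v * (e (Φ v))⁻¹
      have h2 : g * (Φ v * (e (Φ v))⁻¹) * g⁻¹ = (g * Φ v * g⁻¹) * (g * e (Φ v) * g⁻¹)⁻¹ := by
        group
      rw [h2, a1, a2]
    · show Φ (x k) * (e (Φ (x k)))⁻¹ = x k
      rw [hk, he.kill _ (hmov i (Finset.mem_insert_self i S)), inv_one, mul_one]
    · intro j hj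
      show Φ (x j) * (e (Φ (x j)))⁻¹ = 1
      rcases Finset.mem_insert.1 hj with rfl | hj
      · rw [he.id _ (hΦ.mem _ (hx j)) hfk, mul_inv_cancel]
      · rw [hS j hj, cnt_one he.mul, inv_one, mul_one]

theorem count [Finite H] {q : ℕ} (hq : q.Prime) (hab : QAb q H) (N V : Subgroup H)
    (hV : IsPGroup q V) (nV : Nrm N V) {t : ℕ} (c : Fin t → Subgroup H) (hcN : ∀ k, c k ≤ N)
    (nc : ∀ k, Nrm N (c k)) {X : Type} [PartialOrder X] (P : Fin t → X)
    (hP : Function.Injective P) (x : Fin t → H) (hx : ∀ k, x k ∈ V)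
    (hfix : ∀ k, ∀ g ∈ c k, g * x k * g⁻¹ = x k)
    (hmov : ∀ i k, ¬ P i ≤ P k → x k ∈ ⁅V, c i ⊔ c k⁆) {Q' : Type} [Group Q'] [Finite Q']
    (π : H →* Q') (hcard : Nat.card Q' < 2 ^ t) : ∃ k, π (x k) = 1 := by
  classical
  let iV : CommGroup V :=
    { (inferInstance : Group V) with
      mul_comm := fun a b => Subtype.ext (hab V hV a a.2 b b.2) }
  let xv : Fin t → V := fun k => ⟨x k, hx k⟩
  let ψ : V →* Q' := π.comp V.subtype
  have hninj : ¬ Function.Injective (fun T : Finset (Fin t) => ψ (∏ k ∈ T, xv k)) := by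
    intro hinj
    have h1 := Nat.card_le_card_of_injective _ hinj
    rw [Nat.card_eq_fintype_card, Fintype.card_finset, Fintype.card_fin] at h1
    omega
  rw [Function.not_injective_iff] at hninj
  obtain ⟨T, T', hTT, hne⟩ := hninj
  let z : Fin t → ℤ := fun k => (if k ∈ T then 1 else 0) - (if k ∈ T' then 1 else 0)
  have hprod : ∀ U : Finset (Fin t), ∏ k ∈ U, xv k = ∏ k, xv k ^ (if k ∈ U then (1 : ℤ) else 0) := by
    intro U
    rw [← Finset.prod_subset (Finset.subset_univ U)]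
    · refine Finset.prod_congr rfl fun k hk => ?_
      rw [if_pos hk, zpow_one]
    · intro k _ hk
      rw [if_neg hk, zpow_zero]
  have hY : ψ (∏ k, xv k ^ z k) = 1 := by
    have h1 : ∏ k, xv k ^ z k = (∏ k ∈ T, xv k) * (∏ k ∈ T', xv k)⁻¹ := by
      rw [hprod T, hprod T', ← Finset.prod_inv_distrib, ← Finset.prod_mul_distrib]
      refine Finset.prod_congr rfl fun k _ => ?_
      rw [← zpow_neg, ← zpow_add, ← sub_eq_add_neg]
    rw [h1, map_mul, map_inv]
    exact mul_inv_eq_one.2 hTT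
  let Δ : Finset (Fin t) := Finset.univ.filter fun k => z k ≠ 0
  have hΔ : Δ.Nonempty := by
    by_contra hcon
    rw [Finset.not_nonempty_iff_eq_empty, Finset.filter_eq_empty_iff] at hcon
    apply hne
    ext k
    have h1 : z k = 0 := not_not.1 (hcon (Finset.mem_univ k))
    have h2 : (if k ∈ T then (1 : ℤ) else 0) - (if k ∈ T' then 1 else 0) = 0 := h1
    constructor
    · intro hk
      by_contra hk'
      rw [if_pos hk, if_neg hk'] at h2
      omega
    · intro hk'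
      by_contra hk
      rw [if_neg hk, if_pos hk'] at h2
      omega
  obtain ⟨k, hk⟩ := Finset.exists_minimalFor P Δ hΔ
  have hkΔ : z k ≠ 0 := (Finset.mem_filter.1 hk.1).2
  have hmv : ∀ i ∈ Δ.erase k, x k ∈ ⁅V, c i ⊔ c k⁆ := by
    intro i hi
    have hi' := Finset.mem_erase.1 hi
    refine hmov i k fun hle => hi'.1 (hP (le_antisymm hle (hk.2 hi'.2 hle)))
  obtain ⟨Φ, hΦ, hΦk, hΦ0⟩ := cnt_op hq hab N V hV nV c hcN nc x hx hfix π.ker
    inferInstance k (Δ.erase k) hmv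
  let φ : V →* V :=
    { toFun := fun v => ⟨Φ v, hΦ.mem v v.2⟩
      map_one' := Subtype.ext (cnt_one hΦ.mul)
      map_mul' := fun a b => Subtype.ext (hΦ.mul a a.2 b b.2) }
  have h1 : φ (∏ j, xv j ^ z j) = xv k ^ z k := by
    rw [map_prod, Finset.prod_eq_single k]
    · rw [map_zpow]
      have h2 : φ (xv k) = xv k := Subtype.ext hΦk
      rw [h2]
    · intro j _ hj
      rw [map_zpow]
      by_cases hz : z j = 0
      · rw [hz, zpow_zero]
      · have h3 : j ∈ Δ.erase k := Finset.mem_erase.2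
          ⟨hj, Finset.mem_filter.2 ⟨Finset.mem_univ j, hz⟩⟩
        have h4 : φ (xv j) = 1 := Subtype.ext (hΦ0 j h3)
        rw [h4, one_zpow]
    · intro h
      exact absurd (Finset.mem_univ k) h
  have h2 : ψ (φ (∏ j, xv j ^ z j)) = 1 := by
    have h3 : ((∏ j, xv j ^ z j : V) : H) ∈ π.ker := MonoidHom.mem_ker.2 hY
    exact MonoidHom.mem_ker.1 (hΦ.inv _ (∏ j, xv j ^ z j : V).2 h3)
  rw [h1, map_zpow] at h2
  have h5 : ψ (xv k) = π (x k) := rfl
  rw [h5] at h2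
  refine ⟨k, ?_⟩
  have h6 : (if k ∈ T then (1 : ℤ) else 0) - (if k ∈ T' then 1 else 0) = z k := rfl
  have h7 : z k = 1 ∨ z k = -1 := by
    split_ifs at h6 <;> omega
  rcases h7 with h7 | h7
  · rw [h7, zpow_one] at h2
    exact h2
  · rw [h7, zpow_neg, zpow_one] at h2
    exact inv_eq_one.1 h2

end SA
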