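import Pool.Agent.SA.Defs

/-! MODULE SA-ComA: from element commutators to commutator subgroups. The iterated commutator with a
fixed list of elements is multiplicative on an abelian normal subgroup. -/

namespace SA

open scoped commutatorElement

variable {H : Type} [Group H]

private theorem com_mem (A : Subgroup H) [hn : A.Normal] {x : H} (hx : x ∈ A) (p : H) :
    ⁅x, p⁆ ∈ A := by
  rw [commutatorElement_def, mul_assoc, mul_assoc, ← mul_assoc p]
  exact A.mul_mem hx (hn.conj_mem _ (A.inv_mem hx) p)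

private theorem com_mul (A : Subgroup H) [A.Normal] (hA : ∀ a ∈ A, ∀ b ∈ A, a * b = b * a)
    {x y : H} (hx : x ∈ A) (hy : y ∈ A) (p : H) : ⁅x * y, p⁆ = ⁅x, p⁆ * ⁅y, p⁆ := by
  have h1 : ⁅x * y, p⁆ = x * ⁅y, p⁆ * x⁻¹ * ⁅x, p⁆ := by
    simp only [commutatorElement_def]
    group
  have h2 := com_mem A hy p
  have h3 := com_mem A hx p
  rw [h1, hA x hx _ h2, mul_assoc _ x, mul_inv_cancel, mul_one]
  exact hA _ h2 _ h3

private theorem itc_cons (x p : H) (P : List H) : itc x (p :: P) = itc ⁅x, p⁆ P := rfl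

private theorem itc_mul (A : Subgroup H) [A.Normal] (hA : ∀ a ∈ A, ∀ b ∈ A, a * b = b * a)
    (P : List H) : ∀ {x y : H}, x ∈ A → y ∈ A → itc (x * y) P = itc x P * itc y P := by
  induction P with
  | nil => intro x y _ _; rfl
  | cons p P ih =>
    intro x y hx hy
    rw [itc_cons, itc_cons, itc_cons, com_mul A hA hx hy]
    exact ih (com_mem A hx p) (com_mem A hy p)

private theorem itc_one (P : List H) : itc (1 : H) P = 1 := by
  induction P with
  | nil => rfl
  | cons p P ih => rw [itc_cons, commutatorElement_one_left, ih]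

/-- elements of `A` killed by the iterated commutator with `P` -/
private def kerI (A : Subgroup H) [A.Normal] (hA : ∀ a ∈ A, ∀ b ∈ A, a * b = b * a)
    (P : List H) : Subgroup H where
  carrier := {y | y ∈ A ∧ itc y P = 1}
  one_mem' := ⟨A.one_mem, itc_one P⟩
  mul_mem' := by
    rintro x y ⟨hx, hx1⟩ ⟨hy, hy1⟩
    exact ⟨A.mul_mem hx hy, by rw [itc_mul A hA P hx hy, hx1, hy1, one_mul]⟩
  inv_mem' := by
    rintro x ⟨hx, hx1⟩
    refine ⟨A.inv_mem hx, ?_⟩
    have h := itc_mul A hA P hx (A.inv_mem hx)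
    rw [mul_inv_cancel, itc_one, hx1, one_mul] at h
    exact h.symm

private theorem fold_bot (A : Subgroup H) [A.Normal] (hA : ∀ a ∈ A, ∀ b ∈ A, a * b = b * a)
    (L : List (Subgroup H)) : ∀ X : Subgroup H, X ≤ A →
      (∀ x ∈ X, ∀ P : List H, List.Forall₂ (fun p M => p ∈ M) P L → itc x P = 1) →
      L.foldl (fun K M => ⁅K, M⁆) X = ⊥ := by
  induction L with
  | nil =>
    intro X _ h
    rw [List.foldl_nil, eq_bot_iff]
    intro x hx
    exact Subgroup.mem_bot.2 (h x hx [] List.Forall₂.nil)
  | cons M L ih =>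
    intro X hX h
    rw [List.foldl_cons]
    have h1 : ⁅X, M⁆ ≤ A :=
      (Subgroup.commutator_mono hX le_top).trans (Subgroup.commutator_le_left A ⊤)
    refine ih _ h1 fun x hx P hP => ?_
    have h2 : ⁅X, M⁆ ≤ kerI A hA P := by
      rw [Subgroup.commutator_le]
      intro g hg m hm
      exact ⟨h1 (Subgroup.commutator_mem_commutator hg hm),
        h g hg (m :: P) (List.Forall₂.cons hm hP)⟩
    exact (h2 hx).2

theorem lnc_eq_bot {t : ℕ} (A F : Subgroup H) [A.Normal]
    (hA : ∀ a ∈ A, ∀ b ∈ A, a * b = b * a) (hFF : ⁅F, F⁆ ≤ A) (N : Fin (t + 2) → Subgroup H)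
    (hNF : ∀ i, N i ≤ F)
    (hst : ∀ j : Fin t → Fin (t + 2), Function.Injective j →
      ∀ p : Fin t → H, (∀ k, p k ∈ N (j k)) → ∀ a ∈ A, itc a (List.ofFn p) = 1)
    (l : List (Fin (t + 2))) (hl : l.Perm (List.finRange (t + 2))) : lnc (l.map N) = ⊥ := by
  have hlen : l.length = t + 2 := by rw [hl.length_eq, List.length_finRange]
  have hnd : l.Nodup := hl.nodup_iff.2 (List.nodup_finRange _)
  match l, hlen, hnd with
  | a :: b :: r, hlen, hnd =>
    have hr : r.length = t := by
      rw [List.length_cons, List.length_cons] at hlen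
      omega
    have hndr : r.Nodup := (List.nodup_cons.1 (List.nodup_cons.1 hnd).2).2
    have h0 : lnc ((a :: b :: r).map N) =
        (r.map N).foldl (fun K M => ⁅K, M⁆) ⁅N a, N b⁆ := rfl
    rw [h0]
    have h1 : ⁅N a, N b⁆ ≤ A := (Subgroup.commutator_mono (hNF a) (hNF b)).trans hFF
    refine fold_bot A hA _ _ h1 fun x hx P hP => ?_
    have hPl : P.length = t := by rw [hP.length_eq, List.length_map, hr]
    have h2 := hst (fun k => r.get (Fin.cast hr.symm k))
      (fun k k' hk => by
        have := List.nodup_iff_injective_get.1 hndr hk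
        exact Fin.cast_injective _ this)
      (fun k => P.get (Fin.cast hPl.symm k))
      (fun k => by
        have h3 := hP.get (i := k) (by rw [hPl]; exact k.2) (by
          rw [List.length_map, hr]; exact k.2)
        simpa using h3) x (h1 hx)
    have h4 : List.ofFn (fun k : Fin t => P.get (Fin.cast hPl.symm k)) = P := by
      apply List.ext_getElem
      · rw [List.length_ofFn, hPl]
      · intro i h5 h6
        simp
    rwa [h4] at h2

end SA
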