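import Pool.Agent.SA.Defs

/-! MODULE SA-ComN: from element commutators to commutator subgroups, perfect case.
Plan. Compare SA-ComA (Pool/Agent/SA/ComA.lean, complete, on main). `l = a :: b :: (r1 ++ r2)`, `r1`, `r2` of length `t`, no
duplicates. `⁅K a, K b⁆ ≤ F` (`hc`); monotonicity of the fold and `hfold` with `j = r1`: the fold over `a :: b :: r1` is `≤ A`.
CLAIM: for a list `r` of indices and a normal subgroup `X ≤ A` such that `itc x [⁅y_1, y'_1⁆, .., ] = 1` for all `x ∈ X` and
`y_i, y'_i ∈ K (r_i)`, the fold of `r` from `X` is `⊥`. Induction on `r = c :: r'`: `K c = ⁅K c, K c⁆` is generated by the conjugation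
invariant set `S` of the `⁅y, y'⁆`, `y y' ∈ K c`, so the normal subgroup `⁅X, K c⁆` is generated by the `⁅x, g⁆`, `x ∈ X`, `g ∈ S`
(`⁅x, g g'⁆ = ⁅x, g⁆ * g ⁅x, g'⁆ g⁻¹` and `g ⁅x, g'⁆ g⁻¹ = ⁅g x g⁻¹, g g' g⁻¹⁆`; inverses similarly). `{z ∈ A | itc z [..] = 1}` (for all
choices of the remaining entries) is a subgroup (`itc` is multiplicative on `A`, abelian and normal), containing these
generators, so the induction hypothesis applies to `⁅X, K c⁆ ≤ A`. Apply it to `r2` and `hst` (`j` = entries of `r2`). -/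

namespace SA

open scoped commutatorElement

variable {H : Type} [Group H]

private theorem cn_com_mem (A : Subgroup H) [hn : A.Normal] {x : H} (hx : x ∈ A) (p : H) :
    ⁅x, p⁆ ∈ A := by
  rw [commutatorElement_def, mul_assoc, mul_assoc, ← mul_assoc p]
  exact A.mul_mem hx (hn.conj_mem _ (A.inv_mem hx) p)

private theorem cn_com_mul (A : Subgroup H) [A.Normal] (hA : ∀ a ∈ A, ∀ b ∈ A, a * b = b * a)
    {x y : H} (hx : x ∈ A) (hy : y ∈ A) (p : H) : ⁅x * y, p⁆ = ⁅x, p⁆ * ⁅y, p⁆ := by
  have h1 : ⁅x * y, p⁆ = x * ⁅y, p⁆ * x⁻¹ * ⁅x, p⁆ := by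
    simp only [commutatorElement_def]
    group
  have h2 := cn_com_mem A hy p
  have h3 := cn_com_mem A hx p
  rw [h1, hA x hx _ h2, mul_assoc _ x, mul_inv_cancel, mul_one]
  exact hA _ h2 _ h3

private theorem cn_itc_cons (x p : H) (P : List H) : itc x (p :: P) = itc ⁅x, p⁆ P := rfl

private theorem cn_itc_mul (A : Subgroup H) [A.Normal] (hA : ∀ a ∈ A, ∀ b ∈ A, a * b = b * a)
    (P : List H) : ∀ {x y : H}, x ∈ A → y ∈ A → itc (x * y) P = itc x P * itc y P := by
  induction P with
  | nil => intro x y _ _; rfl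
  | cons p P ih =>
    intro x y hx hy
    rw [cn_itc_cons, cn_itc_cons, cn_itc_cons, cn_com_mul A hA hx hy]
    exact ih (cn_com_mem A hx p) (cn_com_mem A hy p)

private theorem cn_itc_one (P : List H) : itc (1 : H) P = 1 := by
  induction P with
  | nil => rfl
  | cons p P ih => rw [cn_itc_cons, commutatorElement_one_left, ih]

/-- elements of `A` killed by the iterated commutator with `P` -/
private def cn_ker (A : Subgroup H) [A.Normal] (hA : ∀ a ∈ A, ∀ b ∈ A, a * b = b * a)
    (P : List H) : Subgroup H where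
  carrier := {y | y ∈ A ∧ itc y P = 1}
  one_mem' := ⟨A.one_mem, cn_itc_one P⟩
  mul_mem' := by
    rintro x y ⟨hx, hx1⟩ ⟨hy, hy1⟩
    exact ⟨A.mul_mem hx hy, by rw [cn_itc_mul A hA P hx hy, hx1, hy1, one_mul]⟩
  inv_mem' := by
    rintro x ⟨hx, hx1⟩
    refine ⟨A.inv_mem hx, ?_⟩
    have h := cn_itc_mul A hA P hx (A.inv_mem hx)
    rw [mul_inv_cancel, cn_itc_one, hx1, one_mul] at h
    exact h.symm

/-- a subgroup containing all `⁅g, ⁅y, y'⁆⁆` contains `⁅X, M⁆` for perfect `M` -/
private theorem cn_perf (X M Z : Subgroup H) [hXn : X.Normal] [hMn : M.Normal] (hM : ⁅M, M⁆ = M)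
    (h : ∀ g ∈ X, ∀ y ∈ M, ∀ y' ∈ M, ⁅g, ⁅y, y'⁆⁆ ∈ Z) : ⁅X, M⁆ ≤ Z := by
  have key : ∀ m ∈ ⁅M, M⁆, ∀ k g : H, g ∈ X → ⁅g, k * m * k⁻¹⁆ ∈ Z := by
    intro m hm
    rw [Subgroup.commutator_def] at hm
    induction hm using Subgroup.closure_induction with
    | mem x hx =>
      obtain ⟨y, hy, y', hy', rfl⟩ := hx
      intro k g hg
      have e : k * ⁅y, y'⁆ * k⁻¹ = ⁅k * y * k⁻¹, k * y' * k⁻¹⁆ := by
        simp only [commutatorElement_def]
        group
      rw [e]
      exact h g hg _ (hMn.conj_mem y hy k) _ (hMn.conj_mem y' hy' k)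
    | one =>
      intro k g _
      have e : ⁅g, k * 1 * k⁻¹⁆ = 1 := by
        simp only [commutatorElement_def]
        group
      rw [e]
      exact Z.one_mem
    | mul x y _ _ ihx ihy =>
      intro k g hg
      have e : ⁅g, k * (x * y) * k⁻¹⁆ = ⁅g, k * x * k⁻¹⁆ *
          ⁅(k * x * k⁻¹) * g * (k * x * k⁻¹)⁻¹, (k * x) * y * (k * x)⁻¹⁆ := by
        simp only [commutatorElement_def]
        group
      rw [e]
      exact Z.mul_mem (ihx k g hg) (ihy (k * x) _ (hXn.conj_mem g hg _))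
    | inv x _ ihx =>
      intro k g hg
      have e : ⁅g, k * x⁻¹ * k⁻¹⁆ =
          ⁅(k * x * k⁻¹)⁻¹ * g * (k * x * k⁻¹)⁻¹⁻¹, k * x * k⁻¹⁆⁻¹ := by
        simp only [commutatorElement_def]
        group
      rw [e]
      exact Z.inv_mem (ihx k _ (hXn.conj_mem g hg _))
  rw [Subgroup.commutator_le]
  intro g hg m hm
  have h1 := key m (by rw [hM]; exact hm) 1 g hg
  have e : (1 : H) * m * 1⁻¹ = m := by group
  rwa [e] at h1

private theorem cn_fold_bot (A : Subgroup H) [A.Normal] (hA : ∀ a ∈ A, ∀ b ∈ A, a * b = b * a)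
    (L : List (Subgroup H)) : (∀ M ∈ L, M.Normal) → (∀ M ∈ L, ⁅M, M⁆ = M) →
      ∀ X : Subgroup H, X.Normal → X ≤ A →
      (∀ x ∈ X, ∀ P : List H,
        List.Forall₂ (fun p M => ∃ y ∈ M, ∃ y' ∈ M, p = ⁅y, y'⁆) P L → itc x P = 1) →
      L.foldl (fun K M => ⁅K, M⁆) X = ⊥ := by
  induction L with
  | nil =>
    intro _ _ X _ _ h
    rw [List.foldl_nil, eq_bot_iff]
    intro x hx
    exact Subgroup.mem_bot.2 (h x hx [] List.Forall₂.nil)
  | cons M L ih =>
    intro hn hp X hXn hX h
    rw [List.foldl_cons]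
    haveI : M.Normal := hn M List.mem_cons_self
    have h1 : ⁅X, M⁆ ≤ A :=
      (Subgroup.commutator_mono hX le_top).trans (Subgroup.commutator_le_left A ⊤)
    have h1n : (⁅X, M⁆).Normal := inferInstance
    refine ih (fun M' hM' => hn M' (List.mem_cons_of_mem _ hM'))
      (fun M' hM' => hp M' (List.mem_cons_of_mem _ hM')) _ h1n h1 fun x hx P hP => ?_
    have h2 : ⁅X, M⁆ ≤ cn_ker A hA P := by
      refine cn_perf X M _ (hp M List.mem_cons_self) fun g hg y hy y' hy' => ?_
      exact ⟨cn_com_mem A (hX hg) _,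
        h g hg (⁅y, y'⁆ :: P) (List.Forall₂.cons ⟨y, hy, y', hy', rfl⟩ hP)⟩
    exact (h2 hx).2

private theorem cn_fold_mono (L : List (Subgroup H)) : ∀ X Y : Subgroup H, X ≤ Y →
    L.foldl (fun K M => ⁅K, M⁆) X ≤ L.foldl (fun K M => ⁅K, M⁆) Y := by
  induction L with
  | nil => intro X Y h; exact h
  | cons M L ih =>
    intro X Y h
    rw [List.foldl_cons, List.foldl_cons]
    exact ih _ _ (Subgroup.commutator_mono h le_rfl)

private theorem cn_fold_normal (L : List (Subgroup H)) : (∀ M ∈ L, M.Normal) →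
    ∀ X : Subgroup H, X.Normal → (L.foldl (fun K M => ⁅K, M⁆) X).Normal := by
  induction L with
  | nil => intro _ X h; exact h
  | cons M L ih =>
    intro hn X hXn
    rw [List.foldl_cons]
    haveI : M.Normal := hn M List.mem_cons_self
    exact ih (fun M' hM' => hn M' (List.mem_cons_of_mem _ hM')) _ inferInstance

theorem lnc_eq_bot_n {t : ℕ} (A F : Subgroup H) [A.Normal] [F.Normal]
    (hA : ∀ a ∈ A, ∀ b ∈ A, a * b = b * a) (K : Fin (2 * t + 2) → Subgroup H)
    [∀ i, (K i).Normal] (hp : ∀ i, ⁅K i, K i⁆ = K i) (hc : ∀ i k, i ≠ k → ⁅K i, K k⁆ ≤ F)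
    (hfold : ∀ j : Fin t → Fin (2 * t + 2), Function.Injective j →
      (List.ofFn fun k => K (j k)).foldl (fun X Y => ⁅X, Y⁆) F ≤ A)
    (hst : ∀ j : Fin t → Fin (2 * t + 2), Function.Injective j → ∀ y y' : Fin t → H,
      (∀ k, y k ∈ K (j k)) → (∀ k, y' k ∈ K (j k)) → ∀ a ∈ A,
        itc a (List.ofFn fun k => ⁅y k, y' k⁆) = 1)
    (l : List (Fin (2 * t + 2))) (hl : l.Perm (List.finRange (2 * t + 2))) :
    lnc (l.map K) = ⊥ := by
  have hlen : l.length = 2 * t + 2 := by rw [hl.length_eq, List.length_finRange]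
  have hnd : l.Nodup := hl.nodup_iff.2 (List.nodup_finRange _)
  match l, hlen, hnd with
  | a :: b :: r, hlen, hnd =>
    have hr : r.length = 2 * t := by
      rw [List.length_cons, List.length_cons] at hlen
      omega
    have hab : a ≠ b := by
      intro h
      subst h
      exact (List.nodup_cons.1 hnd).1 List.mem_cons_self
    have hndr : r.Nodup := (List.nodup_cons.1 (List.nodup_cons.1 hnd).2).2
    have hnd1 : (r.take t).Nodup := hndr.sublist (List.take_sublist t r)
    have hnd2 : (r.drop t).Nodup := hndr.sublist (List.drop_sublist t r)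
    have hl1 : (r.take t).length = t := by rw [List.length_take, hr]; omega
    have hl2 : (r.drop t).length = t := by rw [List.length_drop, hr]; omega
    have h0 : lnc ((a :: b :: r).map K) =
        ((r.drop t).map K).foldl (fun K M => ⁅K, M⁆)
          (((r.take t).map K).foldl (fun K M => ⁅K, M⁆) ⁅K a, K b⁆) := by
      rw [← List.foldl_append, ← List.map_append, List.take_append_drop]
      rfl
    rw [h0]
    have hn : ∀ r' : List (Fin (2 * t + 2)), ∀ M ∈ r'.map K, M.Normal := by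
      intro r' M hM
      obtain ⟨i, _, rfl⟩ := List.mem_map.1 hM
      infer_instance
    have hpp : ∀ r' : List (Fin (2 * t + 2)), ∀ M ∈ r'.map K, ⁅M, M⁆ = M := by
      intro r' M hM
      obtain ⟨i, _, rfl⟩ := List.mem_map.1 hM
      exact hp i
    have hinj : ∀ r' : List (Fin (2 * t + 2)), r'.Nodup → ∀ hl' : r'.length = t,
        Function.Injective (fun k : Fin t => r'.get (Fin.cast hl'.symm k)) := by
      intro r' hr' hl' k k' hk
      have := List.nodup_iff_injective_get.1 hr' hk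
      exact Fin.cast_injective _ this
    have hget : ∀ (r' : List (Fin (2 * t + 2))) (hl' : r'.length = t),
        (List.ofFn fun k : Fin t => K (r'.get (Fin.cast hl'.symm k))) = r'.map K := by
      intro r' hl'
      apply List.ext_getElem
      · rw [List.length_ofFn, List.length_map, hl']
      · intro i h5 h6
        simp
    have h1 : ((r.take t).map K).foldl (fun K M => ⁅K, M⁆) ⁅K a, K b⁆ ≤ A := by
      refine (cn_fold_mono _ _ F (hc a b hab)).trans ?_
      have h2 := hfold _ (hinj _ hnd1 hl1)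
      rwa [hget _ hl1] at h2
    have h1n := cn_fold_normal ((r.take t).map K) (hn _) ⁅K a, K b⁆ inferInstance
    refine cn_fold_bot A hA _ (hn _) (hpp _) _ h1n h1 fun x hx P hP => ?_
    have hPl : P.length = t := by rw [hP.length_eq, List.length_map, hl2]
    have h3 : ∀ k : Fin t, ∃ y ∈ K ((r.drop t).get (Fin.cast hl2.symm k)),
        ∃ y' ∈ K ((r.drop t).get (Fin.cast hl2.symm k)),
          P.get (Fin.cast hPl.symm k) = ⁅y, y'⁆ := by
      intro k
      have h4 := hP.get (i := k) (by rw [hPl]; exact k.2) (by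
        rw [List.length_map, hl2]; exact k.2)
      simpa using h4
    choose y hy y' hy' hyy using h3
    have h4 := hst _ (hinj _ hnd2 hl2) y y' hy hy' x (h1 hx)
    have h5 : (List.ofFn fun k : Fin t => ⁅y k, y' k⁆) = P := by
      apply List.ext_getElem
      · rw [List.length_ofFn, hPl]
      · intro i h5 h6
        rw [List.getElem_ofFn, ← hyy]
        simp
    rwa [h5] at h4

end SA
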