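import Pool.Agent.SA.Defs

/-! MODULE SA-Core: the largest normal `q`-subgroup of a finite solvable group in which any two nontrivial
normal subgroups meet. The elements of order dividing `q` of the last nontrivial derived subgroup form a
nontrivial normal `q`-subgroup, the normal core of a Sylow `q`-subgroup contains all normal
nilpotent subgroups. -/

namespace SA

variable {H : Type} [Group H]

/-- a nontrivial abelian normal subgroup -/
private theorem core_abelian [Nontrivial H] [Group.IsSolvable H] :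
    ∃ D : Subgroup H, D.Normal ∧ D ≠ ⊥ ∧ ∀ x ∈ D, ∀ y ∈ D, x * y = y * x := by
  classical
  have hex : ∃ n, derivedSeries H n = ⊥ := Group.IsSolvable.solvable
  obtain ⟨n, hn⟩ : ∃ n, n = Nat.find hex := ⟨_, rfl⟩
  have h1 : derivedSeries H n = ⊥ := hn ▸ Nat.find_spec hex
  have h0 : n ≠ 0 := by
    rintro rfl
    rw [derivedSeries_zero] at h1
    exact top_ne_bot h1
  obtain ⟨k, rfl⟩ := Nat.exists_eq_succ_of_ne_zero h0
  have h2 : derivedSeries H k ≠ ⊥ := fun h => Nat.find_min hex (by omega : k < Nat.find hex) h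
  refine ⟨derivedSeries H k, derivedSeries_normal H k, h2, ?_⟩
  rw [Nat.succ_eq_add_one, derivedSeries_succ,
    Subgroup.commutator_eq_bot_iff_le_centralizer] at h1
  intro x hx y hy
  exact (Subgroup.mem_centralizer_iff.1 (h1 hx) y hy).symm

theorem exists_core [Finite H] [Nontrivial H] [Group.IsSolvable H]
    (hm : ∀ N1 N2 : Subgroup H, N1.Normal → N2.Normal → N1 ⊓ N2 = ⊥ → N1 = ⊥ ∨ N2 = ⊥) :
    ∃ (q : ℕ) (F : Subgroup H), q.Prime ∧ F.Normal ∧ IsPGroup q F ∧
      ∀ X : Subgroup H, X.Normal → Group.IsNilpotent X → X ≤ F := by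
  obtain ⟨D, hD, hD0, hcomm⟩ := core_abelian (H := H)
  have hcard : Nat.card D ≠ 1 := fun h => hD0 (Subgroup.card_eq_one.1 h)
  obtain ⟨q, hq, hqd⟩ := Nat.exists_prime_and_dvd hcard
  haveI : Fact q.Prime := ⟨hq⟩
  let X : Subgroup H :=
    { carrier := {x | x ∈ D ∧ x ^ q = 1}
      mul_mem' := by
        rintro a b ⟨ha, ha'⟩ ⟨hb, hb'⟩
        refine ⟨D.mul_mem ha hb, ?_⟩
        have h : Commute a b := hcomm a ha b hb
        rw [h.mul_pow, ha', hb', one_mul]
      one_mem' := ⟨D.one_mem, one_pow _⟩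
      inv_mem' := by
        rintro a ⟨ha, ha'⟩
        refine ⟨D.inv_mem ha, ?_⟩
        rw [inv_pow, ha', inv_one] }
  have hXn : X.Normal := by
    refine ⟨?_⟩
    rintro a ⟨ha, ha'⟩ g
    refine ⟨hD.conj_mem a ha g, ?_⟩
    rw [conj_pow, ha', mul_one, mul_inv_cancel]
  have hXq : IsPGroup q X := by
    rintro ⟨x, hx⟩
    refine ⟨1, ?_⟩
    rw [pow_one]
    exact Subtype.ext hx.2
  have hX0 : X ≠ ⊥ := by
    obtain ⟨x, hx⟩ := exists_prime_orderOf_dvd_card' q hqd
    intro h
    have h1 : (x : H) ∈ X := by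
      refine ⟨x.2, ?_⟩
      have h2 := pow_orderOf_eq_one x
      rw [hx] at h2
      exact congrArg Subtype.val h2
    rw [h, Subgroup.mem_bot] at h1
    have h3 : x = 1 := Subtype.ext h1
    rw [h3, orderOf_one] at hx
    exact hq.one_lt.ne hx
  obtain ⟨P⟩ : Nonempty (Sylow q H) := inferInstance
  refine ⟨q, (P : Subgroup H).normalCore, hq, inferInstance,
    P.isPGroup'.to_le (Subgroup.normalCore_le _), ?_⟩
  intro Y hY hnil
  haveI := hY
  haveI := hnil
  have hYq : IsPGroup q Y := by
    have hY0 : Nat.card Y ≠ 0 := Nat.card_pos.ne'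
    refine IsPGroup.of_card (n := (Nat.card Y).primeFactorsList.length)
      (Nat.eq_prime_pow_of_unique_prime_dvd hY0 ?_)
    intro p hp hpd
    by_contra hne
    haveI : Fact p.Prime := ⟨hp⟩
    obtain ⟨S⟩ : Nonempty (Sylow p Y) := inferInstance
    have hSn : (S : Subgroup Y).Normal :=
      (Group.isNilpotent_of_finite_tfae.out 0 3 rfl rfl).mp hnil p ⟨hp⟩ S
    haveI : (S : Subgroup Y).Characteristic := S.characteristic_of_normal hSn
    have hTn : ((S : Subgroup Y).map Y.subtype).Normal := inferInstance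
    have hTp : IsPGroup p ((S : Subgroup Y).map Y.subtype) := S.isPGroup'.map _
    have hdis := IsPGroup.disjoint_of_ne p q hne _ _ hTp hXq
    rcases hm _ _ hTn hXn hdis.eq_bot with h1 | h1
    · rw [Subgroup.map_eq_bot_iff_of_injective _ Y.subtype_injective] at h1
      exact S.ne_bot_of_dvd_card hpd h1
    · exact hX0 h1
  rw [Subgroup.normal_le_normalCore]
  exact hYq.le_sylow_of_normal P

end SA
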