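import Pool.Agent.SA.Defs

/-! MODULE SA-CoreN: the largest normal `q`-subgroup, without solvability.
Plan. Adapt `exists_core` in Pool/Agent/SA/Core.lean (complete, on main; copy the private lemmas). `H` is not assumed
solvable; solvability was only used to show that a minimal nontrivial normal subgroup `X` is abelian. Here: `X` is
minimal normal, so `IsChief ⊥ X`, and `C = cen ⊥ X` (`= ` centralizer of `X`) is `≠ ⊥` by `hc`, normal. By `hm` `C ⊓ X ≠ ⊥`, so
`X ≤ C` by minimality, and `X` is abelian. The rest of the proof is the same. -/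

namespace SA

variable {H : Type} [Group H]

/-- a nontrivial abelian normal subgroup -/
private theorem coreN_abelian [Finite H] [Nontrivial H]
    (hm : ∀ N1 N2 : Subgroup H, N1.Normal → N2.Normal → N1 ⊓ N2 = ⊥ → N1 = ⊥ ∨ N2 = ⊥)
    (hc : ∀ (X : Subgroup H) [X.Normal], IsChief ⊥ X → cen ⊥ X ≠ ⊥) :
    ∃ D : Subgroup H, D.Normal ∧ D ≠ ⊥ ∧ ∀ x ∈ D, ∀ y ∈ D, x * y = y * x := by
  classical
  have hfin : Finite (Subgroup H) := inferInstance
  have hex : ({X : Subgroup H | X.Normal ∧ X ≠ ⊥}).Nonempty :=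
    ⟨⊤, inferInstance, top_ne_bot⟩
  obtain ⟨X, hX⟩ := (Set.toFinite {X : Subgroup H | X.Normal ∧ X ≠ ⊥}).exists_minimal hex
  obtain ⟨hXn, hX0⟩ := hX.prop
  haveI := hXn
  have hch : IsChief ⊥ X := by
    refine ⟨bot_lt_iff_ne_bot.mpr hX0, ?_⟩
    intro Z hZ _ hZX
    by_cases h : Z = ⊥
    · exact Or.inl h
    · exact Or.inr (le_antisymm hZX (hX.le_of_le ⟨hZ, h⟩ hZX))
  have hC := hc X hch
  have hCX : cen ⊥ X ⊓ X ≠ ⊥ := by
    intro h
    rcases hm _ _ (cen_normal ⊥ X) hXn h with h1 | h1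
    · exact hC h1
    · exact hX0 h1
  haveI : (cen (⊥ : Subgroup H) X).Normal := cen_normal ⊥ X
  have hCXn : (cen ⊥ X ⊓ X).Normal := inferInstance
  have hle : X ≤ cen ⊥ X := (hX.le_of_le ⟨hCXn, hCX⟩ inf_le_right).trans inf_le_left
  refine ⟨X, hXn, hX0, ?_⟩
  intro x hx y hy
  have h1 := mem_cen.mp (hle hx) y hy
  rw [Subgroup.mem_bot] at h1
  have h2 : x * y * x⁻¹ = y := by
    rwa [mul_inv_eq_one] at h1
  rwa [mul_inv_eq_iff_eq_mul] at h2

theorem exists_core_n [Finite H] [Nontrivial H]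
    (hm : ∀ N1 N2 : Subgroup H, N1.Normal → N2.Normal → N1 ⊓ N2 = ⊥ → N1 = ⊥ ∨ N2 = ⊥)
    (hc : ∀ (X : Subgroup H) [X.Normal], IsChief ⊥ X → cen ⊥ X ≠ ⊥) :
    ∃ (q : ℕ) (F : Subgroup H), q.Prime ∧ F.Normal ∧ IsPGroup q F ∧
      ∀ X : Subgroup H, X.Normal → Group.IsNilpotent X → X ≤ F := by
  obtain ⟨D, hD, hD0, hcomm⟩ := coreN_abelian hm hc
  have hcard : Nat.card D ≠ 1 := fun h => hD0 (Subgroup.card_eq_one.1 h)
  obtain ⟨q, hq, hqd⟩ := Nat.exists_prime_and_dvd hcard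
  haveI : Fact q.Prime := ⟨hq⟩
  let X : Subgroup H :=
    { carrier := {x | x ∈ D ∧ x ^ q = 1}
      mul_mem' := by
        rintro a b ⟨ha, ha'⟩ ⟨hb, hb'⟩
        refine ⟨D.mul_mem ha hb, ?_⟩
        have h : Commute a b := hcomm a ha b hb
        rw [h.mul_pow, ha', hb', one_mul]
      one_mem' := ⟨D.one_mem, one_pow _⟩
      inv_mem' := by
        rintro a ⟨ha, ha'⟩
        refine ⟨D.inv_mem ha, ?_⟩
        rw [inv_pow, ha', inv_one] }
  have hXn : X.Normal := by
    refine ⟨?_⟩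
    rintro a ⟨ha, ha'⟩ g
    refine ⟨hD.conj_mem a ha g, ?_⟩
    rw [conj_pow, ha', mul_one, mul_inv_cancel]
  have hXq : IsPGroup q X := by
    rintro ⟨x, hx⟩
    refine ⟨1, ?_⟩
    rw [pow_one]
    exact Subtype.ext hx.2
  have hX0 : X ≠ ⊥ := by
    obtain ⟨x, hx⟩ := exists_prime_orderOf_dvd_card' q hqd
    intro h
    have h1 : (x : H) ∈ X := by
      refine ⟨x.2, ?_⟩
      have h2 := pow_orderOf_eq_one x
      rw [hx] at h2
      exact congrArg Subtype.val h2
    rw [h, Subgroup.mem_bot] at h1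
    have h3 : x = 1 := Subtype.ext h1
    rw [h3, orderOf_one] at hx
    exact hq.one_lt.ne hx
  obtain ⟨P⟩ : Nonempty (Sylow q H) := inferInstance
  refine ⟨q, (P : Subgroup H).normalCore, hq, inferInstance,
    P.isPGroup'.to_le (Subgroup.normalCore_le _), ?_⟩
  intro Y hY hnil
  haveI := hY
  haveI := hnil
  have hYq : IsPGroup q Y := by
    have hY0 : Nat.card Y ≠ 0 := Nat.card_pos.ne'
    refine IsPGroup.of_card (n := (Nat.card Y).primeFactorsList.length)
      (Nat.eq_prime_pow_of_unique_prime_dvd hY0 ?_)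
    intro p hp hpd
    by_contra hne
    haveI : Fact p.Prime := ⟨hp⟩
    obtain ⟨S⟩ : Nonempty (Sylow p Y) := inferInstance
    have hSn : (S : Subgroup Y).Normal :=
      (Group.isNilpotent_of_finite_tfae.out 0 3 rfl rfl).mp hnil p ⟨hp⟩ S
    haveI : (S : Subgroup Y).Characteristic := S.characteristic_of_normal hSn
    have hTn : ((S : Subgroup Y).map Y.subtype).Normal := inferInstance
    have hTp : IsPGroup p ((S : Subgroup Y).map Y.subtype) := S.isPGroup'.map _
    have hdis := IsPGroup.disjoint_of_ne p q hne _ _ hTp hXq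
    rcases hm _ _ hTn hXn hdis.eq_bot with h1 | h1
    · rw [Subgroup.map_eq_bot_iff_of_injective _ Y.subtype_injective] at h1
      exact S.ne_bot_of_dvd_card hpd h1
    · exact hX0 h1
  rw [Subgroup.normal_le_normalCore]
  exact hYq.le_sylow_of_normal P

end SA
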