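import Pool.Agent.SA.Defs

/-! MODULE SA-Ded: Dedekind chain.
Plan. `N k ⊔ M k = ⊤` (`M k` coatom, `N k` not contained). For a finite set (or list) `T` of indices without duplicates,
`(⨅ i ∈ T, M i) ⊔ ⨆ i ∈ T, N i = ⊤`: insert `j ∉ T`: `L = ⨅ i ∈ T, M i` contains `N j` (`h1`), and
`L = (L ⊓ M j) ⊔ N j`: for `x ∈ L` write `x = m * n`, `m ∈ M j`, `n ∈ N j` (`Subgroup.mem_sup_of_normal_right`), `m = x n⁻¹ ∈ L`.
Second claim: `⨅ i, M i ≤ M k`, `N i ≤ M k` for `i ≠ k`. -/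

namespace SA

variable {H : Type} [Group H]

private theorem ded45_step (M N L : Subgroup H) [N.Normal] (h : M ⊔ N = ⊤) (hN : N ≤ L) :
    L ≤ (M ⊓ L) ⊔ N := by
  intro x hx
  have hx' : x ∈ M ⊔ N := by rw [h]; exact Subgroup.mem_top x
  rw [Subgroup.mem_sup_of_normal_right] at hx'
  obtain ⟨m, hm, n, hn, rfl⟩ := hx'
  have hm' : m ∈ L := by
    have h1 : m = m * n * n⁻¹ := by group
    rw [h1]
    exact L.mul_mem hx (L.inv_mem (hN hn))
  exact Subgroup.mul_mem_sup ⟨hm, hm'⟩ hn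

private theorem ded45_fin {s : ℕ} (M N : Fin s → Subgroup H) [∀ i, (N i).Normal]
    (hM : ∀ i, IsCoatom (M i)) (h1 : ∀ i k, i ≠ k → N k ≤ M i) (h2 : ∀ k, ¬ N k ≤ M k)
    (T : Finset (Fin s)) : (⨅ i ∈ T, M i) ⊔ (⨆ i ∈ T, N i) = ⊤ := by
  classical
  induction T using Finset.induction_on with
  | empty => simp
  | insert j T hj ih =>
    rw [Finset.iInf_insert, Finset.iSup_insert]
    have hjt : M j ⊔ N j = ⊤ := by
      apply (hM j).2
      rw [left_lt_sup]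
      exact h2 j
    have hNL : N j ≤ ⨅ i ∈ T, M i := by
      refine le_iInf₂ fun i hi => h1 i j ?_
      rintro rfl
      exact hj hi
    have hL := ded45_step (M j) (N j) (⨅ i ∈ T, M i) hjt hNL
    rw [eq_top_iff, ← ih]
    refine sup_le (hL.trans ?_) ?_
    · exact sup_le_sup le_rfl le_sup_left
    · exact le_sup_of_le_right le_sup_right

theorem dedekind {s : ℕ} (M N : Fin s → Subgroup H) [∀ i, (N i).Normal]
    (hM : ∀ i, IsCoatom (M i)) (h1 : ∀ i k, i ≠ k → N k ≤ M i) (h2 : ∀ k, ¬ N k ≤ M k) :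
    (⨅ i, M i) ⊔ (⨆ i, N i) = ⊤ ∧
      ∀ k, (⨅ i, M i) ⊔ (⨆ (i : Fin s) (_ : i ≠ k), N i) ≤ M k := by
  constructor
  · have h := ded45_fin M N hM h1 h2 Finset.univ
    simpa using h
  · intro k
    refine sup_le (iInf_le _ k) (iSup₂_le fun i hi => h1 k i (Ne.symm hi))

end SA
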