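import Mathlib

/-! Definitions for project SA (MP_838612_al): the laws of a group with an abelian normal subgroup
of finite index whose quotient is solvable with abelian Sylow subgroups are finitely based. -/

namespace SA

open scoped commutatorElement

/-- the `n`-variable laws of `G` -/
def LawN (n : ℕ) (G : Type) [Group G] : Subgroup (FreeGroup (Fin n)) where
  carrier := {w | ∀ f : Fin n → G, FreeGroup.lift f w = 1}
  one_mem' := fun f => map_one _
  mul_mem' := by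
    intro a b ha hb f
    rw [map_mul, ha f, hb f, one_mul]
  inv_mem' := by
    intro a ha f
    rw [map_inv, ha f, inv_one]

theorem mem_LawN {n : ℕ} {G : Type} [Group G] {w : FreeGroup (Fin n)} :
    w ∈ LawN n G ↔ ∀ f : Fin n → G, FreeGroup.lift f w = 1 := Iff.rfl

/-- `H` satisfies all `n`-variable laws of `G` -/
def Loc (n : ℕ) (G H : Type) [Group G] [Group H] : Prop := LawN n G ≤ LawN n H

/-- `H` satisfies all laws of `G` -/
def InVar (G H : Type) [Group G] [Group H] : Prop := ∀ n, Loc n G H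

/-- the verbal subgroup of `H` for the `n`-variable laws of `Q` -/
def ver (n : ℕ) (Q H : Type) [Group Q] [Group H] : Subgroup H :=
  Subgroup.normalClosure {h | ∃ w ∈ LawN n Q, ∃ f : Fin n → H, FreeGroup.lift f w = h}

instance ver_normal (n : ℕ) (Q H : Type) [Group Q] [Group H] : (ver n Q H).Normal :=
  Subgroup.normalClosure_normal

/-- all `q`-subgroups of `Q` are abelian -/
def QAb (q : ℕ) (Q : Type) [Group Q] : Prop :=
  ∀ P : Subgroup Q, IsPGroup q P → ∀ x ∈ P, ∀ y ∈ P, x * y = y * x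

/-- all evaluations of words in `k` variables in `Q` -/
def evl (k : ℕ) (Q : Type) [Group Q] : FreeGroup (Fin k) →* ((Fin k → Q) → Q) :=
  FreeGroup.lift fun i φ => φ i

theorem evl_apply (k : ℕ) (Q : Type) [Group Q] (w : FreeGroup (Fin k)) (φ : Fin k → Q) :
    evl k Q w φ = FreeGroup.lift φ w := by
  have h : (Pi.evalMonoidHom (fun _ : Fin k → Q => Q) φ).comp (evl k Q) = FreeGroup.lift φ := by
    apply FreeGroup.ext_hom
    intro i
    simp [evl]
  exact DFunLike.congr_fun h w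

/-- kills the letters of colour `k` -/
def kil {X : Type} (c : X → ℕ) (k : ℕ) : FreeGroup X →* FreeGroup X :=
  FreeGroup.lift (fun x => if c x = k then 1 else FreeGroup.of x)

section
variable {H : Type} [Group H]

/-- elements of `H` acting trivially on `F1` modulo `F0` -/
def cen (F0 F1 : Subgroup H) [hF : F1.Normal] : Subgroup H where
  carrier := {h | ∀ x ∈ F1, h * x * h⁻¹ * x⁻¹ ∈ F0}
  one_mem' := by
    intro x _
    simp [F0.one_mem]
  mul_mem' := by
    intro a b ha hb x hx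
    have h1 := ha (b * x * b⁻¹) (hF.conj_mem x hx b)
    have h2 := hb x hx
    have h3 := F0.mul_mem h1 h2
    have h4 : a * (b * x * b⁻¹) * a⁻¹ * (b * x * b⁻¹)⁻¹ * (b * x * b⁻¹ * x⁻¹) =
        a * b * x * (a * b)⁻¹ * x⁻¹ := by group
    rwa [h4] at h3
  inv_mem' := by
    intro a ha x hx
    have h1 := ha (a⁻¹ * x * a) (by
      have := hF.conj_mem x hx a⁻¹
      rwa [inv_inv] at this)
    have h2 := F0.inv_mem h1
    have h3 : (a * (a⁻¹ * x * a) * a⁻¹ * (a⁻¹ * x * a)⁻¹)⁻¹ = a⁻¹ * x * a⁻¹⁻¹ * x⁻¹ := by group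
    rwa [h3] at h2

theorem mem_cen {F0 F1 : Subgroup H} [F1.Normal] {h : H} :
    h ∈ cen F0 F1 ↔ ∀ x ∈ F1, h * x * h⁻¹ * x⁻¹ ∈ F0 := Iff.rfl

instance cen_normal (F0 F1 : Subgroup H) [h0 : F0.Normal] [h1 : F1.Normal] :
    (cen F0 F1).Normal where
  conj_mem := by
    intro a ha g x hx
    have h2 := ha (g⁻¹ * x * g) (by
      have := h1.conj_mem x hx g⁻¹
      rwa [inv_inv] at this)
    have h3 := h0.conj_mem _ h2 g
    have h4 : g * (a * (g⁻¹ * x * g) * a⁻¹ * (g⁻¹ * x * g)⁻¹) * g⁻¹ =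
        g * a * g⁻¹ * x * (g * a * g⁻¹)⁻¹ * x⁻¹ := by group
    rwa [h4] at h3

/-- no normal subgroup strictly between `F0 < F1` -/
structure IsChief (F0 F1 : Subgroup H) : Prop where
  lt : F0 < F1
  irr : ∀ X : Subgroup H, X.Normal → F0 ≤ X → X ≤ F1 → X = F0 ∨ X = F1

/-- left normed commutator of a list of subgroups -/
def lnc : List (Subgroup H) → Subgroup H
  | [] => ⊤
  | N :: l => l.foldl (fun K M => ⁅K, M⁆) N

/-- the part of `F / A` on which `C` acts trivially and every larger normal subgroup acts without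
trivial constituents -/
def Nk (A F C : Subgroup H) [C.Normal] : Subgroup H :=
  F ⊓ cen A C ⊓ ⨅ (C' : Subgroup H) (_ : C'.Normal) (_ : C < C'), (⁅F, C'⁆ ⊔ A)

theorem mem_Nk {A F C : Subgroup H} [C.Normal] {x : H} :
    x ∈ Nk A F C ↔ x ∈ F ∧ (∀ c ∈ C, x * c * x⁻¹ * c⁻¹ ∈ A) ∧
      ∀ C' : Subgroup H, C'.Normal → C < C' → x ∈ ⁅F, C'⁆ ⊔ A := by
  unfold Nk
  simp only [Subgroup.mem_inf, Subgroup.mem_iInf, mem_cen]
  tauto

theorem Nk_normal (A F C : Subgroup H) [hA : A.Normal] [hF : F.Normal] [hC : C.Normal] :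
    (Nk A F C).Normal := by
  constructor
  intro x hx g
  rw [mem_Nk] at hx ⊢
  refine ⟨hF.conj_mem x hx.1 g, ?_, ?_⟩
  · have h1 : x ∈ cen A C := hx.2.1
    exact (cen_normal A C).conj_mem x h1 g
  · intro C' hC' hlt
    have h2 : (⁅F, C'⁆ ⊔ A).Normal := inferInstance
    exact h2.conj_mem x (hx.2.2 C' hC' hlt) g

/-- pairs `i < j` in `Fin (m + 1)` -/
def prs (m : ℕ) : List (Fin (m + 1) × Fin (m + 1)) :=
  (List.product (List.finRange (m + 1)) (List.finRange (m + 1))).filter (fun p => p.1 < p.2)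

theorem mem_prs {m : ℕ} {p : Fin (m + 1) × Fin (m + 1)} : p ∈ prs m ↔ p.1 < p.2 := by
  unfold prs
  rw [List.mem_filter]
  constructor
  · intro h
    simpa using h.2
  · intro h
    refine ⟨?_, by simpa using h⟩
    rw [show p = (p.1, p.2) from rfl, List.pair_mem_product]
    exact ⟨List.mem_finRange _, List.mem_finRange _⟩

/-- the iterated commutator of `y` with the conjugates of `x i * (x j)⁻¹`, `i < j` -/
def chin {m : ℕ} (y : H) (x : Fin (m + 1) → H) (z : Fin (m + 1) × Fin (m + 1) → H) : H :=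
  (prs m).foldl (fun v p => ⁅v, z p * (x p.1 * (x p.2)⁻¹) * (z p)⁻¹⁆) y

/-- iterated commutator of an element with a list of elements -/
def itc (a : H) (l : List H) : H := l.foldl (fun v y => ⁅v, y⁆) a

/-- `X` is normalized by `N` -/
def Nrm (N X : Subgroup H) : Prop := ∀ g ∈ N, ∀ x ∈ X, g * x * g⁻¹ ∈ X

/-- `e` is the averaging operator of `C` on the abelian group `V` -/
structure IsAvg (V C : Subgroup H) (e : H → H) : Prop where
  mem : ∀ x ∈ V, e x ∈ V
  mul : ∀ x ∈ V, ∀ y ∈ V, e (x * y) = e x * e y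
  fix : ∀ x ∈ V, ∀ c ∈ C, c * e x * c⁻¹ = e x
  id : ∀ x ∈ V, (∀ c ∈ C, c * x * c⁻¹ = x) → e x = x
  conj : ∀ g : H, (∀ c ∈ C, g * c * g⁻¹ ∈ C) → (∀ v ∈ V, g * v * g⁻¹ ∈ V) →
    ∀ x ∈ V, e (g * x * g⁻¹) = g * e x * g⁻¹
  inv : ∀ B : Subgroup H, (∀ c ∈ C, ∀ b ∈ B, c * b * c⁻¹ ∈ B) → ∀ x ∈ V, x ∈ B → e x ∈ B
  cong : ∀ B : Subgroup H, ∀ x ∈ V, (∀ c ∈ C, c * x * c⁻¹ * x⁻¹ ∈ B) → x * (e x)⁻¹ ∈ B
  kill : ∀ x ∈ ⁅V, C⁆, e x = 1

end

end SA
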