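import Pool.Agent.SA.Defs

/-! MODULE SA-PC: commuting nontrivial perfect subgroups.
Plan. By induction on `k ≤ t` the subgroup `P k = ⨆ i < k, B i` has order at least `2 ^ k`. `P k` commutes with `B k`
elementwise (the centralizer of `B k` contains all `B i`, `i < k`). `P k ⊓ B k` is contained in the centre of `B k`; `B k` is
perfect and nontrivial, so not commutative (`⁅B k, B k⁆ = ⊥` otherwise), so `B k` is not contained in `P k` (otherwise
`B k ≤` centralizer of `B k`). So `P k < P (k+1)`, and the order of `P (k+1)` is a proper multiple of that of `P k`, so at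
least twice as large (`Subgroup.card_dvd_of_le`). -/

namespace SA

private def PP {Γ : Type} [Group Γ] {t : ℕ} (B : Fin t → Subgroup Γ) (k : ℕ) : Subgroup Γ :=
  ⨆ (i : Fin t) (_ : i.val < k), B i

private theorem le_PP {Γ : Type} [Group Γ] {t : ℕ} (B : Fin t → Subgroup Γ) {k : ℕ} {i : Fin t}
    (h : i.val < k) : B i ≤ PP B k :=
  le_iSup₂_of_le i h le_rfl

private theorem PP_mono {Γ : Type} [Group Γ] {t : ℕ} (B : Fin t → Subgroup Γ) (k : ℕ) :
    PP B k ≤ PP B (k + 1) :=
  iSup₂_le fun _ hi => le_PP B (Nat.lt_succ_of_lt hi)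

theorem perfect_count {Γ : Type} [Group Γ] [Finite Γ] {t : ℕ} (B : Fin t → Subgroup Γ)
    (h1 : ∀ k, B k ≠ ⊥) (h2 : ∀ k, ⁅B k, B k⁆ = B k)
    (h3 : ∀ i k, i ≠ k → ∀ x ∈ B i, ∀ y ∈ B k, x * y = y * x) : 2 ^ t ≤ Nat.card Γ := by
  have key : ∀ k : ℕ, k ≤ t → 2 ^ k ≤ Nat.card (PP B k) := by
    intro k
    induction k with
    | zero =>
      intro _
      rw [pow_zero]
      exact Nat.card_pos
    | succ k ih =>
      intro hk
      have ih' := ih (by omega)
      have hkt : k < t := by omega
      have hcen : PP B k ≤ Subgroup.centralizer (B ⟨k, hkt⟩ : Set Γ) := by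
        refine iSup₂_le fun i hi x hx => ?_
        rw [Subgroup.mem_centralizer_iff]
        intro y hy
        refine (h3 i ⟨k, hkt⟩ ?_ x hx y hy).symm
        intro he
        rw [he] at hi
        exact lt_irrefl _ hi
      have hnot : ¬ B ⟨k, hkt⟩ ≤ PP B k := by
        intro hle
        apply h1 ⟨k, hkt⟩
        rw [← h2 ⟨k, hkt⟩]
        exact Subgroup.commutator_eq_bot_iff_le_centralizer.mpr (hle.trans hcen)
      have hle : PP B k ≤ PP B (k + 1) := PP_mono B k
      have hdvd : Nat.card (PP B k) ∣ Nat.card (PP B (k + 1)) := Subgroup.card_dvd_of_le hle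
      have hne : Nat.card (PP B k) ≠ Nat.card (PP B (k + 1)) := by
        intro he
        have h4 : PP B k = PP B (k + 1) := Subgroup.eq_of_le_of_card_ge hle he.ge
        apply hnot
        rw [h4]
        exact le_PP B (Nat.lt_succ_self k)
      obtain ⟨c, hc⟩ := hdvd
      have hpos : 0 < Nat.card (PP B (k + 1)) := Nat.card_pos
      have hc2 : 2 ≤ c := by
        rcases c with _ | _ | c
        · rw [mul_zero] at hc
          omega
        · rw [zero_add, mul_one] at hc
          exact absurd hc.symm hne
        · omega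
      rw [hc, pow_succ]
      exact Nat.mul_le_mul ih' hc2
  exact (key t le_rfl).trans (Subgroup.card_le_card_group _)

end SA
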