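import Pool.Agent.SA.Av
import Pool.Agent.SA.PC

/-! MODULE SA-FK: commuting `F` with `t` perfect normal subgroups commuting modulo `F` lands in `A`.
Plan. Let `X` be the join of `A` and the fold (a normal subgroup of `H`, `A ≤ X ≤ F`). Suppose `X ≠ A`. Choose a normal `X0` with
`A ≤ X0 < X` maximal: `IsChief X0 X`. `C = cen X0 X` has index `≤ m < 2 ^ t` by `hm`, and contains `F` (`⁅F, F⁆ ≤ A ≤ X0`).
CLAIM: `K j` is not contained in `C`. Work in `H ⧸ A` with `V`, `X̄`, `K̄ j` the images of `F`, `X`, `K j`; `V` is a normal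
`q`-subgroup, `QAb q (H ⧸ A)`; operator `e` of `exists_avg` for `V` and `K̄ j`. `X̄ ≤ ⁅V, K̄ j⁆`: the partial fold before `K j` is
contained in `F`, so the fold is contained in `⁅F, K j⁆` after the step `j` and stays in this normal subgroup. So
`e x = 1` for all `x ∈ X̄` (`kill`). If `K j ≤ C` then `c x c⁻¹ x⁻¹ ∈ X̄0` for all `c ∈ K̄ j`, `x ∈ X̄`, so `x * (e x)⁻¹ = x ∈ X̄0` (`cong`),
i.e. `X ≤ X0`, contradiction. So in the finite group `Γ = H ⧸ C` of order `< 2 ^ t` the images `B j` of the `K j` are nontrivial,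
perfect (`Subgroup.map_commutator`), and commute pairwise (`⁅K i, K j⁆ ≤ F ≤ C`): contradiction to `perfect_count`. -/

namespace SA

variable {H : Type} [Group H]

private theorem fk_fold_le (l : List (Subgroup H)) (X : Subgroup H) (hX : X.Normal)
    (hl : ∀ M ∈ l, M.Normal) : l.foldl (fun X Y => ⁅X, Y⁆) X ≤ X := by
  induction l generalizing X with
  | nil => exact le_refl _
  | cons N l ih =>
    rw [List.foldl_cons]
    have hN : N.Normal := hl N List.mem_cons_self
    have h1 : (⁅X, N⁆ : Subgroup H).Normal := inferInstance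
    exact (ih ⁅X, N⁆ h1 fun M hM => hl M (List.mem_cons_of_mem _ hM)).trans
      (Subgroup.commutator_le_left X N)

private theorem fk_fold_mem (l : List (Subgroup H)) (F X : Subgroup H) (hX : X.Normal)
    (hXF : X ≤ F) (hl : ∀ M ∈ l, M.Normal) {M : Subgroup H} (hM : M ∈ l) :
    l.foldl (fun X Y => ⁅X, Y⁆) X ≤ ⁅F, M⁆ := by
  induction l generalizing X with
  | nil => exact absurd hM List.not_mem_nil
  | cons N l ih =>
    rw [List.foldl_cons]
    have hN : N.Normal := hl N List.mem_cons_self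
    have h1 : (⁅X, N⁆ : Subgroup H).Normal := inferInstance
    rcases List.mem_cons.1 hM with h2 | h2
    · subst h2
      exact (fk_fold_le l _ h1 fun M hM => hl M (List.mem_cons_of_mem _ hM)).trans
        (Subgroup.commutator_mono hXF le_rfl)
    · exact ih _ h1 ((Subgroup.commutator_le_left X N).trans hXF)
        (fun M hM => hl M (List.mem_cons_of_mem _ hM)) h2

private theorem fk_fold_normal (l : List (Subgroup H)) (X : Subgroup H) (hX : X.Normal)
    (hl : ∀ M ∈ l, M.Normal) : (l.foldl (fun X Y => ⁅X, Y⁆) X).Normal := by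
  induction l generalizing X with
  | nil => exact hX
  | cons N l ih =>
    rw [List.foldl_cons]
    have hN : N.Normal := hl N List.mem_cons_self
    have h1 : (⁅X, N⁆ : Subgroup H).Normal := inferInstance
    exact ih _ h1 fun M hM => hl M (List.mem_cons_of_mem _ hM)

private theorem fk_chief [Finite H] {A X : Subgroup H} [hA : A.Normal] (h : A < X) :
    ∃ X0 : Subgroup H, X0.Normal ∧ A ≤ X0 ∧ IsChief X0 X := by
  obtain ⟨X0, hX0⟩ := (Set.toFinite {Y : Subgroup H | Y.Normal ∧ A ≤ Y ∧ Y < X}).exists_maximal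
    ⟨A, hA, le_refl _, h⟩
  refine ⟨X0, hX0.prop.1, hX0.prop.2.1, hX0.prop.2.2, ?_⟩
  intro Y hY h1 h2
  by_cases h3 : Y = X
  · exact Or.inr h3
  · left
    have h4 : Y < X := lt_of_le_of_ne h2 h3
    exact le_antisymm (hX0.le_of_ge ⟨hY, hX0.prop.2.1.trans h1, h4⟩ h1) h1

private theorem fk_claim [Finite H] {q : ℕ} (hq : q.Prime) (A F : Subgroup H) [A.Normal]
    [F.Normal] (hF : IsPGroup q F) (hab : QAb q (H ⧸ A))
    (W X0 K : Subgroup H) [K.Normal] (hXF : W ≤ F) (hAX0 : A ≤ X0)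
    [(A ⊔ W).Normal]
    (hW : W ≤ ⁅F, K⁆) (hC : K ≤ cen X0 (A ⊔ W)) : A ⊔ W ≤ X0 := by
  have hV : IsPGroup q (F.map (QuotientGroup.mk' A)) := hF.map _
  have hVn : (F.map (QuotientGroup.mk' A)).Normal :=
    Subgroup.Normal.map inferInstance _ (QuotientGroup.mk'_surjective A)
  obtain ⟨e, he⟩ := exists_avg hq hab (F.map (QuotientGroup.mk' A))
    (K.map (QuotientGroup.mk' A)) hV (fun c _ v hv => hVn.conj_mem v hv c)
  have hker : ∀ a ∈ A, QuotientGroup.mk' A a = 1 := by
    intro a ha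
    exact (QuotientGroup.eq_one_iff a).2 ha
  have hmem : ∀ x ∈ A ⊔ W, QuotientGroup.mk' A x ∈ W.map (QuotientGroup.mk' A) := by
    intro x hx
    have h1 : A ⊔ W ≤ (W.map (QuotientGroup.mk' A)).comap (QuotientGroup.mk' A) := by
      refine sup_le ?_ ?_
      · intro a ha
        rw [Subgroup.mem_comap, hker a ha]
        exact Subgroup.one_mem _
      · exact Subgroup.le_comap_map _ _
    exact h1 hx
  intro x hx
  have hxW := hmem x hx
  have hxV : QuotientGroup.mk' A x ∈ F.map (QuotientGroup.mk' A) :=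
    Subgroup.map_mono hXF hxW
  have hkill : e (QuotientGroup.mk' A x) = 1 := by
    refine he.kill _ ?_
    rw [← Subgroup.map_commutator]
    exact Subgroup.map_mono hW hxW
  have hcong := he.cong (X0.map (QuotientGroup.mk' A)) (QuotientGroup.mk' A x) hxV (by
    rintro _ ⟨c, hc, rfl⟩
    refine ⟨c * x * c⁻¹ * x⁻¹, hC hc x hx, ?_⟩
    simp only [map_mul, map_inv])
  rw [hkill, inv_one, mul_one] at hcong
  obtain ⟨y, hy, hyx⟩ := hcong
  have h2 : y⁻¹ * x ∈ A := by
    rw [← QuotientGroup.eq]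
    exact hyx
  have h3 : x = y * (y⁻¹ * x) := by group
  rw [h3]
  exact X0.mul_mem hy (hAX0 h2)

theorem fold_le [Finite H] {q : ℕ} (hq : q.Prime) (A F : Subgroup H) [A.Normal] [F.Normal]
    (hAF : A ≤ F) (hF : IsPGroup q F) (hab : QAb q (H ⧸ A)) (hFF : ⁅F, F⁆ ≤ A) {m t : ℕ}
    (hm : ∀ (F0 F1 : Subgroup H) [F0.Normal] [F1.Normal], A ≤ F0 → F1 ≤ F → IsChief F0 F1 →
      (cen F0 F1).index ≤ m)
    (ht : m < 2 ^ t) (K : Fin t → Subgroup H) [∀ k, (K k).Normal] (hp : ∀ k, ⁅K k, K k⁆ = K k)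
    (hc : ∀ i k, i ≠ k → ⁅K i, K k⁆ ≤ F) :
    (List.ofFn K).foldl (fun X Y => ⁅X, Y⁆) F ≤ A := by
  obtain ⟨W, hWdef⟩ : ∃ W : Subgroup H, W = (List.ofFn K).foldl (fun X Y => ⁅X, Y⁆) F :=
    ⟨_, rfl⟩
  rw [← hWdef]
  by_contra hWA
  have hl : ∀ M ∈ List.ofFn K, M.Normal := by
    intro M hM
    obtain ⟨j, rfl⟩ := List.mem_ofFn.1 hM
    infer_instance
  have hWn : W.Normal := by
    rw [hWdef]
    exact fk_fold_normal _ F inferInstance hl
  have hWF : W ≤ F := by
    rw [hWdef]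
    exact fk_fold_le _ F inferInstance hl
  have hWK : ∀ j, W ≤ ⁅F, K j⁆ := by
    intro j
    rw [hWdef]
    exact fk_fold_mem _ F F inferInstance le_rfl hl (List.mem_ofFn.2 ⟨j, rfl⟩)
  have hXn : (A ⊔ W).Normal := inferInstance
  have hlt : A < A ⊔ W := by
    refine lt_of_le_of_ne le_sup_left ?_
    intro h
    apply hWA
    rw [h]
    exact le_sup_right
  obtain ⟨X0, hX0n, hAX0, hch⟩ := fk_chief hlt
  have hXF : A ⊔ W ≤ F := sup_le hAF hWF
  have hind := hm X0 (A ⊔ W) hAX0 hXF hch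
  have hFC : F ≤ cen X0 (A ⊔ W) := by
    intro f hf x hx
    apply hAX0
    apply hFF
    exact Subgroup.commutator_mem_commutator hf (hXF hx)
  have hKC : ∀ j, ¬ K j ≤ cen X0 (A ⊔ W) := by
    intro j hj
    exact absurd (fk_claim hq A F hF hab W X0 (K j) hWF hAX0 (hWK j) hj) (not_le_of_gt hch.lt)
  have hcount := perfect_count (Γ := H ⧸ cen X0 (A ⊔ W))
    (fun j => (K j).map (QuotientGroup.mk' (cen X0 (A ⊔ W)))) (by
      intro j hj
      apply hKC j
      rw [Subgroup.map_eq_bot_iff, QuotientGroup.ker_mk'] at hj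
      exact hj) (by
      intro j
      rw [← Subgroup.map_commutator, hp j]) (by
      rintro i k hik _ ⟨a, ha, rfl⟩ _ ⟨b, hb, rfl⟩
      have h1 : a * b * a⁻¹ * b⁻¹ ∈ cen X0 (A ⊔ W) :=
        hFC (hc i k hik (Subgroup.commutator_mem_commutator ha hb))
      have h2 : QuotientGroup.mk' (cen X0 (A ⊔ W)) (a * b * a⁻¹ * b⁻¹) = 1 :=
        (QuotientGroup.eq_one_iff _).2 h1
      rw [map_mul, map_mul, map_mul, map_inv, map_inv, mul_inv_eq_one,
        mul_inv_eq_iff_eq_mul] at h2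
      exact h2)
  rw [← Subgroup.index_eq_card] at hcount
  exact absurd (hcount.trans hind) (not_le_of_gt ht)

end SA
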