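import Pool.Agent.SA.KK

/-! MODULE SA-Fac: the level 2 homomorphism kills only elements killed by all homomorphisms to `H`.
Plan. Level 0: `nu b s w = 1 → φ w ∈ F`: `H ⧸ F` has `k = F.index ≤ b` elements; choose an injection of
`H ⧸ F` into `Fin b`; `H ⧸ F` acts faithfully on itself by left multiplication, so there is an injective
homomorphism `ι : H ⧸ F →* Equiv.Perm (Fin b)` (`Equiv.Perm.viaEmbeddingHom` after `MulAction.toPermHom`); let
`σ j = ι (mk (φ h_j))`; the homomorphisms `ι ∘ mk ∘ φ` and `w ↦ nu b s w σ` agree on letters (`φ z_i ∈ F`), so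
`nu w = 1` gives `mk (φ w) = 1`. Level 1: apply `kk` to `H ⧸ A`, `B = F.map mk` (commutative by `hFF`, exponent `e` by
`hFe`, normal), `p = p0 b s`, `φ' = mk ∘ φ`: `mu1 w = 1 → φ w ∈ A`. Level 2: `kk` with `e = 0` (`a ^ 0 = 1`), `p = p1 e b s`,
`B = A`; hypothesis `h` by `lift_p1` and level 1. (`P1 e b s` is finite: instance for `Mg`.) -/

namespace SA

open scoped commutatorElement

/-- a finite group of order at most `b` embeds into the permutations of `b` points -/
private theorem fac_embed {Q : Type} [Group Q] {b : ℕ} (h0 : Nat.card Q ≠ 0)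
    (hb : Nat.card Q ≤ b) : ∃ ι : Q →* Equiv.Perm (Fin b), Function.Injective ι := by
  have hfin : Finite Q := Nat.finite_of_card_ne_zero h0
  have hf : Fintype Q := Fintype.ofFinite Q
  have hcard : Fintype.card Q ≤ Fintype.card (Fin b) := by
    rw [← Nat.card_eq_fintype_card, Fintype.card_fin]
    exact hb
  obtain ⟨f⟩ := Function.Embedding.nonempty_of_card_le hcard
  refine ⟨(Equiv.Perm.viaEmbeddingHom f).comp (MulAction.toPermHom Q Q), ?_⟩
  rw [MonoidHom.coe_comp]
  refine (Equiv.Perm.viaEmbeddingHom_injective f).comp ?_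
  intro x y hxy
  have h1 := congrArg (fun σ : Equiv.Perm Q => σ 1) hxy
  simp only [MulAction.toPermHom_apply, MulAction.toPerm_apply, smul_eq_mul, mul_one] at h1
  exact h1

/-- level 0 -/
private theorem fac_zero {b s : ℕ} {H : Type} [Group H] (F : Subgroup H) [F.Normal]
    (hF0 : F.index ≠ 0) (hFb : F.index ≤ b) (φ : Gam b s →* H)
    (hφ : ∀ i, φ (FreeGroup.of (Sum.inr i)) ∈ F) (w : Gam b s) (hw : nu b s w = 1) : φ w ∈ F := by
  obtain ⟨ι, hι⟩ := fac_embed (Q := H ⧸ F) (b := b) hF0 hFb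
  let σ : Fin b → Equiv.Perm (Fin b) := fun j =>
    ι (QuotientGroup.mk' F (φ (FreeGroup.of (Sum.inl j))))
  have h1 : (Pi.evalMonoidHom (fun _ : Fin b → Equiv.Perm (Fin b) => Equiv.Perm (Fin b)) σ).comp
      (nu b s) = ι.comp ((QuotientGroup.mk' F).comp φ) := by
    apply FreeGroup.ext_hom
    intro i
    rcases i with j | i
    · simp only [MonoidHom.comp_apply, Pi.evalMonoidHom_apply, nu, FreeGroup.lift_apply_of, p0,
        Sum.elim_inl]
      rfl
    · simp only [MonoidHom.comp_apply, Pi.evalMonoidHom_apply, nu, FreeGroup.lift_apply_of, p0,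
        Sum.elim_inr]
      have h2 : QuotientGroup.mk' F (φ (FreeGroup.of (Sum.inr i))) = 1 := by
        rw [QuotientGroup.mk'_apply, QuotientGroup.eq_one_iff]
        exact hφ i
      rw [h2, map_one]
      rfl
  have h2 := DFunLike.congr_fun h1 w
  simp only [MonoidHom.comp_apply, hw, map_one] at h2
  have h3 : QuotientGroup.mk' F (φ w) = 1 := hι (by rw [← h2, map_one])
  rw [QuotientGroup.mk'_apply, QuotientGroup.eq_one_iff] at h3
  exact h3

/-- level 1 -/
private theorem fac_one {e b s : ℕ} {H : Type} [Group H] (A F : Subgroup H) [A.Normal]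
    [F.Normal] (hFF : ⁅F, F⁆ ≤ A)
    (hFe : ∀ x ∈ F, x ^ e ∈ A) (hF0 : F.index ≠ 0) (hFb : F.index ≤ b) (φ : Gam b s →* H)
    (hφ : ∀ i, φ (FreeGroup.of (Sum.inr i)) ∈ F) (w : Gam b s) (hw : mu1 e b s w = 1) :
    φ w ∈ A := by
  have hBn : (F.map (QuotientGroup.mk' A)).Normal :=
    Subgroup.Normal.map inferInstance _ (QuotientGroup.mk'_surjective A)
  have h1 : ((QuotientGroup.mk' A).comp φ) w = 1 := by
    refine kk (e := e) (p0 b s) (F.map (QuotientGroup.mk' A)) ?_ ?_ ((QuotientGroup.mk' A).comp φ)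
      ?_ w hw
    · rintro _ ⟨x, hx, rfl⟩ _ ⟨y, hy, rfl⟩
      rw [← map_mul, ← map_mul, QuotientGroup.mk'_apply, QuotientGroup.mk'_apply,
        QuotientGroup.eq]
      have h2 : (x * y)⁻¹ * (y * x) = ⁅y⁻¹, x⁻¹⁆ := by
        rw [commutatorElement_def]
        group
      rw [h2]
      exact hFF (Subgroup.commutator_mem_commutator (F.inv_mem hy) (F.inv_mem hx))
    · rintro _ ⟨x, hx, rfl⟩
      rw [← map_pow, QuotientGroup.mk'_apply, QuotientGroup.eq_one_iff]
      exact hFe x hx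
    · intro v hv
      exact ⟨φ v, fac_zero F hF0 hFb φ hφ v hv, rfl⟩
  rw [MonoidHom.comp_apply, QuotientGroup.mk'_apply, QuotientGroup.eq_one_iff] at h1
  exact h1

theorem fac {e b s : ℕ} [NeZero e] {H : Type} [Group H] (A F : Subgroup H) [A.Normal] [F.Normal]
    (hAF : A ≤ F) (hA : ∀ x ∈ A, ∀ y ∈ A, x * y = y * x) (hFF : ⁅F, F⁆ ≤ A)
    (hFe : ∀ x ∈ F, x ^ e ∈ A) (hF0 : F.index ≠ 0) (hFb : F.index ≤ b) (φ : Gam b s →* H)
    (hφ : ∀ i, φ (FreeGroup.of (Sum.inr i)) ∈ F) (w : Gam b s) (hw : mu2 e b s w = 1) :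
    φ w = 1 := by
  refine kk (e := 0) (p1 e b s) A hA (fun a _ => pow_zero a) φ ?_ w hw
  intro v hv
  rw [lift_p1] at hv
  exact fac_one A F hFF hFe hF0 hFb φ hφ v hv

end SA
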