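import Pool.Agent.SA.BasicA

/-! MODULE SA-Fb: for every `n` the `n`-variable laws of `G` are finitely based.
`K = LawN n G`, `R = LawN n (G ⧸ A)`: `R` has finite index, so it is finitely generated, `⁅R, R⁆ ≤ K ≤ R`
and the image of `K` in the abelianization of `R` is finitely generated. -/

namespace SA

variable {G : Type} [Group G]

open scoped commutatorElement

private theorem fb_lift_mk (A : Subgroup G) [A.Normal] {n : ℕ} (w : FreeGroup (Fin n))
    (f : Fin n → G) :
    ((FreeGroup.lift f w : G) : G ⧸ A) = FreeGroup.lift (fun i => (f i : G ⧸ A)) w := by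
  have h : (QuotientGroup.mk' A).comp (FreeGroup.lift f) =
      FreeGroup.lift (fun i => (f i : G ⧸ A)) := by
    apply FreeGroup.ext_hom
    intro i
    simp
  exact DFunLike.congr_fun h w

private theorem fb_mem_A (A : Subgroup G) [A.Normal] {n : ℕ} {w : FreeGroup (Fin n)}
    (hw : w ∈ LawN n (G ⧸ A)) (f : Fin n → G) : FreeGroup.lift f w ∈ A := by
  rw [← QuotientGroup.eq_one_iff, fb_lift_mk]
  exact hw _

private theorem fb_KR (A : Subgroup G) [A.Normal] (n : ℕ) : LawN n G ≤ LawN n (G ⧸ A) := by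
  intro w hw f
  have h := fb_lift_mk A w (fun i => (f i).out)
  rw [hw _] at h
  have e : (fun i => (((f i).out : G) : G ⧸ A)) = f := funext fun i => QuotientGroup.out_eq' _
  rw [e] at h
  exact h.symm

private theorem fb_comm (A : Subgroup G) [A.Normal] (hA : ∀ a ∈ A, ∀ b ∈ A, a * b = b * a) (n : ℕ) :
    ⁅LawN n (G ⧸ A), LawN n (G ⧸ A)⁆ ≤ LawN n G := by
  rw [Subgroup.commutator_le]
  intro a ha b hb f
  rw [map_commutatorElement, commutatorElement_eq_one_iff_mul_comm]
  exact hA _ (fb_mem_A A ha f) _ (fb_mem_A A hb f)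

private theorem fb_index (A : Subgroup G) [A.Normal] [A.FiniteIndex] (n : ℕ) :
    (LawN n (G ⧸ A)).FiniteIndex := by
  have h : LawN n (G ⧸ A) = (evl n (G ⧸ A)).ker := by
    ext w
    rw [mem_LawN, MonoidHom.mem_ker]
    constructor
    · intro h
      funext φ
      rw [evl_apply]
      exact h φ
    · intro h φ
      rw [← evl_apply, h]
      rfl
  rw [h]
  infer_instance

private theorem fb_fg {B : Type} [CommGroup B] [Group.FG B] (S : Subgroup B) : S.FG := by
  rw [Subgroup.fg_iff_add_fg]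
  have h1 : Module.Finite ℤ (Additive B) := Module.Finite.iff_addGroup_fg.mpr inferInstance
  have h2 : IsNoetherian ℤ (Additive B) := inferInstance
  rw [← AddSubgroup.toIntSubmodule_toAddSubgroup (Subgroup.toAddSubgroup S),
    ← Submodule.fg_iff_addSubgroup_fg]
  exact IsNoetherian.noetherian _

private theorem fb_S1 {F : Type} [Group F] (R K : Subgroup F) (hR : Group.FG R) (hK : K ≤ R) :
    ∃ S1 : Finset F, (∀ w ∈ S1, w ∈ K) ∧
      ∀ k ∈ K, ∃ s ∈ Subgroup.closure (S1 : Set F), s⁻¹ * k ∈ ⁅R, R⁆ := by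
  classical
  have hfg : Group.FG (Abelianization R) :=
    Group.fg_of_surjective (f := (Abelianization.of : R →* Abelianization R))
      QuotientGroup.mk_surjective
  obtain ⟨T, hT⟩ := fb_fg ((K.subgroupOf R).map (Abelianization.of : R →* Abelianization R))
  have hsub : (T : Set (Abelianization R)) ⊆
      (Abelianization.of : R →* Abelianization R) '' (K.subgroupOf R : Set R) := by
    rw [← Subgroup.coe_map, ← hT]
    exact Subgroup.subset_closure
  obtain ⟨T', hT1, hT2⟩ := Finset.subset_set_image_iff.1 hsub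
  refine ⟨T'.image R.subtype, ?_, ?_⟩
  · intro w hw
    obtain ⟨t, ht, rfl⟩ := Finset.mem_image.1 hw
    exact Subgroup.mem_subgroupOf.1 (hT1 ht)
  · intro k hk
    have h1 : (Abelianization.of : R →* Abelianization R) ⟨k, hK hk⟩ ∈
        (K.subgroupOf R).map (Abelianization.of : R →* Abelianization R) :=
      Subgroup.mem_map_of_mem _ (Subgroup.mem_subgroupOf.2 hk)
    rw [← hT, ← hT2, Finset.coe_image, ← MonoidHom.map_closure] at h1
    obtain ⟨s, hs, hsk⟩ := h1
    refine ⟨s, ?_, ?_⟩
    · rw [Finset.coe_image, ← MonoidHom.map_closure]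
      exact ⟨s, hs, rfl⟩
    · have h2 : s⁻¹ * ⟨k, hK hk⟩ ∈ (Abelianization.of : R →* Abelianization R).ker := by
        rw [MonoidHom.mem_ker, map_mul, map_inv, hsk, inv_mul_cancel]
      rw [Abelianization.ker_of] at h2
      rw [← Subgroup.map_subtype_commutator]
      exact ⟨_, h2, rfl⟩

private theorem fb_S2 {F : Type} [Group F] (T : Set F) (N : Subgroup F) [N.Normal]
    (h : ∀ a ∈ T, ∀ b ∈ T, ⁅a, b⁆ ∈ N) :
    ⁅Subgroup.closure T, Subgroup.closure T⁆ ≤ N := by
  have key : ∀ a b : F, ⁅a, b⁆ ∈ N ↔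
      Commute (QuotientGroup.mk' N a) (QuotientGroup.mk' N b) := by
    intro a b
    rw [← commutatorElement_eq_one_iff_commute, ← map_commutatorElement]
    exact (QuotientGroup.eq_one_iff _).symm
  rw [Subgroup.commutator_le]
  intro a ha b hb
  rw [key]
  have h1 : ∀ b ∈ T, Commute (QuotientGroup.mk' N a) (QuotientGroup.mk' N b) := by
    intro b hb
    induction ha using Subgroup.closure_induction with
    | mem x hx => exact (key x b).1 (h x hx b hb)
    | one => rw [map_one]; exact Commute.one_left _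
    | mul x y _ _ hx hy => rw [map_mul]; exact hx.mul_left hy
    | inv x _ hx => rw [map_inv]; exact hx.inv_left
  induction hb using Subgroup.closure_induction with
  | mem x hx => exact h1 x hx
  | one => rw [map_one]; exact Commute.one_right _
  | mul x y _ _ hx hy => rw [map_mul]; exact hx.mul_right hy
  | inv x _ hx => rw [map_inv]; exact hx.inv_right

private theorem fb_normal (n : ℕ) (H : Type) [Group H] : (LawN n H).Normal := by
  constructor
  intro w hw g f
  rw [map_mul, map_mul, map_inv, hw f, mul_one, mul_inv_cancel]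

theorem exists_finset_laws (A : Subgroup G) [A.Normal] [A.FiniteIndex]
    (hA : ∀ a ∈ A, ∀ b ∈ A, a * b = b * a) (n : ℕ) :
    ∃ S : Finset (FreeGroup (Fin n)), (∀ w ∈ S, w ∈ LawN n G) ∧
      ∀ (H : Type) [Group H], (∀ w ∈ S, w ∈ LawN n H) → Loc n G H := by
  classical
  have hI := fb_index A n
  have hfg : Group.FG (LawN n (G ⧸ A)) := inferInstance
  obtain ⟨S1, hS1, hS1'⟩ := fb_S1 (LawN n (G ⧸ A)) (LawN n G) hfg (fb_KR A n)
  obtain ⟨T, hT⟩ := (Group.fg_iff_subgroup_fg _).1 hfg
  have hTR : ∀ t ∈ T, t ∈ LawN n (G ⧸ A) := by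
    intro t ht
    rw [← hT]
    exact Subgroup.subset_closure ht
  refine ⟨S1 ∪ (T ×ˢ T).image (fun p => ⁅p.1, p.2⁆), ?_, ?_⟩
  · intro w hw
    rcases Finset.mem_union.1 hw with hw | hw
    · exact hS1 w hw
    · obtain ⟨p, hp, rfl⟩ := Finset.mem_image.1 hw
      obtain ⟨hp1, hp2⟩ := Finset.mem_product.1 hp
      exact fb_comm A hA n (Subgroup.commutator_mem_commutator (hTR _ hp1) (hTR _ hp2))
  · intro H _ hH
    have hN := fb_normal n H
    have h2 : ⁅LawN n (G ⧸ A), LawN n (G ⧸ A)⁆ ≤ LawN n H := by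
      rw [← hT]
      refine fb_S2 _ _ fun a ha b hb => hH _ (Finset.mem_union_right _ ?_)
      exact Finset.mem_image.2 ⟨(a, b), Finset.mem_product.2 ⟨ha, hb⟩, rfl⟩
    intro k hk
    obtain ⟨s, hs, hsk⟩ := hS1' k hk
    have h3 : s ∈ LawN n H := by
      refine (Subgroup.closure_le _).2 ?_ hs
      intro w hw
      exact hH w (Finset.mem_union_left _ hw)
    have h4 := (LawN n H).mul_mem h3 (h2 hsk)
    rwa [mul_inv_cancel_left] at h4

end SA
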