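import Pool.Agent.SA.Defs

/-! MODULE SA-FinS: a finitely generated solvable group of finite exponent is finite.
Plan. Induction on the derived length (`Group.IsSolvable`, `derivedSeries`; e.g. prove for all `n` and all
groups with `derivedSeries H n = ⊥`). `H ⧸ commutator H = Abelianization H` is a finitely generated torsion
commutative group, so finite (`CommGroup.finite_of_fg_torsion`). So `commutator H` has finite index,
is finitely generated (`Subgroup.fg_of_index_ne_zero`), solvable of smaller derived length, exponent
`m`: finite by induction. A group with a finite normal subgroup of finite index is finite. -/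

namespace SA

private theorem fins_map (H : Type) [Group H] (n : ℕ) :
    (derivedSeries (commutator H) n).map (commutator H).subtype = derivedSeries H (n + 1) := by
  induction n with
  | zero =>
    rw [derivedSeries_zero, ← MonoidHom.range_eq_map, Subgroup.range_subtype, zero_add,
      derivedSeries_one]
  | succ n ih =>
    rw [derivedSeries_succ, Subgroup.map_commutator, ih, derivedSeries_succ H (n + 1)]

private theorem fins_aux (m : ℕ) (hm : 0 < m) (n : ℕ) : ∀ (H : Type) [Group H] [Group.FG H],
    derivedSeries H n = ⊥ → (∀ x : H, x ^ m = 1) → Finite H := by
  induction n with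
  | zero =>
    intro H _ _ h0 _
    rw [derivedSeries_zero] at h0
    have h1 : Subsingleton H := by
      refine ⟨fun x y => ?_⟩
      have hx : x ∈ (⊥ : Subgroup H) := by rw [← h0]; exact Subgroup.mem_top x
      have hy : y ∈ (⊥ : Subgroup H) := by rw [← h0]; exact Subgroup.mem_top y
      rw [Subgroup.mem_bot] at hx hy
      rw [hx, hy]
    infer_instance
  | succ n ih =>
    intro H _ _ h0 hexp
    have hA : Finite (Abelianization H) := by
      have hFG : Group.FG (Abelianization H) :=
        Group.fg_of_surjective (f := (Abelianization.of : H →* Abelianization H))
          (QuotientGroup.mk'_surjective _)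
      refine CommGroup.finite_of_fg_isMulTorsion (Abelianization H) ?_
      intro x
      have hs : Function.Surjective (Abelianization.of : H →* Abelianization H) :=
        QuotientGroup.mk'_surjective _
      obtain ⟨y, hy⟩ := hs x
      rw [isOfFinOrder_iff_pow_eq_one]
      refine ⟨m, hm, ?_⟩
      rw [← hy, ← map_pow, hexp y, map_one]
    have hfin : (commutator H).FiniteIndex := by
      have : Finite (H ⧸ commutator H) := hA
      exact Subgroup.finiteIndex_of_finite_quotient
    have hC : Finite (commutator H) := by
      refine ih (commutator H) ?_ ?_
      · have h1 := fins_map H n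
        rw [h0] at h1
        exact (Subgroup.map_eq_bot_iff_of_injective _ (Subgroup.subtype_injective _)).1 h1
      · intro x
        exact Subtype.ext (by rw [Subgroup.coe_pow, hexp]; rfl)
    have hcard : Nat.card H ≠ 0 := by
      rw [← Subgroup.card_mul_index (commutator H)]
      exact Nat.mul_ne_zero Nat.card_pos.ne' hfin.index_ne_zero
    exact Nat.finite_of_card_ne_zero hcard

theorem finite_of_fg (H : Type) [Group H] [Group.FG H] [Group.IsSolvable H] (m : ℕ) (hm : 0 < m)
    (h : ∀ x : H, x ^ m = 1) : Finite H := by
  obtain ⟨n, hn⟩ := Group.IsSolvable.solvable (G := H)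
  exact fins_aux m hm n H hn h

end SA
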