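import Pool.Agent.SA.Defs

/-! MODULE SA-JI: just infinite quotients.
Plan. Zorn's lemma (`zorn_le_nonempty₀` or `zorn_subset`) for the set of normal subgroups `N` of infinite index
(`N.index = 0`; contains `⊥` since `K` is infinite) ordered by inclusion. The union of a nonempty chain (`sSup`,
directed: `Subgroup.mem_sSup_of_directedOn`) is a normal subgroup `U`; if it had finite index it would be finitely
generated (`Subgroup.fg_of_index_ne_zero`, `Group.FG K`), so its finitely many generators lie in one member `N` of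
the chain, `U = N` has infinite index, contradiction. A maximal element `N` has the property. `K ⧸ N` infinite:
`N.index = 0` (`Subgroup.index = Nat.card (K ⧸ N)`). -/

namespace SA

private theorem ji_fin {K : Type} [Group K] (c : Set (Subgroup K)) (hne : c.Nonempty)
    (hc : DirectedOn (· ≤ ·) c) (S : Finset K) (hS : (S : Set K) ⊆ (sSup c : Subgroup K)) :
    ∃ N ∈ c, (S : Set K) ⊆ (N : Set K) := by
  classical
  induction S using Finset.induction_on with
  | empty =>
    obtain ⟨N, hN⟩ := hne
    exact ⟨N, hN, by simp⟩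
  | insert a S ha ih =>
    obtain ⟨N, hN, h1⟩ := ih (fun x hx => hS (by
      rw [Finset.coe_insert]
      exact Set.mem_insert_of_mem _ hx))
    have h2 : a ∈ (sSup c : Subgroup K) := hS (by
      rw [Finset.coe_insert]
      exact Set.mem_insert _ _)
    obtain ⟨M, hM, h3⟩ := (Subgroup.mem_sSup_of_directedOn hne hc).1 h2
    obtain ⟨P, hP, h4, h5⟩ := hc N hN M hM
    refine ⟨P, hP, fun x hx => ?_⟩
    rw [Finset.coe_insert] at hx
    rcases hx with hx | hx
    · rw [hx]
      exact h5 h3
    · exact h4 (h1 hx)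

theorem exists_just_infinite (K : Type) [Group K] [Group.FG K] [Infinite K] :
    ∃ N : Subgroup K, N.Normal ∧ N.index = 0 ∧
      ∀ M : Subgroup K, M.Normal → N < M → M.index ≠ 0 := by
  classical
  have h0 := zorn_le_nonempty₀ {N : Subgroup K | N.Normal ∧ N.index = 0} (fun c hc hchain y hy => by
    have hne : c.Nonempty := ⟨y, hy⟩
    have hdir : DirectedOn (· ≤ ·) c := hchain.directedOn
    refine ⟨sSup c, ⟨?_, ?_⟩, fun z hz => le_sSup hz⟩
    · refine ⟨fun n hn g => ?_⟩
      obtain ⟨N, hN, h1⟩ := (Subgroup.mem_sSup_of_directedOn hne hdir).1 hn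
      exact (Subgroup.mem_sSup_of_directedOn hne hdir).2 ⟨N, hN, (hc hN).1.conj_mem n h1 g⟩
    · by_contra hidx
      have hfi : (sSup c).FiniteIndex := ⟨hidx⟩
      have h2 : (sSup c).FG := (Group.fg_iff_subgroup_fg _).1 (Subgroup.fg_of_index_ne_zero (sSup c))
      obtain ⟨S, hS⟩ := h2
      obtain ⟨N, hN, h3⟩ := ji_fin c hne hdir S (by
        rw [← hS]
        exact Subgroup.subset_closure)
      have h4 : sSup c ≤ N := by
        rw [← hS, Subgroup.closure_le]
        exact h3
      have h5 : sSup c = N := le_antisymm h4 (le_sSup hN)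
      apply hidx
      rw [h5]
      exact (hc hN).2) ⊥ ⟨inferInstance, by rw [Subgroup.index_bot]; exact Nat.card_eq_zero_of_infinite⟩
  obtain ⟨N, _, hN⟩ := h0
  refine ⟨N, hN.prop.1, hN.prop.2, fun M hM hlt hidx => ?_⟩
  exact absurd (hN.le_of_ge ⟨hM, hidx⟩ hlt.le) (not_le_of_gt hlt)

end SA
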