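import Pool.Agent.SA.BasicA

/-! MODULE SA-Qg: groups all of whose `q`-subgroups are abelian.
Plan. `qAb_pi`: the image of a `q`-subgroup `P` of `S → Q` under an evaluation is a `q`-subgroup of `Q`
(`IsPGroup.map`), so the coordinates commute. `qAb_of_loc`: let `P` be a `q`-subgroup of `K`, `x y ∈ P`.
`u = ![x, y]`, `α = lift u : FreeGroup (Fin 2) →* K`, `β = evl 2 Q : FreeGroup (Fin 2) →* ((Fin 2 → Q) → Q)`,
finite target, `ker β = LawN 2 Q ≤ LawN 2 K ≤ ker α`. `D = range β` is a finite group, `α` factors through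
a homomorphism `θ : D → K` (`QuotientGroup.lift`, or `MonoidHom.liftOfRightInverse`), whose range is
`closure {x, y} ≤ P`, a `q`-group. Let `S` be a Sylow `q`-subgroup of `D`; `θ` maps `S` onto the range
(`q`-group): e.g. `Sylow.mapSurjective`, `θ(S)` is a Sylow subgroup of the `q`-group `range θ`, so everything
(index of `θ(S)` in `range θ` divides the index of `S`, prime to `q`, and is a power of `q`). `S` maps to a
`q`-subgroup of the function group (commutative by `qAb_pi`), so `θ(S)` is commutative and `x y = y x`.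
`qAb_quot`: quotients: a `q`-subgroup of the finite group `K ⧸ N` is the image of a `q`-subgroup
(Sylow subgroup of the preimage), same argument. -/

namespace SA

variable {Q K : Type} [Group Q] [Group K] {q : ℕ}

theorem qAb_pi (hQ : QAb q Q) (S : Type) : QAb q (S → Q) := by
  intro P hP x hx y hy
  funext s
  have h1 : IsPGroup q (P.map (Pi.evalMonoidHom (fun _ : S => Q) s)) := hP.map _
  exact hQ _ h1 (x s) ⟨x, hx, rfl⟩ (y s) ⟨y, hy, rfl⟩

theorem qAb_of_loc [Finite Q] (hq : q.Prime) (hQ : QAb q Q) [Finite K] (hL : Loc 2 Q K) :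
    QAb q K := by
  haveI : Fact q.Prime := ⟨hq⟩
  intro P hP x hx y hy
  obtain ⟨u, hu⟩ : ∃ u : Fin 2 → K, u = ![x, y] := ⟨_, rfl⟩
  obtain ⟨α, hα⟩ : ∃ α : FreeGroup (Fin 2) →* K, α = FreeGroup.lift u := ⟨_, rfl⟩
  obtain ⟨β, hβ⟩ : ∃ β : FreeGroup (Fin 2) →* ((Fin 2 → Q) → Q), β = evl 2 Q := ⟨_, rfl⟩
  have hker : β.rangeRestrict.ker ≤ α.ker := by
    intro w hw
    rw [MonoidHom.ker_rangeRestrict, MonoidHom.mem_ker, hβ] at hw
    have h1 : w ∈ LawN 2 Q := by
      rw [mem_LawN]
      intro f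
      have h2 := congrFun hw f
      rw [evl_apply] at h2
      exact h2
    have h3 := hL h1
    rw [MonoidHom.mem_ker, hα]
    exact h3 u
  obtain ⟨θ, hθ⟩ : ∃ θ : β.range →* K, θ.comp β.rangeRestrict = α := by
    refine ⟨MonoidHom.liftOfSurjective β.rangeRestrict β.rangeRestrict_surjective ⟨α, hker⟩, ?_⟩
    exact MonoidHom.liftOfRightInverse_comp _ _ _ _
  have hθ' : ∀ w, θ (β.rangeRestrict w) = α w := fun w => DFunLike.congr_fun hθ w
  -- the range of `θ` is a `q`-group
  have hrange : θ.range ≤ P := by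
    rintro _ ⟨d, rfl⟩
    obtain ⟨w, rfl⟩ := β.rangeRestrict_surjective d
    rw [hθ', hα]
    have h1 : (FreeGroup.lift u).range ≤ P := by
      apply FreeGroup.range_lift_le
      rintro _ ⟨i, rfl⟩
      rw [hu]
      fin_cases i
      · exact hx
      · exact hy
    exact h1 ⟨w, rfl⟩
  have hrp : IsPGroup q θ.range := hP.to_le hrange
  haveI : Finite β.range := inferInstance
  obtain ⟨S⟩ : Nonempty (Sylow q β.range) := inferInstance
  have hSmap : (S : Subgroup β.range).map θ.rangeRestrict = ⊤ := by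
    rw [← Subgroup.index_eq_one]
    have h1 : ((S : Subgroup β.range).map θ.rangeRestrict).index ∣
        (S : Subgroup β.range).index :=
      Subgroup.index_map_dvd _ θ.rangeRestrict_surjective
    have h2 := S.not_dvd_index
    obtain ⟨n, hn⟩ := hrp.index ((S : Subgroup β.range).map θ.rangeRestrict)
    rw [hn] at h1 ⊢
    rcases Nat.eq_zero_or_pos n with h3 | h3
    · rw [h3, pow_zero]
    · exact absurd ((dvd_pow_self q h3.ne').trans h1) h2
  have hpre : ∀ z ∈ θ.range, ∃ a : β.range, a ∈ (S : Subgroup β.range) ∧ θ a = z := by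
    intro z hz
    have h1 : (⟨z, hz⟩ : θ.range) ∈ (S : Subgroup β.range).map θ.rangeRestrict := by
      rw [hSmap]
      exact Subgroup.mem_top _
    obtain ⟨a, ha, haz⟩ := h1
    exact ⟨a, ha, congrArg Subtype.val haz⟩
  have hxr : x ∈ θ.range := by
    refine ⟨β.rangeRestrict (FreeGroup.of 0), ?_⟩
    rw [hθ', hα, FreeGroup.lift_apply_of, hu]
    rfl
  have hyr : y ∈ θ.range := by
    refine ⟨β.rangeRestrict (FreeGroup.of 1), ?_⟩
    rw [hθ', hα, FreeGroup.lift_apply_of, hu]
    rfl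
  obtain ⟨a, ha, hax⟩ := hpre x hxr
  obtain ⟨b, hb, hby⟩ := hpre y hyr
  have hcomm : (a : (Fin 2 → Q) → Q) * b = b * a := by
    have h1 : IsPGroup q ((S : Subgroup β.range).map β.range.subtype) := S.isPGroup'.map _
    exact qAb_pi hQ (Fin 2 → Q) _ h1 a ⟨a, ha, rfl⟩ b ⟨b, hb, rfl⟩
  have hab : a * b = b * a := Subtype.ext hcomm
  rw [← hax, ← hby, ← map_mul, hab, map_mul]

end SA
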