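import Pool.Agent.SA.Defs

/-! MODULE SA-Small: a subgroup of finite index inside all normal subgroups of small index: the
intersection of the kernels of all homomorphisms to the symmetric group of degree `m`. -/

namespace SA

private theorem finite_hom (K : Type) [Group K] [Group.FG K] (m : ℕ) :
    Finite (K →* Equiv.Perm (Fin m)) := by
  obtain ⟨S, hS⟩ := (Group.fg_def.1 ‹Group.FG K›)
  refine Finite.of_injective (fun φ : K →* Equiv.Perm (Fin m) => fun s : S => φ s.1) ?_
  intro φ ψ h
  refine MonoidHom.eq_of_eqOn_dense hS ?_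
  intro x hx
  exact congrFun h ⟨x, hx⟩

theorem exists_small (K : Type) [Group K] [Group.FG K] (m : ℕ) :
    ∃ D : Subgroup K, D.Normal ∧ D.index ≠ 0 ∧
      ∀ N : Subgroup K, N.Normal → N.index ≠ 0 → N.index ≤ m → D ≤ N := by
  have := finite_hom K m
  refine ⟨⨅ φ : K →* Equiv.Perm (Fin m), φ.ker, ?_, ?_, ?_⟩
  · exact Subgroup.normal_iInf_normal fun φ => inferInstance
  · have : (⨅ φ : K →* Equiv.Perm (Fin m), φ.ker).FiniteIndex :=
      Subgroup.finiteIndex_iInf fun φ => inferInstance
    exact this.index_ne_zero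
  · intro N hN h0 hm
    have hfi : N.FiniteIndex := ⟨h0⟩
    have hfin : Finite (K ⧸ N) := Subgroup.finite_quotient_of_finiteIndex
    have : Fintype (K ⧸ N) := Fintype.ofFinite _
    have hc : Fintype.card (K ⧸ N) ≤ Fintype.card (Fin m) := by
      rw [Fintype.card_fin, ← Nat.card_eq_fintype_card]
      exact hm
    obtain ⟨f⟩ := Function.Embedding.nonempty_of_card_le hc
    let φ : K →* Equiv.Perm (Fin m) :=
      ((Equiv.Perm.viaEmbeddingHom f).comp (MulAction.toPermHom (K ⧸ N) (K ⧸ N))).comp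
        (QuotientGroup.mk' N)
    intro x hx
    have h1 : x ∈ φ.ker := (Subgroup.mem_iInf.1 hx) φ
    have h2 : Equiv.Perm.viaEmbeddingHom f (MulAction.toPermHom (K ⧸ N) (K ⧸ N)
        (QuotientGroup.mk' N x)) = 1 := h1
    have h3 : MulAction.toPermHom (K ⧸ N) (K ⧸ N) (QuotientGroup.mk' N x) = 1 :=
      Equiv.Perm.viaEmbeddingHom_injective f (h2.trans (map_one _).symm)
    have h5 : MulAction.toPermHom (K ⧸ N) (K ⧸ N) (QuotientGroup.mk' N x) =
        MulAction.toPermHom (K ⧸ N) (K ⧸ N) 1 := h3.trans (map_one _).symm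
    have h4 : QuotientGroup.mk' N x = 1 := MulAction.toPerm_injective h5
    exact (QuotientGroup.eq_one_iff x).1 h4

end SA
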