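import Pool.Agent.SA.Ver
import Pool.Agent.SA.ChinL
import Pool.Agent.SA.ChinF
import Pool.Agent.SA.JI
import Pool.Agent.SA.AbC
import Pool.Agent.SA.Small
import Pool.Agent.SA.Qg
import Pool.Agent.SA.FinS

/-! Finitely generated groups satisfying enough laws of `G ⧸ A` are finite: reduction to just
infinite groups, where the intersection of the nontrivial normal subgroups is treated. -/

namespace SA

variable {G : Type} [Group G]

private theorem fq_ver (n0 : ℕ) (Q K : Type) [Group Q] [Group K] (hL : Loc n0 Q K) :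
    ver n0 Q K = ⊥ := by
  rw [ver_eq_closure, Subgroup.closure_eq_bot_iff]
  rintro _ ⟨v, hv, f, rfl⟩
  exact hL hv f

private theorem fq_cen (A : Subgroup G) [A.Normal] [A.FiniteIndex] {n0 : ℕ}
    (hn0 : 1 + (A.index + 1) + (A.index + 1) * (A.index + 1) ≤ n0) (K : Type) [Group K]
    (hL : Loc n0 (G ⧸ A) K) (F0 F1 : Subgroup K) [F0.Normal] [F1.Normal]
    (hch : IsChief F0 F1) : (cen F0 F1).index ≠ 0 ∧ (cen F0 F1).index ≤ A.index := by
  obtain ⟨y, hy, hy0⟩ := SetLike.exists_of_lt hch.lt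
  refine index_cen_fin F0 F1 hch hy hy0 fun x z => ?_
  have h1 := chin_mem_ver A rfl hn0 y x z
  rw [fq_ver n0 _ K hL, Subgroup.mem_bot] at h1
  rw [h1]
  exact F0.one_mem

private theorem fq_exp (A : Subgroup G) [A.Normal] {n0 : ℕ} (h2 : 2 ≤ n0) (K : Type) [Group K]
    (hL : Loc n0 (G ⧸ A) K) (x : K) : x ^ A.index = 1 := by
  have h1 := loc_of_type (α := Unit) (by
    rw [Nat.card_unique]
    omega) hL (FreeGroup.of () ^ A.index) (by
    intro f
    rw [map_pow, FreeGroup.lift_apply_of]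
    exact pow_card_eq_one') (fun _ => x)
  rw [map_pow, FreeGroup.lift_apply_of] at h1
  exact h1

private theorem fq_comm (K : Type) [Group K] [Group.FG K] [Infinite K] {m : ℕ} (hm : 0 < m)
    (hexp : ∀ x : K, x ^ m = 1) (D : Subgroup K) (hD : D.index ≠ 0)
    (hc : ∀ x ∈ D, ∀ y ∈ D, x * y = y * x) : False := by
  have hfi : D.FiniteIndex := ⟨hD⟩
  have hfg : Group.FG D := inferInstance
  have hs : Group.IsSolvable D := Group.isSolvable_of_comm fun a b =>
    Subtype.ext (hc a a.2 b b.2)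
  have hfin : Finite D := finite_of_fg D m hm fun x => Subtype.ext (by
    rw [Subgroup.coe_pow, hexp]
    rfl)
  have hcard : Nat.card K ≠ 0 := by
    rw [← Subgroup.card_mul_index D]
    exact Nat.mul_ne_zero Nat.card_pos.ne' hD
  exact not_finite_iff_infinite.2 ‹Infinite K› (Nat.finite_of_card_ne_zero hcard)

private theorem fq_core (A : Subgroup G) [A.Normal] [A.FiniteIndex]
    (hQ : ∀ q : ℕ, q.Prime → QAb q (G ⧸ A)) {n0 : ℕ} (h2 : 2 ≤ n0)
    (hn0 : 1 + (A.index + 1) + (A.index + 1) * (A.index + 1) ≤ n0) (K : Type) [Group K]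
    [Group.FG K] [Infinite K] (hL : Loc n0 (G ⧸ A) K)
    (hJ : ∀ M : Subgroup K, M.Normal → M ≠ ⊥ → M.index ≠ 0) : False := by
  have hm : 0 < A.index := Nat.pos_of_ne_zero Subgroup.FiniteIndex.index_ne_zero
  have hexp := fq_exp A h2 K hL
  set R : Subgroup K := sInf {M | M.Normal ∧ M ≠ ⊥} with hR
  have hRn : R.Normal := by
    constructor
    intro x hx g
    rw [hR, Subgroup.mem_sInf] at hx ⊢
    intro M hM
    exact hM.1.conj_mem x (hx M hM) g
  by_cases hR0 : R = ⊥
  · obtain ⟨D, hDn, hDi, hD⟩ := exists_small K A.index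
    refine fq_comm K hm hexp D hDi fun x hx y hy => ?_
    have h1 : x * y * x⁻¹ * y⁻¹ ∈ R := by
      rw [hR, Subgroup.mem_sInf]
      rintro L ⟨hLn, hL0⟩
      have hLi := hJ L hLn hL0
      have hLf : L.FiniteIndex := ⟨hLi⟩
      have hfin : Finite (K ⧸ L) := inferInstance
      have hfinA : Finite (G ⧸ A) := inferInstance
      have hLQ : Loc n0 (G ⧸ A) (K ⧸ L) :=
        loc_surj (QuotientGroup.mk' L) (QuotientGroup.mk'_surjective L) hL
      have hDn' : (D.map (QuotientGroup.mk' L)).Normal :=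
        Subgroup.Normal.map hDn _ (QuotientGroup.mk'_surjective L)
      have h3 := abelian_of_cen (K ⧸ L)
        (fun q hq => qAb_of_loc hq (hQ q hq) (loc_mono h2 hLQ))
        (D.map (QuotientGroup.mk' L)) (by
          intro F0 F1 hF0 hF1 hch
          obtain ⟨h4, h5⟩ := fq_cen A hn0 (K ⧸ L) hLQ F0 F1 hch
          rw [Subgroup.map_le_iff_le_comap]
          have h6 : ((cen F0 F1).comap (QuotientGroup.mk' L)).index = (cen F0 F1).index :=
            Subgroup.index_comap_of_surjective _ (QuotientGroup.mk'_surjective L)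
          refine hD _ inferInstance ?_ ?_
          · rw [h6]
            exact h4
          · rw [h6]
            exact h5)
        (QuotientGroup.mk' L x) ⟨x, hx, rfl⟩ (QuotientGroup.mk' L y) ⟨y, hy, rfl⟩
      rw [← QuotientGroup.ker_mk' L, MonoidHom.mem_ker, map_mul, map_mul, map_mul, map_inv,
        map_inv, h3]
      group
    rw [hR0, Subgroup.mem_bot, mul_inv_eq_one, mul_inv_eq_iff_eq_mul] at h1
    exact h1
  · have hch : IsChief (⊥ : Subgroup K) R := by
      refine ⟨bot_lt_iff_ne_bot.2 hR0, fun X hX _ hXR => ?_⟩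
      by_cases hX0 : X = ⊥
      · exact Or.inl hX0
      · exact Or.inr (le_antisymm hXR (sInf_le ⟨hX, hX0⟩))
    obtain ⟨h4, _⟩ := fq_cen A hn0 K hL ⊥ R hch
    have hC0 : cen ⊥ R ≠ ⊥ := by
      intro h
      rw [h, Subgroup.index_bot] at h4
      exact h4 Nat.card_eq_zero_of_infinite
    have hRC : R ≤ cen ⊥ R := sInf_le ⟨inferInstance, hC0⟩
    refine fq_comm K hm hexp R (hJ R hRn hR0) fun x hx y hy => ?_
    have h1 := hRC hx y hy
    rw [Subgroup.mem_bot, mul_inv_eq_one, mul_inv_eq_iff_eq_mul] at h1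
    exact h1

theorem finite_of_loc (A : Subgroup G) [A.Normal] [A.FiniteIndex]
    (hQ : ∀ q : ℕ, q.Prime → QAb q (G ⧸ A)) {n0 : ℕ} (h2 : 2 ≤ n0)
    (hn0 : 1 + (A.index + 1) + (A.index + 1) * (A.index + 1) ≤ n0) (K : Type) [Group K]
    [Group.FG K] (hL : Loc n0 (G ⧸ A) K) : Finite K := by
  by_contra hinf
  have hK : Infinite K := not_finite_iff_infinite.1 hinf
  obtain ⟨N, hN, hNi, hNm⟩ := exists_just_infinite K
  have hfg : Group.FG (K ⧸ N) := inferInstance
  have hinf' : Infinite (K ⧸ N) := by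
    rw [← not_finite_iff_infinite]
    intro hf
    have h1 : 0 < Nat.card (K ⧸ N) := Nat.card_pos
    have h3 : Nat.card (K ⧸ N) = 0 := hNi
    omega
  refine fq_core A hQ h2 hn0 (K ⧸ N)
    (loc_surj (QuotientGroup.mk' N) (QuotientGroup.mk'_surjective N) hL) ?_
  intro M hM hM0
  rw [← Subgroup.index_comap_of_surjective M (QuotientGroup.mk'_surjective N)]
  refine hNm _ (hM.comap _) ?_
  rw [lt_iff_le_and_ne]
  constructor
  · intro x hx
    rw [Subgroup.mem_comap]
    have h1 : QuotientGroup.mk' N x = 1 := (QuotientGroup.eq_one_iff x).2 hx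
    rw [h1]
    exact M.one_mem
  · intro h
    apply hM0
    rw [eq_bot_iff]
    intro z hz
    obtain ⟨x, rfl⟩ := QuotientGroup.mk'_surjective N z
    have h1 : x ∈ N := by
      rw [h]
      exact hz
    rw [Subgroup.mem_bot]
    exact (QuotientGroup.eq_one_iff x).2 h1

end SA
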