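import Pool.Agent.SA.Defs

/-! MODULE SA-FratN: nilpotency modulo the Frattini subgroup.
Plan. Show that every Sylow subgroup `P` of `D` is normal in `D` (`isNilpotent_of_finite_tfae`, 3 -> 0). Let
`Φ = frattini H` and `p` a prime, `P : Sylow p D`, `P' = P.map D.subtype`. Step 1: `P' ⊔ Φ` is normal in
`H`: `D ⧸ Φ` is nilpotent of class at most 2 by `h3`, `h4` (`⁅⁅D, D⁆, D⁆ ≤ ⁅F, D⁆ ≤ Φ`; lower central series of
`D ⧸ Φ`), so the image of `P` in `D ⧸ Φ.subgroupOf D` is a normal Sylow subgroup, hence characteristic,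
hence `P' ⊔ Φ` is invariant under conjugation by `H` (`D`, `Φ` are normal in `H`). Step 2: Frattini
argument: `P'` is a Sylow `p`-subgroup of the normal subgroup `N = P' ⊔ Φ` of `H`, so
`normalizer P' ⊔ N = ⊤` (`Sylow.normalizer_sup_eq_top`), and since `P' ≤ normalizer P'`:
`normalizer P' ⊔ Φ = ⊤`, so `normalizer P' = ⊤` (`frattini_nongenerating`). So `P'` is normal in `H`, and
`P` is normal in `D`. -/

namespace SA

open scoped commutatorElement

variable {H : Type} [Group H]

/-- the quotient by a subgroup containing the commutators is nilpotent -/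
private theorem frat_nil_aux {D : Type} [Group D] (Φ F : Subgroup D) [Φ.Normal] [F.Normal]
    (h0 : Φ ≤ F) (h1 : ∀ x y : D, ⁅x, y⁆ ∈ F) (h2 : ∀ x ∈ F, ∀ y : D, ⁅x, y⁆ ∈ Φ) :
    Group.IsNilpotent (D ⧸ Φ) := by
  have hcomm : ∀ x y : D ⧸ F, x * y = y * x := by
    intro x y
    induction x using QuotientGroup.induction_on with
    | H x =>
      induction y using QuotientGroup.induction_on with
      | H y =>
        rw [← QuotientGroup.mk_mul, ← QuotientGroup.mk_mul, eq_comm, QuotientGroup.eq]
        have h3 := h1 x⁻¹ y⁻¹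
        have h4 := Subgroup.Normal.conj_mem (inferInstance : F.Normal) _ (h1 y⁻¹ x⁻¹) 1
        have h5 : (y * x)⁻¹ * (x * y) = ⁅x⁻¹, y⁻¹⁆ := by
          rw [commutatorElement_def]
          group
        rw [h5]
        exact h3
  have hN2 : Group.IsNilpotent (D ⧸ F) := by
    refine Subgroup.isNilpotent_of_ker_le_center (1 : D ⧸ F →* Unit) ?_
    intro x _
    rw [Subgroup.mem_center_iff]
    intro y
    exact hcomm y x
  refine Subgroup.isNilpotent_of_ker_le_center
    (QuotientGroup.map Φ F (MonoidHom.id D) h0) ?_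
  intro x hx
  rw [Subgroup.mem_center_iff]
  intro y
  induction x using QuotientGroup.induction_on with
  | H x =>
    induction y using QuotientGroup.induction_on with
    | H y =>
      have hx1 : ((x : D) : D ⧸ F) = 1 := hx
      rw [QuotientGroup.eq_one_iff] at hx1
      rw [← QuotientGroup.mk_mul, ← QuotientGroup.mk_mul, eq_comm, QuotientGroup.eq]
      have h5 : (x * y)⁻¹ * (y * x) = ⁅y⁻¹, x⁻¹⁆ := by
        rw [commutatorElement_def]
        group
      rw [h5, ← commutatorElement_inv]
      exact Φ.inv_mem (h2 _ (F.inv_mem hx1) _)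

theorem frat_nil [Finite H] (F D : Subgroup H) [F.Normal] [D.Normal] (h1 : frattini H ≤ F)
    (h2 : F ≤ D) (h3 : ⁅D, D⁆ ≤ F) (h4 : ⁅F, D⁆ ≤ frattini H) : Group.IsNilpotent D := by
  have q := (Group.isNilpotent_of_finite_tfae (G := D)).out 0 3
  rw [q]
  intro p hp P
  have hΦD : frattini H ≤ D := h1.trans h2
  obtain ⟨P', hP'⟩ : ∃ P' : Subgroup H, P' = (P : Subgroup D).map D.subtype := ⟨_, rfl⟩
  have hP'D : P' ≤ D := by
    rw [hP']
    exact Subgroup.map_subtype_le _
  -- the quotient
  have hE : Group.IsNilpotent (D ⧸ (frattini H).subgroupOf D) := by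
    refine frat_nil_aux ((frattini H).subgroupOf D) (F.subgroupOf D) ?_ ?_ ?_
    · intro x hx
      exact h1 hx
    · intro x y
      rw [Subgroup.mem_subgroupOf]
      exact h3 (Subgroup.commutator_mem_commutator x.2 y.2)
    · intro x hx y
      rw [Subgroup.mem_subgroupOf] at hx ⊢
      exact h4 (Subgroup.commutator_mem_commutator hx y.2)
  have hconj : ∀ h : H, ∀ x ∈ P', h * x * h⁻¹ ∈ P' ⊔ frattini H := by
    intro h x hx
    rw [hP'] at hx
    obtain ⟨x, hxP, rfl⟩ := hx
    let c : MulAut D := MulAut.conjNormal h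
    have hsurj := QuotientGroup.mk'_surjective ((frattini H).subgroupOf D)
    have hu : (c • P).mapSurjective hsurj = P.mapSurjective hsurj := by
      have := Sylow.unique_of_normal (P.mapSurjective hsurj) inferInstance
      exact Subsingleton.elim _ _
    have h5 : QuotientGroup.mk' ((frattini H).subgroupOf D) (c x) ∈
        ((c • P).mapSurjective hsurj : Subgroup _) := by
      rw [Sylow.coe_mapSurjective]
      refine Subgroup.mem_map_of_mem _ ?_
      exact Subgroup.smul_mem_pointwise_smul x c _ hxP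
    rw [hu, Sylow.coe_mapSurjective] at h5
    obtain ⟨z, hz, hzc⟩ := h5
    have h6 : z⁻¹ * c x ∈ (frattini H).subgroupOf D := QuotientGroup.eq.1 hzc
    rw [Subgroup.mem_subgroupOf] at h6
    have h7 : h * (x : H) * h⁻¹ = (z : H) * ((z⁻¹ * c x : D) : H) := by
      have h8 : ((c x : D) : H) = h * (x : H) * h⁻¹ := MulAut.conjNormal_apply h x
      rw [Subgroup.coe_mul, Subgroup.coe_inv, h8]
      group
    have h9 : D.subtype x = (x : H) := rfl
    rw [h9, h7]
    refine Subgroup.mul_mem_sup ?_ h6
    rw [hP']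
    exact ⟨z, hz, rfl⟩
  have hN : (P' ⊔ frattini H).Normal := by
    constructor
    intro x hx g
    have h5 : (P' ⊔ frattini H).map (MulAut.conj g).toMonoidHom ≤ P' ⊔ frattini H := by
      rw [Subgroup.map_sup, sup_le_iff]
      constructor
      · rintro _ ⟨y, hy, rfl⟩
        exact hconj g y hy
      · rintro _ ⟨y, hy, rfl⟩
        exact Subgroup.mem_sup_right (Subgroup.Normal.conj_mem inferInstance y hy g)
    exact h5 ⟨x, hx, rfl⟩
  have hND : P' ⊔ frattini H ≤ D := sup_le hP'D hΦD
  have hPN : P' ≤ P' ⊔ frattini H := le_sup_left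
  -- a Sylow subgroup of the normal subgroup
  have hpg : IsPGroup p (P'.subgroupOf (P' ⊔ frattini H)) := by
    have h5 : IsPGroup p P' := by
      rw [hP']
      exact P.2.map _
    exact h5.comap_subtype
  have hidx : ¬ p ∣ (P'.subgroupOf (P' ⊔ frattini H)).index := by
    intro hd
    have h5 : P'.relIndex (P' ⊔ frattini H) * (P' ⊔ frattini H).relIndex D = P'.relIndex D :=
      Subgroup.relIndex_mul_relIndex _ _ _ hPN hND
    have h6 : P'.relIndex D = (P : Subgroup D).index := by
      have h7 : P'.subgroupOf D = P := by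
        rw [hP']
        exact Subgroup.comap_map_eq_self_of_injective D.subtype_injective _
      rw [Subgroup.relIndex, h7]
    have h7 : p ∣ P'.relIndex D := by
      rw [← h5]
      exact Dvd.dvd.mul_right hd _
    rw [h6] at h7
    exact P.not_dvd_index h7
  have hfr := Sylow.normalizer_sup_eq_top (hpg.toSylow hidx)
  rw [IsPGroup.toSylow_coe, Subgroup.map_subgroupOf_eq_of_le hPN, ← sup_assoc,
    sup_eq_left.2 Subgroup.le_normalizer] at hfr
  have hnorm := frattini_nongenerating hfr
  have hnormal : P'.Normal := Subgroup.normalizer_eq_top_iff.mp hnorm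
  rw [hP'] at hnormal
  exact hnormal.of_map_subtype

end SA
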