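import Pool.Agent.SA.MaxM
import Pool.Agent.SA.FratN

/-! MODULE SA-Fit: `F` is the intersection of the centralizers of the factors `F / (F ⊓ M)`.
Let `C` be the infimum of the subgroups `cen (F ⊓ M) F`, and suppose `F < C`. A minimal normal subgroup
`D` with `F < D ≤ C` satisfies `⁅D, D⁆ ≤ F` (solvability) and `⁅F, D⁆ ≤ frattini H`, so it is nilpotent. -/

namespace SA

variable {H : Type} [Group H]

theorem fit [Finite H] [Group.IsSolvable H] {q : ℕ} (hq : q.Prime) (F : Subgroup H) [F.Normal]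
    (hF : IsPGroup q F)
    (hnil : ∀ X : Subgroup H, X.Normal → Group.IsNilpotent X → X ≤ F) (h : H)
    (hh : ∀ M : Subgroup H, IsCoatom M → ¬ F ≤ M → h ∈ cen (F ⊓ M) F) : h ∈ F := by
  by_contra hhF
  obtain ⟨C, hC⟩ : ∃ C : Subgroup H, ∀ y, y ∈ C ↔
      ∀ M : Subgroup H, IsCoatom M → ¬ F ≤ M → y ∈ cen (F ⊓ M) F := by
    refine ⟨⨅ (M : Subgroup H) (_ : IsCoatom M) (_ : ¬ F ≤ M), cen (F ⊓ M) F, fun y => ?_⟩
    simp only [Subgroup.mem_iInf]
  have hCn : C.Normal := by
    constructor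
    intro y hy g
    rw [hC] at hy ⊢
    intro M hM hFM
    have h1 : (F ⊓ M).Normal := (max_facts hq F hF M hM hFM).1
    exact (cen_normal (F ⊓ M) F).conj_mem y (hy M hM hFM) g
  have hFC : F ≤ C := by
    intro f hf
    rw [hC]
    intro M hM hFM x hx
    have h1 := (max_facts hq F hF M hM hFM).2.2
    exact h1 (Subgroup.commutator_mem_commutator hf hx)
  have hFC' : F < C := SetLike.lt_iff_le_and_exists.2 ⟨hFC, h, (hC h).2 hh, hhF⟩
  obtain ⟨D, ⟨hDn, hFD, hDC⟩, hDmin⟩ := (wellFounded_lt (α := Subgroup H)).has_min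
    {D : Subgroup H | D.Normal ∧ F < D ∧ D ≤ C} ⟨C, hCn, hFC', le_rfl⟩
  have hE : ⁅D, D⁆ ≤ F := by
    by_contra hne
    have hEn : (⁅D, D⁆ ⊔ F).Normal := inferInstance
    have h1 : F < ⁅D, D⁆ ⊔ F := by
      refine lt_of_le_of_ne le_sup_right fun e => hne ?_
      exact le_sup_left.trans (le_of_eq e.symm)
    have h2 : ⁅D, D⁆ ⊔ F ≤ D := sup_le (Subgroup.commutator_le_left D D) hFD.le
    have h3 : ⁅D, D⁆ ⊔ F = D := by
      by_contra h4
      exact hDmin _ ⟨hEn, h1, h2.trans hDC⟩ (lt_of_le_of_ne h2 h4)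
    have h4 : D.map (QuotientGroup.mk' F) ≠ ⊥ := by
      intro h5
      rw [Subgroup.map_eq_bot_iff, QuotientGroup.ker_mk'] at h5
      exact absurd h5 (not_le_of_gt hFD)
    have h5 := Group.IsSolvable.commutator_lt_of_ne_bot h4
    have h6 : F.map (QuotientGroup.mk' F) = ⊥ := by
      rw [Subgroup.map_eq_bot_iff, QuotientGroup.ker_mk']
    have h7 : D.map (QuotientGroup.mk' F) =
        ⁅D.map (QuotientGroup.mk' F), D.map (QuotientGroup.mk' F)⁆ := by
      rw [← Subgroup.map_commutator]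
      have h8 := congrArg (Subgroup.map (QuotientGroup.mk' F)) h3
      rw [Subgroup.map_sup, h6, sup_bot_eq] at h8
      exact h8.symm
    exact absurd h5 (not_lt_of_ge (le_of_eq h7))
  have hFr : ⁅F, D⁆ ≤ frattini H := by
    simp only [frattini, Order.radical, le_iInf_iff]
    intro M hM
    by_cases hFM : F ≤ M
    · exact (Subgroup.commutator_le_left F D).trans hFM
    · refine Subgroup.commutator_le.2 fun f hf d hd => ?_
      have h1 := (hC d).1 (hDC hd) M hM hFM f hf
      have h2 := (F ⊓ M).inv_mem h1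
      have h3 : (d * f * d⁻¹ * f⁻¹)⁻¹ = f * d * f⁻¹ * d⁻¹ := by group
      rw [h3] at h2
      exact h2.2
  have hfF : frattini H ≤ F := hnil _ inferInstance frattini_nilpotent
  exact absurd (hnil D hDn (frat_nil F D hfF hFD.le hE hFr)) (not_le_of_gt hFD)

end SA
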