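import Pool.Agent.SA.MaxM
import Pool.Agent.SA.FratN

/-! MODULE SA-FitN: `F` is the intersection of the centralizers of the factors `F / (F ⊓ M)` and of the
nonabelian chief factors `D / F` with `⁅F, D⁆ ≤ frattini H`.
Plan. Adapt `fit` in Pool/Agent/SA/Fit.lean (complete, on main). Let `C` be the normal subgroup of all `h` satisfying `hh` and
`hD` (infimum of the normal subgroups `cen (F ⊓ M) F` and `cen F D`); `F ≤ C` (`F`, `D` normal). Suppose `C ≠ F`; let `D` be minimal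
among the normal subgroups with `F < D ≤ C`: `IsChief F D`. `⁅F, D⁆ ≤ frattini H` as there. If `⁅D, D⁆ ≤ F`: `frat_nil` gives `D`
nilpotent, `D ≤ F`, contradiction. Otherwise `D` satisfies the hypotheses of `hD`, so `D ≤ C ≤ cen F D`, which means
`⁅D, D⁆ ≤ F`, contradiction. -/

namespace SA

variable {H : Type} [Group H]

theorem fit_n [Finite H] {q : ℕ} (hq : q.Prime) (F : Subgroup H) [F.Normal]
    (hF : IsPGroup q F)
    (hnil : ∀ X : Subgroup H, X.Normal → Group.IsNilpotent X → X ≤ F) (h : H)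
    (hh : ∀ M : Subgroup H, IsCoatom M → ¬ F ≤ M → h ∈ cen (F ⊓ M) F)
    (hD : ∀ (D : Subgroup H) [D.Normal], IsChief F D → ¬ ⁅D, D⁆ ≤ F → ⁅F, D⁆ ≤ frattini H →
      h ∈ cen F D) : h ∈ F := by
  by_contra hhF
  obtain ⟨C, hC⟩ : ∃ C : Subgroup H, ∀ y, y ∈ C ↔
      (∀ M : Subgroup H, IsCoatom M → ¬ F ≤ M → y ∈ cen (F ⊓ M) F) ∧
      ∀ (D : Subgroup H) (_ : D.Normal), IsChief F D → ¬ ⁅D, D⁆ ≤ F → ⁅F, D⁆ ≤ frattini H →
        y ∈ cen F D := by
    refine ⟨(⨅ (M : Subgroup H) (_ : IsCoatom M) (_ : ¬ F ≤ M), cen (F ⊓ M) F) ⊓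
      ⨅ (D : Subgroup H) (_ : D.Normal) (_ : IsChief F D) (_ : ¬ ⁅D, D⁆ ≤ F)
        (_ : ⁅F, D⁆ ≤ frattini H), cen F D, fun y => ?_⟩
    simp only [Subgroup.mem_inf, Subgroup.mem_iInf]
  have hCn : C.Normal := by
    constructor
    intro y hy g
    rw [hC] at hy ⊢
    refine ⟨fun M hM hFM => ?_, fun D hDn h1 h2 h3 => ?_⟩
    · have h1 : (F ⊓ M).Normal := (max_facts hq F hF M hM hFM).1
      exact (cen_normal (F ⊓ M) F).conj_mem y (hy.1 M hM hFM) g
    · exact (cen_normal F D).conj_mem y (hy.2 D hDn h1 h2 h3) g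
  have hFn : F.Normal := inferInstance
  have hFC : F ≤ C := by
    intro f hf
    rw [hC]
    refine ⟨fun M hM hFM x hx => ?_, fun D hDn _ _ _ x _ => ?_⟩
    · have h1 := (max_facts hq F hF M hM hFM).2.2
      exact h1 (Subgroup.commutator_mem_commutator hf hx)
    · have h1 := F.mul_mem hf (hFn.conj_mem _ (F.inv_mem hf) x)
      have h2 : f * (x * f⁻¹ * x⁻¹) = f * x * f⁻¹ * x⁻¹ := by group
      rwa [h2] at h1
  have hFC' : F < C := SetLike.lt_iff_le_and_exists.2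
    ⟨hFC, h, (hC h).2 ⟨hh, fun D hDn h1 h2 h3 => hD D h1 h2 h3⟩, hhF⟩
  obtain ⟨D, ⟨hDn, hFD, hDC⟩, hDmin⟩ := (wellFounded_lt (α := Subgroup H)).has_min
    {D : Subgroup H | D.Normal ∧ F < D ∧ D ≤ C} ⟨C, hCn, hFC', le_rfl⟩
  have hch : IsChief F D := by
    refine ⟨hFD, fun X hX h1 h2 => ?_⟩
    by_cases h3 : X = F
    · exact Or.inl h3
    · refine Or.inr ?_
      by_contra h4
      exact hDmin X ⟨hX, lt_of_le_of_ne h1 (Ne.symm h3), h2.trans hDC⟩ (lt_of_le_of_ne h2 h4)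
  have hFr : ⁅F, D⁆ ≤ frattini H := by
    simp only [frattini, Order.radical, le_iInf_iff]
    intro M hM
    by_cases hFM : F ≤ M
    · exact (Subgroup.commutator_le_left F D).trans hFM
    · refine Subgroup.commutator_le.2 fun f hf d hd => ?_
      have h1 := ((hC d).1 (hDC hd)).1 M hM hFM f hf
      have h2 := (F ⊓ M).inv_mem h1
      have h3 : (d * f * d⁻¹ * f⁻¹)⁻¹ = f * d * f⁻¹ * d⁻¹ := by group
      rw [h3] at h2
      exact h2.2
  have hE : ⁅D, D⁆ ≤ F := by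
    by_contra hne
    refine hne (Subgroup.commutator_le.2 fun x hx y hy => ?_)
    exact ((hC x).1 (hDC hx)).2 D hDn hch hne hFr y hy
  have hfF : frattini H ≤ F := hnil _ inferInstance frattini_nilpotent
  exact absurd (hnil D hDn (frat_nil F D hfF hFD.le hE hFr)) (not_le_of_gt hFD)

end SA
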