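import Pool.Agent.SA.NDefs

/-! MODULE SA-Fox: chain rule for Fox derivatives.
Plan. Define `L f = ∑ y : I × P, (f y) • shf (Φ y.2) (D y.1)` (`Om e P' I'` is a module over `ZMod e`; `Fintype`
instances by `Fintype.ofFinite`), `D i = fx e p' (σ (of i))`. `L` is additive, `L (sgl e y) = shf (Φ y.2) (D y.1)`
(`Finset.sum_eq_single`), `L (shf x f) = shf (Φ x) (L f)` (reindex the sum by `y.2 ↦ x⁻¹ y.2`, `shf_mul`,
`map_mul`). The set of `w` with `fx e p' (σ w) = L (fx e p w)` contains the letters and `1` and is closed under products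
(`fx_mul`, `hΦ`) and inverses (`fx_inv`): `FreeGroup.induction_on`. -/

namespace SA

private def foxL {e : ℕ} {P P' I I' : Type} [Group P] [Group P'] [Fintype (I × P)]
    (D : I → Om e P' I') (Φ : P →* P') : Om e P I →+ Om e P' I' where
  toFun f := fun z => ∑ y : I × P, f y * shf (Φ y.2) (D y.1) z
  map_zero' := by
    funext z
    simp
  map_add' f g := by
    funext z
    simp only [Pi.add_apply, add_mul, Finset.sum_add_distrib]

private theorem foxL_apply {e : ℕ} {P P' I I' : Type} [Group P] [Group P'] [Fintype (I × P)]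
    (D : I → Om e P' I') (Φ : P →* P') (f : Om e P I) (z : I' × P') :
    foxL D Φ f z = ∑ y : I × P, f y * shf (Φ y.2) (D y.1) z := rfl

private theorem foxL_sgl {e : ℕ} {P P' I I' : Type} [Group P] [Group P'] [Fintype (I × P)]
    (D : I → Om e P' I') (Φ : P →* P') (y : I × P) :
    foxL D Φ (sgl e y) = shf (Φ y.2) (D y.1) := by
  funext z
  rw [foxL_apply, Finset.sum_eq_single y]
  · have h : sgl e y y = 1 := by
      unfold sgl
      exact if_pos rfl
    rw [h, one_mul]
  · intro b _ hb
    have h : sgl e y b = 0 := by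
      unfold sgl
      exact if_neg hb
    rw [h, zero_mul]
  · intro h
    exact absurd (Finset.mem_univ y) h

private theorem foxL_shf {e : ℕ} {P P' I I' : Type} [Group P] [Group P'] [Fintype (I × P)]
    (D : I → Om e P' I') (Φ : P →* P') (x : P) (f : Om e P I) :
    foxL D Φ (shf x f) = shf (Φ x) (foxL D Φ f) := by
  funext z
  rw [shf_apply, foxL_apply, foxL_apply]
  symm
  refine Fintype.sum_equiv (Equiv.prodCongr (Equiv.refl I) (Equiv.mulLeft x)) _ _ ?_
  rintro ⟨i, g⟩
  show f (i, g) * shf (Φ g) (D i) (z.1, (Φ x)⁻¹ * z.2) =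
    shf x f (i, x * g) * shf (Φ (x * g)) (D i) z
  rw [map_mul, shf_mul, shf_apply x, shf_apply (Φ x)]
  simp only [inv_mul_cancel_left]

theorem fox_chain {e : ℕ} {P P' I I' : Type} [Group P] [Group P'] [Finite P] [Finite I]
    (p : I → P) (p' : I' → P') (σ : FreeGroup I →* FreeGroup I') (Φ : P →* P')
    (hΦ : ∀ w, FreeGroup.lift p' (σ w) = Φ (FreeGroup.lift p w)) :
    ∃ L : Om e P I →+ Om e P' I', (∀ w, fx e p' (σ w) = L (fx e p w)) ∧
      ∀ y : I × P, L (sgl e y) = shf (Φ y.2) (fx e p' (σ (FreeGroup.of y.1))) := by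
  haveI : Fintype (I × P) := Fintype.ofFinite _
  refine ⟨foxL (fun i => fx e p' (σ (FreeGroup.of i))) Φ, ?_, fun y => foxL_sgl _ Φ y⟩
  have hof : ∀ i, fx e p' (σ (FreeGroup.of i)) =
      foxL (fun i => fx e p' (σ (FreeGroup.of i))) Φ (fx e p (FreeGroup.of i)) := by
    intro i
    rw [fx_of, foxL_sgl, map_one, shf_one]
  intro w
  induction w using FreeGroup.induction_on with
  | C1 => rw [map_one, fx_one, fx_one, map_zero]
  | of i => exact hof i
  | inv_of i ih =>
    rw [map_inv, fx_inv, fx_inv, map_neg, foxL_shf, ← hof, hΦ, map_inv]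
  | mul x y hx hy =>
    rw [map_mul, fx_mul, fx_mul, map_add, foxL_shf, ← hx, ← hy, hΦ]


end SA
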