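import Pool.Agent.SA.Defs

/-! MODULE SA-Grob: abstract Groebner argument.
Plan. For `x : X s` let `I n x = {c : K | ∃ f ∈ Y n s, f x = c and f y = 0 for all y with lt x y}`: an additive subgroup of
`K` (define the `AddSubgroup`), increasing in `n`. (1) If `dv (s, x) (s', x')` then `I n x ≤ I n x'` (`hdv`, `hlead`,
`hstab`). (2) CLAIM: there is `n0` with `I n x = I n0 x` for all `n ≥ n0` and all `s`, `x`. Otherwise for every `n` there are
`n' > n`, `x` with `I n x ≠ I n' x`: construct `n_0 < n_1 < ...`, symbols `x_k` and `c_k ∈ I n_(k+1) x_k`, `c_k ∉ I n_k x_k`. By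
`hwqo` and transitivity pass to a subsequence with `dv (x_(k_i)) (x_(k_j))` for all `i < j`
(`exists_increasing_or_nonincreasing_subseq`). The increasing chain of the additive subgroups generated by
`c_(k_0), .., c_(k_j)` stabilizes (`WellFoundedGT (AddSubgroup K)`, `monotone_stabilizes_iff_noetherian`-like:
`WellFoundedGT.monotone_chain_condition`), so some `c_(k_j)` is in the subgroup generated by the earlier ones, which are
all in `I n_(k_j) x_(k_j)` by (1) and monotonicity, contradiction. (3) If `I n x = I n0 x` for all `x : X s` then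
`Y n s ≤ Y n0 s`: for `f ∈ Y n s`, `f ≠ 0`, let `x` be the largest symbol with `f x ≠ 0` (`Finite (X s)`, strict total order):
subtract `f' ∈ Y n0 s` with the same value at `x` and zero above; induction on the set of symbols `≤ x`
(well-founded induction on `x` for `lt`, finite type; `Finite.wellFounded_of_trans_of_irrefl`). -/

namespace SA

private theorem grob_top {K : Type} [AddCommGroup K] {X : Type} [Finite X] (lt : X → X → Prop)
    (hlt : IsStrictTotalOrder X lt) (g : X → K) (hg : g ≠ 0) :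
    ∃ y, g y ≠ 0 ∧ ∀ z, lt y z → g z = 0 := by
  have hne : ∃ y, g y ≠ 0 := by
    by_contra h
    push Not at h
    exact hg (funext h)
  have hwf : WellFounded (fun a b : X => lt b a) := by
    have h1 : IsTrans X (fun a b : X => lt b a) := ⟨fun a b c hab hbc => hlt.trans c b a hbc hab⟩
    have h2 : Std.Irrefl (fun a b : X => lt b a) := ⟨fun a h => hlt.irrefl a h⟩
    exact Finite.wellFounded_of_trans_of_irrefl _
  obtain ⟨y, hy, hmin⟩ := hwf.has_min {y | g y ≠ 0} hne
  refine ⟨y, hy, fun z hz => ?_⟩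
  by_contra h
  exact hmin z h hz

/-- leading coefficients -/
private def gI {K : Type} [AddCommGroup K] {X : ℕ → Type} (lt : ∀ s, X s → X s → Prop)
    (Y : ∀ s, AddSubgroup (X s → K)) (x : Σ s, X s) : AddSubgroup K where
  carrier := {c | ∃ f ∈ Y x.1, f x.2 = c ∧ ∀ y, lt x.1 x.2 y → f y = 0}
  zero_mem' := ⟨0, AddSubgroup.zero_mem _, rfl, fun _ _ => rfl⟩
  add_mem' := by
    rintro a b ⟨f, hf, rfl, h1⟩ ⟨g, hg, rfl, h2⟩
    refine ⟨f + g, AddSubgroup.add_mem _ hf hg, rfl, fun y hy => ?_⟩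
    rw [Pi.add_apply, h1 y hy, h2 y hy, add_zero]
  neg_mem' := by
    rintro a ⟨f, hf, rfl, h1⟩
    refine ⟨-f, AddSubgroup.neg_mem _ hf, rfl, fun y hy => ?_⟩
    rw [Pi.neg_apply, h1 y hy, neg_zero]

private theorem grob_le {K : Type} [AddCommGroup K] {X : Type} [Finite X] (lt : X → X → Prop)
    (hlt : IsStrictTotalOrder X lt) (A B : AddSubgroup (X → K)) (hAB : B ≤ A)
    (h : ∀ x : X, ∀ f ∈ A, (∀ y, lt x y → f y = 0) →
      ∃ f' ∈ B, f' x = f x ∧ ∀ y, lt x y → f' y = 0) : A ≤ B := by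
  have hwf : WellFounded lt := Finite.wellFounded_of_trans_of_irrefl lt
  have key : ∀ x : X, ∀ f ∈ A, (∀ y, lt x y → f y = 0) → f ∈ B := by
    intro x
    induction x using hwf.induction with
    | _ x ih =>
      intro f hf hfx
      obtain ⟨f', hf', h1, h2⟩ := h x f hf hfx
      by_cases hg : f - f' = 0
      · rw [sub_eq_zero.mp hg]
        exact hf'
      · obtain ⟨y, hy, hy2⟩ := grob_top lt hlt (f - f') hg
        have hyx : lt y x := by
          rcases hlt.toTrichotomous.rel_or_eq_or_rel_swap (a := y) (b := x) with h3 | h3 | h3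
          · exact h3
          · exfalso
            apply hy
            rw [h3, Pi.sub_apply, h1, sub_self]
          · exfalso
            apply hy
            rw [Pi.sub_apply, hfx y h3, h2 y h3, sub_self]
        have h4 : f - f' ∈ B := ih y hyx (f - f') (A.sub_mem hf (hAB hf')) hy2
        have := B.add_mem h4 hf'
        rwa [sub_add_cancel] at this
  intro f hf
  by_cases h0 : f = 0
  · rw [h0]; exact B.zero_mem
  · obtain ⟨y, _, hy2⟩ := grob_top lt hlt f h0
    exact key y f hf hy2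

theorem grob {K : Type} [AddCommGroup K] [WellFoundedGT (AddSubgroup K)] (X : ℕ → Type)
    [∀ s, Finite (X s)] (lt : ∀ s, X s → X s → Prop) (hlt : ∀ s, IsStrictTotalOrder (X s) (lt s))
    (dv : (Σ s, X s) → (Σ s, X s) → Prop) (htr : IsTrans (Σ s, X s) dv)
    (hwqo : ∀ σ : ℕ → Σ s, X s, ∃ i j, i < j ∧ dv (σ i) (σ j))
    (Y : ℕ → ∀ s, AddSubgroup (X s → K)) (hY : ∀ m n, m ≤ n → ∀ s, Y m s ≤ Y n s)
    (hdv : ∀ x y : Σ s, X s, dv x y → ∃ L : (X x.1 → K) →+ (X y.1 → K),
      (∀ n, ∀ f ∈ Y n x.1, L f ∈ Y n y.1) ∧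
      ∀ f : X x.1 → K, (∀ z, lt x.1 x.2 z → f z = 0) →
        L f y.2 = f x.2 ∧ ∀ z, lt y.1 y.2 z → L f z = 0) :
    ∃ n0, ∀ n, n0 ≤ n → ∀ s, Y n s = Y n0 s := by
  have hI_dv : ∀ n (x y : Σ s, X s), dv x y → gI lt (Y n) x ≤ gI lt (Y n) y := by
    intro n x y hxy c hc
    obtain ⟨f, hf, hfc, hf0⟩ := hc
    obtain ⟨L, hL1, hL2⟩ := hdv x y hxy
    exact ⟨L f, hL1 n f hf, (hL2 f hf0).1.trans hfc, (hL2 f hf0).2⟩
  have hI_n : ∀ m n (x : Σ s, X s), m ≤ n → gI lt (Y m) x ≤ gI lt (Y n) x := by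
    intro m n x hmn c hc
    obtain ⟨f, hf, hfc, hf0⟩ := hc
    exact ⟨f, hY m n hmn x.1 hf, hfc, hf0⟩
  have hstab : ∃ n0, ∀ n, n0 ≤ n → ∀ x : Σ s, X s, gI lt (Y n) x ≤ gI lt (Y n0) x := by
    by_contra hcon
    push Not at hcon
    choose N hN x hx using hcon
    have hx2 : ∀ n, ∃ c, c ∈ gI lt (Y (N n)) (x n) ∧ c ∉ gI lt (Y n) (x n) := by
      intro n
      obtain ⟨c, hc1, hc2⟩ := SetLike.not_le_iff_exists.mp (hx n)
      exact ⟨c, hc1, hc2⟩
    choose c hc1 hc2 using hx2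
    set ν : ℕ → ℕ := fun k => Nat.rec 0 (fun _ r => N r) k with hν
    have hνs : ∀ k, ν (k + 1) = N (ν k) := fun k => rfl
    have hνm : Monotone ν := monotone_nat_of_le_succ fun k => by
      rw [hνs]; exact hN _
    obtain ⟨g, hg⟩ := exists_increasing_or_nonincreasing_subseq dv (fun k => x (ν k))
    rcases hg with hg | hg
    · set S : ℕ →o AddSubgroup K := ⟨fun j => AddSubgroup.closure {a | ∃ i < j, a = c (ν (g i))}, by
        intro i j hij
        apply AddSubgroup.closure_mono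
        rintro a ⟨k, hk, rfl⟩
        exact ⟨k, lt_of_lt_of_le hk hij, rfl⟩⟩ with hS
      obtain ⟨n, hn⟩ := WellFoundedGT.monotone_chain_condition S
      have h1 : c (ν (g n)) ∈ S (n + 1) :=
        AddSubgroup.subset_closure ⟨n, Nat.lt_succ_self n, rfl⟩
      rw [← hn (n + 1) (Nat.le_succ n)] at h1
      have h2 : S n ≤ gI lt (Y (ν (g n))) (x (ν (g n))) := by
        apply (AddSubgroup.closure_le _).mpr
        rintro a ⟨i, hi, rfl⟩
        have h3 : c (ν (g i)) ∈ gI lt (Y (ν (g i + 1))) (x (ν (g i))) := hc1 (ν (g i))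
        have h4 : g i + 1 ≤ g n := g.strictMono hi
        exact hI_dv _ _ _ (hg i n hi) (hI_n _ _ _ (hνm h4) h3)
      exact hc2 _ (h2 h1)
    · obtain ⟨i, j, hij, hd⟩ := hwqo (fun k => x (ν (g k)))
      exact hg i j hij hd
  obtain ⟨n0, hn0⟩ := hstab
  refine ⟨n0, fun n hn s => le_antisymm ?_ (hY n0 n hn s)⟩
  apply grob_le (lt s) (hlt s) (Y n s) (Y n0 s) (hY n0 n hn s)
  intro x f hf hfx
  obtain ⟨f', h1, h2, h3⟩ := hn0 n hn ⟨s, x⟩ ⟨f, hf, rfl, hfx⟩
  exact ⟨f', h1, h2, h3⟩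

end SA
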