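import Pool.Agent.SA.Defs

/-! MODULE SA-KD: nonabelian chief factors: perfect supplement and a maximal subgroup.
(1) `K` minimal among the normal subgroups with `K ⊔ F = D` is perfect. (2) `D ⊓ cen F D` is normal between `F` and
`D`, not `D`, so it is `F`. (3) In the quotient by `C = cen F D` the image of `D` is perfect and nontrivial, so it is
not contained in the Frattini subgroup, which is nilpotent. -/

namespace SA

variable {H : Type} [Group H]

open scoped commutatorElement

private theorem comm_le_of_map {F D K : Subgroup H} [F.Normal]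
    (h : D.map (QuotientGroup.mk' F) = K.map (QuotientGroup.mk' F)) (hK : ⁅K, K⁆ ≤ F) :
    ⁅D, D⁆ ≤ F := by
  have h1 : (⁅D, D⁆ : Subgroup H).map (QuotientGroup.mk' F) = ⊥ := by
    rw [Subgroup.map_commutator, h, ← Subgroup.map_commutator, eq_bot_iff]
    calc (⁅K, K⁆ : Subgroup H).map (QuotientGroup.mk' F) ≤ F.map (QuotientGroup.mk' F) :=
          Subgroup.map_mono hK
      _ = ⊥ := QuotientGroup.map_mk'_self F
  rw [Subgroup.map_eq_bot_iff, QuotientGroup.ker_mk'] at h1
  exact h1

private theorem comm_sup (F D : Subgroup H) [F.Normal] [D.Normal] (hch : IsChief F D)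
    (hna : ¬ ⁅D, D⁆ ≤ F) : ⁅D, D⁆ ⊔ F = D := by
  rcases hch.irr (⁅D, D⁆ ⊔ F) inferInstance le_sup_right
    (sup_le (Subgroup.commutator_le_left D D) hch.lt.le) with h | h
  · exact absurd (sup_eq_right.1 h) hna
  · exact h

theorem exists_perfect [Finite H] (F D : Subgroup H) [F.Normal] [D.Normal] (hch : IsChief F D)
    (hna : ¬ ⁅D, D⁆ ≤ F) : ∃ K : Subgroup H, K.Normal ∧ K ⊔ F = D ∧ ⁅K, K⁆ = K := by
  obtain ⟨K, ⟨hKn, hKF⟩, hmin⟩ := Set.Finite.exists_minimal
    (s := {K : Subgroup H | K.Normal ∧ K ⊔ F = D}) (Set.toFinite _)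
    ⟨D, ‹D.Normal›, sup_eq_left.2 hch.lt.le⟩
  have hKD : K ≤ D := hKF ▸ le_sup_left
  have hcK : (⁅K, K⁆ : Subgroup H) ≤ K := Subgroup.commutator_le_left K K
  refine ⟨K, hKn, hKF, ?_⟩
  rcases hch.irr (⁅K, K⁆ ⊔ F) inferInstance le_sup_right
    (sup_le (hcK.trans hKD) hch.lt.le) with h | h
  · exfalso
    apply hna
    refine comm_le_of_map (K := K) ?_ (sup_eq_right.1 h)
    rw [← hKF, Subgroup.map_sup, QuotientGroup.map_mk'_self, sup_bot_eq]
  · exact le_antisymm hcK (hmin ⟨inferInstance, h⟩ hcK)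

private theorem le_cen (F D : Subgroup H) [hF : F.Normal] [D.Normal] : F ≤ cen F D := by
  intro x hx y _
  have h1 := F.mul_mem hx (hF.conj_mem x⁻¹ (F.inv_mem hx) y)
  have h2 : x * (y * x⁻¹ * y⁻¹) = x * y * x⁻¹ * y⁻¹ := by group
  rwa [h2] at h1

private theorem not_le_cen (F D : Subgroup H) [D.Normal]
    (hna : ¬ ⁅D, D⁆ ≤ F) : ¬ D ≤ cen F D := by
  intro h
  apply hna
  rw [Subgroup.commutator_le]
  intro x hx y hy
  rw [commutatorElement_def]
  exact h hx y hy

theorem inf_cen [Finite H] (F D : Subgroup H) [F.Normal] [D.Normal] (hch : IsChief F D)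
    (hna : ¬ ⁅D, D⁆ ≤ F) : D ⊓ cen F D = F := by
  have hn : (D ⊓ cen F D).Normal := inferInstance
  rcases hch.irr (D ⊓ cen F D) hn (le_inf hch.lt.le (le_cen F D)) inf_le_left with h | h
  · exact h
  · exact absurd (inf_eq_left.1 h) (not_le_cen F D hna)

private theorem perfect_bot {G : Type} [Group G] {P : Subgroup G} [Group.IsSolvable P]
    (h : ⁅P, P⁆ = P) : P = ⊥ := by
  by_contra hne
  have hnt : (⊤ : Subgroup P) ≠ ⊥ := by
    intro h1
    apply hne
    have h2 := congrArg (Subgroup.map P.subtype) h1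
    rw [← MonoidHom.range_eq_map, Subgroup.range_subtype, Subgroup.map_bot] at h2
    exact h2
  have h3 := Group.IsSolvable.commutator_lt_of_ne_bot hnt
  apply h3.ne
  apply Subgroup.map_injective P.subtype_injective
  rw [Subgroup.map_commutator, ← MonoidHom.range_eq_map, Subgroup.range_subtype, h]

theorem exists_coatom [Finite H] (F D : Subgroup H) [F.Normal] [D.Normal] (hch : IsChief F D)
    (hna : ¬ ⁅D, D⁆ ≤ F) : ∃ M : Subgroup H, IsCoatom M ∧ cen F D ≤ M ∧ ¬ D ≤ M := by
  set C : Subgroup H := cen F D with hC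
  set D' : Subgroup (H ⧸ C) := D.map (QuotientGroup.mk' C) with hD'
  have hperf : ⁅D', D'⁆ = D' := by
    have h1 := congrArg (Subgroup.map (QuotientGroup.mk' C)) (comm_sup F D hch hna)
    have h2 : F.map (QuotientGroup.mk' C) = ⊥ := by
      rw [Subgroup.map_eq_bot_iff, QuotientGroup.ker_mk']
      exact le_cen F D
    rw [Subgroup.map_sup, h2, sup_bot_eq, Subgroup.map_commutator] at h1
    exact h1
  have hne : D' ≠ ⊥ := by
    intro h
    rw [hD', Subgroup.map_eq_bot_iff, QuotientGroup.ker_mk'] at h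
    exact not_le_cen F D hna h
  have hfr : ¬ D' ≤ frattini (H ⧸ C) := by
    intro hle
    apply hne
    have hnil : Group.IsNilpotent (frattini (H ⧸ C)) := frattini_nilpotent
    have hsol : Group.IsSolvable (frattini (H ⧸ C)) := inferInstance
    have hsol' : Group.IsSolvable D' :=
      Group.isSolvable_of_isSolvable_injective (Subgroup.inclusion_injective hle)
    exact perfect_bot hperf
  have hex : ∃ M' : Subgroup (H ⧸ C), IsCoatom M' ∧ ¬ D' ≤ M' := by
    by_contra hcon
    push Not at hcon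
    apply hfr
    unfold frattini Order.radical
    exact le_iInf₂ fun M' hM' => hcon M' hM'
  obtain ⟨M', hM', hDM'⟩ := hex
  refine ⟨M'.comap (QuotientGroup.mk' C),
    Subgroup.isCoatom_comap_of_surjective (QuotientGroup.mk'_surjective C) hM', ?_, ?_⟩
  · calc C = (QuotientGroup.mk' C).ker := (QuotientGroup.ker_mk' C).symm
      _ ≤ _ := Subgroup.ker_le_comap _ _
  · intro h
    exact hDM' (Subgroup.map_le_iff_le_comap.2 h)

end SA
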