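import Pool.Agent.SA.NDefs

/-! MODULE SA-KK: the Magnus homomorphism is universal (Kaluzhnin-Krasner).
Plan. `ν = FreeGroup.lift p`, `P' = range ν`. Step 1: there is `τ : P → H` with
`τ (ν w * x)⁻¹ * φ w * τ x ∈ B` for all `w`, `x`: choose representatives `r` of the right cosets
`P' * r` (`Quotient.out` for the right coset relation `QuotientGroup.rightRel P'`, or
`Subgroup.exists_right_transversal`), `x = ν u * r` (choose `u`), `τ x = φ u`; then
`ν w * x = ν (w * u) * r = ν u' * r` with `ν (w u) = ν u'`, so `φ (w u) ∈ φ u' B` by `h` (`B` normal). Step 2: for `w`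
and `x` put `κ w x = τ x⁻¹ * φ w * τ ((ν w)⁻¹ * x) ∈ B`; `κ (w v) x = κ w x * κ v ((ν w)⁻¹ x)`. Step 3: `Additive B` is
a commutative group killed by `e`; CLAIM `κ w x = ∏_{(i,y)} (κ (of i) (y⁻¹ * x)) ^ (fx e p w (i, y))` where for
`c : ZMod e` and `a ∈ B` the power `a ^ c` is well defined since `a ^ e = 1` (`AddCommGroup.zmodModule` on
`Additive B`; for `e = 0`, `ZMod 0 = ℤ`; it needs the `CommGroup` structure on `B` from `hB`). Both sides are
crossed homomorphisms in `w` (`fx_mul`, `shf_apply`; reindex the sum by `y ↦ (ν w)⁻¹ y`) and agree on letters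
(`fx_of`), so they agree (`FreeGroup.induction_on`). Alternatively define a homomorphism from `Mg e P I` to
the semidirect product of `P → B` and `P` and compare two homomorphisms on letters. Step 4: `mu e p w = 1`
gives `fx = 0`, `ν w = 1` (`mu_eq_one_iff`), so `κ w x = 1` and `φ w = 1`. -/

namespace SA

private theorem kk_add {e : ℕ} {P I A : Type} [Group P] [Finite P] [Finite I] [AddCommGroup A]
    [Module (ZMod e) A] (p : I → P) (κ : FreeGroup I → P → A)
    (hκ : ∀ u v x, κ (u * v) x = κ u x + κ v ((FreeGroup.lift p u)⁻¹ * x))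
    (w : FreeGroup I) (hw : fx e p w = 0) (x : P) : κ w x = 0 := by
  classical
  have : Fintype P := Fintype.ofFinite P
  have : Fintype I := Fintype.ofFinite I
  have h1 : ∀ x, κ 1 x = 0 := by
    intro x
    have h2 := hκ 1 1 x
    rw [mul_one, map_one, inv_one, one_mul] at h2
    exact left_eq_add.1 h2
  have key : ∀ w x, κ w x = ∑ y : I × P, fx e p w y • κ (FreeGroup.of y.1) (y.2⁻¹ * x) := by
    -- inverses
    have hinv : ∀ u, (∀ x, κ u x = ∑ y : I × P, fx e p u y • κ (FreeGroup.of y.1) (y.2⁻¹ * x)) →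
        ∀ x, κ u⁻¹ x = ∑ y : I × P, fx e p u⁻¹ y • κ (FreeGroup.of y.1) (y.2⁻¹ * x) := by
      intro u hu x
      have h2 := hκ u u⁻¹ (FreeGroup.lift p u * x)
      rw [mul_inv_cancel, h1, inv_mul_cancel_left, hu] at h2
      have h3 : κ u⁻¹ x = -∑ y : I × P, fx e p u y • κ (FreeGroup.of y.1)
          (y.2⁻¹ * (FreeGroup.lift p u * x)) := by
        rw [eq_neg_iff_add_eq_zero, add_comm]
        exact h2.symm
      rw [h3, fx_inv, ← Finset.sum_neg_distrib]
      refine Fintype.sum_equiv (Equiv.prodCongr (Equiv.refl I)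
        (Equiv.mulLeft (FreeGroup.lift p u)⁻¹)) _ _ fun y => ?_
      show -(fx e p u y • κ (FreeGroup.of y.1) (y.2⁻¹ * (FreeGroup.lift p u * x))) =
        (-fx e p u (y.1, (FreeGroup.lift p u)⁻¹⁻¹ * ((FreeGroup.lift p u)⁻¹ * y.2))) •
          κ (FreeGroup.of y.1) (((FreeGroup.lift p u)⁻¹ * y.2)⁻¹ * x)
      rw [inv_inv, mul_inv_cancel_left, mul_inv_rev, inv_inv, mul_assoc, neg_smul]
    intro w
    induction w using FreeGroup.induction_on with
    | C1 =>
      intro x
      rw [h1, fx_one]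
      simp
    | of i =>
      intro x
      rw [fx_of, Finset.sum_eq_single (i, 1)]
      · have h2 : sgl e (i, (1 : P)) (i, 1) = 1 := by
          unfold sgl
          rw [if_pos rfl]
        rw [h2, one_smul, inv_one, one_mul]
      · intro y _ hy
        have h2 : sgl e (i, (1 : P)) y = 0 := by
          unfold sgl
          rw [if_neg hy]
        rw [h2, zero_smul]
      · intro h
        exact absurd (Finset.mem_univ _) h
    | inv_of i ih => exact hinv _ ih
    | mul u v hu hv =>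
      intro x
      rw [hκ, hu, hv, fx_mul]
      simp only [Pi.add_apply, add_smul, Finset.sum_add_distrib]
      congr 1
      refine Fintype.sum_equiv (Equiv.prodCongr (Equiv.refl I)
        (Equiv.mulLeft (FreeGroup.lift p u))) _ _ fun y => ?_
      show fx e p v y • κ (FreeGroup.of y.1) (y.2⁻¹ * ((FreeGroup.lift p u)⁻¹ * x)) =
        (fx e p v (y.1, (FreeGroup.lift p u)⁻¹ * (FreeGroup.lift p u * y.2))) •
          κ (FreeGroup.of y.1) ((FreeGroup.lift p u * y.2)⁻¹ * x)
      rw [inv_mul_cancel_left, mul_inv_rev, mul_assoc]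
  rw [key, hw]
  simp

private theorem kk_mul {e : ℕ} {P I A : Type} [Group P] [Finite P] [Finite I] [Group A]
    (hA : ∀ a b : A, a * b = b * a) (he : ∀ a : A, a ^ e = 1) (p : I → P)
    (κ : FreeGroup I → P → A)
    (hκ : ∀ u v x, κ (u * v) x = κ u x * κ v ((FreeGroup.lift p u)⁻¹ * x))
    (w : FreeGroup I) (hw : fx e p w = 0) (x : P) : κ w x = 1 := by
  let _ : CommGroup A := { ‹Group A› with mul_comm := hA }
  let _ : Module (ZMod e) (Additive A) := AddCommGroup.zmodModule fun a => by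
    show Additive.ofMul (a.toMul ^ e) = 0
    rw [he]
    rfl
  exact kk_add (A := Additive A) p (fun w x => Additive.ofMul (κ w x))
    (fun u v x => congrArg Additive.ofMul (hκ u v x)) w hw x

theorem kk {e : ℕ} {P I H : Type} [Group P] [Finite P] [Finite I] [Group H] (p : I → P)
    (B : Subgroup H) [B.Normal] (hB : ∀ a ∈ B, ∀ b ∈ B, a * b = b * a)
    (he : ∀ a ∈ B, a ^ e = 1) (φ : FreeGroup I →* H)
    (h : ∀ w, FreeGroup.lift p w = 1 → φ w ∈ B) (w : FreeGroup I) (hw : mu e p w = 1) :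
    φ w = 1 := by
  classical
  obtain ⟨hfx, hν⟩ := (mu_eq_one_iff p w).1 hw
  obtain ⟨s, hs⟩ : ∃ s : P → FreeGroup I, ∀ x, x ∈ (FreeGroup.lift p).range →
      FreeGroup.lift p (s x) = x := by
    have h1 : ∀ x : P, ∃ u : FreeGroup I, x ∈ (FreeGroup.lift p).range →
        FreeGroup.lift p u = x := by
      intro x
      by_cases hx : x ∈ (FreeGroup.lift p).range
      · obtain ⟨u, hu⟩ := hx
        exact ⟨u, fun _ => hu⟩
      · exact ⟨1, fun h => absurd h hx⟩
    choose s hs using h1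
    exact ⟨s, hs⟩
  have hmem : ∀ (u : FreeGroup I) (x : P), x ∈ (FreeGroup.lift p).range →
      (FreeGroup.lift p u)⁻¹ * x ∈ (FreeGroup.lift p).range := fun u x hx =>
    Subgroup.mul_mem _ (Subgroup.inv_mem _ ⟨u, rfl⟩) hx
  have hB' : ∀ (u : FreeGroup I) (x : P), x ∈ (FreeGroup.lift p).range →
      φ ((s x)⁻¹ * u * s ((FreeGroup.lift p u)⁻¹ * x)) ∈ B := by
    intro u x hx
    apply h
    rw [map_mul, map_mul, map_inv, hs x hx, hs _ (hmem u x hx)]
    group
  obtain ⟨κ, hκ1, hκ2⟩ : ∃ κ : FreeGroup I → P → B,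
      (∀ u x, x ∈ (FreeGroup.lift p).range →
        ((κ u x : B) : H) = φ ((s x)⁻¹ * u * s ((FreeGroup.lift p u)⁻¹ * x))) ∧
      (∀ u x, x ∉ (FreeGroup.lift p).range → κ u x = 1) := by
    refine ⟨fun u x => if hx : x ∈ (FreeGroup.lift p).range then ⟨_, hB' u x hx⟩ else 1, ?_, ?_⟩
    · intro u x hx
      simp only [dif_pos hx]
    · intro u x hx
      simp only [dif_neg hx]
  have hmul : ∀ u v x, κ (u * v) x = κ u x * κ v ((FreeGroup.lift p u)⁻¹ * x) := by
    intro u v x
    by_cases hx : x ∈ (FreeGroup.lift p).range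
    · apply Subtype.ext
      rw [Subgroup.coe_mul, hκ1 _ _ hx, hκ1 _ _ hx, hκ1 _ _ (hmem u x hx), ← map_mul]
      congr 1
      have h1 : (FreeGroup.lift p (u * v))⁻¹ * x =
          (FreeGroup.lift p v)⁻¹ * ((FreeGroup.lift p u)⁻¹ * x) := by
        rw [map_mul, mul_inv_rev, mul_assoc]
      rw [h1]
      group
    · have hx' : (FreeGroup.lift p u)⁻¹ * x ∉ (FreeGroup.lift p).range := by
        intro h1
        apply hx
        have h2 := Subgroup.mul_mem _ (⟨u, rfl⟩ : FreeGroup.lift p u ∈ (FreeGroup.lift p).range) h1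
        rwa [mul_inv_cancel_left] at h2
      rw [hκ2 _ _ hx, hκ2 _ _ hx, hκ2 _ _ hx', one_mul]
  have h1 := kk_mul (e := e) (A := B) (fun a b => Subtype.ext (hB a a.2 b b.2))
    (fun a => Subtype.ext (he a a.2)) p κ hmul w hfx 1
  have h2 := congrArg Subtype.val h1
  rw [hκ1 w 1 (Subgroup.one_mem _), hν, inv_one, one_mul, map_mul, map_mul, map_inv] at h2
  have h3 : (φ (s 1))⁻¹ * φ w * φ (s 1) = 1 := h2
  have h4 : φ w = φ (s 1) * ((φ (s 1))⁻¹ * φ w * φ (s 1)) * (φ (s 1))⁻¹ := by group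
  rw [h4, h3]
  group

end SA
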