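import Pool.Agent.SA.OPa
import Pool.Agent.SA.BasicB

/-! MODULE SA-OP: the Oates-Powell lemma.
Plan. Let `w ∈ LawN r G`, `h : Fin r → H`. Since the `N i` are normal, `h j = a j * (n j 0 * ... * n j (s-1))` with
`a j ∈ L`, `n j i ∈ N i` (`Subgroup.mem_sup_of_normal_right`, induction for the `iSup`; the product is
`List.prod (List.ofFn ..)` or `(List.finRange s).map ..`). Let `X = Fin r × Option (Fin s)`, colour `c (j, none) = s` (or any
number not `< s`), `c (j, some i) = i`, `ψ : FreeGroup X →* H` with `(j, none) ↦ a j`, `(j, some i) ↦ n j i`.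
`W0 = lift (fun j => of (j, none) * ∏ of (j, some i)) w`. `W (k+1) = W k * (kil c k (W k))⁻¹`, `k < s`.
`kil c l (W k) = 1` for `l < k` (the `kil` commute and are idempotent), so `W s` is killed by all `kil c k`, `k < s`.
`op_free` with `l = List.range s`: `W s ∈ ⨆ lnc (l'.map ker)`; `ψ` maps `ker (kil c k)` (normal closure of the
letters of colour `k`) into `N k`, so `ψ (W s) ∈ ⨆ lnc (..) = ⊥` by `hc` (permutations of `range s`
correspond to permutations of `finRange s`), `ψ (W s) = 1`. On the other hand call `x` good if `ψ (δ x) = 1` for every nonempty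
composition `δ` of some `kil c k`, `k < s`: `W0` is good, since `ψ (δ W0)` is the value of `w` on elements of
`L ⊔ ⨆ i ≠ k, N i` (`hlaw`, `w ∈ LawN r`), so all `W k` are good and `ψ (W (k+1)) = ψ (W k)`. Hence
`lift h w = ψ W0 = ψ (W s) = 1`. -/

namespace SA

variable {G H : Type} [Group G] [Group H]

open scoped commutatorElement

/-! ### products -/

private theorem mem_prod_ofFn {s : ℕ} (N : Fin s → Subgroup H) (hN : ∀ i, (N i).Normal) (x : H)
    (hx : x ∈ ⨆ i, N i) : ∃ n : Fin s → H, (∀ i, n i ∈ N i) ∧ x = (List.ofFn n).prod := by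
  induction s generalizing x with
  | zero =>
    refine ⟨Fin.elim0, fun i => i.elim0, ?_⟩
    rw [iSup_of_empty, Subgroup.mem_bot] at hx
    simpa using hx
  | succ s ih =>
    have h1 : (⨆ i, N i) = N 0 ⊔ ⨆ i : Fin s, N i.succ := by
      refine le_antisymm (iSup_le fun i => ?_) (sup_le (le_iSup N 0)
        (iSup_le fun i => le_iSup N i.succ))
      refine Fin.cases ?_ (fun j => ?_) i
      · exact le_sup_left
      · exact (le_iSup (fun i : Fin s => N i.succ) j).trans le_sup_right
    rw [h1] at hx
    have := hN 0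
    obtain ⟨y, hy, z, hz, rfl⟩ := Subgroup.mem_sup_of_normal_left.1 hx
    obtain ⟨n, hn, rfl⟩ := ih (fun i => N i.succ) (fun i => hN _) z hz
    refine ⟨Fin.cons y n, ?_, ?_⟩
    · intro i
      refine Fin.cases ?_ (fun j => ?_) i
      · exact hy
      · exact hn j
    · rw [List.ofFn_succ, List.prod_cons]
      rfl

private theorem decomp {s : ℕ} (L : Subgroup H) (N : Fin s → Subgroup H)
    (hN : ∀ i, (N i).Normal) (hgen : L ⊔ ⨆ i, N i = ⊤) (x : H) :
    ∃ a ∈ L, ∃ n : Fin s → H, (∀ i, n i ∈ N i) ∧ x = a * (List.ofFn n).prod := by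
  have hn : (⨆ i, N i).Normal := Subgroup.iSup_normal N
  have hx : x ∈ L ⊔ ⨆ i, N i := by
    rw [hgen]
    exact Subgroup.mem_top x
  obtain ⟨a, ha, z, hz, rfl⟩ := Subgroup.mem_sup_of_normal_right.1 hx
  obtain ⟨n, hn, rfl⟩ := mem_prod_ofFn N hN z hz
  exact ⟨a, ha, n, hn, rfl⟩

/-! ### killing letters -/

section Kill

variable {X : Type} (c : X → ℕ)

private theorem kil_of (k : ℕ) (x : X) :
    kil c k (FreeGroup.of x) = if c x = k then 1 else FreeGroup.of x := by
  unfold kil
  rw [FreeGroup.lift_apply_of]

private theorem kil_idem (k : ℕ) (x : FreeGroup X) : kil c k (kil c k x) = kil c k x := by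
  have h : (kil c k).comp (kil c k) = kil c k := by
    apply FreeGroup.ext_hom
    intro y
    rw [MonoidHom.comp_apply, kil_of]
    split_ifs with h1
    · rw [map_one]
    · rw [kil_of, if_neg h1]
  exact DFunLike.congr_fun h x

private theorem kil_comm (j k : ℕ) (x : FreeGroup X) :
    kil c j (kil c k x) = kil c k (kil c j x) := by
  have h : (kil c j).comp (kil c k) = (kil c k).comp (kil c j) := by
    apply FreeGroup.ext_hom
    intro y
    rw [MonoidHom.comp_apply, MonoidHom.comp_apply, kil_of, kil_of]
    by_cases h1 : c y = k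
    · by_cases h2 : c y = j
      · rw [if_pos h1, if_pos h2, map_one, map_one]
      · rw [if_pos h1, if_neg h2, map_one, kil_of, if_pos h1]
    · by_cases h2 : c y = j
      · rw [if_neg h1, if_pos h2, map_one, kil_of, if_pos h2]
      · rw [if_neg h1, if_neg h2, kil_of, kil_of, if_neg h1, if_neg h2]
  exact DFunLike.congr_fun h x

/-- kills all letters with colour in `T` -/
private def klT (T : Finset ℕ) : FreeGroup X →* FreeGroup X :=
  FreeGroup.lift (fun x => if c x ∈ T then 1 else FreeGroup.of x)

private theorem klT_of (T : Finset ℕ) (x : X) :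
    klT c T (FreeGroup.of x) = if c x ∈ T then 1 else FreeGroup.of x := by
  unfold klT
  rw [FreeGroup.lift_apply_of]

private theorem klT_singleton (k : ℕ) (x : FreeGroup X) : klT c {k} x = kil c k x := by
  have h : klT c {k} = kil c k := by
    apply FreeGroup.ext_hom
    intro y
    rw [klT_of, kil_of]
    simp only [Finset.mem_singleton]
  rw [h]

private theorem klT_kil (T : Finset ℕ) (k : ℕ) (x : FreeGroup X) :
    klT c T (kil c k x) = klT c (insert k T) x := by
  have h : (klT c T).comp (kil c k) = klT c (insert k T) := by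
    apply FreeGroup.ext_hom
    intro y
    rw [MonoidHom.comp_apply, kil_of, klT_of]
    by_cases h1 : c y = k
    · rw [if_pos h1, map_one, if_pos (Finset.mem_insert.2 (Or.inl h1))]
    · rw [if_neg h1, klT_of]
      by_cases h2 : c y ∈ T
      · rw [if_pos h2, if_pos (Finset.mem_insert.2 (Or.inr h2))]
      · rw [if_neg h2, if_neg (fun h3 => (Finset.mem_insert.1 h3).elim h1 h2)]
  exact DFunLike.congr_fun h x

/-- the successive corrections of `W0` -/
private def Wk (W0 : FreeGroup X) : ℕ → FreeGroup X
  | 0 => W0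
  | k + 1 => Wk W0 k * (kil c k (Wk W0 k))⁻¹

private theorem kil_Wk (W0 : FreeGroup X) (k : ℕ) : ∀ l < k, kil c l (Wk c W0 k) = 1 := by
  induction k with
  | zero =>
    intro l hl
    omega
  | succ k ih =>
    intro l hl
    have e : Wk c W0 (k + 1) = Wk c W0 k * (kil c k (Wk c W0 k))⁻¹ := rfl
    rw [e, map_mul, map_inv]
    by_cases h1 : l = k
    · subst h1
      rw [kil_idem, mul_inv_cancel]
    · rw [kil_comm, ih l (by omega), map_one, inv_one, mul_one]

private theorem Wk_good (s : ℕ) (ψ : FreeGroup X →* H) (W0 : FreeGroup X)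
    (h0 : ∀ T : Finset ℕ, T ⊆ Finset.range s → T.Nonempty → ψ (klT c T W0) = 1) (k : ℕ)
    (hk : k ≤ s) :
    (∀ T : Finset ℕ, T ⊆ Finset.range s → T.Nonempty → ψ (klT c T (Wk c W0 k)) = 1) ∧
      ψ (Wk c W0 k) = ψ W0 := by
  induction k with
  | zero => exact ⟨h0, rfl⟩
  | succ k ih =>
    obtain ⟨h1, h2⟩ := ih (by omega)
    have e : Wk c W0 (k + 1) = Wk c W0 k * (kil c k (Wk c W0 k))⁻¹ := rfl
    have hks : k ∈ Finset.range s := Finset.mem_range.2 (by omega)
    constructor
    · intro T hT hT2
      rw [e, map_mul, map_mul, map_inv, map_inv, h1 T hT hT2, klT_kil,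
        h1 _ (Finset.insert_subset hks hT) (Finset.insert_nonempty k T), inv_one, mul_one]
    · rw [e, map_mul, map_inv, ← klT_singleton,
        h1 {k} (Finset.singleton_subset_iff.2 hks) (Finset.singleton_nonempty k), inv_one,
        mul_one, h2]

end Kill

/-! ### commutators of lists -/

private theorem foldl_map {A : Type} [Group A] (ψ : A →* H) (l : List (Subgroup A))
    (K : Subgroup A) :
    (l.foldl (fun K M => ⁅K, M⁆) K).map ψ =
      (l.map (Subgroup.map ψ)).foldl (fun K M => ⁅K, M⁆) (K.map ψ) := by
  induction l generalizing K with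
  | nil => rfl
  | cons M l ih =>
    rw [List.foldl_cons, List.map_cons, List.foldl_cons, ih, Subgroup.map_commutator]

private theorem foldl_mono (f g : ℕ → Subgroup H) (l : List ℕ) (h : ∀ k ∈ l, f k ≤ g k)
    (K K' : Subgroup H) (hK : K ≤ K') :
    (l.map f).foldl (fun K M => ⁅K, M⁆) K ≤ (l.map g).foldl (fun K M => ⁅K, M⁆) K' := by
  induction l generalizing K K' with
  | nil => exact hK
  | cons a l ih =>
    rw [List.map_cons, List.map_cons, List.foldl_cons, List.foldl_cons]
    exact ih (fun k hk => h k (List.mem_cons_of_mem a hk)) _ _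
      (Subgroup.commutator_mono hK (h a List.mem_cons_self))

private theorem lnc_map_le {A : Type} [Group A] (ψ : A →* H) (f : ℕ → Subgroup A)
    (g : ℕ → Subgroup H) (l : List ℕ) (h : ∀ k ∈ l, (f k).map ψ ≤ g k) :
    (lnc (l.map f)).map ψ ≤ lnc (l.map g) := by
  cases l with
  | nil =>
    simp only [List.map_nil, lnc]
    exact le_top
  | cons a l =>
    simp only [List.map_cons, lnc]
    rw [foldl_map, List.map_map]
    exact foldl_mono (fun k => (f k).map ψ) g l (fun k hk => h k (List.mem_cons_of_mem a hk)) _ _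
      (h a List.mem_cons_self)

theorem oates_powell {s : ℕ} (hs : 0 < s) (L : Subgroup H) (N : Fin s → Subgroup H)
    [∀ i, (N i).Normal] (hgen : L ⊔ ⨆ i, N i = ⊤)
    (hc : ∀ l : List (Fin s), l.Perm (List.finRange s) → lnc (l.map N) = ⊥)
    (hlaw : ∀ k, InVar G (L ⊔ ⨆ (i : Fin s) (_ : i ≠ k), N i : Subgroup H)) : InVar G H := by
  intro r w hw
  rw [mem_LawN]
  intro h
  choose a ha n hn hh using fun j => decomp L N inferInstance hgen (h j)
  set c : Fin r × Option (Fin s) → ℕ := fun x => x.2.elim s (fun i => (i : ℕ)) with hcdef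
  set v : Fin r × Option (Fin s) → H := fun x => x.2.elim (a x.1) (fun i => n x.1 i) with hv
  set ψ : FreeGroup (Fin r × Option (Fin s)) →* H := FreeGroup.lift v with hψ
  set u : Fin r → FreeGroup (Fin r × Option (Fin s)) := fun j =>
    FreeGroup.of (j, none) * (List.ofFn fun i => FreeGroup.of (j, some i)).prod with hu
  set W0 := FreeGroup.lift u w with hW0
  have hψof : ∀ x, ψ (FreeGroup.of x) = v x := by
    intro x
    rw [hψ, FreeGroup.lift_apply_of]
  -- the value of `w`
  have hval : FreeGroup.lift h w = ψ W0 := by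
    have e : FreeGroup.lift h = ψ.comp (FreeGroup.lift u) := by
      apply FreeGroup.ext_hom
      intro j
      rw [FreeGroup.lift_apply_of, MonoidHom.comp_apply, FreeGroup.lift_apply_of, hu]
      simp only
      have e1 : (⇑ψ ∘ fun i => FreeGroup.of (j, some i)) = n j :=
        funext fun i => hψof (j, some i)
      rw [map_mul, hψof, map_list_prod, List.map_ofFn, hh j, e1]
      rfl
    rw [e]
    rfl
  -- `W0` is good
  have hgood : ∀ T : Finset ℕ, T ⊆ Finset.range s → T.Nonempty → ψ (klT c T W0) = 1 := by
    intro T hT hT2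
    obtain ⟨k, hk⟩ := hT2
    have hks : k < s := Finset.mem_range.1 (hT hk)
    set K : Subgroup H := L ⊔ ⨆ (i : Fin s) (_ : i ≠ ⟨k, hks⟩), N i with hK
    have hmem : ∀ x, ψ (klT c T (FreeGroup.of x)) ∈ K := by
      rintro ⟨j, o⟩
      rw [klT_of]
      split_ifs with h1
      · rw [map_one]
        exact K.one_mem
      · rw [hψof]
        cases o with
        | none => exact (le_sup_left : L ≤ K) (ha j)
        | some i =>
          have h2 : i ≠ ⟨k, hks⟩ := by
            rintro rfl
            exact h1 hk
          have h3 : N i ≤ K := (le_iSup₂ (f := fun (i : Fin s) (_ : i ≠ ⟨k, hks⟩) => N i)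
            i h2).trans le_sup_right
          exact h3 (hn j i)
    set θ : FreeGroup (Fin r × Option (Fin s)) →* K :=
      FreeGroup.lift (fun x => ⟨ψ (klT c T (FreeGroup.of x)), hmem x⟩) with hθ
    have e1 : K.subtype.comp θ = ψ.comp (klT c T) := by
      apply FreeGroup.ext_hom
      intro x
      rw [MonoidHom.comp_apply, MonoidHom.comp_apply, hθ, FreeGroup.lift_apply_of]
      rfl
    have e2 : ψ (klT c T W0) = K.subtype (θ W0) := (DFunLike.congr_fun e1 W0).symm
    have e3 : θ W0 = FreeGroup.lift (fun j => θ (u j)) w := by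
      have e4 : θ.comp (FreeGroup.lift u) = FreeGroup.lift (fun j => θ (u j)) := by
        apply FreeGroup.ext_hom
        intro j
        rw [MonoidHom.comp_apply, FreeGroup.lift_apply_of, FreeGroup.lift_apply_of]
      exact DFunLike.congr_fun e4 w
    have e5 : FreeGroup.lift (fun j => θ (u j)) w = 1 := hlaw ⟨k, hks⟩ r hw _
    rw [e2, e3, e5, map_one]
  obtain ⟨-, hWs⟩ := Wk_good c s ψ W0 hgood s le_rfl
  have hop := op_free c (List.range s) List.nodup_range (by
      intro h0
      have h1 := congrArg List.length h0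
      rw [List.length_range, List.length_nil] at h1
      omega) (Wk c W0 s)
    (fun k hk => kil_Wk c W0 s k (List.mem_range.1 hk))
  set g : ℕ → Subgroup H := fun k => if hk : k < s then N ⟨k, hk⟩ else ⊤ with hg
  have hker : ∀ k, (kil c k).ker.map ψ ≤ g k := by
    intro k
    by_cases hk : k < s
    · have hgk : g k = N ⟨k, hk⟩ := by
        rw [hg]
        simp only
        rw [dif_pos hk]
      rw [hgk, Subgroup.map_le_iff_le_comap]
      intro x hx
      rw [MonoidHom.mem_ker] at hx
      rw [Subgroup.mem_comap, ← QuotientGroup.eq_one_iff]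
      have e : ((QuotientGroup.mk' (N ⟨k, hk⟩)).comp ψ).comp (kil c k) =
          (QuotientGroup.mk' (N ⟨k, hk⟩)).comp ψ := by
        apply FreeGroup.ext_hom
        rintro ⟨j, o⟩
        rw [MonoidHom.comp_apply, kil_of]
        split_ifs with h1
        · rw [map_one, MonoidHom.comp_apply, hψof]
          cases o with
          | none =>
            exfalso
            simp only [hcdef, Option.elim] at h1
            omega
          | some i =>
            have h2 : i = ⟨k, hk⟩ := Fin.ext h1
            subst h2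
            exact ((QuotientGroup.eq_one_iff _).2 (hn j _)).symm
        · rfl
      have e2 := DFunLike.congr_fun e x
      rw [MonoidHom.comp_apply, hx, map_one] at e2
      exact e2.symm
    · have hgk : g k = ⊤ := by
        rw [hg]
        simp only
        rw [dif_neg hk]
      rw [hgk]
      exact le_top
  have hle : (⨆ (l' : List ℕ) (_ : l'.Perm (List.range s)),
      lnc (l'.map fun k => (kil c k).ker)) ≤ ψ.ker := by
    refine iSup₂_le fun l' hl' => ?_
    have hmem : ∀ k ∈ l', k < s := fun k hk => List.mem_range.1 (hl'.mem_iff.1 hk)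
    set l'' : List (Fin s) := l'.pmap (fun k hk => (⟨k, hk⟩ : Fin s)) hmem with hl''
    have h1 : l''.map (fun i : Fin s => (i : ℕ)) = l' := by
      rw [hl'', List.map_pmap]
      simp
    have h2 : l''.Perm (List.finRange s) := by
      rw [← List.map_perm_map_iff (f := fun i : Fin s => (i : ℕ)) Fin.val_injective, h1]
      have h3 : (List.finRange s).map (fun i : Fin s => (i : ℕ)) = List.range s := by
        simp
      rw [h3]
      exact hl'
    have h3 : l'.map g = l''.map N := by
      rw [← h1, List.map_map]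
      refine List.map_congr_left fun i _ => ?_
      rw [Function.comp_apply, hg]
      simp only
      rw [dif_pos i.2]
    have h4 := lnc_map_le ψ (fun k => (kil c k).ker) g l' (fun k _ => hker k)
    rw [h3, hc l'' h2, le_bot_iff, Subgroup.map_eq_bot_iff] at h4
    exact h4
  rw [hval, ← hWs]
  exact hle hop

end SA
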