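import Pool.Agent.SA.MaxM
import Pool.Agent.SA.OP

/-! MODULE SA-Ker0: maximal subgroups not containing `A` have the same kernel.
Plan. `A ⊔ M i = ⊤`; `A ⊓ M i` is normal in `H` (normalized by `M i` and by the abelian group `A`), and every
normal `X` with `A ⊓ M i ≤ X ≤ A` is `A ⊓ M i` or `A` (as in `max_facts`). CLAIM `A ⊓ M1 = A ⊓ M2`. If not: apply
`oates_powell` with `s = 2`, `L = M1 ⊓ M2`, `N 0 = A ⊓ M2`, `N 1 = A ⊓ M1`. By maximality `A ⊓ M2` is not contained in `M1`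
and `A ⊓ M1` is not contained in `M2`. Dedekind: `M2 = L ⊔ N 0` (`m ∈ M2` is `x * y`, `x ∈ M1`, `y ∈ N 0 ≤ M2` since
`M1 ⊔ N 0 = ⊤`), and `M2 ⊔ N 1 = ⊤`. `L ⊔ N 0 ≤ M2 ≠ ⊤`, `L ⊔ N 1 ≤ M1 ≠ ⊤` satisfy the laws by `hsub`. The
commutators `⁅N 0, N 1⁆`, `⁅N 1, N 0⁆` are trivial (`A` abelian); the permutations of `List.finRange 2` are two
lists. So `InVar G H`, contradiction. FINALLY `F = A ⊔ (F ⊓ M i)` (`A ⊔ M i = ⊤`, `A ≤ F`), so `h ∈ cen (F ⊓ M i) F` iff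
`h a h⁻¹ a⁻¹ ∈ A ⊓ M i` for all `a ∈ A` (for `f = a * y`, `y ∈ F ⊓ M i` normal (`max_facts`)). -/

namespace SA

variable {G H : Type} [Group G] [Group H]

private theorem ker0_top {A M : Subgroup H} (hM : IsCoatom M) (hA : ¬ A ≤ M) : A ⊔ M = ⊤ := by
  apply hM.2
  refine lt_of_le_of_ne le_sup_right fun h => hA ?_
  rw [h]
  exact le_sup_left

private theorem ker0_normal {A M : Subgroup H} [hN : A.Normal]
    (hA : ∀ a ∈ A, ∀ b ∈ A, a * b = b * a) (hM : IsCoatom M) (hAM : ¬ A ≤ M) :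
    (A ⊓ M).Normal := by
  constructor
  intro x hx g
  have hg : g ∈ A ⊔ M := by
    rw [ker0_top hM hAM]
    exact Subgroup.mem_top g
  obtain ⟨a, ha, m, hm, rfl⟩ := Subgroup.mem_sup_of_normal_left.1 hg
  have h1 : m * x * m⁻¹ ∈ A := hN.conj_mem x hx.1 m
  have h2 : m * x * m⁻¹ ∈ M := M.mul_mem (M.mul_mem hm hx.2) (M.inv_mem hm)
  have h3 : a * m * x * (a * m)⁻¹ = m * x * m⁻¹ := by
    have h4 : a * m * x * (a * m)⁻¹ = a * (m * x * m⁻¹) * a⁻¹ := by group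
    rw [h4, hA a ha _ h1, mul_inv_cancel_right]
  rw [h3]
  exact ⟨h1, h2⟩

private theorem ker0_irr {A M X : Subgroup H} [hX : X.Normal] (hM : IsCoatom M)
    (h1 : A ⊓ M ≤ X) (h2 : X ≤ A) : X = A ⊓ M ∨ X = A := by
  by_cases hXM : X ≤ M
  · left
    exact le_antisymm (le_inf h2 hXM) h1
  · right
    apply le_antisymm h2
    intro a ha
    have ha' : a ∈ X ⊔ M := by
      rw [ker0_top hM hXM]
      exact Subgroup.mem_top a
    obtain ⟨x, hx, m, hm, rfl⟩ := Subgroup.mem_sup_of_normal_left.1 ha'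
    have h3 : m ∈ A := by
      have h4 := A.mul_mem (A.inv_mem (h2 hx)) ha
      rwa [inv_mul_cancel_left] at h4
    exact X.mul_mem hx (h1 ⟨h3, hm⟩)

private theorem ker0_not_le {A M1 M2 : Subgroup H} [A.Normal]
    (hA : ∀ a ∈ A, ∀ b ∈ A, a * b = b * a) (h1 : IsCoatom M1) (h2 : IsCoatom M2)
    (hA1 : ¬ A ≤ M1) (hne : A ⊓ M1 ≠ A ⊓ M2) : ¬ A ⊓ M2 ≤ M1 := by
  intro hle
  have h3 : A ⊓ M2 ≤ A ⊓ M1 := le_inf inf_le_left hle
  have h4 : (A ⊓ M1).Normal := ker0_normal hA h1 hA1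
  rcases ker0_irr (A := A) (M := M2) (X := A ⊓ M1) h2 h3 inf_le_left with h | h
  · exact hne h
  · exact hA1 (by
      rw [← h]
      exact inf_le_right)

private theorem ker0_ded {A M1 M2 : Subgroup H} [A.Normal]
    (hA : ∀ a ∈ A, ∀ b ∈ A, a * b = b * a) (h1 : IsCoatom M1) (h2 : IsCoatom M2)
    (hA1 : ¬ A ≤ M1) (hA2 : ¬ A ≤ M2) (hne : A ⊓ M1 ≠ A ⊓ M2) :
    M2 ≤ (M1 ⊓ M2) ⊔ (A ⊓ M2) := by
  intro m hm
  have hN : (A ⊓ M2).Normal := ker0_normal hA h2 hA2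
  have h3 : (A ⊓ M2) ⊔ M1 = ⊤ := ker0_top h1 (ker0_not_le hA h1 h2 hA1 hne)
  have hm' : m ∈ M1 ⊔ (A ⊓ M2) := by
    rw [sup_comm, h3]
    exact Subgroup.mem_top m
  obtain ⟨x, hx, y, hy, rfl⟩ := Subgroup.mem_sup_of_normal_right.1 hm'
  have hx2 : x ∈ M2 := by
    have h4 := M2.mul_mem hm (M2.inv_mem hy.2)
    rwa [mul_inv_cancel_right] at h4
  exact Subgroup.mul_mem_sup ⟨hx, hx2⟩ hy

open scoped commutatorElement in
private theorem ker0_comm {A X Y : Subgroup H} (hA : ∀ a ∈ A, ∀ b ∈ A, a * b = b * a)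
    (hX : X ≤ A) (hY : Y ≤ A) : ⁅X, Y⁆ = ⊥ := by
  rw [eq_bot_iff, Subgroup.commutator_le]
  intro x hx y hy
  rw [Subgroup.mem_bot, commutatorElement_eq_one_iff_mul_comm]
  exact hA x (hX hx) y (hY hy)

private theorem ker0_perm (l : List (Fin 2)) (hl : l.Perm (List.finRange 2)) :
    l = [0, 1] ∨ l = [1, 0] := by
  have h1 : l.length = 2 := by
    rw [hl.length_eq]
    rfl
  have h2 : l.Nodup := hl.nodup_iff.2 (List.nodup_finRange 2)
  match l, h1 with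
  | [a, b], _ =>
    have h3 : a ≠ b := by
      simpa using h2
    fin_cases a <;> fin_cases b <;> simp_all

private theorem ker0_inf_eq {A : Subgroup H} [A.Normal] (hA : ∀ a ∈ A, ∀ b ∈ A, a * b = b * a)
    (hsub : ∀ K : Subgroup H, K ≠ ⊤ → InVar G K) (hH : ¬ InVar G H) {M1 M2 : Subgroup H}
    (h1 : IsCoatom M1) (h2 : IsCoatom M2) (hA1 : ¬ A ≤ M1) (hA2 : ¬ A ≤ M2) :
    A ⊓ M1 = A ⊓ M2 := by
  by_contra hne
  apply hH
  have hN1 : (A ⊓ M1).Normal := ker0_normal hA h1 hA1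
  have hN2 : (A ⊓ M2).Normal := ker0_normal hA h2 hA2
  let N : Fin 2 → Subgroup H := ![A ⊓ M2, A ⊓ M1]
  have hN0' : N 0 = A ⊓ M2 := rfl
  have hN1' : N 1 = A ⊓ M1 := rfl
  have hNn : ∀ i, (N i).Normal := by
    intro i
    fin_cases i
    · exact hN2
    · exact hN1
  have hne' : A ⊓ M2 ≠ A ⊓ M1 := fun h => hne h.symm
  refine oates_powell (G := G) (s := 2) two_pos (M1 ⊓ M2) N ?_ ?_ ?_
  · rw [eq_top_iff, ← ker0_top h2 (ker0_not_le hA h2 h1 hA2 hne')]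
    refine sup_le ?_ ?_
    · exact (le_iSup N 1).trans le_sup_right
    · refine (ker0_ded hA h1 h2 hA1 hA2 hne).trans (sup_le_sup_left ?_ _)
      exact le_iSup N 0
  · intro l hl
    rcases ker0_perm l hl with rfl | rfl
    · exact ker0_comm hA (X := A ⊓ M2) (Y := A ⊓ M1) inf_le_left inf_le_left
    · exact ker0_comm hA (X := A ⊓ M1) (Y := A ⊓ M2) inf_le_left inf_le_left
  · intro k
    apply hsub
    fin_cases k
    · intro htop
      apply h1.1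
      rw [eq_top_iff, ← htop]
      refine sup_le inf_le_left (iSup₂_le ?_)
      intro i hi
      fin_cases i
      · exact absurd rfl hi
      · exact inf_le_right
    · intro htop
      apply h2.1
      rw [eq_top_iff, ← htop]
      refine sup_le inf_le_right (iSup₂_le ?_)
      intro i hi
      fin_cases i
      · exact inf_le_right
      · exact absurd rfl hi

private theorem ker0_cen {A F M : Subgroup H} [hAn : A.Normal] [hFn : F.Normal] (hAF : A ≤ F)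
    (hN : (F ⊓ M).Normal) (hM : IsCoatom M) (hAM : ¬ A ≤ M) (h : H) :
    h ∈ cen (F ⊓ M) F ↔ ∀ a ∈ A, h * a * h⁻¹ * a⁻¹ ∈ A ⊓ M := by
  rw [mem_cen]
  constructor
  · intro hh a ha
    refine ⟨A.mul_mem (hAn.conj_mem a ha h) (A.inv_mem ha), (hh a (hAF ha)).2⟩
  · intro hh f hf
    have hf' : f ∈ A ⊔ M := by
      rw [ker0_top hM hAM]
      exact Subgroup.mem_top f
    obtain ⟨a, ha, m, hm, rfl⟩ := Subgroup.mem_sup_of_normal_left.1 hf'
    have hmF : m ∈ F := by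
      have h4 := F.mul_mem (F.inv_mem (hAF ha)) hf
      rwa [inv_mul_cancel_left] at h4
    have hmFM : m ∈ F ⊓ M := ⟨hmF, hm⟩
    have h5 : h * m * h⁻¹ * m⁻¹ ∈ F ⊓ M :=
      (F ⊓ M).mul_mem (hN.conj_mem m hmFM h) ((F ⊓ M).inv_mem hmFM)
    have h6 := hN.conj_mem _ h5 a
    have h7 : h * a * h⁻¹ * a⁻¹ ∈ F ⊓ M := ⟨hAF (hh a ha).1, (hh a ha).2⟩
    have h8 : h * (a * m) * h⁻¹ * (a * m)⁻¹ =
        (h * a * h⁻¹ * a⁻¹) * (a * (h * m * h⁻¹ * m⁻¹) * a⁻¹) := by group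
    rw [h8]
    exact (F ⊓ M).mul_mem h7 h6

theorem ker_eq [Finite H] {q : ℕ} (hq : q.Prime) (A F : Subgroup H) [A.Normal] [F.Normal]
    (hAF : A ≤ F) (hA : ∀ a ∈ A, ∀ b ∈ A, a * b = b * a) (hF : IsPGroup q F)
    (hsub : ∀ K : Subgroup H, K ≠ ⊤ → InVar G K) (hH : ¬ InVar G H) (M1 M2 : Subgroup H)
    (h1 : IsCoatom M1) (h2 : IsCoatom M2) (hA1 : ¬ A ≤ M1) (hA2 : ¬ A ≤ M2) :
    cen (F ⊓ M1) F = cen (F ⊓ M2) F := by
  have hF1 : ¬ F ≤ M1 := fun h => hA1 (hAF.trans h)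
  have hF2 : ¬ F ≤ M2 := fun h => hA2 (hAF.trans h)
  have hN1 := (max_facts hq F hF M1 h1 hF1).1
  have hN2 := (max_facts hq F hF M2 h2 hF2).1
  have heq := ker0_inf_eq hA hsub hH h1 h2 hA1 hA2
  ext h
  rw [ker0_cen hAF hN1 h1 hA1, ker0_cen hAF hN2 h2 hA2, heq]

end SA
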