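import Pool.Agent.SA.Defs

/-! MODULE SA-NkA: the exact kernel part for `C` is in `M` if the kernel of `F / (F ⊓ M)` is not `C`.
If `X = Nk A F C` is not contained in `M`, then `X ⊔ (F ⊓ M) = F`, so `C` is contained in
`D = cen (F ⊓ M) F`, hence `C < D` and `X ≤ ⁅F, D⁆ ⊔ A ≤ F ⊓ M`. -/

namespace SA

variable {H : Type} [Group H]

theorem nk_le (A F C M : Subgroup H) [A.Normal] [F.Normal] [C.Normal] [(F ⊓ M).Normal]
    (hAM : A ≤ M) (hAF : A ≤ F) (hch : IsChief (F ⊓ M) F) (hne : C ≠ cen (F ⊓ M) F) :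
    Nk A F C ≤ M := by
  by_contra hX
  have hXn : (Nk A F C).Normal := Nk_normal A F C
  have hXF : Nk A F C ≤ F := fun x hx => (mem_Nk.1 hx).1
  have hY : Nk A F C ⊔ (F ⊓ M) = F := by
    rcases hch.irr (Nk A F C ⊔ (F ⊓ M)) inferInstance le_sup_right
      (sup_le hXF inf_le_left) with h | h
    · exact absurd ((le_sup_left.trans (le_of_eq h)).trans inf_le_right) hX
    · exact h
  have hAFM : A ≤ F ⊓ M := le_inf hAF hAM
  have hnFM : (F ⊓ M).Normal := inferInstance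
  have hCD : C ≤ cen (F ⊓ M) F := by
    intro c hc f hf
    rw [← hY, Subgroup.mem_sup_of_normal_right] at hf
    obtain ⟨x, hx, y, hy, rfl⟩ := hf
    have h1 : c * x * c⁻¹ * x⁻¹ ∈ F ⊓ M := by
      have h2 := (mem_Nk.1 hx).2.1 c hc
      have h3 := A.inv_mem h2
      have h4 : (x * c * x⁻¹ * c⁻¹)⁻¹ = c * x * c⁻¹ * x⁻¹ := by group
      rw [h4] at h3
      exact hAFM h3
    have h2 : c * y * c⁻¹ * y⁻¹ ∈ F ⊓ M :=
      (F ⊓ M).mul_mem (hnFM.conj_mem y hy c) ((F ⊓ M).inv_mem hy)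
    have h3 := hnFM.conj_mem _ h2 x
    have h4 : c * x * c⁻¹ * x⁻¹ * (x * (c * y * c⁻¹ * y⁻¹) * x⁻¹) =
        c * (x * y) * c⁻¹ * (x * y)⁻¹ := by group
    rw [← h4]
    exact (F ⊓ M).mul_mem h1 h3
  have hlt : C < cen (F ⊓ M) F := lt_of_le_of_ne hCD hne
  have hcm : ⁅F, cen (F ⊓ M) F⁆ ≤ F ⊓ M := by
    refine Subgroup.commutator_le.2 fun f hf d hd => ?_
    have h2 := (F ⊓ M).inv_mem (mem_cen.1 hd f hf)
    have h3 : (d * f * d⁻¹ * f⁻¹)⁻¹ = f * d * f⁻¹ * d⁻¹ := by group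
    rw [h3] at h2
    exact h2
  refine hX fun x hx => ?_
  have h1 := (mem_Nk.1 hx).2.2 (cen (F ⊓ M) F) inferInstance hlt
  exact (inf_le_right : F ⊓ M ≤ M) ((sup_le hcm hAFM) h1)

end SA
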