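import Pool.Agent.SA.Pr

/-! MODULE SA-NkB: the exact kernel part for the kernel of `F / (F ⊓ M)` is not in `M`.
Plan. `C = cen (F ⊓ M) F`. Choose `x ∈ F`, `x ∉ M` (`hch.lt`). Apply `proj` in `H ⧸ A` (finite) with
`N = ⊤`, `V`, `B`, `C`, `x` the images (`Subgroup.map (QuotientGroup.mk' A)`, `mk x`) of `F`, `F ⊓ M`, `C`, `x`, and
`𝒮 = {image of C' | C' normal, C < C'}` (`Nrm ⊤` from normality of the images). (h1) `c x c⁻¹ x⁻¹ ∈ F ⊓ M` by definition of
`cen`. (h2, second alternative) let `y ∈ F` with `c y c⁻¹ y⁻¹ ∈ A` for all `c ∈ C'`. `X = {y ∈ F | ∀ c ∈ C', c y c⁻¹ y⁻¹ ∈ A}` joined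
with `F ⊓ M` is a normal subgroup between `F ⊓ M` and `F`; if it is `F` then `C' ≤ C` (as in SA-NkA, `A ≤ F ⊓ M`), contradiction with
`C < C'`; so it is `F ⊓ M` and `y ∈ F ⊓ M`. `proj` gives `x' ∈ V`, `x' = mk x''` with `x'' ∈ F` (`A ≤ F`), `x * x''⁻¹ ∈ (F ⊓ M)`
(`A ≤ F ⊓ M`), so `x'' ∉ M`, and `x'' ∈ Nk A F C` by `mem_Nk`: fixed by `C` modulo `A`, and
`mk x'' ∈ ⁅V, image of C'⁆ =` image of `⁅F, C'⁆` (`Subgroup.map_commutator`) gives `x'' ∈ ⁅F, C'⁆ ⊔ A`. -/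

namespace SA

variable {H : Type} [Group H]

theorem nk_not_le [Finite H] {q : ℕ} (hq : q.Prime) (A F M : Subgroup H) [A.Normal] [F.Normal]
    [(F ⊓ M).Normal] (hAM : A ≤ M) (hAF : A ≤ F) (hF : IsPGroup q F) (hab : QAb q (H ⧸ A))
    (hch : IsChief (F ⊓ M) F) : ¬ Nk A F (cen (F ⊓ M) F) ≤ M := by
  intro hle
  have hAB : A ≤ F ⊓ M := le_inf hAF hAM
  have hsurj : Function.Surjective (QuotientGroup.mk' A) := QuotientGroup.mk'_surjective A
  have hnF : (F.map (QuotientGroup.mk' A)).Normal :=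
    Subgroup.Normal.map inferInstance (QuotientGroup.mk' A) hsurj
  have hnB : ((F ⊓ M).map (QuotientGroup.mk' A)).Normal :=
    Subgroup.Normal.map inferInstance (QuotientGroup.mk' A) hsurj
  obtain ⟨x0, hx0F, hx0B⟩ := SetLike.exists_of_lt hch.lt
  have hkey : ∀ a b : H, QuotientGroup.mk' A a = QuotientGroup.mk' A b → a⁻¹ * b ∈ A := by
    intro a b hab'
    exact QuotientGroup.eq.mp hab'
  obtain ⟨x', hx'V, hxx', hfix, hcomm⟩ := proj hq hab ⊤ (F.map (QuotientGroup.mk' A))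
    ((F ⊓ M).map (QuotientGroup.mk' A)) ((cen (F ⊓ M) F).map (QuotientGroup.mk' A))
    {D | ∃ C' : Subgroup H, C'.Normal ∧ cen (F ⊓ M) F < C' ∧
      D = C'.map (QuotientGroup.mk' A)}
    (hF.map _) (Subgroup.map_mono inf_le_left) le_top (fun D _ => le_top)
    (fun g _ y hy => hnF.conj_mem y hy g) (fun g _ y hy => hnB.conj_mem y hy g)
    (by
      rintro D ⟨C', hC', -, rfl⟩ g - y hy
      have hnC : (C'.map (QuotientGroup.mk' A)).Normal :=
        Subgroup.Normal.map hC' (QuotientGroup.mk' A) hsurj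
      exact hnC.conj_mem y hy g)
    (QuotientGroup.mk' A x0) (Subgroup.mem_map_of_mem _ hx0F)
    (by
      rintro c ⟨c0, hc0, rfl⟩
      refine ⟨c0 * x0 * c0⁻¹ * x0⁻¹, hc0 x0 hx0F, ?_⟩
      simp only [map_mul, map_inv])
    (by
      rintro D ⟨C', hC', hlt, rfl⟩
      right
      rintro y ⟨y0, hy0, rfl⟩ hy
      have hXn : ((F ⊓ cen A C') ⊔ (F ⊓ M)).Normal := inferInstance
      rcases hch.irr ((F ⊓ cen A C') ⊔ (F ⊓ M)) hXn le_sup_right
        (sup_le inf_le_left inf_le_left) with h1 | h1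
      · have h2 : y0 ∈ F ⊓ cen A C' := by
          refine ⟨hy0, fun c hc => ?_⟩
          have h3 := hy (QuotientGroup.mk' A c) (Subgroup.mem_map_of_mem _ hc)
          rw [← map_inv, ← map_mul, ← map_mul] at h3
          have h4 := hkey _ _ h3
          have h5 : (c * y0 * c⁻¹)⁻¹ * y0 = c * (y0⁻¹ * c⁻¹ * y0) := by group
          rw [h5] at h4
          have h6 := (inferInstance : A.Normal).conj_mem _ h4 y0
          have h7 := (inferInstance : A.Normal).conj_mem _ h6 1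
          have h8 : y0 * (c * (y0⁻¹ * c⁻¹ * y0)) * y0⁻¹ = y0 * c * y0⁻¹ * c⁻¹ := by group
          rw [h8] at h6
          exact h6
        have h3 : y0 ∈ F ⊓ M := by
          rw [← h1]
          exact (le_sup_left : F ⊓ cen A C' ≤ _) h2
        exact Subgroup.mem_map_of_mem _ h3
      · exfalso
        apply hlt.not_ge
        intro c hc f hf
        rw [← h1] at hf
        obtain ⟨x1, hx1, b, hb, rfl⟩ := Subgroup.mem_sup_of_normal_right.mp hf
        have h2 : x1 * c * x1⁻¹ * c⁻¹ ∈ F ⊓ M := hAB (hx1.2 c hc)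
        have h3 : c * x1 * c⁻¹ * x1⁻¹ ∈ F ⊓ M := by
          have := (F ⊓ M).inv_mem h2
          have h4 : (x1 * c * x1⁻¹ * c⁻¹)⁻¹ = c * x1 * c⁻¹ * x1⁻¹ := by group
          rwa [h4] at this
        have h4 : c * b * c⁻¹ * b⁻¹ ∈ F ⊓ M :=
          (F ⊓ M).mul_mem ((inferInstance : (F ⊓ M).Normal).conj_mem b hb c)
            ((F ⊓ M).inv_mem hb)
        have h5 := (inferInstance : (F ⊓ M).Normal).conj_mem _ h4 x1
        have h6 := (F ⊓ M).mul_mem h3 h5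
        have h7 : c * x1 * c⁻¹ * x1⁻¹ * (x1 * (c * b * c⁻¹ * b⁻¹) * x1⁻¹) =
            c * (x1 * b) * c⁻¹ * (x1 * b)⁻¹ := by group
        rwa [h7] at h6)
  obtain ⟨x1, hx1F, rfl⟩ := hx'V
  have hx1N : x1 ∈ Nk A F (cen (F ⊓ M) F) := by
    rw [mem_Nk]
    refine ⟨hx1F, fun c hc => ?_, fun C' hC' hlt => ?_⟩
    · have h3 := hfix (QuotientGroup.mk' A c) (Subgroup.mem_map_of_mem _ hc)
      rw [← map_inv, ← map_mul, ← map_mul] at h3
      have h4 := hkey _ _ h3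
      have h6 := (inferInstance : A.Normal).conj_mem _ h4 x1
      have h8 : x1 * ((c * x1 * c⁻¹)⁻¹ * x1) * x1⁻¹ = x1 * c * x1⁻¹ * c⁻¹ := by group
      rw [h8] at h6
      exact h6
    · have h3 := hcomm _ ⟨C', hC', hlt, rfl⟩
      rw [← Subgroup.map_commutator] at h3
      obtain ⟨w, hw, hwx⟩ := h3
      have h4 := hkey _ _ hwx
      have h5 : x1 = w * (w⁻¹ * x1) := by group
      rw [h5]
      exact Subgroup.mul_mem _ ((le_sup_left : ⁅F, C'⁆ ≤ _) hw) ((le_sup_right : A ≤ _) h4)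
  have hx1M : x1 ∈ M := hle hx1N
  obtain ⟨b, hb, hbx⟩ := hxx'
  rw [← map_inv, ← map_mul] at hbx
  have h4 := hkey _ _ hbx
  have h5 : x0 = b * (b⁻¹ * (x0 * x1⁻¹)) * x1 := by group
  have hx0M : x0 ∈ M := by
    rw [h5]
    exact M.mul_mem (M.mul_mem hb.2 (hAM h4)) hx1M
  exact hx0B ⟨hx0F, hx0M⟩

end SA
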