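import Pool.Agent.SA.StarB
import Pool.Agent.SA.ComA
import Pool.Agent.SA.NkA
import Pool.Agent.SA.NkB
import Pool.Agent.SA.Ded
import Pool.Agent.SA.Chin
import Pool.Agent.SA.ChinL
import Pool.Agent.SA.Ker0
import Pool.Agent.SA.Fit
import Pool.Agent.SA.OP

/-! Project SA: number of kernels and the bound of `|H / F|` (assembly, helper75). -/

namespace SA

variable {G H : Type} [Group G] [Group H]

/-- the standing assumptions on the minimal counterexample -/
structure Sit (AG : Subgroup G) [AG.Normal] (n0 n t q : ℕ) (F : Subgroup H) : Prop where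
  comm : ∀ a ∈ AG, ∀ b ∈ AG, a * b = b * a
  qprime : q.Prime
  qab : QAb q (G ⧸ AG)
  loc : Loc n G H
  Fn : F.Normal
  Fq : IsPGroup q F
  AF : ver n0 (G ⧸ AG) H ≤ F
  Ac : ∀ a ∈ ver n0 (G ⧸ AG) H, ∀ b ∈ ver n0 (G ⧸ AG) H, a * b = b * a
  FF : ⁅F, F⁆ ≤ ver n0 (G ⧸ AG) H
  hab : QAb q (H ⧸ ver n0 (G ⧸ AG) H)
  hsub : ∀ K : Subgroup H, K ≠ ⊤ → InVar G K
  not_var : ¬ InVar G H
  ht : AG.index < 2 ^ t
  hn0 : 1 + (AG.index + 1) + (AG.index + 1) * (AG.index + 1) ≤ n0
  hn1 : n0 + (AG.index + 1) + (AG.index + 1) * (AG.index + 1) ≤ n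
  hn2 : n0 + t + AG.index ^ t ≤ n

/-- index bound for a coatom not containing `F` -/
theorem index_le [Finite H] (AG : Subgroup G) [AG.Normal] [AG.FiniteIndex] {n0 n t q : ℕ}
    (F : Subgroup H) [F.Normal] (S : Sit AG n0 n t q F) (M : Subgroup H) (hM : IsCoatom M)
    (hFM : ¬ F ≤ M) : (cen (F ⊓ M) F).index ≤ AG.index := by
  obtain ⟨h1, h2, h3⟩ := max_facts S.qprime F S.Fq M hM hFM
  have := h1
  by_cases hA : ver n0 (G ⧸ AG) H ≤ M
  · obtain ⟨y, hy, hyM⟩ := Set.not_subset.1 hFM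
    refine index_cen_le (F ⊓ M) F h2 (y := y) hy (fun h => hyM h.2) ?_
    intro x z
    exact ⟨S.AF (chin_mem_ver AG rfl S.hn0 y x z), hA (chin_mem_ver AG rfl S.hn0 y x z)⟩
  · have h4 : ∃ w ∈ LawN n0 (G ⧸ AG), ∃ f : Fin n0 → H, FreeGroup.lift f w ∉ M := by
      by_contra hcon
      push Not at hcon
      apply hA
      rw [ver_eq_closure, Subgroup.closure_le]
      rintro _ ⟨w, hw, f, rfl⟩
      exact hcon w hw f
    obtain ⟨w, hw, f, hwM⟩ := h4
    refine index_cen_le (F ⊓ M) F h2 (y := FreeGroup.lift f w) (S.AF (mem_ver hw f))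
      (fun h => hwM h.2) ?_
    intro x z
    rw [chin_eq_one AG S.comm rfl S.hn1 S.loc hw f x z]
    exact Subgroup.one_mem _

/-- at most `t + 1` kernels for coatoms containing `A` -/
theorem kcount [Finite H] (AG : Subgroup G) [AG.Normal] [AG.FiniteIndex] {n0 n t q : ℕ}
    (F : Subgroup H) [F.Normal] (S : Sit AG n0 n t q F) (M : Fin (t + 2) → Subgroup H)
    (hM : ∀ i, IsCoatom (M i)) (hFM : ∀ i, ¬ F ≤ M i) (hAM : ∀ i, ver n0 (G ⧸ AG) H ≤ M i)
    (hinj : Function.Injective fun i => cen (F ⊓ M i) F) : False := by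
  have hfac := fun i => max_facts S.qprime F S.Fq (M i) (hM i) (hFM i)
  have hnorm : ∀ i, (F ⊓ M i).Normal := fun i => (hfac i).1
  have hAF := S.AF
  let C : Fin (t + 2) → Subgroup H := fun i => cen (F ⊓ M i) F
  have hCn : ∀ i, (C i).Normal := fun i => cen_normal (F ⊓ M i) F
  let N : Fin (t + 2) → Subgroup H := fun i => Nk (ver n0 (G ⧸ AG) H) F (C i)
  have hNn : ∀ i, (N i).Normal := fun i => Nk_normal _ _ _
  have h1 : ∀ i k, i ≠ k → N k ≤ M i := by
    intro i k hik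
    refine nk_le (ver n0 (G ⧸ AG) H) F (C k) (M i) (hAM i) hAF (hfac i).2.1 ?_
    intro h
    exact hik (hinj h).symm
  have h2 : ∀ k, ¬ N k ≤ M k := fun k =>
    nk_not_le S.qprime (ver n0 (G ⧸ AG) H) F (M k) (hAM k) hAF S.Fq S.hab (hfac k).2.1
  have hNF : ∀ i, N i ≤ F := by
    intro i x hx
    exact (mem_Nk.1 hx).1
  have hFC : ∀ i, F ≤ C i := by
    intro i f hf x hx
    exact (hfac i).2.2 (Subgroup.commutator_mem_commutator hf hx)
  obtain ⟨hgen, hle⟩ := dedekind M N hM h1 h2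
  refine S.not_var (oates_powell (by omega : 0 < t + 2) (⨅ i, M i) N hgen ?_ ?_)
  · intro l hl
    refine lnc_eq_bot (ver n0 (G ⧸ AG) H) F S.Ac S.FF N hNF ?_ l hl
    intro j hj p hp a ha
    have : ∀ k, (C (j k)).Normal := fun k => hCn (j k)
    exact star AG S.comm S.qprime S.qab S.loc F S.Fq S.AF S.Ac S.hab S.ht S.hn2
      (fun k => C (j k)) (fun x y hxy => hj (hinj hxy)) (fun k => hFC (j k))
      (fun k => index_le AG F S (M (j k)) (hM (j k)) (hFM (j k))) p hp a ha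
  · intro k
    refine S.hsub _ ?_
    intro h
    have h3 := hle k
    rw [h] at h3
    exact (hM k).1 (top_le_iff.1 h3)

theorem index_iInf_le' {ι : Type} [Finite H] (T : Finset ι) (C : ι → Subgroup H) (m : ℕ)
    (hC : ∀ i ∈ T, (C i).index ≤ m) (hm : 0 < m) : (⨅ i ∈ T, C i).index ≤ m ^ T.card := by
  classical
  induction T using Finset.induction_on with
  | empty => simp
  | insert a T ha ih =>
    rw [Finset.iInf_insert, Finset.card_insert_of_notMem ha]
    calc (C a ⊓ ⨅ i ∈ T, C i).index ≤ (C a).index * (⨅ i ∈ T, C i).index :=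
          Subgroup.index_inf_le
      _ ≤ m * m ^ T.card := Nat.mul_le_mul (hC a (Finset.mem_insert_self a T))
          (ih fun i hi => hC i (Finset.mem_insert_of_mem hi))
      _ = m ^ (T.card + 1) := by ring

/-- `|H / F|` is bounded -/
theorem index_F_le [Finite H] [Group.IsSolvable H] (AG : Subgroup G) [AG.Normal] [AG.FiniteIndex]
    {n0 n t q : ℕ} (F : Subgroup H) [F.Normal] (S : Sit AG n0 n t q F)
    (hnil : ∀ X : Subgroup H, X.Normal → Group.IsNilpotent X → X ≤ F) :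
    F.index ≤ AG.index ^ (t + 2) := by
  classical
  have : Finite (Subgroup H) := inferInstance
  have : Fintype (Subgroup H) := Fintype.ofFinite _
  have hm : 0 < AG.index := Nat.pos_of_ne_zero (Subgroup.FiniteIndex.index_ne_zero)
  -- coatoms containing `A`
  let TA : Finset (Subgroup H) := (Finset.univ.filter fun M : Subgroup H =>
    IsCoatom M ∧ ¬ F ≤ M ∧ ver n0 (G ⧸ AG) H ≤ M).image fun M => cen (F ⊓ M) F
  let TB : Finset (Subgroup H) := (Finset.univ.filter fun M : Subgroup H =>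
    IsCoatom M ∧ ¬ F ≤ M ∧ ¬ ver n0 (G ⧸ AG) H ≤ M).image fun M => cen (F ⊓ M) F
  have hTA : TA.card ≤ t + 1 := by
    by_contra hcon
    push Not at hcon
    obtain ⟨T, hT, hTc⟩ := Finset.exists_subset_card_eq (show t + 2 ≤ TA.card by omega)
    let e := T.equivFin.symm
    rw [hTc] at e
    have hex : ∀ i : Fin (t + 2), ∃ M : Subgroup H, (IsCoatom M ∧ ¬ F ≤ M ∧
        ver n0 (G ⧸ AG) H ≤ M) ∧ cen (F ⊓ M) F = (e i : Subgroup H) := by
      intro i
      have h := hT (e i).2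
      obtain ⟨M, hM, hMe⟩ := Finset.mem_image.1 h
      exact ⟨M, (Finset.mem_filter.1 hM).2, hMe⟩
    choose M hM hMe using hex
    refine kcount AG F S M (fun i => (hM i).1) (fun i => (hM i).2.1) (fun i => (hM i).2.2) ?_
    intro i j hij
    simp only [hMe] at hij
    exact e.injective (Subtype.ext hij)
  have hTB : TB.card ≤ 1 := by
    rw [Finset.card_le_one]
    intro x hx y hy
    obtain ⟨M1, h1, rfl⟩ := Finset.mem_image.1 hx
    obtain ⟨M2, h2, rfl⟩ := Finset.mem_image.1 hy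
    have h1' := (Finset.mem_filter.1 h1).2
    have h2' := (Finset.mem_filter.1 h2).2
    exact ker_eq S.qprime (ver n0 (G ⧸ AG) H) F S.AF S.Ac S.Fq S.hsub S.not_var M1 M2
      h1'.1 h2'.1 h1'.2.2 h2'.2.2
  have hle : (⨅ C ∈ TA ∪ TB, C) ≤ F := by
    intro h hh
    refine fit S.qprime F S.Fq hnil h ?_
    intro M hM hFM
    have hmem : cen (F ⊓ M) F ∈ TA ∪ TB := by
      by_cases hA : ver n0 (G ⧸ AG) H ≤ M
      · exact Finset.mem_union_left _ (Finset.mem_image.2
          ⟨M, Finset.mem_filter.2 ⟨Finset.mem_univ _, hM, hFM, hA⟩, rfl⟩)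
      · exact Finset.mem_union_right _ (Finset.mem_image.2
          ⟨M, Finset.mem_filter.2 ⟨Finset.mem_univ _, hM, hFM, hA⟩, rfl⟩)
    have h3 := (Subgroup.mem_iInf.1 hh) (cen (F ⊓ M) F)
    exact (Subgroup.mem_iInf.1 h3) hmem
  have hidx : ∀ C ∈ TA ∪ TB, C.index ≤ AG.index := by
    intro C hC
    rcases Finset.mem_union.1 hC with h | h
    · obtain ⟨M, hM, rfl⟩ := Finset.mem_image.1 h
      have hM' := (Finset.mem_filter.1 hM).2
      exact index_le AG F S M hM'.1 hM'.2.1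
    · obtain ⟨M, hM, rfl⟩ := Finset.mem_image.1 h
      have hM' := (Finset.mem_filter.1 hM).2
      exact index_le AG F S M hM'.1 hM'.2.1
  calc F.index ≤ (⨅ C ∈ TA ∪ TB, C).index :=
        Nat.le_of_dvd (Nat.pos_of_ne_zero Subgroup.FiniteIndex.index_ne_zero)
          (Subgroup.index_dvd_of_le hle)
    _ ≤ AG.index ^ (TA ∪ TB).card := index_iInf_le' (TA ∪ TB) (fun C => C) _ hidx hm
    _ ≤ AG.index ^ (t + 2) := by
        refine Nat.pow_le_pow_right hm ?_
        have := Finset.card_union_le TA TB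
        omega

end SA
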