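import Pool.Agent.SA.BasicA

/-! MODULE SA-Ver: verbal subgroups. The values of the laws form a set which is invariant under
conjugation and homomorphisms; commutators of laws of `G ⧸ A` in disjoint variables are laws of `G`
if `A` is abelian. -/

namespace SA

variable {G Q H K : Type} [Group G] [Group Q] [Group H] [Group K]

private theorem ver_hom {α : Type} (φ : H →* K) (f : α → H) (w : FreeGroup α) :
    φ (FreeGroup.lift f w) = FreeGroup.lift (fun i => φ (f i)) w := by
  have h : φ.comp (FreeGroup.lift f) = FreeGroup.lift (fun i => φ (f i)) := by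
    apply FreeGroup.ext_hom
    intro i
    simp
  exact DFunLike.congr_fun h w

private theorem ver_map {α β : Type} (ι : α → β) (f : β → H) (w : FreeGroup α) :
    FreeGroup.lift f (FreeGroup.map ι w) = FreeGroup.lift (fun i => f (ι i)) w := by
  have h : (FreeGroup.lift f).comp (FreeGroup.map ι) = FreeGroup.lift (fun i => f (ι i)) := by
    apply FreeGroup.ext_hom
    intro i
    simp
  exact DFunLike.congr_fun h w

theorem ver_eq_closure (n : ℕ) (Q H : Type) [Group Q] [Group H] :
    ver n Q H = Subgroup.closure {h | ∃ w ∈ LawN n Q, ∃ f : Fin n → H, FreeGroup.lift f w = h} := by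
  apply le_antisymm
  · unfold ver Subgroup.normalClosure
    apply Subgroup.closure_mono
    intro x hx
    obtain ⟨a, ⟨w, hw, f, rfl⟩, hax⟩ := Group.mem_conjugatesOfSet_iff.1 hx
    obtain ⟨c, rfl⟩ := isConj_iff.1 hax
    refine ⟨w, hw, fun i => c * f i * c⁻¹, ?_⟩
    exact (ver_hom (MulAut.conj c).toMonoidHom f w).symm
  · exact Subgroup.closure_le_normalClosure

theorem mem_ver {n : ℕ} {w : FreeGroup (Fin n)} (hw : w ∈ LawN n Q) (f : Fin n → H) :
    FreeGroup.lift f w ∈ ver n Q H := by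
  exact Subgroup.subset_normalClosure ⟨w, hw, f, rfl⟩

theorem loc_quot_ver (n : ℕ) (Q H : Type) [Group Q] [Group H] : Loc n Q (H ⧸ ver n Q H) := by
  intro w hw f
  obtain ⟨g, hg⟩ : ∃ g : Fin n → H, ∀ i, QuotientGroup.mk' (ver n Q H) (g i) = f i := by
    choose g hg using fun i => QuotientGroup.mk'_surjective (ver n Q H) (f i)
    exact ⟨g, hg⟩
  have h1 : f = fun i => QuotientGroup.mk' (ver n Q H) (g i) := funext fun i => (hg i).symm
  rw [h1, ← ver_hom]
  exact (QuotientGroup.eq_one_iff _).2 (mem_ver hw g)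

theorem map_ver_le {n : ℕ} (φ : H →* K) : (ver n Q H).map φ ≤ ver n Q K := by
  rw [ver_eq_closure n Q H, MonoidHom.map_closure, Subgroup.closure_le]
  rintro _ ⟨_, ⟨w, hw, f, rfl⟩, rfl⟩
  rw [ver_hom]
  exact mem_ver hw _

theorem map_ver {n : ℕ} (φ : H →* K) (hφ : Function.Surjective φ) :
    (ver n Q H).map φ = ver n Q K := by
  apply le_antisymm (map_ver_le φ)
  rw [ver_eq_closure n Q K, Subgroup.closure_le]
  rintro _ ⟨w, hw, f, rfl⟩
  choose g hg using fun i => hφ (f i)
  have h1 : f = fun i => φ (g i) := funext fun i => (hg i).symm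
  rw [h1, ← ver_hom]
  exact Subgroup.mem_map_of_mem φ (mem_ver hw g)

theorem ver_mono {m n : ℕ} (h : m ≤ n) : ver m Q H ≤ ver n Q H := by
  rw [ver_eq_closure m Q H, Subgroup.closure_le]
  rintro _ ⟨w, hw, f, rfl⟩
  have hinj : Function.Injective (Fin.castLE h) := Fin.castLE_injective h
  have h1 : FreeGroup.map (Fin.castLE h) w ∈ LawN n Q := by
    intro g
    rw [ver_map]
    exact hw _
  have h2 := mem_ver (H := H) h1 (Function.extend (Fin.castLE h) f 1)
  rw [ver_map] at h2
  have h3 : (fun i => Function.extend (Fin.castLE h) f 1 (Fin.castLE h i)) = f :=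
    funext fun i => hinj.extend_apply f 1 i
  rw [h3] at h2
  exact h2

theorem ver_comm (A : Subgroup G) [A.Normal] (hA : ∀ a ∈ A, ∀ b ∈ A, a * b = b * a) {n k : ℕ}
    (hk : 2 * n ≤ k) (hL : Loc k G H) :
    ∀ x ∈ ver n (G ⧸ A) H, ∀ y ∈ ver n (G ⧸ A) H, x * y = y * x := by
  have key : ∀ u ∈ LawN n (G ⧸ A), ∀ v ∈ LawN n (G ⧸ A), ∀ f g : Fin n → H,
      FreeGroup.lift f u * FreeGroup.lift g v = FreeGroup.lift g v * FreeGroup.lift f u := by
    intro u hu v hv f g
    have hmem : ∀ w ∈ LawN n (G ⧸ A), ∀ F : Fin n → G, FreeGroup.lift F w ∈ A := by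
      intro w hw F
      have h1 := hw fun i => QuotientGroup.mk' A (F i)
      rw [← ver_hom] at h1
      exact (QuotientGroup.eq_one_iff _).1 h1
    have h1 := loc_of_type (α := Fin n ⊕ Fin n) (by simp; omega) hL
      (FreeGroup.map Sum.inl u * FreeGroup.map Sum.inr v * (FreeGroup.map Sum.inl u)⁻¹ *
        (FreeGroup.map Sum.inr v)⁻¹) (by
      intro F
      rw [map_mul, map_mul, map_mul, map_inv, map_inv, ver_map, ver_map,
        hA _ (hmem u hu _) _ (hmem v hv _)]
      group) (Sum.elim f g)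
    rw [map_mul, map_mul, map_mul, map_inv, map_inv, ver_map, ver_map] at h1
    simp only [Sum.elim_inl, Sum.elim_inr] at h1
    rw [mul_inv_eq_one, mul_inv_eq_iff_eq_mul] at h1
    exact h1
  rw [ver_eq_closure n (G ⧸ A) H]
  have h1 : Subgroup.closure {h | ∃ w ∈ LawN n (G ⧸ A), ∃ f : Fin n → H,
      FreeGroup.lift f w = h} ≤ Subgroup.centralizer {h | ∃ w ∈ LawN n (G ⧸ A),
      ∃ f : Fin n → H, FreeGroup.lift f w = h} := by
    rw [Subgroup.closure_le]
    rintro _ ⟨u, hu, f, rfl⟩
    rw [SetLike.mem_coe, Subgroup.mem_centralizer_iff]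
    rintro _ ⟨v, hv, g, rfl⟩
    exact key v hv u hu g f
  intro x hx y hy
  have h2 : Subgroup.closure {h | ∃ w ∈ LawN n (G ⧸ A), ∃ f : Fin n → H,
      FreeGroup.lift f w = h} ≤ Subgroup.centralizer {x} := by
    rw [Subgroup.closure_le]
    intro s hs
    rw [SetLike.mem_coe, Subgroup.mem_centralizer_iff]
    rintro _ rfl
    exact ((Subgroup.mem_centralizer_iff.1 (h1 hx)) s hs).symm
  exact (Subgroup.mem_centralizer_iff.1 (h2 hy)) x rfl

end SA
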