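import Pool.Agent.SA.NLift
import Pool.Agent.SA.Ver
import Pool.Agent.SA.BasicB

/-! The commutator identity for perfect normal subgroups: reduction to values of words, and the
words of `star_n`. -/

namespace SA

open scoped commutatorElement

variable {G H : Type} [Group G] [Group H]

section Aux

variable {K K' : Type} [Group K] [Group K']

private theorem sn_hom {α : Type} (φ : K →* K') (f : α → K) (w : FreeGroup α) :
    φ (FreeGroup.lift f w) = FreeGroup.lift (fun i => φ (f i)) w := by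
  have h : φ.comp (FreeGroup.lift f) = FreeGroup.lift (fun i => φ (f i)) := by
    apply FreeGroup.ext_hom
    intro i
    simp
  exact DFunLike.congr_fun h w

private theorem sn_itc_cons (a y : K) (l : List K) : itc a (y :: l) = itc ⁅a, y⁆ l := rfl

private theorem sn_itc_one (l : List K) : itc (1 : K) l = 1 := by
  induction l with
  | nil => rfl
  | cons y l ih => rw [sn_itc_cons, commutatorElement_one_left, ih]

private theorem sn_itc_map (φ : K →* K') (l : List K) : ∀ a, φ (itc a l) = itc (φ a) (l.map φ) := by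
  induction l with
  | nil => intro a; rfl
  | cons y l ih =>
    intro a
    rw [List.map_cons, sn_itc_cons, sn_itc_cons, ih, map_commutatorElement]

private theorem sn_comm_mem (A : Subgroup K) [hA : A.Normal] {a : K} (ha : a ∈ A) (y : K) :
    ⁅a, y⁆ ∈ A := by
  have h1 : ⁅a, y⁆ = a * (y * a⁻¹ * y⁻¹) := by
    rw [commutatorElement_def]
    group
  rw [h1]
  exact A.mul_mem ha (hA.conj_mem _ (A.inv_mem ha) y)

private theorem sn_itc_mem (A : Subgroup K) [A.Normal] (l : List K) :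
    ∀ a ∈ A, itc a l ∈ A := by
  induction l with
  | nil => intro a ha; exact ha
  | cons y l ih =>
    intro a ha
    rw [sn_itc_cons]
    exact ih _ (sn_comm_mem A ha y)

private theorem sn_comm_mul (A : Subgroup K) [hn : A.Normal]
    (hA : ∀ a ∈ A, ∀ b ∈ A, a * b = b * a) {a b : K} (ha : a ∈ A) (hb : b ∈ A) (y : K) :
    ⁅a * b, y⁆ = ⁅a, y⁆ * ⁅b, y⁆ := by
  have h1 : y * b⁻¹ * y⁻¹ ∈ A := hn.conj_mem _ (A.inv_mem hb) y
  have h2 : y * a⁻¹ * y⁻¹ ∈ A := hn.conj_mem _ (A.inv_mem ha) y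
  have h3 : ⁅a * b, y⁆ = a * (b * (y * b⁻¹ * y⁻¹) * (y * a⁻¹ * y⁻¹)) := by
    rw [commutatorElement_def]
    group
  have h4 : ⁅a, y⁆ * ⁅b, y⁆ = a * ((y * a⁻¹ * y⁻¹) * (b * (y * b⁻¹ * y⁻¹))) := by
    rw [commutatorElement_def, commutatorElement_def]
    group
  rw [h3, h4, hA _ (A.mul_mem hb h1) _ h2]

private theorem sn_itc_mul (A : Subgroup K) [A.Normal]
    (hA : ∀ a ∈ A, ∀ b ∈ A, a * b = b * a) (l : List K) :
    ∀ a ∈ A, ∀ b ∈ A, itc (a * b) l = itc a l * itc b l := by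
  induction l with
  | nil => intro a _ b _; rfl
  | cons y l ih =>
    intro a ha b hb
    rw [sn_itc_cons, sn_itc_cons, sn_itc_cons, sn_comm_mul A hA ha hb y,
      ih _ (sn_comm_mem A ha y) _ (sn_comm_mem A hb y)]

private theorem sn_itc_kill (A : Subgroup K) [A.Normal]
    (hA : ∀ a ∈ A, ∀ b ∈ A, a * b = b * a) (l : List K) (y : K) (hy : y ∈ l) (hyA : y ∈ A) :
    ∀ a ∈ A, itc a l = 1 := by
  induction l with
  | nil => exact absurd hy List.not_mem_nil
  | cons z l ih =>
    intro a ha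
    rw [sn_itc_cons]
    rcases List.mem_cons.1 hy with h | h
    · subst h
      have h1 : ⁅a, y⁆ = 1 := commutatorElement_eq_one_iff_mul_comm.2 (hA a ha y hyA)
      rw [h1, sn_itc_one]
    · exact ih h _ (sn_comm_mem A ha z)

private theorem sn_itc_congr (A2 : Subgroup K) : ∀ {t : ℕ} (x y : Fin t → K),
    (∀ k, ∀ a ∈ A2, y k * a * (y k)⁻¹ ∈ A2) → (∀ k, ∀ a ∈ A2, ⁅a, x k⁆ = ⁅a, y k⁆) →
    ∀ a ∈ A2, itc a (List.ofFn x) = itc a (List.ofFn y) := by
  intro t
  induction t with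
  | zero =>
    intro x y _ _ a _
    rw [List.ofFn_zero, List.ofFn_zero]
  | succ t ih =>
    intro x y hy hxy a ha
    rw [List.ofFn_succ, List.ofFn_succ, sn_itc_cons, sn_itc_cons, hxy 0 a ha]
    refine ih (fun i => x i.succ) (fun i => y i.succ) (fun k => hy k.succ)
      (fun k => hxy k.succ) _ ?_
    have h1 : ⁅a, y 0⁆ = a * (y 0 * a⁻¹ * (y 0)⁻¹) := by
      rw [commutatorElement_def]
      group
    rw [h1]
    exact A2.mul_mem ha (hy 0 _ (A2.inv_mem ha))

end Aux

private theorem sn_val_mem (AG : Subgroup G) [AG.Normal] {k : ℕ} {w : FreeGroup (Fin k)}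
    (hw : w ∈ LawN k (G ⧸ AG)) (φ : Fin k → G) : FreeGroup.lift φ w ∈ AG := by
  have h1 := hw (fun i => QuotientGroup.mk' AG (φ i))
  rw [← sn_hom (QuotientGroup.mk' AG) φ w] at h1
  exact (QuotientGroup.eq_one_iff _).1 h1

/-- representatives -/
private theorem sn_reps [Finite H] (F K : Subgroup H) {m : ℕ} (hidx : F.relIndex K ≤ m) :
    ∃ r : Fin m → H, (∀ j, r j ∈ K) ∧ ∀ x ∈ K, ∃ j, (r j)⁻¹ * x ∈ F := by
  classical
  have h3 : Nat.card (K ⧸ F.subgroupOf K) ≤ m := hidx
  have h2 : 0 < Nat.card (K ⧸ F.subgroupOf K) := Nat.card_pos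
  let e := Finite.equivFin (K ⧸ F.subgroupOf K)
  refine ⟨fun j => if hj : (j : ℕ) < Nat.card (K ⧸ F.subgroupOf K) then
    ((e.symm ⟨j, hj⟩).out : H) else 1, fun j => ?_, fun x hx => ?_⟩
  · by_cases hj : (j : ℕ) < Nat.card (K ⧸ F.subgroupOf K)
    · simp only [hj, dite_true]
      exact Subtype.coe_prop _
    · simp only [hj, dite_false]
      exact K.one_mem
  · refine ⟨⟨e ((⟨x, hx⟩ : K) : K ⧸ F.subgroupOf K), lt_of_lt_of_le (e _).2 h3⟩, ?_⟩
    have h4 : ((e ((⟨x, hx⟩ : K) : K ⧸ F.subgroupOf K) : Fin _) : ℕ) <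
        Nat.card (K ⧸ F.subgroupOf K) := (e _).2
    simp only [h4, dite_true]
    rw [Fin.eta, Equiv.symm_apply_apply]
    have h5 : ((((⟨x, hx⟩ : K) : K ⧸ F.subgroupOf K).out)⁻¹ * (⟨x, hx⟩ : K)) ∈
        F.subgroupOf K := by
      rw [← QuotientGroup.eq]
      exact QuotientGroup.out_eq' _
    exact h5

theorem star_perfect (AG : Subgroup G) [AG.Normal] [AG.FiniteIndex]
    (hAG : ∀ a ∈ AG, ∀ b ∈ AG, a * b = b * a) [Finite H] {n0 n : ℕ} (hL : Loc n G H)
    (F : Subgroup H) [F.Normal]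
    (hA : ∀ a ∈ ver n0 (G ⧸ AG) H, ∀ b ∈ ver n0 (G ⧸ AG) H, a * b = b * a)
    (hFF : ⁅F, F⁆ ≤ ver n0 (G ⧸ AG) H) {t : ℕ} (ht : AG.index < 2 ^ t)
    (hn : n0 + 2 * t + t * AG.index ≤ n) (K : Fin t → Subgroup H) [∀ k, (K k).Normal]
    (hp : ∀ k, ⁅K k, K k⁆ = K k) (hKF : ∀ i k, i ≠ k → K i ⊓ K k ≤ F)
    (hidx : ∀ k, F.relIndex (K k) ≤ AG.index) (y y' : Fin t → H) (hy : ∀ k, y k ∈ K k)
    (hy' : ∀ k, y' k ∈ K k) (a : H) (ha : a ∈ ver n0 (G ⧸ AG) H) :
    itc a (List.ofFn fun k => ⁅y k, y' k⁆) = 1 := by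
  have hred : ∀ u ∈ LawN n0 (G ⧸ AG), ∀ h : Fin n0 → H,
      itc (FreeGroup.lift h u) (List.ofFn fun k => ⁅y k, y' k⁆) = 1 := by
    intro u hu h
    choose ρ hρK hρ using fun k => sn_reps F (K k) (hidx k)
    set k0 := n0 + 2 * t + t * AG.index with hk0
    let f : Fin k0 → H := Fin.append (Fin.append h
      (fun i => if (finProdFinEquiv.symm i).1 = (0 : Fin 2) then y (finProdFinEquiv.symm i).2
        else y' (finProdFinEquiv.symm i).2))
      (fun i => ρ (finProdFinEquiv.symm i).1 (finProdFinEquiv.symm i).2)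
    have hfh : ∀ i, f (Fin.castAdd _ (Fin.castAdd _ i)) = h i := by
      intro i
      simp only [f, Fin.append_left]
    have hfy : ∀ i : Fin t, f (Fin.castAdd _ (Fin.natAdd _ (finProdFinEquiv ((0 : Fin 2), i)))) =
        y i := by
      intro i
      simp only [f, Fin.append_left, Fin.append_right, Equiv.symm_apply_apply, if_true]
    have hfy' : ∀ i : Fin t, f (Fin.castAdd _ (Fin.natAdd _ (finProdFinEquiv ((1 : Fin 2), i)))) =
        y' i := by
      intro i
      simp only [f, Fin.append_left, Fin.append_right, Equiv.symm_apply_apply]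
      rw [if_neg (by decide)]
    have hfr : ∀ (i : Fin t) (j : Fin AG.index),
        f (Fin.natAdd _ (finProdFinEquiv (i, j))) = ρ i j := by
      intro i j
      simp only [f, Fin.append_right, Equiv.symm_apply_apply]
    have hmem : ∀ i, f i ∈ (FreeGroup.lift f).range := fun i =>
      ⟨FreeGroup.of i, by simp⟩
    have hh0 : ∀ i, h i ∈ (FreeGroup.lift f).range := fun i => by
      rw [← hfh]; exact hmem _
    have hy0 : ∀ i, y i ∈ (FreeGroup.lift f).range := fun i => by
      rw [← hfy]; exact hmem _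
    have hy0' : ∀ i, y' i ∈ (FreeGroup.lift f).range := fun i => by
      rw [← hfy']; exact hmem _
    have hr0 : ∀ i j, ρ i j ∈ (FreeGroup.lift f).range := fun i j => by
      rw [← hfr]; exact hmem _
    have hLk : Loc k0 G H := loc_mono hn hL
    -- the verbal subgroup of the range
    set A2 : Subgroup H := (ver n0 (G ⧸ AG) (FreeGroup.lift f).range).map
      (FreeGroup.lift f).range.subtype with hA2d
    have hA2 : A2 ≤ ver n0 (G ⧸ AG) H := map_ver_le _
    have hA2n : ∀ g ∈ (FreeGroup.lift f).range, ∀ a ∈ A2, g * a * g⁻¹ ∈ A2 := by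
      rintro g hg _ ⟨x, hx, rfl⟩
      refine ⟨(⟨g, hg⟩ : (FreeGroup.lift f).range) * x * (⟨g, hg⟩ : (FreeGroup.lift f).range)⁻¹,
        (ver_normal n0 (G ⧸ AG) (FreeGroup.lift f).range).conj_mem x hx _, ?_⟩
      rfl
    have haA2 : FreeGroup.lift h u ∈ A2 := by
      refine ⟨FreeGroup.lift (fun i => (⟨h i, hh0 i⟩ : (FreeGroup.lift f).range)) u,
        mem_ver hu _, ?_⟩
      rw [sn_hom]
      rfl
    have hcent : ∀ w ∈ LawN k0 (G ⧸ AG), ∀ a ∈ A2,
        FreeGroup.lift f w * a = a * FreeGroup.lift f w := by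
      intro w hw
      have h1 : A2 ≤ Subgroup.centralizer {FreeGroup.lift f w} := by
        rw [hA2d, ver_eq_closure, MonoidHom.map_closure, Subgroup.closure_le]
        rintro _ ⟨_, ⟨v, hv, g, rfl⟩, rfl⟩
        rw [SetLike.mem_coe, Subgroup.mem_centralizer_iff]
        rintro _ rfl
        choose g' hg' using fun i => (g i).2
        have h2 : (FreeGroup.lift f).range.subtype (FreeGroup.lift g v) =
            FreeGroup.lift f (FreeGroup.lift g' v) := by
          rw [sn_hom, sn_hom]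
          congr 1
          congr 1
          funext i
          exact (hg' i).symm
        rw [h2]
        have h3 : w * FreeGroup.lift g' v * w⁻¹ * (FreeGroup.lift g' v)⁻¹ ∈ LawN k0 G := by
          intro φ
          have h4 : FreeGroup.lift φ w ∈ AG := sn_val_mem AG hw φ
          have h5 : FreeGroup.lift φ (FreeGroup.lift g' v) ∈ AG := by
            rw [sn_hom]
            exact sn_val_mem AG hv _
          rw [map_mul, map_mul, map_mul, map_inv, map_inv, hAG _ h4 _ h5]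
          group
        have h6 := hLk h3 f
        rw [map_mul, map_mul, map_mul, map_inv, map_inv, mul_inv_eq_one,
          mul_inv_eq_iff_eq_mul] at h6
        exact h6
      intro a ha
      exact (Subgroup.mem_centralizer_iff.1 (h1 ha)) _ rfl
    have hfinQ : Finite (G ⧸ AG) := Subgroup.finite_quotient_of_finiteIndex
    obtain ⟨w, hw1, hw2⟩ := star_n f (ver n0 (G ⧸ AG) H) F A2 hA hFF hA2 hA2n hcent
      (t := t) ht K hp hKF
      (fun k x hx => by
        obtain ⟨j, hj⟩ := hρ k x hx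
        exact ⟨ρ k j, ⟨hρK k j, hr0 k j⟩, hj⟩)
      y y' (fun k => ⟨hy k, hy0 k⟩) (fun k => ⟨hy' k, hy0' k⟩)
    -- the word
    let h' : Fin n0 → FreeGroup (Fin k0) := fun i =>
      FreeGroup.of (Fin.castAdd _ (Fin.castAdd _ i))
    have hW : itc (FreeGroup.lift h' u) (List.ofFn w) ∈ LawN k0 G := by
      intro φ
      rw [sn_itc_map, List.map_ofFn]
      obtain ⟨k, hk⟩ := hw2 (fun i => QuotientGroup.mk' AG (φ i))
      rw [← sn_hom (QuotientGroup.mk' AG) φ (w k)] at hk
      refine sn_itc_kill AG hAG _ (FreeGroup.lift φ (w k)) ?_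
        ((QuotientGroup.eq_one_iff _).1 hk) _ ?_
      · rw [List.mem_ofFn]
        exact ⟨k, rfl⟩
      · rw [sn_hom]
        exact sn_val_mem AG hu _
    have hW1 := hLk hW f
    rw [sn_itc_map, List.map_ofFn, sn_hom] at hW1
    have h3 : (fun i => FreeGroup.lift f (h' i)) = h := by
      funext i
      simp only [h', FreeGroup.lift_apply_of]
      exact hfh i
    rw [h3] at hW1
    rw [← hW1]
    refine (sn_itc_congr A2 _ _ (fun k a ha => hA2n _ ?_ a ha)
      (fun k a ha => hw1 k a ha) _ haA2).symm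
    rw [commutatorElement_def]
    exact mul_mem (mul_mem (mul_mem (hy0 k) (hy0' k)) (inv_mem (hy0 k))) (inv_mem (hy0' k))
  rw [ver_eq_closure] at ha
  refine (Subgroup.closure_induction (p := fun x _ => x ∈ ver n0 (G ⧸ AG) H ∧
    itc x (List.ofFn fun k => ⁅y k, y' k⁆) = 1) ?_ ?_ ?_ ?_ ha).2
  · rintro _ ⟨u, hu, h, rfl⟩
    exact ⟨mem_ver hu h, hred u hu h⟩
  · exact ⟨one_mem _, sn_itc_one _⟩
  · rintro x z _ _ ⟨hx, hx'⟩ ⟨hz, hz'⟩
    refine ⟨mul_mem hx hz, ?_⟩
    rw [sn_itc_mul _ hA _ x hx z hz, hx', hz', one_mul]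
  · rintro x _ ⟨hx, hx'⟩
    refine ⟨inv_mem hx, ?_⟩
    have h1 := sn_itc_mul _ hA (List.ofFn fun k => ⁅y k, y' k⁆) x hx x⁻¹ (inv_mem hx)
    rw [mul_inv_cancel, sn_itc_one, hx', one_mul] at h1
    exact h1.symm

end SA
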