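import Pool.Agent.SA.Kc
import Pool.Agent.SA.FitN
import Pool.Agent.SA.KD
import Pool.Agent.SA.FK
import Pool.Agent.SA.StarN
import Pool.Agent.SA.ComN

/-! Project SA: number of kernels without solvability (assembly, helper75). -/

namespace SA

variable {G H : Type} [Group G] [Group H]

/-- at most `2 t + 1` nonabelian chief factors `D / F` -/
theorem kcount_n [Finite H] (AG : Subgroup G) [AG.Normal] [AG.FiniteIndex] {n0 n t q : ℕ}
    (F : Subgroup H) [F.Normal] (S : Sit AG n0 n t q F) (hn3 : n0 + 2 * t + t * AG.index ≤ n)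
    (D : Fin (2 * t + 2) → Subgroup H) [∀ i, (D i).Normal] (hch : ∀ i, IsChief F (D i))
    (hna : ∀ i, ¬ ⁅D i, D i⁆ ≤ F) (hinj : Function.Injective D) : False := by
  have hK := fun i => exists_perfect F (D i) (hch i) (hna i)
  choose K hKn hKF hKp using hK
  have hM := fun i => exists_coatom F (D i) (hch i) (hna i)
  choose M hMc hMC hMD using hM
  have hFC : ∀ i, F ≤ cen F (D i) := by
    intro i f hf x hx
    have h1 : (F : Subgroup H).Normal := inferInstance
    have h2 : f * (x * f⁻¹ * x⁻¹) ∈ F := F.mul_mem hf (h1.conj_mem _ (F.inv_mem hf) x)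
    have h3 : f * (x * f⁻¹ * x⁻¹) = f * x * f⁻¹ * x⁻¹ := by group
    rwa [h3] at h2
  have hKD : ∀ i, K i ≤ D i := fun i => by
    rw [← hKF i]; exact le_sup_left
  -- distinct chief factors intersect in `F`
  have hDD : ∀ i k, i ≠ k → D i ⊓ D k = F := by
    intro i k hik
    have h1 : (D i ⊓ D k).Normal := inferInstance
    rcases (hch i).irr (D i ⊓ D k) h1 (le_inf (hch i).lt.le (hch k).lt.le) inf_le_left with h | h
    · exact h
    · exfalso
      have h2 : D i ≤ D k := by rw [← h]; exact inf_le_right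
      rcases (hch k).irr (D i) inferInstance (hch i).lt.le h2 with h3 | h3
      · exact (hch i).lt.ne h3.symm
      · exact hik (hinj h3)
  have hcomm : ∀ i k, i ≠ k → ⁅K i, K k⁆ ≤ F := by
    intro i k hik
    have h1 : ⁅K i, K k⁆ ≤ ⁅D i, D k⁆ := Subgroup.commutator_mono (hKD i) (hKD k)
    have h2 : ⁅D i, D k⁆ ≤ D i ⊓ D k := Subgroup.commutator_le_inf _ _
    exact h1.trans (h2.trans (hDD i k hik).le)
  have hinf : ∀ i k, i ≠ k → K i ⊓ K k ≤ F := by
    intro i k hik
    exact (inf_le_inf (hKD i) (hKD k)).trans (hDD i k hik).le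
  have h1 : ∀ i k, i ≠ k → K k ≤ M i := by
    intro i k hik
    refine le_trans ?_ (hMC i)
    intro d hd x hx
    have h2 : ⁅D k, D i⁆ ≤ D k ⊓ D i := Subgroup.commutator_le_inf _ _
    have h3 := h2 (Subgroup.commutator_mem_commutator (hKD k hd) hx)
    rw [hDD k i (Ne.symm hik)] at h3
    exact h3
  have h2 : ∀ k, ¬ K k ≤ M k := by
    intro k h
    apply hMD k
    rw [← hKF k]
    exact sup_le h ((hFC k).trans (hMC k))
  obtain ⟨hgen, hle⟩ := dedekind M K hMc h1 h2
  have hfac : ∀ (F0 F1 : Subgroup H) [F0.Normal] [F1.Normal], ver n0 (G ⧸ AG) H ≤ F0 →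
      IsChief F0 F1 → (cen F0 F1).index ≤ AG.index := by
    intro F0 F1 _ _ hA0 hc
    obtain ⟨y, hy, hy0⟩ := SetLike.exists_of_lt hc.lt
    exact index_cen_le F0 F1 hc (y := y) hy hy0 fun x z => hA0 (chin_mem_ver AG rfl S.hn0 y x z)
  have hrel : ∀ k, F.relIndex (K k) ≤ AG.index := by
    intro k
    have h3 : cen F (D k) ⊓ K k ≤ F := by
      intro x hx
      have h4 : x ∈ D k ⊓ cen F (D k) := ⟨hKD k hx.2, hx.1⟩
      rwa [inf_cen F (D k) (hch k) (hna k)] at h4
    have h5 : F.relIndex (K k) ≤ (cen F (D k)).relIndex (K k) := by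
      rw [← Subgroup.inf_relIndex_right F (K k), ← Subgroup.inf_relIndex_right (cen F (D k)) (K k)]
      refine Nat.le_of_dvd (Nat.pos_of_ne_zero ?_) (Subgroup.relIndex_dvd_of_le_left _ ?_)
      · unfold Subgroup.relIndex
        exact Subgroup.FiniteIndex.index_ne_zero
      · exact le_inf h3 inf_le_right
    have h6 : (cen F (D k)).relIndex (K k) ≤ (cen F (D k)).index := by
      refine Nat.le_of_dvd (Nat.pos_of_ne_zero Subgroup.FiniteIndex.index_ne_zero) ?_
      exact Subgroup.relIndex_dvd_index_of_normal _ _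
    exact h5.trans (h6.trans (hfac F (D k) S.AF (hch k)))
  refine S.not_var (oates_powell (by omega : 0 < 2 * t + 2) (⨅ i, M i) K hgen ?_ ?_)
  · intro l hl
    refine lnc_eq_bot_n (ver n0 (G ⧸ AG) H) F S.Ac K hKp hcomm ?_ ?_ l hl
    · intro j hj
      exact fold_le S.qprime (ver n0 (G ⧸ AG) H) F S.AF S.Fq S.hab S.FF
        (fun F0 F1 _ _ hA0 _ hc => hfac F0 F1 hA0 hc) S.ht (fun k => K (j k))
        (fun k => hKp (j k)) (fun i k hik => hcomm _ _ (fun h => hik (hj h)))
    · intro j hj y y' hy hy' a ha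
      exact star_perfect AG S.comm S.loc F S.Ac S.FF S.ht hn3 (fun k => K (j k))
        (fun k => hKp (j k)) (fun i k hik => hinf _ _ (fun h => hik (hj h)))
        (fun k => hrel (j k)) y y' hy hy' a ha
  · intro k
    refine S.hsub _ ?_
    intro h
    have h3 := hle k
    rw [h] at h3
    exact (hMc k).1 (top_le_iff.1 h3)

/-- `|H / F|` is bounded -/
theorem index_F_le_n [Finite H] (AG : Subgroup G) [AG.Normal] [AG.FiniteIndex]
    {n0 n t q : ℕ} (F : Subgroup H) [F.Normal] (S : Sit AG n0 n t q F)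
    (hn3 : n0 + 2 * t + t * AG.index ≤ n)
    (hnil : ∀ X : Subgroup H, X.Normal → Group.IsNilpotent X → X ≤ F) :
    F.index ≤ AG.index ^ (3 * t + 3) := by
  classical
  have : Finite (Subgroup H) := inferInstance
  have : Fintype (Subgroup H) := Fintype.ofFinite _
  have hm : 0 < AG.index := Nat.pos_of_ne_zero (Subgroup.FiniteIndex.index_ne_zero)
  let cenD : Subgroup H → Subgroup H := fun D =>
    if h : D.Normal then @cen H _ F D h else ⊤
  have hcenD : ∀ (D : Subgroup H) [h : D.Normal], cenD D = cen F D := by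
    intro D h
    simp only [cenD, dif_pos h]
  -- coatoms containing `A`
  let TA : Finset (Subgroup H) := (Finset.univ.filter fun M : Subgroup H =>
    IsCoatom M ∧ ¬ F ≤ M ∧ ver n0 (G ⧸ AG) H ≤ M).image fun M => cen (F ⊓ M) F
  let TB : Finset (Subgroup H) := (Finset.univ.filter fun M : Subgroup H =>
    IsCoatom M ∧ ¬ F ≤ M ∧ ¬ ver n0 (G ⧸ AG) H ≤ M).image fun M => cen (F ⊓ M) F
  let UD : Finset (Subgroup H) := Finset.univ.filter fun D : Subgroup H =>
    D.Normal ∧ IsChief F D ∧ ¬ ⁅D, D⁆ ≤ F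
  let TC : Finset (Subgroup H) := UD.image cenD
  have hTA : TA.card ≤ t + 1 := by
    by_contra hcon
    push Not at hcon
    obtain ⟨T, hT, hTc⟩ := Finset.exists_subset_card_eq (show t + 2 ≤ TA.card by omega)
    let e := T.equivFin.symm
    rw [hTc] at e
    have hex : ∀ i : Fin (t + 2), ∃ M : Subgroup H, (IsCoatom M ∧ ¬ F ≤ M ∧
        ver n0 (G ⧸ AG) H ≤ M) ∧ cen (F ⊓ M) F = (e i : Subgroup H) := by
      intro i
      have h := hT (e i).2
      obtain ⟨M, hM, hMe⟩ := Finset.mem_image.1 h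
      exact ⟨M, (Finset.mem_filter.1 hM).2, hMe⟩
    choose M hM hMe using hex
    refine kcount AG F S M (fun i => (hM i).1) (fun i => (hM i).2.1) (fun i => (hM i).2.2) ?_
    intro i j hij
    simp only [hMe] at hij
    exact e.injective (Subtype.ext hij)
  have hTB : TB.card ≤ 1 := by
    rw [Finset.card_le_one]
    intro x hx y hy
    obtain ⟨M1, h1, rfl⟩ := Finset.mem_image.1 hx
    obtain ⟨M2, h2, rfl⟩ := Finset.mem_image.1 hy
    have h1' := (Finset.mem_filter.1 h1).2
    have h2' := (Finset.mem_filter.1 h2).2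
    exact ker_eq S.qprime (ver n0 (G ⧸ AG) H) F S.AF S.Ac S.Fq S.hsub S.not_var M1 M2
      h1'.1 h2'.1 h1'.2.2 h2'.2.2
  have hUD : UD.card ≤ 2 * t + 1 := by
    by_contra hcon
    push Not at hcon
    obtain ⟨T, hT, hTc⟩ := Finset.exists_subset_card_eq (show 2 * t + 2 ≤ UD.card by omega)
    let e := T.equivFin.symm
    rw [hTc] at e
    have hex : ∀ i : Fin (2 * t + 2), (e i : Subgroup H).Normal ∧ IsChief F (e i : Subgroup H) ∧
        ¬ ⁅(e i : Subgroup H), (e i : Subgroup H)⁆ ≤ F := fun i =>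
      (Finset.mem_filter.1 (hT (e i).2)).2
    have hn : ∀ i, (e i : Subgroup H).Normal := fun i => (hex i).1
    exact kcount_n AG F S hn3 (fun i => (e i : Subgroup H)) (fun i => (hex i).2.1)
      (fun i => (hex i).2.2) (fun i j hij => e.injective (Subtype.ext hij))
  have hTC : TC.card ≤ 2 * t + 1 := Finset.card_image_le.trans hUD
  have hle : (⨅ C ∈ TA ∪ TB ∪ TC, C) ≤ F := by
    intro h hh
    refine fit_n S.qprime F S.Fq hnil h ?_ ?_
    · intro M hM hFM
      have hmem : cen (F ⊓ M) F ∈ TA ∪ TB ∪ TC := by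
        refine Finset.mem_union_left _ ?_
        by_cases hA : ver n0 (G ⧸ AG) H ≤ M
        · exact Finset.mem_union_left _ (Finset.mem_image.2
            ⟨M, Finset.mem_filter.2 ⟨Finset.mem_univ _, hM, hFM, hA⟩, rfl⟩)
        · exact Finset.mem_union_right _ (Finset.mem_image.2
            ⟨M, Finset.mem_filter.2 ⟨Finset.mem_univ _, hM, hFM, hA⟩, rfl⟩)
      have h3 := (Subgroup.mem_iInf.1 hh) (cen (F ⊓ M) F)
      exact (Subgroup.mem_iInf.1 h3) hmem
    · intro D hDn hch hna _
      have hmem : cenD D ∈ TA ∪ TB ∪ TC := Finset.mem_union_right _ (Finset.mem_image.2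
        ⟨D, Finset.mem_filter.2 ⟨Finset.mem_univ _, hDn, hch, hna⟩, rfl⟩)
      have h3 := (Subgroup.mem_iInf.1 hh) (cenD D)
      have h4 := (Subgroup.mem_iInf.1 h3) hmem
      rwa [hcenD] at h4
  have hidx : ∀ C ∈ TA ∪ TB ∪ TC, C.index ≤ AG.index := by
    intro C hC
    rcases Finset.mem_union.1 hC with h | h
    · rcases Finset.mem_union.1 h with h | h
      · obtain ⟨M, hM, rfl⟩ := Finset.mem_image.1 h
        have hM' := (Finset.mem_filter.1 hM).2
        exact index_le AG F S M hM'.1 hM'.2.1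
      · obtain ⟨M, hM, rfl⟩ := Finset.mem_image.1 h
        have hM' := (Finset.mem_filter.1 hM).2
        exact index_le AG F S M hM'.1 hM'.2.1
    · obtain ⟨D, hD, rfl⟩ := Finset.mem_image.1 h
      obtain ⟨hDn, hch, hna⟩ := (Finset.mem_filter.1 hD).2
      rw [hcenD]
      obtain ⟨y, hy, hy0⟩ := SetLike.exists_of_lt hch.lt
      exact index_cen_le F D hch (y := y) hy hy0
        fun x z => S.AF (chin_mem_ver AG rfl S.hn0 y x z)
  calc F.index ≤ (⨅ C ∈ TA ∪ TB ∪ TC, C).index :=
        Nat.le_of_dvd (Nat.pos_of_ne_zero Subgroup.FiniteIndex.index_ne_zero)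
          (Subgroup.index_dvd_of_le hle)
    _ ≤ AG.index ^ (TA ∪ TB ∪ TC).card := index_iInf_le' _ (fun C => C) _ hidx hm
    _ ≤ AG.index ^ (3 * t + 3) := by
        refine Nat.pow_le_pow_right hm ?_
        have h1 := Finset.card_union_le (TA ∪ TB) TC
        have h2 := Finset.card_union_le TA TB
        omega

end SA
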