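import Pool.Agent.SA.NDefs

/-! Level 1 images of the substitutions: the homomorphisms `sig` and `sbs` between free groups
induce explicit maps of the groups of level 1, and they do not change the image at level 0. -/

namespace SA

private theorem sig1_sgl {e : ℕ} {P I : Type} (y z : I × P) [Decidable (z = y)] :
    sgl e y z = if z = y then 1 else 0 := by
  unfold sgl
  split_ifs <;> rfl

open Classical in
private theorem sig1_list {e b s' : ℕ} (l : List (Fin s')) (hl : l.Nodup) :
    mu1 e b s' ((l.map fun k => (FreeGroup.of (Sum.inr k) : Gam b s')).prod) =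
      ⟨fun y => if y.2 = 1 ∧ ∃ k ∈ l, y.1 = Sum.inr k then 1 else 0, 1⟩ := by
  induction l with
  | nil =>
    rw [List.map_nil, List.prod_nil, map_one]
    refine Mg.ext ?_ rfl
    funext y
    simp [Mg.one_fst]
  | cons k l ih =>
    rw [List.nodup_cons] at hl
    have h1 : mu1 e b s' (FreeGroup.of (Sum.inr k)) = ⟨sgl e (Sum.inr k, 1), 1⟩ := by
      unfold mu1
      rw [mu_of]
      rfl
    rw [List.map_cons, List.prod_cons, map_mul, ih hl.2, h1]
    refine Mg.ext ?_ ?_
    · rw [Mg.mul_fst]
      change sgl e (Sum.inr k, 1) + shf (1 : PiG b) _ = _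
      rw [shf_one]
      funext y
      change sgl e (Sum.inr k, 1) y +
        (if y.2 = 1 ∧ ∃ k ∈ l, y.1 = Sum.inr k then (1 : ZMod e) else 0) =
        if y.2 = 1 ∧ ∃ k' ∈ k :: l, y.1 = Sum.inr k' then (1 : ZMod e) else 0
      rw [sig1_sgl]
      by_cases hy2 : y.2 = 1
      · by_cases hk : y.1 = Sum.inr k
        · have e1 : y = (Sum.inr k, 1) := Prod.ext hk hy2
          have e2 : ¬ (y.2 = 1 ∧ ∃ k ∈ l, y.1 = Sum.inr k) := by
            rintro ⟨_, k', hk', h⟩
            rw [hk] at h
            rw [Sum.inr.inj h] at hl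
            exact hl.1 hk'
          have e3 : y.2 = 1 ∧ ∃ k' ∈ k :: l, y.1 = Sum.inr k' :=
            ⟨hy2, k, List.mem_cons_self, hk⟩
          rw [if_pos e1, if_neg e2, if_pos e3, add_zero]
        · have e1 : ¬ y = (Sum.inr k, 1) := fun h => hk (by rw [h])
          rw [if_neg e1, zero_add]
          refine if_congr ?_ rfl rfl
          constructor
          · rintro ⟨h, k', hk', h'⟩
            exact ⟨h, k', List.mem_cons_of_mem _ hk', h'⟩
          · rintro ⟨h, k', hk', h'⟩
            rcases List.mem_cons.1 hk' with rfl | hk'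
            · exact absurd h' hk
            · exact ⟨h, k', hk', h'⟩
      · have e1 : ¬ y = (Sum.inr k, 1) := fun h => hy2 (by rw [h])
        rw [if_neg e1, if_neg fun h => hy2 h.1, if_neg fun h => hy2 h.1, add_zero]
    · rw [Mg.mul_snd]
      exact one_mul 1

/-- the map of level 1 induced by `z_i ↦ 1` for all `i` -/
private def sig1_none (e b : ℕ) (s s' : ℕ) : P1 e b s →* P1 e b s' where
  toFun x := ⟨fun y => match y.1 with
        | Sum.inl j => x.fst (Sum.inl j, y.2)
        | Sum.inr _ => 0, x.snd⟩
  map_one' := by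
    refine Mg.ext ?_ rfl
    funext y
    rcases y with ⟨_ | _, _⟩ <;> rfl
  map_mul' x x' := by
    refine Mg.ext ?_ rfl
    funext y
    rcases y with ⟨_ | _, _⟩
    · rfl
    · change (0 : ZMod e) = 0 + 0
      rw [add_zero]

/-- the map of level 1 induced by `z_(i0) ↦ z_(k0)` -/
private def sig1_some (e b : ℕ) {s s' : ℕ} (i0 : Fin s) (k0 : Fin s') :
    P1 e b s →* P1 e b s' where
  toFun x := ⟨fun y => match y.1 with
        | Sum.inl j => x.fst (Sum.inl j, y.2)
        | Sum.inr k => if k = k0 then x.fst (Sum.inr i0, y.2) else 0, x.snd⟩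
  map_one' := by
    refine Mg.ext ?_ rfl
    funext y
    rcases y with ⟨_ | k, _⟩
    · rfl
    · change (if k = k0 then (0 : ZMod e) else 0) = 0
      rw [ite_self]
  map_mul' x x' := by
    refine Mg.ext ?_ rfl
    funext y
    rcases y with ⟨_ | k, z⟩
    · rfl
    · change (if k = k0 then x.fst (Sum.inr i0, z) + x'.fst (Sum.inr i0, x.snd⁻¹ * z) else 0) =
        (if k = k0 then x.fst (Sum.inr i0, z) else 0) +
          (if k = k0 then x'.fst (Sum.inr i0, x.snd⁻¹ * z) else 0)
      by_cases h : k = k0
      · rw [if_pos h, if_pos h, if_pos h]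
      · rw [if_neg h, if_neg h, if_neg h, add_zero]

private theorem sig1_sbs_inl {b s s' : ℕ} (h : Fin s → Option (Fin s')) (j : Fin b) :
    sbs b h (FreeGroup.of (Sum.inl j)) = FreeGroup.of (Sum.inl j) := by
  unfold sbs
  rw [FreeGroup.lift_apply_of]
  rfl

private theorem sig1_sbs_none {b s s' : ℕ} (h : Fin s → Option (Fin s')) (i : Fin s)
    (hi : h i = none) : sbs b h (FreeGroup.of (Sum.inr i)) = 1 := by
  unfold sbs
  rw [FreeGroup.lift_apply_of]
  change (match h i with
      | none => (1 : Gam b s')
      | some k => FreeGroup.of (Sum.inr k)) = 1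
  rw [hi]

private theorem sig1_sbs_some {b s s' : ℕ} (h : Fin s → Option (Fin s')) (i : Fin s)
    (k : Fin s') (hi : h i = some k) :
    sbs b h (FreeGroup.of (Sum.inr i)) = FreeGroup.of (Sum.inr k) := by
  unfold sbs
  rw [FreeGroup.lift_apply_of]
  change (match h i with
      | none => (1 : Gam b s')
      | some k => FreeGroup.of (Sum.inr k)) = _
  rw [hi]

theorem mu1_sig {e b s s' : ℕ} (g : Fin s' → Fin s) (w : Gam b s) :
    mu1 e b s' (sig b g w) = pull1 e b g (mu1 e b s w) := by
  classical
  have h : ((mu1 e b s').comp (sig b g) : Gam b s →* P1 e b s') =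
      (pull1 e b g).comp (mu1 e b s) := by
    apply FreeGroup.ext_hom
    intro i
    rw [MonoidHom.comp_apply, MonoidHom.comp_apply]
    rcases i with j | i
    · have h1 : sig b g (FreeGroup.of (Sum.inl j)) = FreeGroup.of (Sum.inl j) := by
        unfold sig
        rw [FreeGroup.lift_apply_of]
        rfl
      rw [h1]
      unfold mu1
      rw [mu_of, mu_of]
      refine Mg.ext ?_ rfl
      funext y
      rcases y with ⟨y, z⟩
      change sgl e (Sum.inl j, 1) (y, z) = sgl e (Sum.inl j, 1) (Sum.map id g y, z)
      rw [sig1_sgl, sig1_sgl]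
      refine if_congr ?_ rfl rfl
      rw [Prod.mk.injEq, Prod.mk.injEq]
      rcases y with j' | k
      · simp
      · simp
    · have h1 : sig b g (FreeGroup.of (Sum.inr i)) =
          ((blk g i).map fun k => (FreeGroup.of (Sum.inr k) : Gam b s')).prod := by
        unfold sig
        rw [FreeGroup.lift_apply_of]
        rfl
      have hnd : (blk g i).Nodup := (List.nodup_finRange s').filter _
      rw [h1, sig1_list _ hnd]
      unfold mu1
      rw [mu_of]
      refine Mg.ext ?_ rfl
      funext y
      rcases y with ⟨y, z⟩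
      change _ = sgl e (Sum.inr i, 1) (Sum.map id g y, z)
      rw [sig1_sgl]
      refine if_congr ?_ rfl rfl
      rw [Prod.mk.injEq]
      constructor
      · rintro ⟨h2, k, hk, h3⟩
        have h3' : y = Sum.inr k := h3
        have h4 : g k = i := by
          unfold blk at hk
          rw [List.mem_filter] at hk
          exact of_decide_eq_true hk.2
        refine ⟨?_, h2⟩
        rw [h3', Sum.map_inr, h4]
      · rintro ⟨h2, h3⟩
        refine ⟨h3, ?_⟩
        rcases y with j' | k
        · rw [Sum.map_inl] at h2
          exact absurd h2 Sum.inl_ne_inr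
        · rw [Sum.map_inr] at h2
          refine ⟨k, ?_, rfl⟩
          unfold blk
          rw [List.mem_filter]
          exact ⟨List.mem_finRange k, decide_eq_true (Sum.inr.inj h2)⟩
  exact DFunLike.congr_fun h w

/-- all `z_i ↦ 1` -/
theorem mu1_none {e b s s' : ℕ} (w : Gam b s) :
    mu1 e b s' (sbs b (fun _ : Fin s => (none : Option (Fin s'))) w) =
      ⟨fun y => match y.1 with
        | Sum.inl j => (mu1 e b s w).fst (Sum.inl j, y.2)
        | Sum.inr _ => 0, (mu1 e b s w).snd⟩ := by
  classical
  have h : ((mu1 e b s').comp (sbs b fun _ : Fin s => (none : Option (Fin s'))) :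
      Gam b s →* P1 e b s') = (sig1_none e b s s').comp (mu1 e b s) := by
    apply FreeGroup.ext_hom
    intro i
    rw [MonoidHom.comp_apply, MonoidHom.comp_apply]
    rcases i with j | i
    · rw [sig1_sbs_inl]
      unfold mu1
      rw [mu_of, mu_of]
      refine Mg.ext ?_ rfl
      funext y
      rcases y with ⟨j' | k, z⟩
      · change sgl e (Sum.inl j, 1) (Sum.inl j', z) = sgl e (Sum.inl j, 1) (Sum.inl j', z)
        rw [sig1_sgl, sig1_sgl]
        refine if_congr ?_ rfl rfl
        simp
      · change sgl e (Sum.inl j, 1) (Sum.inr k, z) = 0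
        rw [sig1_sgl, if_neg]
        simp
    · rw [sig1_sbs_none _ _ rfl, map_one]
      unfold mu1
      rw [mu_of]
      refine Mg.ext ?_ rfl
      funext y
      rcases y with ⟨j' | k, z⟩
      · change (0 : ZMod e) = sgl e (Sum.inr i, 1) (Sum.inl j', z)
        rw [sig1_sgl, if_neg]
        simp
      · rfl
  exact DFunLike.congr_fun h w

/-- `z_(i0) ↦ z_(k0)`, all other `z_i ↦ 1` -/
theorem mu1_some {e b s s' : ℕ} (i0 : Fin s) (k0 : Fin s') (w : Gam b s) :
    mu1 e b s' (sbs b (fun i : Fin s => if i = i0 then some k0 else none) w) =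
      ⟨fun y => match y.1 with
        | Sum.inl j => (mu1 e b s w).fst (Sum.inl j, y.2)
        | Sum.inr k => if k = k0 then (mu1 e b s w).fst (Sum.inr i0, y.2) else 0,
        (mu1 e b s w).snd⟩ := by
  classical
  have h : ((mu1 e b s').comp (sbs b fun i : Fin s => if i = i0 then some k0 else none) :
      Gam b s →* P1 e b s') = (sig1_some e b i0 k0).comp (mu1 e b s) := by
    apply FreeGroup.ext_hom
    intro i
    rw [MonoidHom.comp_apply, MonoidHom.comp_apply]
    rcases i with j | i
    · rw [sig1_sbs_inl]
      unfold mu1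
      rw [mu_of, mu_of]
      refine Mg.ext ?_ rfl
      funext y
      rcases y with ⟨j' | k, z⟩
      · change sgl e (Sum.inl j, 1) (Sum.inl j', z) = sgl e (Sum.inl j, 1) (Sum.inl j', z)
        rw [sig1_sgl, sig1_sgl]
        refine if_congr ?_ rfl rfl
        simp
      · change sgl e (Sum.inl j, 1) (Sum.inr k, z) =
          if k = k0 then sgl e (Sum.inl j, 1) (Sum.inr i0, z) else 0
        have h2 : ¬ ((Sum.inr k : Ix b s'), z) = (Sum.inl j, 1) := by simp
        have h3 : ¬ ((Sum.inr i0 : Ix b s), z) = (Sum.inl j, 1) := by simp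
        rw [sig1_sgl, sig1_sgl, if_neg h2, if_neg h3, ite_self]
    · by_cases hi : i = i0
      · rw [sig1_sbs_some _ _ k0 (if_pos hi)]
        unfold mu1
        rw [mu_of, mu_of]
        refine Mg.ext ?_ rfl
        funext y
        rcases y with ⟨j' | k, z⟩
        · change sgl e (Sum.inr k0, 1) (Sum.inl j', z) = sgl e (Sum.inr i, 1) (Sum.inl j', z)
          rw [sig1_sgl, sig1_sgl, if_neg (by simp), if_neg (by simp)]
        · change sgl e (Sum.inr k0, 1) (Sum.inr k, z) =
            if k = k0 then sgl e (Sum.inr i, 1) (Sum.inr i0, z) else 0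
          rw [sig1_sgl, sig1_sgl, hi]
          by_cases hk : k = k0
          · rw [if_pos hk, hk]
            refine if_congr ?_ rfl rfl
            simp
          · rw [if_neg hk, if_neg]
            simp [hk]
      · rw [sig1_sbs_none _ _ (if_neg hi), map_one]
        unfold mu1
        rw [mu_of]
        refine Mg.ext ?_ rfl
        funext y
        rcases y with ⟨j' | k, z⟩
        · change (0 : ZMod e) = sgl e (Sum.inr i, 1) (Sum.inl j', z)
          rw [sig1_sgl, if_neg]
          simp
        · change (0 : ZMod e) = if k = k0 then sgl e (Sum.inr i, 1) (Sum.inr i0, z) else 0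
          have h2 : ¬ ((Sum.inr i0 : Ix b s), z) = (Sum.inr i, 1) := by
            rw [Prod.mk.injEq]
            rintro ⟨h1, _⟩
            exact hi (Sum.inr.inj h1).symm
          rw [sig1_sgl, if_neg h2, ite_self]
  exact DFunLike.congr_fun h w

theorem nu_sig {b s s' : ℕ} (g : Fin s' → Fin s) (w : Gam b s) :
    nu b s' (sig b g w) = nu b s w := by
  have h : ((nu b s').comp (sig b g) : Gam b s →* PiG b) = nu b s := by
    apply FreeGroup.ext_hom
    intro i
    rw [MonoidHom.comp_apply]
    rcases i with j | i
    · have h1 : sig b g (FreeGroup.of (Sum.inl j)) = FreeGroup.of (Sum.inl j) := by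
        unfold sig
        rw [FreeGroup.lift_apply_of]
        rfl
      rw [h1]
      unfold nu
      rw [FreeGroup.lift_apply_of, FreeGroup.lift_apply_of]
      rfl
    · have h1 : sig b g (FreeGroup.of (Sum.inr i)) =
          ((blk g i).map fun k => (FreeGroup.of (Sum.inr k) : Gam b s')).prod := by
        unfold sig
        rw [FreeGroup.lift_apply_of]
        rfl
      have h2 : ∀ l : List (Fin s'),
          nu b s' ((l.map fun k => (FreeGroup.of (Sum.inr k) : Gam b s')).prod) = 1 := by
        intro l
        induction l with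
        | nil => rw [List.map_nil, List.prod_nil, map_one]
        | cons k l ih =>
          rw [List.map_cons, List.prod_cons, map_mul, ih, mul_one]
          unfold nu
          rw [FreeGroup.lift_apply_of]
          rfl
      rw [h1, h2]
      unfold nu
      rw [FreeGroup.lift_apply_of]
      rfl
  exact DFunLike.congr_fun h w

theorem nu_sbs {b s s' : ℕ} (h : Fin s → Option (Fin s')) (w : Gam b s) :
    nu b s' (sbs b h w) = nu b s w := by
  have h' : ((nu b s').comp (sbs b h) : Gam b s →* PiG b) = nu b s := by
    apply FreeGroup.ext_hom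
    intro i
    rw [MonoidHom.comp_apply]
    rcases i with j | i
    · rw [sig1_sbs_inl]
      unfold nu
      rw [FreeGroup.lift_apply_of, FreeGroup.lift_apply_of]
      rfl
    · have h2 : nu b s (FreeGroup.of (Sum.inr i)) = 1 := by
        unfold nu
        rw [FreeGroup.lift_apply_of]
        rfl
      rw [h2]
      rcases hi : h i with _ | k
      · rw [sig1_sbs_none _ _ hi, map_one]
      · rw [sig1_sbs_some _ _ k hi]
        unfold nu
        rw [FreeGroup.lift_apply_of]
        rfl
  exact DFunLike.congr_fun h' w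

end SA
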