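import Pool.Agent.SA.Ver
import Pool.Agent.SA.Sig1

/-! MODULE SA-LayA: level 0. The images of the verbal subgroups in a finite group become
stationary. -/

namespace SA

theorem lay_a (G : Type) [Group G] (b : ℕ) : ∃ N, ∀ n, N ≤ n → ∀ s, ∀ x ∈ ver n G (Gam b s),
    ∃ y ∈ ver N G (Gam b s), nu b s (x * y⁻¹) = 1 := by
  let V : ℕ →o Subgroup (PiG b) := ⟨fun n => (ver n G (Gam b 0)).map (nu b 0),
    fun m n h => Subgroup.map_mono (ver_mono h)⟩
  obtain ⟨N, hN⟩ := WellFoundedGT.monotone_chain_condition V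
  refine ⟨N, fun n hn s x hx => ?_⟩
  have h1 : sbs b (fun _ : Fin s => (none : Option (Fin 0))) x ∈ ver n G (Gam b 0) :=
    map_ver_le _ (Subgroup.mem_map_of_mem _ hx)
  have h2 : nu b 0 (sbs b (fun _ : Fin s => (none : Option (Fin 0))) x) ∈ V n :=
    Subgroup.mem_map_of_mem _ h1
  rw [← hN n hn] at h2
  obtain ⟨y0, hy0, hy⟩ := h2
  rw [nu_sbs] at hy
  refine ⟨sbs b (fun _ : Fin 0 => (none : Option (Fin s))) y0,
    map_ver_le _ (Subgroup.mem_map_of_mem _ hy0), ?_⟩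
  rw [map_mul, map_inv, nu_sbs, hy, mul_inv_cancel]

end SA
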