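import Pool.Agent.SA.Ver
import Pool.Agent.SA.Sig1

/-! MODULE SA-LayB: level 1.
Plan. For `w` with `nu w = 1` write `ρ w = (mu1 e b s w).fst`; `ρ (u v) = ρ u + ρ v` (`Mg.mul_fst`, `mu_snd`, `shf_one`), and
`mu1 w = 1 ↔ ρ w = 0`. Let `X n s = {ρ w | w ∈ ver n G (Gam b s), nu w = 1}` (additive subgroup of `Om e (PiG b) (Ix b s)`, a finite
group). Choose `N` such that `X n 0 = X N 0` and `X n 1 = X N 1` for all `n ≥ N` (increasing chains in finite groups). Let
`x ∈ ver n G (Gam b s)`, `nu x = 1`, `n ≥ N`. `x0 = sbs none x ∈ ver n G (Gam b 0)` (`map_ver_le`), `nu x0 = 1` (`nu_sbs`), so there is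
`y0 ∈ ver N G (Gam b 0)`, `nu y0 = 1`, `ρ y0 = ρ x0`; its image `y0'` in `Gam b s` (`sbs b Fin.elim0`) has `ρ y0' =` part of `ρ x`
at the `inl j`, `0` at the `inr k` (`mu1_none`, `mu1_none` for the inclusion: `sbs b Fin.elim0 = sbs b (fun _ => none)`). For every
`i : Fin s` let `xi = sbs (i ↦ z_0, others ↦ 1) x ∈ ver n G (Gam b 1)`; there is `yi ∈ ver N G (Gam b 1)`, `nu yi = 1`, with
`ρ yi = ρ xi`; let `yi' = sbs (0 ↦ z_i) yi ∈ ver N G (Gam b s)`, `ρ yi'` = part of `ρ x` at the `inl j` plus its part at `inr i`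
(`mu1_some` twice). Then `y = y0' * ∏_i (yi' * y0'⁻¹)` satisfies `ρ y = ρ x` and `nu y = 1`, so `mu1 (x * y⁻¹) = 1`. -/

namespace SA

private theorem lay_snd {e b s : ℕ} (w : Gam b s) : (mu1 e b s w).snd = nu b s w :=
  mu_snd (p0 b s) w

/-- the values of level 1 -/
private noncomputable def layX (G : Type) [Group G] (e b n s : ℕ) :
    AddSubgroup (Om e (PiG b) (Ix b s)) where
  carrier := {ρ | ∃ w ∈ ver n G (Gam b s), nu b s w = 1 ∧ (mu1 e b s w).fst = ρ}
  zero_mem' := ⟨1, one_mem _, map_one _, by rw [map_one, Mg.one_fst]⟩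
  add_mem' := by
    rintro _ _ ⟨u, hu, hu1, rfl⟩ ⟨v, hv, hv1, rfl⟩
    refine ⟨u * v, mul_mem hu hv, by rw [map_mul, hu1, hv1, one_mul], ?_⟩
    rw [map_mul, Mg.mul_fst, lay_snd, hu1, shf_one]
  neg_mem' := by
    rintro _ ⟨u, hu, hu1, rfl⟩
    refine ⟨u⁻¹, inv_mem hu, by rw [map_inv, hu1, inv_one], ?_⟩
    rw [map_inv, Mg.inv_fst, lay_snd, hu1, inv_one, shf_one]

private theorem mem_layX {G : Type} [Group G] {e b n s : ℕ} {ρ : Om e (PiG b) (Ix b s)} :
    ρ ∈ layX G e b n s ↔ ∃ w ∈ ver n G (Gam b s), nu b s w = 1 ∧ (mu1 e b s w).fst = ρ :=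
  Iff.rfl

private theorem layX_mono (G : Type) [Group G] (e b s : ℕ) {m n : ℕ} (h : m ≤ n) :
    layX G e b m s ≤ layX G e b n s := by
  rintro ρ ⟨w, hw, h1, h2⟩
  exact ⟨w, ver_mono h hw, h1, h2⟩

/-- a function given by its two parts -/
private def layF {e b s : ℕ} (f : Fin b → PiG b → ZMod e) (g : Fin s → PiG b → ZMod e) :
    Om e (PiG b) (Ix b s) := fun y => Sum.elim (fun j => f j y.2) (fun k => g k y.2) y.1

private theorem lay_none {e b s s' : ℕ} (w : Gam b s) :
    (mu1 e b s' (sbs b (fun _ : Fin s => (none : Option (Fin s'))) w)).fst =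
      layF (fun j t => (mu1 e b s w).fst (Sum.inl j, t)) (fun _ _ => 0) := by
  rw [mu1_none]
  funext y
  rcases y with ⟨j | k, t⟩
  · rfl
  · rfl

private theorem lay_some {e b s s' : ℕ} (i0 : Fin s) (k0 : Fin s') (w : Gam b s) :
    (mu1 e b s' (sbs b (fun i : Fin s => if i = i0 then some k0 else none) w)).fst =
      layF (fun j t => (mu1 e b s w).fst (Sum.inl j, t))
        (fun k t => if k = k0 then (mu1 e b s w).fst (Sum.inr i0, t) else 0) := by
  rw [mu1_some]
  funext y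
  rcases y with ⟨j | k, t⟩
  · rfl
  · rfl

private theorem layX_stab (G : Type) [Group G] (e b s : ℕ) [NeZero e] :
    ∃ N, ∀ n, N ≤ n → layX G e b N s = layX G e b n s := by
  have : Finite (Om e (PiG b) (Ix b s)) := inferInstance
  have : Finite (AddSubgroup (Om e (PiG b) (Ix b s))) :=
    Finite.of_injective (fun S : AddSubgroup (Om e (PiG b) (Ix b s)) =>
      (S : Set (Om e (PiG b) (Ix b s)))) SetLike.coe_injective
  have : WellFoundedGT (AddSubgroup (Om e (PiG b) (Ix b s))) := Finite.to_wellFoundedGT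
  exact WellFoundedGT.monotone_chain_condition
    ⟨fun n => layX G e b n s, fun m n h => layX_mono G e b s h⟩

private theorem layX_sbs {G : Type} [Group G] {e b n s s' : ℕ} (h : Fin s → Option (Fin s'))
    {w : Gam b s} (hw : w ∈ ver n G (Gam b s)) (h1 : nu b s w = 1) :
    (mu1 e b s' (sbs b h w)).fst ∈ layX G e b n s' :=
  ⟨sbs b h w, map_ver_le (sbs b h) (Subgroup.mem_map_of_mem _ hw), by rw [nu_sbs, h1], rfl⟩

theorem lay_b (G : Type) [Group G] (e b : ℕ) [NeZero e] : ∃ N, ∀ n, N ≤ n → ∀ s,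
    ∀ x ∈ ver n G (Gam b s), nu b s x = 1 →
      ∃ y ∈ ver N G (Gam b s), mu1 e b s (x * y⁻¹) = 1 := by
  obtain ⟨N0, hN0⟩ := layX_stab G e b 0
  obtain ⟨N1, hN1⟩ := layX_stab G e b 1
  refine ⟨max N0 N1, ?_⟩
  intro n hn s x hx hx1
  obtain ⟨N, hN⟩ : ∃ N, N = max N0 N1 := ⟨_, rfl⟩
  rw [← hN] at hn ⊢
  have e0 : layX G e b n 0 = layX G e b N 0 := by
    rw [← hN0 n (by omega), ← hN0 N (by omega)]
  have e1 : layX G e b n 1 = layX G e b N 1 := by
    rw [← hN1 n (by omega), ← hN1 N (by omega)]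
  -- all letters `z` go to `1`
  have h0 : (mu1 e b 0 (sbs b (fun _ : Fin s => (none : Option (Fin 0))) x)).fst ∈
      layX G e b N 0 := by
    rw [← e0]
    exact layX_sbs _ hx hx1
  obtain ⟨y0, hy0, hy01, hy02⟩ := mem_layX.1 h0
  rw [lay_none] at hy02
  have m0 := layX_sbs (e := e) (fun _ : Fin 0 => (none : Option (Fin s))) hy0 hy01
  rw [lay_none, hy02] at m0
  have m0' : layF (fun j t => (mu1 e b s x).fst (Sum.inl j, t)) (fun _ _ => 0) ∈
      layX G e b N s := m0
  -- all letters but `z_i` go to `1`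
  have m1 : ∀ i : Fin s, layF (fun j t => (mu1 e b s x).fst (Sum.inl j, t))
      (fun k t => if k = i then (mu1 e b s x).fst (Sum.inr i, t) else 0) ∈
      layX G e b N s := by
    intro i
    have h1 : (mu1 e b 1 (sbs b (fun i' : Fin s => if i' = i then some (0 : Fin 1) else none)
        x)).fst ∈ layX G e b N 1 := by
      rw [← e1]
      exact layX_sbs _ hx hx1
    obtain ⟨y1, hy1, hy11, hy12⟩ := mem_layX.1 h1
    rw [lay_some] at hy12
    have m1 := layX_sbs (e := e) (fun i' : Fin 1 => if i' = 0 then some i else none) hy1 hy11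
    rw [lay_some, hy12] at m1
    have h2 : layF (e := e) (b := b) (s := 1) (fun j t => (mu1 e b s x).fst (Sum.inl j, t))
        (fun k t => if k = 0 then (mu1 e b s x).fst (Sum.inr i, t) else 0) = fun y => layF
        (e := e) (b := b) (s := 1) (fun j t => (mu1 e b s x).fst (Sum.inl j, t))
        (fun _ t => (mu1 e b s x).fst (Sum.inr i, t)) y := by
      funext y
      rcases y with ⟨j | k, t⟩
      · rfl
      · show (if k = 0 then _ else _) = _
        rw [if_pos (Subsingleton.elim _ _)]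
        rfl
    rw [h2] at m1
    exact m1
  -- the value of `x` is a combination
  have hmem : (mu1 e b s x).fst ∈ layX G e b N s := by
    have h2 := (layX G e b N s).add_mem m0' ((layX G e b N s).sum_mem (t := Finset.univ)
      fun i _ => (layX G e b N s).sub_mem (m1 i) m0')
    convert! h2 using 1
    funext y
    rcases y with ⟨j | k, t⟩
    · rw [Pi.add_apply, Finset.sum_apply]
      simp [layF]
    · rw [Pi.add_apply, Finset.sum_apply]
      simp [layF]
  obtain ⟨y, hy, hy1, hy2⟩ := mem_layX.1 hmem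
  refine ⟨y, hy, ?_⟩
  rw [map_mul, map_inv]
  ext1
  · rw [Mg.mul_fst, Mg.inv_fst, lay_snd, lay_snd, hx1, hy1, inv_one, shf_one, shf_one, hy2,
      Mg.one_fst, add_neg_cancel]
  · rw [Mg.mul_snd, Mg.inv_snd, lay_snd, lay_snd, hx1, hy1, inv_one, one_mul, Mg.one_snd]

end SA
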