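import Pool.Agent.SA.NDefs

/-! MODULE SA-Slt: `slt` is a strict total order, preserved by `lam`.
Plan. `rk` is injective, so `rk (hd y) < rk (hd y')` is a strict total preorder with equality iff `hd y = hd y'`.
`lcode` is injective: `rk l.1 < Nat.card`. `(hd y, ltr y)` determines `y`: if all letters and heads agree then
`y.2.snd`, `y.2.fst` at all `(inl j, x)` and `(inr k, x)` agree, and `y.1` (if `getLeft?` is `some j` then
`y.1 = inl j`; otherwise `y.1 = inr k` and the mark is at `k`). Irreflexive, transitive: standard for a lexicographic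
order. Trichotomy: if `hd` agree and `ltr` are different take the smallest position where they differ
(`Finset.min'`/`Nat.find`-like argument on `Fin s`). `lam_slt`: `hd (lam γ y) = hd y` up to the same data
(`Sum.map id γ.f`, `pull1`: the values at `inl j`), and the letter of `lam γ y` at `k` is `(letter of y at γ.g k)`
with mark `true` iff `k = γ.f i` where `y.1 = inr i` (`Sum.inr` injective, `γ.f` injective), i.e. iff `y` has its mark at
`γ.g k` and `k = γ.f (γ.g k)`. If `y`, `y'` first differ at `i` then `lam γ y`, `lam γ y'` agree at all `k < γ.f i`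
(`γ.f (γ.g k) ≤ k < γ.f i` gives `γ.g k < i` by strict monotonicity) and at `k = γ.f i` have the letters of `y`, `y'` at `i`. -/

namespace SA

private theorem slt_rk_inj (α : Type) [Finite α] : Function.Injective (rk α) := by
  intro a b h
  unfold rk at h
  exact (Finite.equivFin α).injective (Fin.val_injective h)

private theorem slt_lcode_inj {e b : ℕ} [NeZero e] {l l' : (PiG b → ZMod e) × Bool}
    (h : lcode l = lcode l') : l = l' := by
  unfold lcode at h
  have h1 : rk (PiG b → ZMod e) l.1 < Nat.card (PiG b → ZMod e) := (Finite.equivFin _ l.1).2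
  have h2 : rk (PiG b → ZMod e) l'.1 < Nat.card (PiG b → ZMod e) := (Finite.equivFin _ l'.1).2
  obtain ⟨l1, l2⟩ := l
  obtain ⟨l1', l2'⟩ := l'
  simp only at h h1 h2
  cases l2 <;> cases l2'
  · simp only [Bool.false_eq_true, if_false, add_zero] at h
    rw [slt_rk_inj _ h]
  · simp only [Bool.false_eq_true, if_false, if_true, add_zero] at h
    omega
  · simp only [Bool.false_eq_true, if_false, if_true, add_zero] at h
    omega
  · simp only [if_true, Nat.add_right_cancel_iff] at h
    rw [slt_rk_inj _ h]

private theorem slt_ext {e b s : ℕ} {y y' : Sy e b s} (h : hd y = hd y')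
    (hl : ∀ k, ltr y k = ltr y' k) : y = y' := by
  obtain ⟨a, f⟩ := y
  obtain ⟨a', f'⟩ := y'
  unfold hd at h
  simp only [Prod.mk.injEq] at h
  obtain ⟨h1, h2, h3⟩ := h
  have ha : a = a' := by
    cases a with
    | inl j =>
      cases a' with
      | inl j' =>
        simp only [Sum.getLeft?_inl, Option.some.injEq] at h1
        rw [h1]
      | inr k' => simp at h1
    | inr k =>
      have h4 := congrArg Prod.snd (hl k)
      simp only [ltr, decide_true] at h4
      exact (of_decide_eq_true h4.symm).symm
  have hf : f = f' := by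
    refine Mg.ext ?_ h3
    funext z
    obtain ⟨z1, z2⟩ := z
    cases z1 with
    | inl j => exact congrFun h2 (j, z2)
    | inr k =>
      have h4 := congrArg Prod.fst (hl k)
      exact congrFun h4 z2
  rw [ha, hf]

theorem slt_strict (e b s : ℕ) [NeZero e] :
    IsStrictTotalOrder (Sy e b s) (fun y y' => slt y y') where
  trichotomous := by
    intro y y' h1 h2
    unfold slt at h1 h2
    push Not at h1 h2
    have hhd : hd y = hd y' := slt_rk_inj _ (le_antisymm h2.1 h1.1)
    by_contra hne
    have hS : ({i | ltr y i ≠ ltr y' i} : Set (Fin s)).Nonempty := by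
      by_contra hcon
      apply hne
      refine slt_ext hhd fun k => ?_
      by_contra hk
      exact hcon ⟨k, hk⟩
    obtain ⟨i, hi, hmin⟩ := wellFounded_lt.has_min _ hS
    have hlt : ∀ j < i, ltr y j = ltr y' j := by
      intro j hj
      by_contra hk
      exact hmin j hk hj
    have h3 := h1.2 hhd i hlt
    have h4 := h2.2 hhd.symm i (fun j hj => (hlt j hj).symm)
    exact hi (slt_lcode_inj (le_antisymm h4 h3))
  irrefl := by
    intro y h
    rcases h with h | ⟨_, i, _, h⟩
    · exact lt_irrefl _ h
    · exact lt_irrefl _ h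
  trans := by
    intro x y z hxy hyz
    rcases hxy with h1 | ⟨h1, i, hi, hi'⟩
    · rcases hyz with h2 | ⟨h2, _⟩
      · exact Or.inl (h1.trans h2)
      · exact Or.inl (h2 ▸ h1)
    · rcases hyz with h2 | ⟨h2, j, hj, hj'⟩
      · exact Or.inl (h1 ▸ h2)
      · refine Or.inr ⟨h1.trans h2, ?_⟩
        rcases lt_trichotomy i j with hij | hij | hij
        · exact ⟨i, fun k hk => (hi k hk).trans (hj k (hk.trans hij)), (hj i hij) ▸ hi'⟩
        · subst hij
          exact ⟨i, fun k hk => (hi k hk).trans (hj k hk), hi'.trans hj'⟩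
        · exact ⟨j, fun k hk => (hi k (hk.trans hij)).trans (hj k hk), (hi j hij).symm ▸ hj'⟩

private theorem slt_hd_lam {e b s s' : ℕ} (γ : OS s s') (y : Sy e b s) :
    hd (lam e b γ y) = hd y := by
  obtain ⟨a, f⟩ := y
  cases a <;> rfl

private theorem slt_ltr_lam {e b s s' : ℕ} (γ : OS s s') (y : Sy e b s) (k : Fin s') :
    ltr (lam e b γ y) k =
      ((ltr y (γ.g k)).1, (ltr y (γ.g k)).2 && decide (γ.f (γ.g k) = k)) := by
  obtain ⟨a, f⟩ := y
  refine Prod.ext rfl ?_
  change decide (Sum.map id γ.f a = Sum.inr k) =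
    (decide (a = Sum.inr (γ.g k)) && decide (γ.f (γ.g k) = k))
  rw [← Bool.decide_and]
  apply decide_eq_decide.2
  constructor
  · intro h
    cases a with
    | inl j => simp at h
    | inr i =>
      simp only [Sum.map_inr, Sum.inr.injEq] at h
      subst h
      rw [γ.gf]
      exact ⟨rfl, rfl⟩
  · rintro ⟨h1, h2⟩
    rw [h1, Sum.map_inr, h2]

theorem lam_slt {e b s s' : ℕ} [NeZero e] (γ : OS s s') {y y' : Sy e b s} (h : slt y y') :
    slt (lam e b γ y) (lam e b γ y') := by
  rcases h with h | ⟨h1, i, hi, hi'⟩
  · left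
    rw [slt_hd_lam, slt_hd_lam]
    exact h
  · right
    refine ⟨by rw [slt_hd_lam, slt_hd_lam, h1], γ.f i, ?_, ?_⟩
    · intro k hk
      have hlt : γ.g k < i := γ.mono.lt_iff_lt.1 (lt_of_le_of_lt (γ.le k) hk)
      rw [slt_ltr_lam, slt_ltr_lam, hi _ hlt]
    · rw [slt_ltr_lam, slt_ltr_lam, γ.gf, decide_eq_true (rfl : γ.f i = γ.f i), Bool.and_true,
        Bool.and_true]
      exact hi'

end SA
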