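import Pool.Agent.SA.Sig2
import Pool.Agent.SA.Slt

/-! MODULE SA-Lead: leading terms of images at level 2.
`f = ∑ y, f y • sgl 0 y`; by trichotomy only `y = x` and the `y` with `slt y x` contribute, and
`L (sgl 0 y)` is supported at symbols which are at most `lam γ y`. -/

namespace SA

private theorem ld_sum {P I P' I' : Type} [Fintype (I × P)] (L : Om 0 P I →+ Om 0 P' I')
    (f : Om 0 P I) (z : I' × P') : L f z = ∑ y, f y * L (sgl 0 y) z := by
  have h1 : f = ∑ y, f y • sgl 0 y := by
    funext x
    rw [Finset.sum_apply, Finset.sum_eq_single x]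
    · simp [sgl]
    · intro y _ hy
      have : sgl 0 y x = 0 := if_neg fun h => hy h.symm
      rw [Pi.smul_apply, this, smul_zero]
    · intro h
      exact absurd (Finset.mem_univ x) h
  conv_lhs => rw [h1]
  rw [map_sum, Finset.sum_apply]
  refine Finset.sum_congr rfl fun y _ => ?_
  rw [ZMod.map_smul, Pi.smul_apply, smul_eq_mul]

theorem exists_lead {e b s s' : ℕ} [NeZero e] (γ : OS s s') :
    ∃ L : Om 0 (P1 e b s) (Ix b s) →+ Om 0 (P1 e b s') (Ix b s'),
      (∀ w, fx2 e b s' (sig b γ.g w) = L (fx2 e b s w)) ∧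
      ∀ (f : Om 0 (P1 e b s) (Ix b s)) (x : Sy e b s), (∀ y, slt x y → f y = 0) →
        L f (lam e b γ x) = f x ∧ ∀ y', slt (lam e b γ x) y' → L f y' = 0 := by
  obtain ⟨L, hL, hL2⟩ := exists_sig2 (e := e) (b := b) γ
  refine ⟨L, hL, fun f x hx => ?_⟩
  have hfin : Fintype (Sy e b s) := Fintype.ofFinite _
  have i1 := slt_strict e b s
  have i2 := slt_strict e b s'
  have tr : ∀ {y y' y'' : Sy e b s'}, slt y y' → slt y' y'' → slt y y'' := fun h h' =>
    i2.toIsStrictOrder.toIsTrans.trans _ _ _ h h'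
  have ir : ∀ {y : Sy e b s'}, ¬ slt y y := fun {y} h => i2.toIsStrictOrder.irrefl y h
  have key : ∀ y' : Sy e b s', ∀ y, slt y x → (y' = lam e b γ x ∨ slt (lam e b γ x) y') →
      L (sgl 0 y) y' = 0 := by
    intro y' y hy hy'
    by_contra hne
    have h1 := lam_slt γ hy
    have h2 : slt (lam e b γ y) y' := by
      rcases hy' with h | h
      · rw [h]
        exact h1
      · exact tr h1 h
    rcases (hL2 y).2 y' hne with h | h
    · rw [h] at h2
      exact ir h2
    · exact ir (tr h2 h)
  have key2 : ∀ y' : Sy e b s', (y' = lam e b γ x ∨ slt (lam e b γ x) y') → ∀ y, y ≠ x →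
      f y * L (sgl 0 y) y' = 0 := by
    intro y' hy' y hy
    by_cases h1 : slt x y
    · rw [hx y h1, zero_mul]
    · have h2 : slt y x := by
        by_contra h2
        exact hy (i1.toTrichotomous.trichotomous y x h2 h1)
      rw [key y' y h2 hy', mul_zero]
  constructor
  · rw [ld_sum, Finset.sum_eq_single x (fun y _ hy => key2 _ (Or.inl rfl) y hy)
      (fun h => absurd (Finset.mem_univ x) h), (hL2 x).1, mul_one]
  · intro y' hy'
    rw [ld_sum, Finset.sum_eq_single x (fun y _ hy => key2 _ (Or.inr hy') y hy)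
      (fun h => absurd (Finset.mem_univ x) h)]
    have h1 : L (sgl 0 x) y' = 0 := by
      by_contra hne
      rcases (hL2 x).2 y' hne with h | h
      · rw [h] at hy'
        exact ir hy'
      · exact ir (tr hy' h)
    rw [h1, mul_zero]

end SA
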