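import Pool.Agent.SA.WqoA
import Pool.Agent.SA.Slt

/-! Symbols are well quasi-ordered under divisibility: pass to a subsequence with constant head and
apply the theorem on words to the words of letters. -/

namespace SA

/-- divisibility of symbols -/
def dv (e b : ℕ) (x y : Σ s : ℕ, Sy e b s) : Prop :=
  ∃ γ : OS x.1 y.1, lam e b γ x.2 = y.2

/-- composition of ordered surjections -/
private def wqoB_comp {s s' s'' : ℕ} (γ₁ : OS s s') (γ₂ : OS s' s'') : OS s s'' where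
  g := fun k => γ₁.g (γ₂.g k)
  f := fun i => γ₂.f (γ₁.f i)
  mono := γ₂.mono.comp γ₁.mono
  gf i := by rw [γ₂.gf, γ₁.gf]
  le k := (γ₂.mono.monotone (γ₁.le _)).trans (γ₂.le k)

private theorem wqoB_lam_comp {e b s s' s'' : ℕ} (γ₁ : OS s s') (γ₂ : OS s' s'') (y : Sy e b s) :
    lam e b (wqoB_comp γ₁ γ₂) y = lam e b γ₂ (lam e b γ₁ y) := by
  refine Prod.ext ?_ (Mg.ext ?_ rfl)
  · change Sum.map id (fun i => γ₂.f (γ₁.f i)) y.1 = Sum.map id γ₂.f (Sum.map id γ₁.f y.1)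
    rcases y.1 with _ | _ <;> rfl
  · funext z
    change y.2.fst (Sum.map id (fun k => γ₁.g (γ₂.g k)) z.1, z.2) =
      y.2.fst (Sum.map id γ₁.g (Sum.map id γ₂.g z.1), z.2)
    rcases z with ⟨_ | _, _⟩ <;> rfl

theorem dv_trans (e b : ℕ) : IsTrans (Σ s : ℕ, Sy e b s) (dv e b) := by
  refine ⟨fun x y z => ?_⟩
  rintro ⟨γ₁, h1⟩ ⟨γ₂, h2⟩
  refine ⟨wqoB_comp γ₁ γ₂, ?_⟩
  rw [wqoB_lam_comp, h1, h2]

private theorem wqoB_key {e b s s' : ℕ} (γ : OS s s') (y : Sy e b s) (y' : Sy e b s')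
    (h1 : hd y = hd y') (h2 : ∀ k, ltr y' k = ltr y (γ.g k)) : lam e b γ y = y' := by
  unfold hd at h1
  rw [Prod.mk.injEq, Prod.mk.injEq] at h1
  obtain ⟨ha, hb, hc⟩ := h1
  have h2a : ∀ k x, y'.2.fst (Sum.inr k, x) = y.2.fst (Sum.inr (γ.g k), x) := by
    intro k x
    have h3 := congrArg Prod.fst (h2 k)
    exact congrFun h3 x
  have h2b : ∀ k, y'.1 = Sum.inr k ↔ y.1 = Sum.inr (γ.g k) := by
    intro k
    have h3 : decide (y'.1 = Sum.inr k) = decide (y.1 = Sum.inr (γ.g k)) :=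
      congrArg Prod.snd (h2 k)
    exact decide_eq_decide.1 h3
  refine Prod.ext ?_ (Mg.ext ?_ hc)
  · change Sum.map id γ.f y.1 = y'.1
    rcases hy : y.1 with j | i
    · rw [hy] at ha
      rcases hy' : y'.1 with j' | k
      · rw [hy'] at ha
        have h4 : j = j' := by
          change some j = some j' at ha
          exact Option.some.inj ha
        rw [h4]
        rfl
      · rw [hy'] at ha
        change some j = none at ha
        exact absurd ha (by simp)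
    · have h4 := (h2b (γ.f i)).2 (by rw [γ.gf, hy])
      rw [h4]
      rfl
  · funext z
    rcases z with ⟨j | k, x⟩
    · exact congrFun hb (j, x)
    · exact (h2a k x).symm

theorem dv_wqo (e b : ℕ) [NeZero e] (σ : ℕ → Σ s : ℕ, Sy e b s) :
    ∃ i j, i < j ∧ dv e b (σ i) (σ j) := by
  classical
  obtain ⟨h, hh⟩ := Finite.exists_infinite_fiber fun n : ℕ => hd (σ n).2
  set S : Set ℕ := (fun n : ℕ => hd (σ n).2) ⁻¹' {h} with hS
  have hmem : ∀ n, Nat.orderEmbeddingOfSet S n ∈ S := by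
    intro n
    have h1 : Nat.orderEmbeddingOfSet S n ∈ Set.range (Nat.orderEmbeddingOfSet S) := ⟨n, rfl⟩
    rwa [Nat.orderEmbeddingOfSet_range] at h1
  obtain ⟨i, j, hij, γ, hγ⟩ := wqo_words
    fun n : ℕ => (⟨(σ (Nat.orderEmbeddingOfSet S n)).1,
      fun k => ltr (σ (Nat.orderEmbeddingOfSet S n)).2 k⟩ :
        Σ s : ℕ, (Fin s → (PiG b → ZMod e) × Bool))
  refine ⟨Nat.orderEmbeddingOfSet S i, Nat.orderEmbeddingOfSet S j,
    (Nat.orderEmbeddingOfSet S).strictMono hij, γ, ?_⟩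
  refine wqoB_key γ _ _ ?_ hγ
  have h1 : hd (σ (Nat.orderEmbeddingOfSet S i)).2 = h := hmem i
  have h2 : hd (σ (Nat.orderEmbeddingOfSet S j)).2 = h := hmem j
  rw [h1, h2]

end SA
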