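import Pool.Agent.SA.Ver
import Pool.Agent.SA.Sig1
import Pool.Agent.SA.Lead
import Pool.Agent.SA.WqoB
import Pool.Agent.SA.Grob

/-! MODULE SA-LayC: level 2.
Plan. `X s = Sy e b s`, `K = ZMod 0` (`= ℤ`; `WellFoundedGT (AddSubgroup ℤ)`: additive subgroups of `ℤ` are ideals /
`ℤ`-submodules of a noetherian module), `lt s = slt`, `Y n s = {fx2 w | w ∈ ver n G (Gam b s), mu1 w = 1}`: an additive subgroup,
since `fx2 (u v) = fx2 u + shf (mu1 u) (fx2 v) = fx2 u + fx2 v` (`fx_mul`, `lift_p1`, `shf_one`) and `fx_inv`. `hY` by `ver_mono`.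
`hdv`: for `dv x y` take `γ` and `L` of `exists_lead γ`; `L (fx2 w) = fx2 (sig b γ.g w)`, `sig b γ.g w ∈ ver n G (Gam b s')`
(`map_ver_le`), `mu1 (sig ..) = pull1 .. (mu1 w) = 1` (`mu1_sig`). `grob` gives `N`. For `x ∈ ver n G (Gam b s)` with `mu1 x = 1`
there is `y ∈ ver N G (Gam b s)` with `mu1 y = 1`, `fx2 y = fx2 x`; `mu2 (x y⁻¹) = 1` by `mu_eq_one_iff`, `lift_p1`. -/

namespace SA

/-- the values of the level 2 derivatives on the elements of the verbal subgroup killed at level 1 -/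
private def layY (G : Type) [Group G] (e b n s : ℕ) : AddSubgroup (Sy e b s → ZMod 0) where
  carrier := {f | ∃ w ∈ ver n G (Gam b s), mu1 e b s w = 1 ∧ fx2 e b s w = f}
  zero_mem' := ⟨1, one_mem _, map_one _, fx_one _⟩
  add_mem' := by
    rintro _ _ ⟨u, hu, hu1, rfl⟩ ⟨v, hv, hv1, rfl⟩
    refine ⟨u * v, mul_mem hu hv, by rw [map_mul, hu1, hv1, one_mul], ?_⟩
    have h : fx2 e b s (u * v) = fx2 e b s u + shf (FreeGroup.lift (p1 e b s) u) (fx2 e b s v) :=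
      fx_mul _ _ _
    rw [h, lift_p1, hu1, shf_one]
  neg_mem' := by
    rintro _ ⟨u, hu, hu1, rfl⟩
    refine ⟨u⁻¹, inv_mem hu, by rw [map_inv, hu1, inv_one], ?_⟩
    have h : fx2 e b s u⁻¹ = -shf (FreeGroup.lift (p1 e b s) u)⁻¹ (fx2 e b s u) := fx_inv _ _
    rw [h, lift_p1, hu1, inv_one, shf_one]

private theorem layc_wf : WellFoundedGT (AddSubgroup (ZMod 0)) := by
  have h : WellFoundedGT (Submodule ℤ ℤ) := inferInstance
  have h2 : WellFoundedGT (AddSubgroup ℤ) :=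
    (AddSubgroup.toIntSubmodule (M := ℤ)).toOrderEmbedding.wellFoundedGT
  exact h2

theorem lay_c (G : Type) [Group G] (e b : ℕ) [NeZero e] : ∃ N, ∀ n, N ≤ n → ∀ s,
    ∀ x ∈ ver n G (Gam b s), mu1 e b s x = 1 →
      ∃ y ∈ ver N G (Gam b s), mu2 e b s (x * y⁻¹) = 1 := by
  have := layc_wf
  have key : ∃ N, ∀ n, N ≤ n → ∀ s, layY G e b n s = layY G e b N s := by
    refine grob (K := ZMod 0) (fun s => Sy e b s) (fun s y y' => slt y y')
      (fun s => slt_strict e b s) (dv e b) (dv_trans e b) (dv_wqo e b)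
      (fun n s => layY G e b n s) ?_ ?_
    · intro m n hmn s f hf
      obtain ⟨w, hw, hw1, hwf⟩ := hf
      exact ⟨w, ver_mono hmn hw, hw1, hwf⟩
    · rintro ⟨s, x⟩ ⟨s', y⟩ ⟨γ, hγ⟩
      obtain ⟨L, hL1, hL2⟩ := exists_lead (e := e) (b := b) γ
      refine ⟨L, ?_, ?_⟩
      · rintro n _ ⟨w, hw, hw1, rfl⟩
        refine ⟨sig b γ.g w, map_ver_le (sig b γ.g) ⟨w, hw, rfl⟩, ?_, hL1 w⟩
        rw [mu1_sig, hw1, map_one]
      · intro f hf
        have h1 := hL2 f x hf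
        change lam e b γ x = y at hγ
        rw [hγ] at h1
        exact h1
  obtain ⟨N, hN⟩ := key
  refine ⟨N, fun n hn s x hx hx1 => ?_⟩
  have h1 : fx2 e b s x ∈ layY G e b n s := ⟨x, hx, hx1, rfl⟩
  rw [hN n hn s] at h1
  obtain ⟨y, hy, hy1, hyx⟩ := h1
  refine ⟨y, hy, ?_⟩
  have h3 : mu 0 (p1 e b s) (x * y⁻¹) = 1 := by
    rw [mu_eq_one_iff, lift_p1, map_mul, map_inv, hx1, hy1, inv_one, mul_one]
    refine ⟨?_, rfl⟩
    rw [fx_mul, fx_inv, lift_p1, hx1, hy1, inv_one, shf_one, shf_one]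
    change fx2 e b s x + -fx2 e b s y = 0
    rw [hyx, add_neg_cancel]
  exact h3

end SA
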