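import Pool.Agent.SA.Qg

/-! MODULE SA-Lft: a Sylow subgroup of the universal finite quotient.

`lift_sylow`: `D` is the preimage of the normal `q`-subgroup `F` in the free group, `S` a Sylow `q`-subgroup of the image
of `D` in the function group. The image in `H` of the elements of `D` over `S` is all of the image of `D` (its index is a
power of `q` and divides the index of the Sylow subgroup), and the Frattini argument gives the last statement. -/

namespace SA

variable {Q H : Type} [Group Q] [Group H]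

private theorem lft_gen {W Γ : Type} [Group W] [Group Γ] [Finite Γ] {q : ℕ} [Fact q.Prime]
    [Finite H] (F : Subgroup H) [F.Normal] (hF : IsPGroup q F) (α : W →* H) (β : W →* Γ) :
    ∃ S : Subgroup Γ, IsPGroup q S ∧
      (∀ s ∈ S, ∃ w : W, β w = s ∧ α w ∈ F) ∧
      (∀ w : W, α w ∈ F → ∃ w' : W, α w' = α w ∧ β w' ∈ S) ∧
      ∀ w : W, ∃ w' : W, α w' = α w ∧ ∀ s ∈ S, β w' * s * (β w')⁻¹ ∈ S := by
  classical
  have hsur : Function.Surjective β.rangeRestrict := β.rangeRestrict_surjective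
  let D : Subgroup W := F.comap α
  have hD : D.Normal := Subgroup.Normal.comap inferInstance α
  have hDn : (D.map β.rangeRestrict).Normal := hD.map _ hsur
  obtain ⟨P⟩ : Nonempty (Sylow q (D.map β.rangeRestrict)) := inferInstance
  let S₀ : Subgroup β.range := (P : Subgroup (D.map β.rangeRestrict)).map
    (D.map β.rangeRestrict).subtype
  -- the preimage of the Sylow subgroup
  let E : Subgroup D := (P : Subgroup (D.map β.rangeRestrict)).comap (β.rangeRestrict.subgroupMap D)
  have hE1 : E.index = (P : Subgroup (D.map β.rangeRestrict)).index :=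
    Subgroup.index_comap_of_surjective _ (β.rangeRestrict.subgroupMap_surjective D)
  have hq : ¬ q ∣ (P : Subgroup (D.map β.rangeRestrict)).index := P.not_dvd_index
  have hA : IsPGroup q (D.map α) := by
    refine hF.to_le ?_
    rintro _ ⟨d, hd, rfl⟩
    exact hd
  have hE2 : (E.map (α.subgroupMap D)).index ∣ E.index :=
    Subgroup.index_map_dvd _ (α.subgroupMap_surjective D)
  have hE3 : E.map (α.subgroupMap D) = ⊤ := by
    obtain ⟨n, hn⟩ := hA.index (E.map (α.subgroupMap D))
    have h1 : n = 0 := by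
      by_contra h
      apply hq
      rw [← hE1]
      exact (dvd_trans (dvd_pow_self q h) (hn ▸ dvd_refl _)).trans hE2
    rw [h1, pow_zero] at hn
    exact Subgroup.index_eq_one.1 hn
  have key : ∀ w : W, α w ∈ F → ∃ w' : W, α w' = α w ∧ α w' ∈ F ∧ β.rangeRestrict w' ∈ S₀ := by
    intro w hw
    have h1 : (⟨α w, ⟨w, hw, rfl⟩⟩ : D.map α) ∈ E.map (α.subgroupMap D) := by
      rw [hE3]
      trivial
    obtain ⟨e, he, h2⟩ := h1
    have h3 : α (e : W) = α w := congrArg Subtype.val h2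
    refine ⟨e, h3, h3 ▸ hw, ?_⟩
    exact ⟨β.rangeRestrict.subgroupMap D e, he, rfl⟩
  refine ⟨S₀.map β.range.subtype, ?_, ?_, ?_, ?_⟩
  · exact (P.isPGroup'.map _).map _
  · rintro _ ⟨_, ⟨d, hd, rfl⟩, rfl⟩
    obtain ⟨w, hw, h1⟩ := d.2
    exact ⟨w, by
      have := congrArg Subtype.val h1
      exact this, hw⟩
  · intro w hw
    obtain ⟨w', h1, h2, h3⟩ := key w hw
    exact ⟨w', h1, ⟨_, h3, rfl⟩⟩
  · intro w
    have h1 : β.rangeRestrict w ∈ Subgroup.normalizer (S₀ : Set β.range) ⊔ D.map β.rangeRestrict := by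
      have h2 := Sylow.normalizer_sup_eq_top P
      rw [h2]
      trivial
    obtain ⟨g, hg, _, ⟨d, hd, rfl⟩, h3⟩ := Subgroup.mem_sup_of_normal_right.1 h1
    obtain ⟨e, he1, he2, he3⟩ := key d hd
    refine ⟨w * d⁻¹ * e, ?_, ?_⟩
    · rw [map_mul, map_mul, map_inv, he1, inv_mul_cancel_right]
    · have h4 : β.rangeRestrict (w * d⁻¹ * e) ∈ Subgroup.normalizer (S₀ : Set β.range) := by
        rw [map_mul, map_mul, map_inv, ← h3, mul_inv_cancel_right]
        exact mul_mem hg (Subgroup.le_normalizer he3)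
      rintro _ ⟨r, hr, rfl⟩
      refine ⟨β.rangeRestrict (w * d⁻¹ * e) * r * (β.rangeRestrict (w * d⁻¹ * e))⁻¹, ?_, rfl⟩
      exact (Subgroup.mem_normalizer_iff.1 h4 r).1 hr

theorem lift_sylow [Finite Q] {q : ℕ} (hq : q.Prime) [Finite H] (F : Subgroup H) [F.Normal]
    (hF : IsPGroup q F) {k0 : ℕ} (f : Fin k0 → H) :
    ∃ S : Subgroup ((Fin k0 → Q) → Q), IsPGroup q S ∧
      (∀ s ∈ S, ∃ w : FreeGroup (Fin k0), evl k0 Q w = s ∧ FreeGroup.lift f w ∈ F) ∧
      (∀ w : FreeGroup (Fin k0), FreeGroup.lift f w ∈ F →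
        ∃ w' : FreeGroup (Fin k0), FreeGroup.lift f w' = FreeGroup.lift f w ∧ evl k0 Q w' ∈ S) ∧
      ∀ w : FreeGroup (Fin k0), ∃ w' : FreeGroup (Fin k0),
        FreeGroup.lift f w' = FreeGroup.lift f w ∧
        ∀ s ∈ S, evl k0 Q w' * s * (evl k0 Q w')⁻¹ ∈ S := by
  have : Fact q.Prime := ⟨hq⟩
  exact lft_gen F hF (FreeGroup.lift f) (evl k0 Q)

end SA
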