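import Pool.Agent.SA.BasicB

/-! MODULE SA-Min: a minimal counterexample.
Plan. Choose `H` with `Nat.card H` minimal (`Nat.find` on the set of cardinalities, or strong
induction). Proper subgroups: smaller cardinality (`Subgroup.card_lt_of_lt`/`Subgroup.card_mul_index`), `Loc` by
`loc_inj` (subtype), so `InVar`. If `N1`, `N2` are normal and nontrivial with `N1 ⊓ N2 = ⊥`, the quotients
have smaller cardinality (`Subgroup.card_eq_card_quotient_mul_card_subgroup`), `Loc` by `loc_surj`, so
`InVar`, and `inVar_of_inf` gives `InVar G H`, contradiction. -/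

namespace SA

variable {G : Type} [Group G]

private theorem card_quot_lt {H : Type} [Group H] [Finite H] (N : Subgroup H) (hN : N ≠ ⊥) :
    Nat.card (H ⧸ N) < Nat.card H := by
  have h1 := Subgroup.card_eq_card_quotient_mul_card_subgroup N
  have h2 : 1 < Nat.card N := by
    rw [Finite.one_lt_card_iff_nontrivial]
    exact (Subgroup.nontrivial_iff_ne_bot N).2 hN
  have h3 : 0 < Nat.card (H ⧸ N) := Nat.card_pos
  rw [h1]
  exact lt_mul_of_one_lt_right h3 h2

private theorem card_sub_lt {H : Type} [Group H] [Finite H] (K : Subgroup H) (hK : K ≠ ⊤) :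
    Nat.card K < Nat.card H := by
  have h1 := Subgroup.card_le_card_group K
  rcases Nat.lt_or_ge (Nat.card K) (Nat.card H) with h2 | h2
  · exact h2
  · exact absurd (Subgroup.eq_top_of_card_eq K (le_antisymm h1 h2)) hK

theorem exists_min {n : ℕ}
    (h : ∃ (H : Type) (_ : Group H) (_ : Finite H), Loc n G H ∧ ¬ InVar G H) :
    ∃ (H : Type) (_ : Group H) (_ : Finite H), Loc n G H ∧ ¬ InVar G H ∧
      (∀ K : Subgroup H, K ≠ ⊤ → InVar G K) ∧
      ∀ N1 N2 : Subgroup H, N1.Normal → N2.Normal → N1 ⊓ N2 = ⊥ → N1 = ⊥ ∨ N2 = ⊥ := by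
  classical
  have h' : ∃ c : ℕ, ∃ (H : Type) (_ : Group H) (_ : Finite H), Nat.card H = c ∧ Loc n G H ∧
      ¬ InVar G H := by
    obtain ⟨H, i1, i2, h1, h2⟩ := h
    exact ⟨Nat.card H, H, i1, i2, rfl, h1, h2⟩
  obtain ⟨H, i1, i2, hc, h1, h2⟩ := Nat.find_spec h'
  have hmin : ∀ (K : Type) [Group K] [Finite K], Nat.card K < Nat.card H → Loc n G K →
      InVar G K := by
    intro K _ _ hlt hL
    by_contra hn
    exact Nat.find_min h' (m := Nat.card K) (by rw [← hc]; exact hlt)
      ⟨K, inferInstance, inferInstance, rfl, hL, hn⟩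
  refine ⟨H, i1, i2, h1, h2, ?_, ?_⟩
  · intro K hK
    exact hmin K (card_sub_lt K hK) (loc_inj K.subtype K.subtype_injective h1)
  · intro N1 N2 hN1 hN2 hinf
    by_contra hcon
    push Not at hcon
    apply h2
    apply inVar_of_inf N1 N2 hinf
    · exact hmin (H ⧸ N1) (card_quot_lt N1 hcon.1)
        (loc_surj (QuotientGroup.mk' N1) (QuotientGroup.mk'_surjective N1) h1)
    · exact hmin (H ⧸ N2) (card_quot_lt N2 hcon.2)
        (loc_surj (QuotientGroup.mk' N2) (QuotientGroup.mk'_surjective N2) h1)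

end SA
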