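import Pool.Agent.SA.Fac
import Pool.Agent.SA.LayA
import Pool.Agent.SA.LayB
import Pool.Agent.SA.LayC

/-! Project SA: the noetherianity theorem (assembly, helper75). -/

namespace SA

theorem layers (G : Type) [Group G] (e b : ℕ) [NeZero e] : ∃ N, ∀ n, N ≤ n → ∀ s,
    ∀ x ∈ ver n G (Gam b s), ∃ y ∈ ver N G (Gam b s), mu2 e b s (x * y⁻¹) = 1 := by
  obtain ⟨NA, hA⟩ := lay_a G b
  obtain ⟨NB, hB⟩ := lay_b G e b
  obtain ⟨NC, hC⟩ := lay_c G e b
  refine ⟨max NA (max NB NC), ?_⟩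
  intro n hn s x hx
  have h1 : ver NA G (Gam b s) ≤ ver (max NA (max NB NC)) G (Gam b s) :=
    ver_mono (le_max_left _ _)
  have h2 : ver NB G (Gam b s) ≤ ver (max NA (max NB NC)) G (Gam b s) :=
    ver_mono (le_trans (le_max_left _ _) (le_max_right _ _))
  have h3 : ver NC G (Gam b s) ≤ ver (max NA (max NB NC)) G (Gam b s) :=
    ver_mono (le_trans (le_max_right _ _) (le_max_right _ _))
  have h4 : ver (max NA (max NB NC)) G (Gam b s) ≤ ver n G (Gam b s) := ver_mono hn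
  have hnA : NA ≤ n := le_trans (le_max_left _ _) hn
  have hnB : NB ≤ n := le_trans (le_trans (le_max_left _ _) (le_max_right _ _)) hn
  have hnC : NC ≤ n := le_trans (le_trans (le_max_right _ _) (le_max_right _ _)) hn
  obtain ⟨y1, hy1, hz1⟩ := hA n hnA s x hx
  have hx1 : x * y1⁻¹ ∈ ver n G (Gam b s) :=
    Subgroup.mul_mem _ hx (Subgroup.inv_mem _ (h4 (h1 hy1)))
  obtain ⟨y2, hy2, hz2⟩ := hB n hnB s _ hx1 hz1
  have hx2 : x * y1⁻¹ * y2⁻¹ ∈ ver n G (Gam b s) :=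
    Subgroup.mul_mem _ hx1 (Subgroup.inv_mem _ (h4 (h2 hy2)))
  obtain ⟨y3, hy3, hz3⟩ := hC n hnC s _ hx2 hz2
  refine ⟨y3 * y2 * y1, Subgroup.mul_mem _ (Subgroup.mul_mem _ (h3 hy3) (h2 hy2)) (h1 hy1), ?_⟩
  rw [show x * (y3 * y2 * y1)⁻¹ = x * y1⁻¹ * y2⁻¹ * y3⁻¹ by group]
  exact hz3

theorem noeth (G : Type) [Group G] (b e : ℕ) (he : 0 < e) : ∃ N, ∀ (H : Type) [Group H]
    (A F : Subgroup H) [A.Normal] [F.Normal], A ≤ F → (∀ x ∈ A, ∀ y ∈ A, x * y = y * x) →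
    ⁅F, F⁆ ≤ A → (∀ x ∈ F, x ^ e ∈ A) → F.index ≠ 0 → F.index ≤ b → Loc N G H → InVar G H := by
  have : NeZero e := ⟨he.ne'⟩
  obtain ⟨N, hN⟩ := layers G e b
  refine ⟨N, ?_⟩
  intro H _ A F _ _ hAF hA hFF hFe hF0 hFb hL n
  rcases le_total n N with hnN | hnN
  · exact loc_mono hnN hL
  intro w hw x
  -- representatives of the cosets of `F`
  have hfi : F.FiniteIndex := ⟨hF0⟩
  have hfin : Finite (H ⧸ F) := inferInstance
  have hb : 0 < b := lt_of_lt_of_le (Nat.pos_of_ne_zero hF0) hFb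
  obtain ⟨r, hr⟩ : ∃ r : Fin b → H, ∀ h : H, ∃ j, (r j)⁻¹ * h ∈ F := by
    have hcard : Nat.card (H ⧸ F) ≤ b := hFb
    let e1 := Finite.equivFin (H ⧸ F)
    refine ⟨fun j => if hj : (j : ℕ) < Nat.card (H ⧸ F) then
      Quotient.out (e1.symm ⟨j, hj⟩) else 1, ?_⟩
    intro h
    let k := e1 (QuotientGroup.mk h)
    refine ⟨⟨k, lt_of_lt_of_le k.2 hcard⟩, ?_⟩
    have hk : ((⟨(k : ℕ), lt_of_lt_of_le k.2 hcard⟩ : Fin b) : ℕ) < Nat.card (H ⧸ F) := k.2
    simp only [hk, dif_pos]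
    have h1 : e1.symm ⟨(k : ℕ), hk⟩ = QuotientGroup.mk h := by
      have : (⟨(k : ℕ), hk⟩ : Fin _) = k := rfl
      rw [this]
      exact e1.symm_apply_apply _
    rw [h1]
    exact QuotientGroup.eq.1 (QuotientGroup.out_eq' (QuotientGroup.mk h : H ⧸ F))
  choose j hj using fun i => hr (x i)
  let φ : Gam b n →* H := FreeGroup.lift (Sum.elim r (fun i => (r (j i))⁻¹ * x i))
  let u : Fin n → Gam b n := fun i =>
    FreeGroup.of (Sum.inl (j i)) * FreeGroup.of (Sum.inr i)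
  have hφu : ∀ i, φ (u i) = x i := by
    intro i
    simp [φ, u]
  have hx : FreeGroup.lift x w = φ (FreeGroup.lift u w) := by
    have h1 : FreeGroup.lift x = φ.comp (FreeGroup.lift u) := by
      apply FreeGroup.ext_hom
      intro i
      rw [MonoidHom.comp_apply, FreeGroup.lift_apply_of, FreeGroup.lift_apply_of, hφu]
    rw [h1, MonoidHom.comp_apply]
  rw [hx]
  have hmem : FreeGroup.lift u w ∈ ver n G (Gam b n) := mem_ver hw u
  obtain ⟨y, hy, hz⟩ := hN n hnN n _ hmem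
  have h2 := fac A F hAF hA hFF hFe hF0 hFb φ (by
    intro i
    simp only [φ, FreeGroup.lift_apply_of, Sum.elim_inr]
    exact hj i) _ hz
  have h3 : φ y = 1 := by
    have h4 : φ y ∈ ver N G H := map_ver_le φ ⟨y, hy, rfl⟩
    have h5 : ver N G H = ⊥ := by
      rw [ver_eq_closure, Subgroup.closure_eq_bot_iff]
      rintro _ ⟨v, hv, f, rfl⟩
      exact hL hv f
    rw [h5] at h4
    exact Subgroup.mem_bot.1 h4
  rw [map_mul, map_inv, h3, inv_one, mul_one] at h2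
  exact h2

end SA
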