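import Pool.Agent.SA.Defs

/-! MODULE SA-ResF: finitely generated abelian-by-finite groups are residually finite.
Plan. `A` is finitely generated (`Subgroup.fg_of_index_ne_zero`) and commutative. If `g ∉ A` take
`N = A`. If `g ∈ A`: there is a subgroup `B ≤ A` of finite index in `A` with `g ∉ B` (structure theorem
for finitely generated commutative groups `CommGroup.equiv_free_prod_directSum_zmod` /
`AddCommGroup.equiv_free_prod_directSum_zmod`; or: the `k`-th powers `A ^ k` have finite index, and the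
intersection of all `A ^ k` is trivial; or Krull intersection for the noetherian `ℤ`-module `A`).
`B` (mapped into `H`) has finite index in `H`; take its normal core (`Subgroup.normalCore`, finite
index: `Subgroup.finiteIndex_normalCore`), which is contained in `B`. -/

namespace SA

private theorem resf_int (z : Multiplicative ℤ) (hz : z ≠ 1) :
    ∃ (N : ℕ) (_ : NeZero N) (f : Multiplicative ℤ →* Multiplicative (ZMod N)), f z ≠ 1 := by
  set N : ℕ := (Multiplicative.toAdd z).natAbs + 1 with hN
  have hz' : Multiplicative.toAdd z ≠ 0 := by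
    intro h
    apply hz
    rw [← ofAdd_toAdd z, h]
    rfl
  have : NeZero N := ⟨by omega⟩
  let f : Multiplicative ℤ →* Multiplicative (ZMod N) :=
    AddMonoidHom.toMultiplicative (Int.castAddHom (ZMod N))
  refine ⟨N, this, f, ?_⟩
  intro h
  have h1 : ((Multiplicative.toAdd z : ℤ) : ZMod N) = 0 := by
    have := congrArg Multiplicative.toAdd h
    exact this
  rw [ZMod.intCast_zmod_eq_zero_iff_dvd] at h1
  have h2 := Int.natAbs_dvd_natAbs.mpr h1
  rw [Int.natAbs_natCast] at h2
  have h3 := Nat.le_of_dvd (Int.natAbs_pos.mpr hz') h2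
  omega

private theorem resf_comm (B : Type) [CommGroup B] [Group.FG B] (b : B) (hb : b ≠ 1) :
    ∃ K : Subgroup B, K.FiniteIndex ∧ b ∉ K := by
  obtain ⟨ι, j, _, _, p, hp, e, ⟨f⟩⟩ := CommGroup.equiv_free_prod_prod_multiplicative_zmod B
  have hf : f b ≠ 1 := by
    intro h
    apply hb
    exact f.injective (by rw [h, map_one])
  by_cases h1 : (f b).1 = 1
  · have h2 : (f b).2 ≠ 1 := fun h2 => hf (Prod.ext h1 h2)
    obtain ⟨i, hi⟩ := Function.ne_iff.mp h2
    have : NeZero (p i ^ e i) := ⟨pow_ne_zero _ (hp i).ne_zero⟩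
    let φ : B →* Multiplicative (ZMod (p i ^ e i)) :=
      (Pi.evalMonoidHom _ i).comp ((MonoidHom.snd _ _).comp f.toMonoidHom)
    refine ⟨φ.ker, Subgroup.finiteIndex_ker φ, ?_⟩
    rw [MonoidHom.mem_ker]
    exact hi
  · obtain ⟨i, hi⟩ := Function.ne_iff.mp h1
    let φ : B →* Multiplicative ℤ :=
      (Pi.evalMonoidHom _ i).comp ((MonoidHom.fst _ _).comp f.toMonoidHom)
    obtain ⟨N, _, ψ, hψ⟩ := resf_int (φ b) hi
    refine ⟨(ψ.comp φ).ker, Subgroup.finiteIndex_ker (ψ.comp φ), ?_⟩
    rw [MonoidHom.mem_ker]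
    exact hψ

theorem exists_finiteIndex (H : Type) [Group H] [Group.FG H] (A : Subgroup H) [A.Normal]
    [A.FiniteIndex] (hA : ∀ a ∈ A, ∀ b ∈ A, a * b = b * a) (g : H) (hg : g ≠ 1) :
    ∃ N : Subgroup H, N.Normal ∧ N.FiniteIndex ∧ g ∉ N := by
  by_cases hgA : g ∈ A
  · let _ : CommGroup A :=
      { (inferInstance : Group A) with
        mul_comm := fun a b => Subtype.ext (hA a.1 a.2 b.1 b.2) }
    have hfg : Group.FG A := A.fg_of_index_ne_zero
    obtain ⟨K, hK, hgK⟩ := resf_comm A ⟨g, hgA⟩ (fun h => hg (congrArg Subtype.val h))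
    have h1 : (K.map A.subtype).FiniteIndex := by
      refine ⟨?_⟩
      rw [Subgroup.index_map_subtype]
      exact mul_ne_zero hK.index_ne_zero Subgroup.FiniteIndex.index_ne_zero
    refine ⟨(K.map A.subtype).normalCore, inferInstance, inferInstance, ?_⟩
    intro h
    have h2 := Subgroup.normalCore_le _ h
    obtain ⟨x, hx, hxg⟩ := Subgroup.mem_map.mp h2
    have : x = ⟨g, hgA⟩ := Subtype.ext hxg
    rw [this] at hx
    exact hgK hx
  · exact ⟨A, inferInstance, inferInstance, hgA⟩

end SA
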