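import Pool.Agent.SA.BasicB
import Pool.Agent.SA.Ver
import Pool.Agent.SA.FinS
import Pool.Agent.SA.ResF

/-! MODULE SA-Red: reduction to finite groups.
Plan. Let `w ∈ LawN k G`, `f : Fin k → H`, suppose `lift f w ≠ 1`. Replace `H` by
`K = closure (range f)` (`Loc n G K` by `loc_inj`), finitely generated. `V = ver n0 (G ⧸ A) K` is normal and
commutative (`ver_comm`), `K ⧸ V` has `Loc n0 (G ⧸ A)` (`loc_quot_ver`): solvable by `hsol`, and of exponent
`A.index` since `x ^ A.index` is a law of `G ⧸ A` in one variable (`loc_mono` to `1 ≤ n0`; `pow_card_eq_one'`,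
`Subgroup.index = Nat.card`). `K ⧸ V` is finitely generated, so finite (`finite_of_fg`): `V` has finite
index. By `exists_finiteIndex` there is a normal `N` of finite index with `lift f w ∉ N`. `K ⧸ N` is
finite with `Loc n G` (`loc_surj`), so `InVar G (K ⧸ N)` by `hfin`, so `lift f w ∈ N`, contradiction. -/

namespace SA

variable {G : Type} [Group G]

private theorem red_lift_comp {H K : Type} [Group H] [Group K] {k : ℕ} (φ : H →* K)
    (f : Fin k → H) (w : FreeGroup (Fin k)) :
    φ (FreeGroup.lift f w) = FreeGroup.lift (fun i => φ (f i)) w := by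
  have h : φ.comp (FreeGroup.lift f) = FreeGroup.lift (fun i => φ (f i)) := by
    apply FreeGroup.ext_hom
    intro i
    simp
  exact DFunLike.congr_fun h w

theorem reduction (A : Subgroup G) [A.Normal] [A.FiniteIndex]
    (hA : ∀ a ∈ A, ∀ b ∈ A, a * b = b * a) {n0 n : ℕ} (h1 : 1 ≤ n0) (hn : 2 * n0 ≤ n)
    (hsol : ∀ (K : Type) [Group K], Loc n0 (G ⧸ A) K → Group.IsSolvable K)
    (hfin : ∀ (K : Type) [Group K] [Finite K], Loc n G K → InVar G K)
    (H : Type) [Group H] (hL : Loc n G H) : InVar G H := by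
  intro k w hw f
  by_contra hne
  obtain ⟨f', hf'⟩ : ∃ f' : Fin k → Subgroup.closure (Set.range f), ∀ i, (f' i : H) = f i :=
    ⟨fun i => ⟨f i, Subgroup.subset_closure ⟨i, rfl⟩⟩, fun i => rfl⟩
  have hlift : ((FreeGroup.lift f' w : Subgroup.closure (Set.range f)) : H) =
      FreeGroup.lift f w := by
    have h2 := red_lift_comp (Subgroup.closure (Set.range f)).subtype f' w
    have h3 : (fun i => (Subgroup.closure (Set.range f)).subtype (f' i)) = f := funext hf'
    rw [h3] at h2
    exact h2
  have hne' : FreeGroup.lift f' w ≠ 1 := by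
    intro h2
    apply hne
    rw [← hlift, h2]
    rfl
  have hFG : Group.FG (Subgroup.closure (Set.range f)) := inferInstance
  have hLK : Loc n G (Subgroup.closure (Set.range f)) :=
    loc_inj (Subgroup.closure (Set.range f)).subtype Subtype.val_injective hL
  have hVc := ver_comm A hA (n := n0) hn hLK
  have hLV : Loc n0 (G ⧸ A) ((Subgroup.closure (Set.range f)) ⧸
      ver n0 (G ⧸ A) (Subgroup.closure (Set.range f))) := loc_quot_ver _ _ _
  have hsolV := hsol _ hLV
  have hexp : ∀ x : (Subgroup.closure (Set.range f)) ⧸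
      ver n0 (G ⧸ A) (Subgroup.closure (Set.range f)), x ^ A.index = 1 := by
    intro x
    have hw1 : (FreeGroup.of (0 : Fin 1)) ^ A.index ∈ LawN 1 (G ⧸ A) := by
      intro g
      rw [map_pow, FreeGroup.lift_apply_of]
      exact pow_card_eq_one'
    have h2 := loc_mono h1 hLV hw1 (fun _ => x)
    rw [map_pow, FreeGroup.lift_apply_of] at h2
    exact h2
  have hpos : 0 < A.index := Nat.pos_of_ne_zero Subgroup.FiniteIndex.index_ne_zero
  have hfinV : Finite ((Subgroup.closure (Set.range f)) ⧸
      ver n0 (G ⧸ A) (Subgroup.closure (Set.range f))) := finite_of_fg _ A.index hpos hexp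
  have hFI : (ver n0 (G ⧸ A) (Subgroup.closure (Set.range f))).FiniteIndex :=
    Subgroup.finiteIndex_of_finite_quotient
  obtain ⟨N, hN, hNfi, hgN⟩ := exists_finiteIndex _ _ hVc _ hne'
  have hfinN : Finite ((Subgroup.closure (Set.range f)) ⧸ N) :=
    Subgroup.finite_quotient_of_finiteIndex
  have hLN : Loc n G ((Subgroup.closure (Set.range f)) ⧸ N) :=
    loc_surj (QuotientGroup.mk' N) (QuotientGroup.mk'_surjective N) hLK
  have h4 := hfin _ hLN k hw (fun i => QuotientGroup.mk' N (f' i))
  rw [← red_lift_comp] at h4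
  apply hgN
  have h5 : (QuotientGroup.mk (FreeGroup.lift f' w) : (Subgroup.closure (Set.range f)) ⧸ N) = 1 :=
    h4
  rwa [QuotientGroup.eq_one_iff] at h5

end SA
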