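import Pool.Agent.SA.BasicA

/-! MODULE SA-SolL: solvability is a law in finitely many variables.
Plan. Let `derivedSeries Q d = ⊥`. Define `D k : Set H` (for every group `H`) of values:
`D 0 = univ`, `D (k+1) = {⁅x, y⁆ | x y ∈ D k}` (invariant under conjugation). Then
`derivedSeries H k = closure (D k)` (induction; the commutator subgroup of `closure S` and `closure T` for
conjugation invariant `S`, `T` is the closure of the `⁅s, t⁆`: `≤` direction by
`Subgroup.commutator_le` and `closure_induction`, using normality of the closure of the commutators).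
The elements of `D k` are the values of one word in `2 ^ k` variables: define words
`δ 0 = of 0`, `δ (k+1) = ⁅map (first half) (δ k), map (second half) (δ k)⁆` in `FreeGroup (Fin (2 ^ k))`
(or over the variable type `Fin k → Bool`, finite with `Nat.card = 2 ^ k`, and use `loc_of_type`).
`N = 2 ^ d`: `δ d` is a law of `Q`, so of `H`, so `D d = {1}` in `H` and `derivedSeries H d = ⊥`. -/

namespace SA

open scoped commutatorElement

private theorem solL_lift_map {α β K : Type} [Group K] (e : α → β) (g : β → K) (w : FreeGroup α) :
    FreeGroup.lift g (FreeGroup.map e w) = FreeGroup.lift (g ∘ e) w := by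
  have h : (FreeGroup.lift g).comp (FreeGroup.map e) = FreeGroup.lift (g ∘ e) := by
    apply FreeGroup.ext_hom
    intro a
    simp
  exact DFunLike.congr_fun h w

private theorem solL_hom_lift {α K L : Type} [Group K] [Group L] (φ : K →* L) (f : α → K)
    (w : FreeGroup α) : φ (FreeGroup.lift f w) = FreeGroup.lift (φ ∘ f) w := by
  have h : φ.comp (FreeGroup.lift f) = FreeGroup.lift (φ ∘ f) := by
    apply FreeGroup.ext_hom
    intro a
    simp
  exact DFunLike.congr_fun h w

private theorem solL_word (k : ℕ) : ∃ (α : Type) (_ : Finite α) (w : FreeGroup α),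
    (∀ (G : Type) [Group G] (f : α → G), FreeGroup.lift f w ∈ derivedSeries G k) ∧
    (∀ (G : Type) [Group G], derivedSeries G k ≤
      Subgroup.closure (Set.range (fun f : α → G => FreeGroup.lift f w))) := by
  induction k with
  | zero =>
    refine ⟨Unit, inferInstance, FreeGroup.of (), fun G _ f => by simp, fun G _ => ?_⟩
    intro x _
    apply Subgroup.subset_closure
    exact ⟨fun _ => x, by simp⟩
  | succ k ih =>
    obtain ⟨α, hα, w, h1, h2⟩ := ih
    refine ⟨α ⊕ α, inferInstance, ⁅FreeGroup.map (Sum.inl : α → α ⊕ α) w, FreeGroup.map (Sum.inr : α → α ⊕ α) w⁆,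
      fun G _ f => ?_, fun G _ => ?_⟩
    · rw [map_commutatorElement, solL_lift_map, solL_lift_map, derivedSeries_succ]
      exact Subgroup.commutator_mem_commutator (h1 G _) (h1 G _)
    · set S := Set.range (fun f : α ⊕ α → G =>
        FreeGroup.lift f ⁅FreeGroup.map (Sum.inl : α → α ⊕ α) w, FreeGroup.map (Sum.inr : α → α ⊕ α) w⁆) with hS
      have hNn : (Subgroup.closure S).Normal := by
        constructor
        intro n hn g
        induction hn using Subgroup.closure_induction with
        | mem x hx =>
          obtain ⟨f, rfl⟩ := hx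
          apply Subgroup.subset_closure
          refine ⟨(MulAut.conj g).toMonoidHom ∘ f, ?_⟩
          show FreeGroup.lift ((MulAut.conj g).toMonoidHom ∘ f)
            ⁅FreeGroup.map (Sum.inl : α → α ⊕ α) w, FreeGroup.map (Sum.inr : α → α ⊕ α) w⁆ = _
          rw [← solL_hom_lift]
          rfl
        | one => simp
        | mul x y hx hy h1 h2 =>
          have h3 : g * (x * y) * g⁻¹ = (g * x * g⁻¹) * (g * y * g⁻¹) := by group
          rw [h3]
          exact mul_mem h1 h2
        | inv x hx h1 =>
          have h3 : g * x⁻¹ * g⁻¹ = (g * x * g⁻¹)⁻¹ := by group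
          rw [h3]
          exact inv_mem h1
      rw [derivedSeries_succ, Subgroup.commutator_le]
      intro a ha b hb
      rw [← QuotientGroup.eq_one_iff]
      show (QuotientGroup.mk' (Subgroup.closure S)) ⁅a, b⁆ = 1
      rw [map_commutatorElement, commutatorElement_eq_one_iff_commute]
      refine Subgroup.closure_induction₂ (p := fun a b _ _ =>
        Commute (QuotientGroup.mk' (Subgroup.closure S) a)
          (QuotientGroup.mk' (Subgroup.closure S) b)) ?_ ?_ ?_ ?_ ?_ ?_ ?_ (h2 G ha) (h2 G hb)
      · rintro x y ⟨f, rfl⟩ ⟨g, rfl⟩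
        rw [← commutatorElement_eq_one_iff_commute, ← map_commutatorElement]
        show ((⁅FreeGroup.lift f w, FreeGroup.lift g w⁆ : G) : G ⧸ Subgroup.closure S) = 1
        rw [QuotientGroup.eq_one_iff]
        apply Subgroup.subset_closure
        refine ⟨Sum.elim f g, ?_⟩
        show FreeGroup.lift (Sum.elim f g)
            ⁅FreeGroup.map (Sum.inl : α → α ⊕ α) w, FreeGroup.map (Sum.inr : α → α ⊕ α) w⁆ = _
        rw [map_commutatorElement, solL_lift_map, solL_lift_map]
        rfl
      · intro x _
        rw [map_one]
        exact Commute.one_left _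
      · intro x _
        rw [map_one]
        exact Commute.one_right _
      · intro x y z _ _ _ h3 h4
        rw [map_mul]
        exact h3.mul_left h4
      · intro x y z _ _ _ h3 h4
        rw [map_mul]
        exact h3.mul_right h4
      · intro x y _ _ h3
        rw [map_inv]
        exact h3.inv_left
      · intro x y _ _ h3
        rw [map_inv]
        exact h3.inv_right

theorem exists_sol_law (Q : Type) [Group Q] [Group.IsSolvable Q] :
    ∃ N : ℕ, ∀ (H : Type) [Group H], Loc N Q H → Group.IsSolvable H := by
  obtain ⟨d, hd⟩ := Group.IsSolvable.solvable (G := Q)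
  obtain ⟨α, hα, w, h1, h2⟩ := solL_word d
  refine ⟨Nat.card α, fun H _ hL => ⟨⟨d, ?_⟩⟩⟩
  have h3 : ∀ f : α → Q, FreeGroup.lift f w = 1 := by
    intro f
    have h4 := h1 Q f
    rw [hd] at h4
    exact Subgroup.mem_bot.mp h4
  rw [eq_bot_iff]
  refine (h2 H).trans ?_
  rw [Subgroup.closure_le]
  rintro _ ⟨f, rfl⟩
  exact Subgroup.mem_bot.mpr (loc_of_type le_rfl hL w h3 f)

end SA
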