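import Pool.Agent.SA.Kc
import Pool.Agent.SA.Noeth
import Pool.Agent.SA.Red
import Pool.Agent.SA.SolL
import Pool.Agent.SA.Qg
import Pool.Agent.SA.Min
import Pool.Agent.SA.Core
import Pool.Agent.SA.Fb

/-! Project SA: the main theorem (assembly, helper75). -/

namespace SA

open scoped commutatorElement

/-- solvability from an abelian normal subgroup -/
theorem solvable_ext {H : Type} [Group H] (A : Subgroup H) [A.Normal]
    (hA : ∀ a ∈ A, ∀ b ∈ A, a * b = b * a) (hq : Group.IsSolvable (H ⧸ A)) :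
    Group.IsSolvable H := by
  have hAs : Group.IsSolvable A := by
    refine Group.isSolvable_of_comm ?_
    intro a b
    exact Subtype.ext (hA a a.2 b b.2)
  refine Group.isSolvable_of_ker_le_range A.subtype (QuotientGroup.mk' A) ?_
  rw [QuotientGroup.ker_mk', Subgroup.range_subtype]

theorem finite_case (G : Type) [Group G] (AG : Subgroup G) [AG.Normal] [AG.FiniteIndex]
    (hAG : ∀ a ∈ AG, ∀ b ∈ AG, a * b = b * a)
    (hQ : ∀ q : ℕ, q.Prime → QAb q (G ⧸ AG)) {n0 n t N1 : ℕ}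
    (hsol : ∀ (K : Type) [Group K], Loc n0 (G ⧸ AG) K → Group.IsSolvable K)
    (h2 : 2 ≤ n0) (hn0 : 1 + (AG.index + 1) + (AG.index + 1) * (AG.index + 1) ≤ n0)
    (ht : AG.index < 2 ^ t) (hnn : 2 * n0 ≤ n)
    (hn1 : n0 + (AG.index + 1) + (AG.index + 1) * (AG.index + 1) ≤ n)
    (hn2 : n0 + t + AG.index ^ t ≤ n) (hN1n : N1 ≤ n)
    (hN1 : ∀ (H : Type) [Group H] (A F : Subgroup H) [A.Normal] [F.Normal], A ≤ F →
      (∀ x ∈ A, ∀ y ∈ A, x * y = y * x) → ⁅F, F⁆ ≤ A → (∀ x ∈ F, x ^ AG.index ∈ A) →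
      F.index ≠ 0 → F.index ≤ AG.index ^ (t + 2) → Loc N1 G H → InVar G H)
    (K : Type) [Group K] [Finite K] (hK : Loc n G K) : InVar G K := by
  by_contra hcon
  obtain ⟨H, hHg, hHf, hL, hnv, hsub, hmono⟩ := exists_min (G := G) (n := n)
    ⟨K, inferInstance, inferInstance, hK, hcon⟩
  have hAc := ver_comm (H := H) AG hAG hnn hL
  have hLq : Loc n0 (G ⧸ AG) (H ⧸ ver n0 (G ⧸ AG) H) := loc_quot_ver n0 (G ⧸ AG) H
  have hsolH : Group.IsSolvable H := solvable_ext (ver n0 (G ⧸ AG) H) hAc (hsol _ hLq)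
  have hnt : Nontrivial H := by
    by_contra hnt
    rw [not_nontrivial_iff_subsingleton] at hnt
    apply hnv
    intro k w _ f
    exact Subsingleton.elim _ _
  obtain ⟨q, F, hq, hFn, hFq, hnil⟩ := exists_core (H := H) hmono
  have hAF : ver n0 (G ⧸ AG) H ≤ F := by
    refine hnil _ inferInstance ?_
    letI : CommGroup (ver n0 (G ⧸ AG) H) :=
      { (inferInstance : Group (ver n0 (G ⧸ AG) H)) with
        mul_comm := fun a b => Subtype.ext (hAc a a.2 b b.2) }
    exact CommGroup.isNilpotent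
  have hab : QAb q (H ⧸ ver n0 (G ⧸ AG) H) :=
    qAb_of_loc hq (hQ q hq) (loc_mono h2 hLq)
  have hFF : ⁅F, F⁆ ≤ ver n0 (G ⧸ AG) H := by
    rw [Subgroup.commutator_le]
    intro x hx y hy
    have h3 := hab (F.map (QuotientGroup.mk' (ver n0 (G ⧸ AG) H))) (hFq.map _)
      _ ⟨x, hx, rfl⟩ _ ⟨y, hy, rfl⟩
    have h4 : QuotientGroup.mk' (ver n0 (G ⧸ AG) H) ⁅x, y⁆ = 1 := by
      rw [map_commutatorElement, commutatorElement_eq_one_iff_mul_comm]
      exact h3
    rwa [← MonoidHom.mem_ker, QuotientGroup.ker_mk'] at h4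
  have hexp : ∀ x ∈ F, x ^ AG.index ∈ ver n0 (G ⧸ AG) H := by
    intro x _
    have hw : (FreeGroup.of (⟨0, by omega⟩ : Fin n0)) ^ AG.index ∈ LawN n0 (G ⧸ AG) := by
      intro f
      rw [map_pow, FreeGroup.lift_apply_of, Subgroup.index, pow_card_eq_one']
    have h5 := mem_ver hw (fun _ => x)
    rwa [map_pow, FreeGroup.lift_apply_of] at h5
  have S : Sit AG n0 n t q F :=
    { comm := hAG, qprime := hq, qab := hQ q hq, loc := hL, Fn := hFn, Fq := hFq, AF := hAF,
      Ac := hAc, FF := hFF, hab := hab, hsub := hsub, not_var := hnv, ht := ht, hn0 := hn0,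
      hn1 := hn1, hn2 := hn2 }
  exact hnv (hN1 H (ver n0 (G ⧸ AG) H) F hAF hAc hFF hexp Subgroup.FiniteIndex.index_ne_zero
    (index_F_le AG F S hnil) (loc_mono hN1n hL))

theorem main (G : Type) [Group G] (A : Subgroup G) [A.Normal] [A.FiniteIndex]
    (hA : ∀ a ∈ A, ∀ b ∈ A, a * b = b * a) (hsol : Group.IsSolvable (G ⧸ A))
    (hSyl : ∀ (p : ℕ) [Fact p.Prime] (P : Sylow p (G ⧸ A)), ∀ x ∈ P, ∀ y ∈ P, x * y = y * x) :
    ∃ S : Finset (FreeGroup ℕ), (∀ w ∈ S, ∀ f : ℕ → G, FreeGroup.lift f w = 1) ∧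
      ∀ (H : Type) [Group H], (∀ w ∈ S, ∀ f : ℕ → H, FreeGroup.lift f w = 1) →
        ∀ w : FreeGroup ℕ, (∀ f : ℕ → G, FreeGroup.lift f w = 1) →
          ∀ f : ℕ → H, FreeGroup.lift f w = 1 := by
  classical
  have hm : 0 < A.index := Nat.pos_of_ne_zero Subgroup.FiniteIndex.index_ne_zero
  have hQ : ∀ q : ℕ, q.Prime → QAb q (G ⧸ A) := by
    intro q hq P hP x hx y hy
    have : Fact q.Prime := ⟨hq⟩
    obtain ⟨P', hP'⟩ := hP.exists_le_sylow
    exact hSyl q P' x (hP' hx) y (hP' hy)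
  obtain ⟨N0, hN0⟩ := exists_sol_law (G ⧸ A)
  obtain ⟨N1, hN1⟩ := noeth G (A.index ^ (A.index + 2)) A.index hm
  set m := A.index with hmdef
  let n0 := N0 + 2 + (1 + (m + 1) + (m + 1) * (m + 1))
  let n := 2 * n0 + (n0 + (m + 1) + (m + 1) * (m + 1)) + (n0 + m + m ^ m) + N1
  have hn0a : N0 ≤ n0 := by simp only [n0]; omega
  have h2 : 2 ≤ n0 := by simp only [n0]; omega
  have hn0b : 1 + (m + 1) + (m + 1) * (m + 1) ≤ n0 := by simp only [n0]; omega
  have hfin : ∀ (K : Type) [Group K] [Finite K], Loc n G K → InVar G K := by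
    intro K _ _ hK
    refine finite_case G A hA hQ (n0 := n0) (n := n) (t := m) (N1 := N1)
      (fun K _ hL => hN0 K (loc_mono hn0a hL)) h2 hn0b Nat.lt_two_pow_self ?_ ?_ ?_ ?_ hN1 K hK
    · simp only [n]; omega
    · simp only [n, ← hmdef]; omega
    · simp only [n, ← hmdef]; omega
    · simp only [n]; omega
  have hred : ∀ (H : Type) [Group H], Loc n G H → InVar G H := by
    intro H _ hL
    exact reduction A hA (n0 := n0) (n := n) (by omega) (by simp only [n]; omega)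
      (fun K _ hL => hN0 K (loc_mono hn0a hL)) hfin H hL
  obtain ⟨S0, hS0, hS1⟩ := exists_finset_laws A hA n
  have hmap : ∀ (X : Type) [Group X] (f : ℕ → X) (w : FreeGroup (Fin n)),
      FreeGroup.lift f (FreeGroup.map (fun i : Fin n => (i : ℕ)) w) =
        FreeGroup.lift (fun i : Fin n => f i) w := by
    intro X _ f w
    have h1 : (FreeGroup.lift f).comp (FreeGroup.map (fun i : Fin n => (i : ℕ))) =
        FreeGroup.lift (fun i : Fin n => f i) := by
      apply FreeGroup.ext_hom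
      intro i
      simp
    exact DFunLike.congr_fun h1 w
  refine ⟨S0.image (FreeGroup.map (fun i : Fin n => (i : ℕ))), ?_, ?_⟩
  · intro w hw f
    obtain ⟨v, hv, rfl⟩ := Finset.mem_image.1 hw
    rw [hmap]
    exact hS0 v hv _
  · intro H _ hH
    have h1 : Loc n G H := by
      refine hS1 H ?_
      intro w hw f
      have h2 := hH _ (Finset.mem_image.2 ⟨w, hw, rfl⟩)
        (fun k => if hk : k < n then f ⟨k, hk⟩ else 1)
      rw [hmap] at h2
      have h3 : (fun i : Fin n => (if hk : (i : ℕ) < n then f ⟨i, hk⟩ else 1 : H)) = f := by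
        funext i
        rw [dif_pos i.2]
      rwa [h3] at h2
    exact inVar_iff.1 (hred H h1)

end SA
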