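import Pool.Agent.SA.BasicB
import Pool.Agent.SA.Ver
import Pool.Agent.SA.ResF

/-! MODULE SA-RedF: reduction to finite groups, without solvability.
Plan. Adapt the proof of `reduction` in Pool/Agent/SA/Red.lean (complete, on main; copy the private lemmas): the only
change is that the finitely generated group `K ⧸ V` is finite by `hfg`. -/

namespace SA

variable {G : Type} [Group G]

private theorem redf_lift_comp {H K : Type} [Group H] [Group K] {k : ℕ} (φ : H →* K)
    (f : Fin k → H) (w : FreeGroup (Fin k)) :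
    φ (FreeGroup.lift f w) = FreeGroup.lift (fun i => φ (f i)) w := by
  have h : φ.comp (FreeGroup.lift f) = FreeGroup.lift (fun i => φ (f i)) := by
    apply FreeGroup.ext_hom
    intro i
    simp
  exact DFunLike.congr_fun h w

theorem reduction_fg (A : Subgroup G) [A.Normal] [A.FiniteIndex]
    (hA : ∀ a ∈ A, ∀ b ∈ A, a * b = b * a) {n0 n : ℕ} (hn : 2 * n0 ≤ n)
    (hfg : ∀ (K : Type) [Group K] [Group.FG K], Loc n0 (G ⧸ A) K → Finite K)
    (hfin : ∀ (K : Type) [Group K] [Finite K], Loc n G K → InVar G K)
    (H : Type) [Group H] (hL : Loc n G H) : InVar G H := by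
  intro k w hw f
  by_contra hne
  obtain ⟨f', hf'⟩ : ∃ f' : Fin k → Subgroup.closure (Set.range f), ∀ i, (f' i : H) = f i :=
    ⟨fun i => ⟨f i, Subgroup.subset_closure ⟨i, rfl⟩⟩, fun i => rfl⟩
  have hlift : ((FreeGroup.lift f' w : Subgroup.closure (Set.range f)) : H) =
      FreeGroup.lift f w := by
    have h2 := redf_lift_comp (Subgroup.closure (Set.range f)).subtype f' w
    have h3 : (fun i => (Subgroup.closure (Set.range f)).subtype (f' i)) = f := funext hf'
    rw [h3] at h2
    exact h2
  have hne' : FreeGroup.lift f' w ≠ 1 := by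
    intro h2
    apply hne
    rw [← hlift, h2]
    rfl
  have hFG : Group.FG (Subgroup.closure (Set.range f)) := inferInstance
  have hLK : Loc n G (Subgroup.closure (Set.range f)) :=
    loc_inj (Subgroup.closure (Set.range f)).subtype Subtype.val_injective hL
  have hVc := ver_comm A hA (n := n0) hn hLK
  have hLV : Loc n0 (G ⧸ A) ((Subgroup.closure (Set.range f)) ⧸
      ver n0 (G ⧸ A) (Subgroup.closure (Set.range f))) := loc_quot_ver _ _ _
  haveI : Group.FG ((Subgroup.closure (Set.range f)) ⧸
      ver n0 (G ⧸ A) (Subgroup.closure (Set.range f))) :=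
    Group.fg_of_surjective (f := QuotientGroup.mk' (ver n0 (G ⧸ A)
      (Subgroup.closure (Set.range f)))) (QuotientGroup.mk'_surjective _)
  have hfinV : Finite ((Subgroup.closure (Set.range f)) ⧸
      ver n0 (G ⧸ A) (Subgroup.closure (Set.range f))) := hfg _ hLV
  have hFI : (ver n0 (G ⧸ A) (Subgroup.closure (Set.range f))).FiniteIndex :=
    Subgroup.finiteIndex_of_finite_quotient
  obtain ⟨N, hN, hNfi, hgN⟩ := exists_finiteIndex _ _ hVc _ hne'
  have hfinN : Finite ((Subgroup.closure (Set.range f)) ⧸ N) :=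
    Subgroup.finite_quotient_of_finiteIndex
  have hLN : Loc n G ((Subgroup.closure (Set.range f)) ⧸ N) :=
    loc_surj (QuotientGroup.mk' N) (QuotientGroup.mk'_surjective N) hLK
  have h4 := hfin _ hLN k hw (fun i => QuotientGroup.mk' N (f' i))
  rw [← redf_lift_comp] at h4
  apply hgN
  have h5 : (QuotientGroup.mk (FreeGroup.lift f' w) : (Subgroup.closure (Set.range f)) ⧸ N) = 1 :=
    h4
  rwa [QuotientGroup.eq_one_iff] at h5

end SA
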