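import Pool.Agent.SA.Defs

/-! MODULE SA-MaxM: maximal subgroups not containing a normal `q`-subgroup.
Plan. `M` is a coatom, so `M ⊔ F = ⊤`. `F ⊓ M` is normalized by `M`. Since `F` is a finite `q`-group it is
nilpotent (`IsPGroup.isNilpotent`), so satisfies the normalizer condition: the normalizer of
`F ⊓ M` in `F` is strictly larger than `F ⊓ M` (`F ⊓ M ≠ F`). So the normalizer of `F ⊓ M` in `H` contains `M` and an
element outside `M`: it is `⊤`. Chief: let `X` be normal, `F ⊓ M ≤ X ≤ F`. If `X ≤ M` then `X = F ⊓ M`. Otherwise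
`X ⊔ M = ⊤`, and for `f ∈ F`: `f = x * m` (`Subgroup.mem_sup_of_normal_left`), `m = x⁻¹ f ∈ F ⊓ M ≤ X`, so `f ∈ X`. `F ⊓ M < F`
since `F` is not contained in `M`. Last: `X = ⁅F, F⁆ ⊔ (F ⊓ M)` is normal between; if it is `F` then `⁅F, F⁆`
together with `F ⊓ M` generates `F`; but `⁅F, F⁆` is contained in the Frattini subgroup of a nilpotent
group (or: `F ⧸ (F ⊓ M)` is a nontrivial `q`-group, so solvable, so not perfect). -/

namespace SA

variable {H : Type} [Group H]

private theorem mm_conj_iff {K : Subgroup H} {g : H}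
    (h1 : ∀ x ∈ K, g * x * g⁻¹ ∈ K) (h2 : ∀ x ∈ K, g⁻¹ * x * g ∈ K) (x : H) :
    x ∈ K ↔ g * x * g⁻¹ ∈ K := by
  refine ⟨h1 x, fun h => ?_⟩
  have h3 := h2 _ h
  have h4 : g⁻¹ * (g * x * g⁻¹) * g = x := by group
  rwa [h4] at h3

/-- a nilpotent normal subgroup is not generated by its commutator subgroup and a proper
normal subgroup -/
private theorem mm_perfect (F T : Subgroup H) [T.Normal] [Group.IsSolvable F] (hTF : T ≤ F)
    (h : ⁅F, F⁆ ⊔ T = F) : F ≤ T := by
  by_contra hFT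
  let T' : Subgroup F := T.subgroupOf F
  have hT'n : T'.Normal := inferInstance
  have hnt : Nontrivial (F ⧸ T') := by
    rw [QuotientGroup.nontrivial_iff]
    intro h1
    apply hFT
    exact (Subgroup.subgroupOf_eq_top).mp h1
  have hlt := Group.IsSolvable.commutator_lt_top_of_nontrivial (F ⧸ T')
  apply hlt.not_ge
  intro y _
  obtain ⟨⟨f, hf⟩, rfl⟩ := QuotientGroup.mk_surjective y
  have h2 : f ∈ T ⊔ ⁅F, F⁆ := by
    rw [sup_comm, h]
    exact hf
  obtain ⟨t, ht, c, hc, htc⟩ := Subgroup.mem_sup_of_normal_left.mp h2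
  rw [← Subgroup.map_subtype_commutator] at hc
  obtain ⟨c', hc', rfl⟩ := hc
  have htF : t ∈ F := hTF ht
  have h3 : (⟨f, hf⟩ : F) = ⟨t, htF⟩ * c' := Subtype.ext htc.symm
  rw [h3, QuotientGroup.mk_mul]
  have h4 : ((⟨t, htF⟩ : F) : F ⧸ T') = 1 := by
    rw [QuotientGroup.eq_one_iff]
    exact ht
  rw [h4, one_mul]
  have h5 : (commutator F).map (QuotientGroup.mk' T') ≤ commutator (F ⧸ T') := by
    rw [commutator_def, commutator_def, Subgroup.map_commutator]
    exact Subgroup.commutator_mono le_top le_top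
  exact h5 ⟨c', hc', rfl⟩

theorem max_facts [Finite H] {q : ℕ} (hq : q.Prime) (F : Subgroup H) [F.Normal]
    (hF : IsPGroup q F) (M : Subgroup H) (hM : IsCoatom M) (hFM : ¬ F ≤ M) :
    (F ⊓ M).Normal ∧ IsChief (F ⊓ M) F ∧ ⁅F, F⁆ ≤ F ⊓ M := by
  have hqf : Fact q.Prime := ⟨hq⟩
  have hnil : Group.IsNilpotent F := hF.isNilpotent
  have hFn : F.Normal := inferInstance
  have hMn : M ≤ Subgroup.normalizer ((F ⊓ M : Subgroup H) : Set H) := by
    intro m hm
    rw [Subgroup.mem_normalizer_iff]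
    apply mm_conj_iff
    · rintro x ⟨hx1, hx2⟩
      exact ⟨hFn.conj_mem x hx1 m, M.mul_mem (M.mul_mem hm hx2) (M.inv_mem hm)⟩
    · rintro x ⟨hx1, hx2⟩
      refine ⟨?_, M.mul_mem (M.mul_mem (M.inv_mem hm) hx2) hm⟩
      have h1 := hFn.conj_mem x hx1 m⁻¹
      rwa [inv_inv] at h1
  have hlt : (F ⊓ M).subgroupOf F < ⊤ := by
    rw [lt_top_iff_ne_top]
    intro h1
    rw [Subgroup.subgroupOf_eq_top] at h1
    exact hFM (h1.trans inf_le_right)
  have hnc := Group.normalizerCondition_of_isNilpotent (G := F) _ hlt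
  obtain ⟨g, hg1, hg2⟩ := SetLike.exists_of_lt hnc
  have hgM : (g : H) ∉ M := fun h1 => hg2 ⟨g.2, h1⟩
  have hgn : (g : H) ∈ Subgroup.normalizer ((F ⊓ M : Subgroup H) : Set H) := by
    rw [Subgroup.mem_normalizer_iff] at hg1 ⊢
    intro x
    constructor
    · intro hx
      exact (hg1 ⟨x, hx.1⟩).mp hx
    · intro hx
      have hxF : x ∈ F := by
        have h1 := hFn.conj_mem _ hx.1 ((g : H)⁻¹)
        have h2 : (g : H)⁻¹ * ((g : H) * x * (g : H)⁻¹) * ((g : H)⁻¹)⁻¹ = x := by group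
        rwa [h2] at h1
      exact (hg1 ⟨x, hxF⟩).mpr hx
  have hnorm : (F ⊓ M).Normal := by
    rw [← Subgroup.normalizer_eq_top_iff]
    apply hM.2
    refine lt_of_le_of_ne hMn ?_
    intro h1
    rw [h1] at hgM
    exact hgM hgn
  have hirr : ∀ X : Subgroup H, X.Normal → F ⊓ M ≤ X → X ≤ F → X = F ⊓ M ∨ X = F := by
    intro X hX h1 h2
    by_cases hXM : X ≤ M
    · left
      exact le_antisymm (le_inf h2 hXM) h1
    · right
      refine le_antisymm h2 ?_
      have htop : X ⊔ M = ⊤ := by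
        apply hM.2
        refine lt_of_le_of_ne le_sup_right ?_
        intro h3
        apply hXM
        rw [h3]
        exact le_sup_left
      intro f hf
      have h3 : f ∈ X ⊔ M := by
        rw [htop]
        exact Subgroup.mem_top f
      obtain ⟨x, hx, m, hm, hxm⟩ := Subgroup.mem_sup_of_normal_left.mp h3
      have hmF : m ∈ F := by
        have h4 : m = x⁻¹ * f := by
          rw [← hxm]
          group
        rw [h4]
        exact F.mul_mem (F.inv_mem (h2 hx)) hf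
      rw [← hxm]
      exact X.mul_mem hx (h1 ⟨hmF, hm⟩)
  refine ⟨hnorm, ⟨inf_lt_left.mpr hFM, hirr⟩, ?_⟩
  have hsol : Group.IsSolvable F := inferInstance
  have hle : ⁅F, F⁆ ⊔ (F ⊓ M) ≤ F := sup_le (Subgroup.commutator_le_left F F) inf_le_left
  rcases hirr (⁅F, F⁆ ⊔ (F ⊓ M)) inferInstance le_sup_right hle with h1 | h1
  · rw [← h1]
    exact le_sup_left
  · exfalso
    exact hFM ((mm_perfect F (F ⊓ M) inf_le_left h1).trans inf_le_right)

end SA
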