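import Pool.Agent.SA.Defs

/-! Definitions for the noetherianity theorem of project SA. -/

namespace SA

/-- functions on `I × P` with values in `ZMod e`: the free module of rank `I` over the group ring
of `P` -/
abbrev Om (e : ℕ) (P I : Type) := I × P → ZMod e

/-- left translation by `g` -/
def shf {e : ℕ} {P I : Type} [Group P] (g : P) : Om e P I →+ Om e P I where
  toFun f := fun y => f (y.1, g⁻¹ * y.2)
  map_zero' := rfl
  map_add' _ _ := rfl

theorem shf_apply {e : ℕ} {P I : Type} [Group P] (g : P) (f : Om e P I) (y : I × P) :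
    shf g f y = f (y.1, g⁻¹ * y.2) := rfl

theorem shf_one {e : ℕ} {P I : Type} [Group P] (f : Om e P I) : shf (1 : P) f = f := by
  funext y
  simp [shf_apply]

theorem shf_mul {e : ℕ} {P I : Type} [Group P] (g h : P) (f : Om e P I) :
    shf (g * h) f = shf g (shf h f) := by
  funext y
  simp [shf_apply, mul_assoc]

/-- the basis element at `y` -/
noncomputable def sgl (e : ℕ) {P I : Type} (y : I × P) : Om e P I :=
  open Classical in fun z => if z = y then 1 else 0

/-- the semidirect product of `Om e P I` and `P` -/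
@[ext]
structure Mg (e : ℕ) (P I : Type) where
  fst : Om e P I
  snd : P

namespace Mg

variable {e : ℕ} {P I : Type} [Group P]

instance : Mul (Mg e P I) := ⟨fun x y => ⟨x.fst + shf x.snd y.fst, x.snd * y.snd⟩⟩
instance : One (Mg e P I) := ⟨⟨0, 1⟩⟩
instance : Inv (Mg e P I) := ⟨fun x => ⟨-shf x.snd⁻¹ x.fst, x.snd⁻¹⟩⟩

theorem mul_fst (x y : Mg e P I) : (x * y).fst = x.fst + shf x.snd y.fst := rfl
theorem mul_snd (x y : Mg e P I) : (x * y).snd = x.snd * y.snd := rfl
theorem one_fst : (1 : Mg e P I).fst = 0 := rfl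
theorem one_snd : (1 : Mg e P I).snd = 1 := rfl
theorem inv_fst (x : Mg e P I) : x⁻¹.fst = -shf x.snd⁻¹ x.fst := rfl
theorem inv_snd (x : Mg e P I) : x⁻¹.snd = x.snd⁻¹ := rfl

instance : Group (Mg e P I) :=
  Group.ofLeftAxioms
    (by
      intro a b c
      ext1
      · simp only [mul_fst, mul_snd, map_add, shf_mul, add_assoc]
      · simp only [mul_snd, mul_assoc])
    (by
      intro a
      ext1
      · rw [mul_fst, one_fst, one_snd, shf_one, zero_add]
      · rw [mul_snd, one_snd, one_mul])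
    (by
      intro a
      ext1
      · rw [mul_fst, inv_fst, inv_snd, one_fst, neg_add_cancel]
      · rw [mul_snd, inv_snd, one_snd, inv_mul_cancel])

/-- the projection onto `P` -/
def sndHom : Mg e P I →* P where
  toFun := Mg.snd
  map_one' := rfl
  map_mul' _ _ := rfl

end Mg

instance {e : ℕ} [NeZero e] {P I : Type} [Finite P] [Finite I] : Finite (Mg e P I) := by
  have h : Function.Injective (fun x : Mg e P I => (x.fst, x.snd)) := by
    intro x y hxy
    have h1 := Prod.ext_iff.1 hxy
    exact Mg.ext h1.1 h1.2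
  exact Finite.of_injective _ h

/-- the Magnus homomorphism -/
noncomputable def mu (e : ℕ) {P I : Type} [Group P] (p : I → P) : FreeGroup I →* Mg e P I :=
  FreeGroup.lift fun i => ⟨sgl e (i, 1), p i⟩

section
variable {e : ℕ} {P I : Type} [Group P] (p : I → P)

theorem mu_of (i : I) : mu e p (FreeGroup.of i) = ⟨sgl e (i, 1), p i⟩ := by
  simp [mu]

theorem mu_snd (w : FreeGroup I) : (mu e p w).snd = FreeGroup.lift p w := by
  have h : (Mg.sndHom.comp (mu e p) : FreeGroup I →* P) = FreeGroup.lift p := by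
    ext i
    simp [Mg.sndHom, mu_of]
  exact DFunLike.congr_fun h w

/-- the Fox derivatives of `w` -/
noncomputable def fx (e : ℕ) {P I : Type} [Group P] (p : I → P) (w : FreeGroup I) : Om e P I :=
  (mu e p w).fst

theorem fx_mul (u v : FreeGroup I) :
    fx e p (u * v) = fx e p u + shf (FreeGroup.lift p u) (fx e p v) := by
  unfold fx
  rw [map_mul, Mg.mul_fst, mu_snd]

theorem fx_one : fx e p 1 = 0 := by
  unfold fx
  rw [map_one, Mg.one_fst]

theorem fx_of (i : I) : fx e p (FreeGroup.of i) = sgl e (i, 1) := by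
  unfold fx
  rw [mu_of]

theorem fx_inv (u : FreeGroup I) :
    fx e p u⁻¹ = -shf (FreeGroup.lift p u)⁻¹ (fx e p u) := by
  unfold fx
  rw [map_inv, Mg.inv_fst, mu_snd]

theorem mu_eq_one_iff (w : FreeGroup I) :
    mu e p w = 1 ↔ fx e p w = 0 ∧ FreeGroup.lift p w = 1 := by
  rw [← mu_snd (e := e)]
  constructor
  · intro h
    unfold fx
    rw [h]
    exact ⟨rfl, rfl⟩
  · rintro ⟨h1, h2⟩
    exact Mg.ext h1 h2

end

/-- letters: `h_j` (`j : Fin b`) and `z_i` (`i : Fin s`) -/
abbrev Ix (b s : ℕ) := Fin b ⊕ Fin s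

/-- the free group on the `h_j` and the `z_i` -/
abbrev Gam (b s : ℕ) := FreeGroup (Ix b s)

/-- a finite group receiving the free group of rank `b` -/
abbrev PiG (b : ℕ) := (Fin b → Equiv.Perm (Fin b)) → Equiv.Perm (Fin b)

/-- images of the letters, level 0 -/
def p0 (b s : ℕ) : Ix b s → PiG b := Sum.elim (fun j σ => σ j) (fun _ => 1)

/-- level 0 -/
def nu (b s : ℕ) : Gam b s →* PiG b := FreeGroup.lift (p0 b s)

/-- the group of level 1 -/
abbrev P1 (e b s : ℕ) := Mg e (PiG b) (Ix b s)

/-- level 1 -/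
noncomputable def mu1 (e b s : ℕ) : Gam b s →* P1 e b s := mu e (p0 b s)

/-- images of the letters, level 1 -/
noncomputable def p1 (e b s : ℕ) : Ix b s → P1 e b s := fun i => mu1 e b s (FreeGroup.of i)

/-- level 2 -/
noncomputable def mu2 (e b s : ℕ) : Gam b s →* Mg 0 (P1 e b s) (Ix b s) := mu 0 (p1 e b s)

theorem lift_p1 (e b s : ℕ) : FreeGroup.lift (p1 e b s) = mu1 e b s := by
  apply FreeGroup.ext_hom
  intro i
  rw [FreeGroup.lift_apply_of]
  rfl

/-- Fox derivatives of level 2 -/
noncomputable def fx2 (e b s : ℕ) (w : Gam b s) : Om 0 (P1 e b s) (Ix b s) :=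
  fx 0 (p1 e b s) w

/-- ordered list of the preimages of `i` -/
def blk {s s' : ℕ} (g : Fin s' → Fin s) (i : Fin s) : List (Fin s') :=
  (List.finRange s').filter (fun k => g k = i)

/-- `h_j ↦ h_j`, `z_i ↦` ordered product of the `z_k` with `g k = i` -/
def sig (b : ℕ) {s s' : ℕ} (g : Fin s' → Fin s) : Gam b s →* Gam b s' :=
  FreeGroup.lift (Sum.elim (fun j => FreeGroup.of (Sum.inl j))
    (fun i => ((blk g i).map (fun k => FreeGroup.of (Sum.inr k))).prod))

/-- `h_j ↦ h_j`, `z_i ↦ z_(h i)` or `1` -/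
def sbs (b : ℕ) {s s' : ℕ} (h : Fin s → Option (Fin s')) : Gam b s →* Gam b s' :=
  FreeGroup.lift (Sum.elim (fun j => FreeGroup.of (Sum.inl j))
    (fun i => match h i with
      | none => 1
      | some k => FreeGroup.of (Sum.inr k)))

/-- composition with `g` on level 1 -/
def pull1 (e b : ℕ) {s s' : ℕ} (g : Fin s' → Fin s) : P1 e b s →* P1 e b s' where
  toFun x := ⟨fun y => x.fst (Sum.map id g y.1, y.2), x.snd⟩
  map_one' := rfl
  map_mul' _ _ := rfl

/-- ordered surjections `g`, with the smallest preimages `f` -/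
structure OS (s s' : ℕ) where
  g : Fin s' → Fin s
  f : Fin s → Fin s'
  mono : StrictMono f
  gf : ∀ i, g (f i) = i
  le : ∀ k, f (g k) ≤ k

/-- symbols of level 2 -/
abbrev Sy (e b s : ℕ) := Ix b s × P1 e b s

/-- the leading symbol of the image of a symbol -/
def lam (e b : ℕ) {s s' : ℕ} (γ : OS s s') (y : Sy e b s) : Sy e b s' :=
  (Sum.map id γ.f y.1, pull1 e b γ.g y.2)

/-- the head of a symbol -/
def hd {e b s : ℕ} (y : Sy e b s) : Option (Fin b) × (Fin b × PiG b → ZMod e) × PiG b :=
  (y.1.getLeft?, fun z => y.2.fst (Sum.inl z.1, z.2), y.2.snd)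

/-- the `k`-th letter of a symbol; the boolean is the mark -/
def ltr {e b s : ℕ} (y : Sy e b s) (k : Fin s) : (PiG b → ZMod e) × Bool :=
  (fun x => y.2.fst (Sum.inr k, x), decide (y.1 = Sum.inr k))

/-- an injection of a finite type into `ℕ` -/
noncomputable def rk (α : Type) [Finite α] (a : α) : ℕ := Finite.equivFin α a

/-- code of a letter: marked letters are larger than unmarked ones -/
noncomputable def lcode {e b : ℕ} [NeZero e] (l : (PiG b → ZMod e) × Bool) : ℕ :=
  rk _ l.1 + if l.2 then Nat.card (PiG b → ZMod e) else 0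

/-- strict order of the symbols -/
def slt {e b s : ℕ} [NeZero e] (y y' : Sy e b s) : Prop :=
  rk _ (hd y) < rk _ (hd y') ∨
    (hd y = hd y' ∧ ∃ i : Fin s, (∀ j < i, ltr y j = ltr y' j) ∧ lcode (ltr y i) < lcode (ltr y' i))

end SA
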