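import Pool.Agent.SA.PC

/-! MODULE SA-NLift: lifting commutators from perfect normal subgroups commuting modulo `F`. -/

namespace SA

open scoped commutatorElement

variable {Q H : Type} [Group Q] [Group H]

private theorem nl_comm_sup {G : Type} [Group G] (X P : Subgroup G) [P.Normal] :
    ⁅X ⊔ P, X ⊔ P⁆ ⊔ P = ⁅X, X⁆ ⊔ P := by
  have h : (⁅X ⊔ P, X ⊔ P⁆).map (QuotientGroup.mk' P) =
      (⁅X, X⁆).map (QuotientGroup.mk' P) := by
    have h1 : (X ⊔ P).map (QuotientGroup.mk' P) = X.map (QuotientGroup.mk' P) := by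
      rw [Subgroup.map_sup]
      have h2 : P.map (QuotientGroup.mk' P) = ⊥ := by
        rw [Subgroup.map_eq_bot_iff, QuotientGroup.ker_mk']
      rw [h2, sup_bot_eq]
    rw [Subgroup.map_commutator, Subgroup.map_commutator, h1]
  have h2 := congrArg (Subgroup.comap (QuotientGroup.mk' P)) h
  rw [Subgroup.comap_map_eq, Subgroup.comap_map_eq, QuotientGroup.ker_mk'] at h2
  exact h2

/-- the commutator of two products -/
private theorem nl_comm_sup2 {G : Type} [Group G] (X Y P : Subgroup G) [X.Normal] [Y.Normal]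
    [P.Normal] (h : ⁅X, Y⁆ ≤ P) : ⁅X ⊔ P, Y ⊔ P⁆ ≤ P := by
  have h0 : (⁅X ⊔ P, Y ⊔ P⁆).map (QuotientGroup.mk' P) =
      (⁅X, Y⁆).map (QuotientGroup.mk' P) := by
    have h1 : ∀ Z : Subgroup G, (Z ⊔ P).map (QuotientGroup.mk' P) =
        Z.map (QuotientGroup.mk' P) := by
      intro Z
      rw [Subgroup.map_sup]
      have h2 : P.map (QuotientGroup.mk' P) = ⊥ := by
        rw [Subgroup.map_eq_bot_iff, QuotientGroup.ker_mk']
      rw [h2, sup_bot_eq]
    rw [Subgroup.map_commutator, Subgroup.map_commutator, h1, h1]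
  have h3 : (⁅X, Y⁆).map (QuotientGroup.mk' P) = ⊥ := by
    rw [Subgroup.map_eq_bot_iff, QuotientGroup.ker_mk']
    exact h
  rw [h3, Subgroup.map_eq_bot_iff, QuotientGroup.ker_mk'] at h0
  exact h0

/-- the finite group part -/
private theorem nl_fin {G Q : Type} [Group G] [Group Q] [Finite G] [Finite Q] {t : ℕ}
    (ht : Nat.card Q < 2 ^ t) (P : Subgroup G) [P.Normal] (D : Fin t → Subgroup G)
    (hD : ∀ k, (D k).Normal) (h1 : ∀ k, ⁅D k, D k⁆ ⊔ P = D k ⊔ P)
    (h2 : ∀ i k, i ≠ k → ⁅D i, D k⁆ ≤ P) :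
    ∃ B : Fin t → Subgroup G, (∀ k, (B k).Normal ∧ D k ≤ B k ⊔ P) ∧
      ∀ π : G →* Q, ∃ k, B k ≤ π.ker := by
  have hmin : ∀ k, ∃ B : Subgroup G, (B.Normal ∧ B ⊔ P = D k ⊔ P) ∧
      ∀ B' : Subgroup G, B'.Normal → B' ⊔ P = D k ⊔ P → B' ≤ B → B' = B := by
    intro k
    obtain ⟨B, hB, hB'⟩ := (wellFounded_lt (α := Subgroup G)).has_min
      {B : Subgroup G | B.Normal ∧ B ⊔ P = D k ⊔ P} ⟨D k, hD k, rfl⟩
    refine ⟨B, hB, fun B' g1 g2 g3 => ?_⟩
    by_contra hne
    exact hB' B' ⟨g1, g2⟩ (lt_of_le_of_ne g3 hne)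
  choose B hB hBm using hmin
  have hN : ∀ k, (B k).Normal := fun k => (hB k).1
  have hperf : ∀ k, ⁅B k, B k⁆ = B k := by
    intro k
    have := hN k
    refine hBm k _ inferInstance ?_ (Subgroup.commutator_le_left _ _)
    rw [← nl_comm_sup, (hB k).2, nl_comm_sup, h1 k]
  refine ⟨B, fun k => ⟨hN k, ?_⟩, fun π => ?_⟩
  · rw [(hB k).2]
    exact le_sup_left
  · by_contra hno
    push Not at hno
    have hno2 : ∀ k, ¬ B k ≤ P ⊔ π.ker := by
      intro k hk
      apply hno k
      have := hN k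
      have h3 : B k ≤ P ⊔ (B k ⊓ π.ker) := by
        have h4 : ⁅P ⊔ π.ker, B k⁆ ≤ P ⊔ (B k ⊓ π.ker) := by
          rw [Subgroup.commutator_le]
          intro g hg b hb
          obtain ⟨p, hp, z, hz, rfl⟩ := Subgroup.mem_sup_of_normal_right.mp hg
          have h5 : ⁅p * z, b⁆ = (p * ⁅z, b⁆ * p⁻¹) * ⁅p, b⁆ := by
            simp only [commutatorElement_def]
            group
          rw [h5]
          apply Subgroup.mul_mem
          · have h6 : ⁅z, b⁆ ∈ B k ⊓ π.ker := by
              refine ⟨?_, ?_⟩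
              · exact Subgroup.commutator_le_right (⊤ : Subgroup G) (B k)
                  (Subgroup.commutator_mem_commutator (Subgroup.mem_top z) hb)
              · exact Subgroup.commutator_le_left π.ker (⊤ : Subgroup G)
                  (Subgroup.commutator_mem_commutator hz (Subgroup.mem_top b))
            have h7 : (B k ⊓ π.ker).Normal := inferInstance
            exact Subgroup.mem_sup_right (h7.conj_mem _ h6 p)
          · exact Subgroup.mem_sup_left (Subgroup.commutator_le_left P (⊤ : Subgroup G)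
                  (Subgroup.commutator_mem_commutator hp (Subgroup.mem_top b)))
        calc B k = ⁅B k, B k⁆ := (hperf k).symm
          _ ≤ ⁅P ⊔ π.ker, B k⁆ := Subgroup.commutator_mono hk le_rfl
          _ ≤ _ := h4
      have h8 : B k ⊓ π.ker = B k := by
        refine hBm k _ inferInstance ?_ inf_le_left
        rw [← (hB k).2]
        apply le_antisymm
        · exact sup_le_sup_right inf_le_left P
        · exact sup_le (h3.trans (sup_comm _ _).le) le_sup_right
      rw [← h8]
      exact inf_le_right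
    have hcomm : ∀ i k, i ≠ k → ⁅B i, B k⁆ ≤ P := by
      intro i k hik
      have := hD i
      have := hD k
      have h3 := nl_comm_sup2 (D i) (D k) P (h2 i k hik)
      rw [← (hB i).2, ← (hB k).2] at h3
      exact (Subgroup.commutator_mono le_sup_left le_sup_left).trans h3
    have hcnt := perfect_count (Γ := G ⧸ (P ⊔ π.ker))
      (fun k => (B k).map (QuotientGroup.mk' (P ⊔ π.ker))) (by
        intro k h3
        apply hno2 k
        rw [Subgroup.map_eq_bot_iff, QuotientGroup.ker_mk'] at h3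
        exact h3) (by
        intro k
        rw [← Subgroup.map_commutator, hperf k]) (by
        intro i k hik x hx y hy
        obtain ⟨x', hx', rfl⟩ := hx
        obtain ⟨y', hy', rfl⟩ := hy
        have h3 : ⁅x', y'⁆ ∈ P := hcomm i k hik (Subgroup.commutator_mem_commutator hx' hy')
        have h4 : QuotientGroup.mk' (P ⊔ π.ker) ⁅x', y'⁆ = 1 := by
          rw [← MonoidHom.mem_ker, QuotientGroup.ker_mk']
          exact Subgroup.mem_sup_left h3
        rw [map_commutatorElement, commutatorElement_eq_one_iff_mul_comm] at h4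
        exact h4)
    have h3 : Nat.card (G ⧸ (P ⊔ π.ker)) ≤ Nat.card Q := by
      have h4 : (P ⊔ π.ker).index ≤ π.ker.index := Subgroup.index_antitone le_sup_right
      have h5 : π.ker.index = Nat.card π.range := Subgroup.index_ker π
      have h6 : Nat.card π.range ≤ Nat.card Q := Subgroup.card_le_card_group π.range
      calc Nat.card (G ⧸ (P ⊔ π.ker)) = (P ⊔ π.ker).index := rfl
        _ ≤ _ := h4
        _ = _ := h5
        _ ≤ _ := h6
    omega

theorem star_n [Finite Q] [Finite H] {k0 : ℕ} (f : Fin k0 → H) (A F A2 : Subgroup H)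
    [A.Normal] [F.Normal] (hA : ∀ a ∈ A, ∀ b ∈ A, a * b = b * a) (hFF : ⁅F, F⁆ ≤ A)
    (hA2 : A2 ≤ A) (hA2n : ∀ g ∈ (FreeGroup.lift f).range, ∀ a ∈ A2, g * a * g⁻¹ ∈ A2)
    (hcent : ∀ w ∈ LawN k0 Q, ∀ a ∈ A2, FreeGroup.lift f w * a = a * FreeGroup.lift f w)
    {t : ℕ} (ht : Nat.card Q < 2 ^ t) (K : Fin t → Subgroup H) [∀ k, (K k).Normal]
    (hp : ∀ k, ⁅K k, K k⁆ = K k) (hKF : ∀ i k, i ≠ k → K i ⊓ K k ≤ F)
    (hcov : ∀ k, ∀ x ∈ K k, ∃ u ∈ K k ⊓ (FreeGroup.lift f).range, u⁻¹ * x ∈ F)
    (y y' : Fin t → H) (hy : ∀ k, y k ∈ K k ⊓ (FreeGroup.lift f).range)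
    (hy' : ∀ k, y' k ∈ K k ⊓ (FreeGroup.lift f).range) :
    ∃ w : Fin t → FreeGroup (Fin k0),
      (∀ k, ∀ a ∈ A2, ⁅a, FreeGroup.lift f (w k)⁆ = ⁅a, ⁅y k, y' k⁆⁆) ∧
      ∀ φ : Fin k0 → Q, ∃ k, FreeGroup.lift φ (w k) = 1 := by
  set α := FreeGroup.lift f with hα
  set β := (evl k0 Q).rangeRestrict with hβ
  have hβs : Function.Surjective β := (evl k0 Q).rangeRestrict_surjective
  have hfin : Finite (evl k0 Q).range := inferInstance
  have hNF : (F.comap α).Normal := inferInstance
  have hNK : ∀ k, ((K k).comap α).Normal := fun k => inferInstance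
  have hPn : ((F.comap α).map β).Normal := hNF.map β hβs
  have hDn : ∀ k, (((K k).comap α).map β).Normal := fun k => (hNK k).map β hβs
  obtain ⟨B, hB, hBπ⟩ := nl_fin ht ((F.comap α).map β) (fun k => ((K k).comap α).map β) hDn
    (by
      intro k
      rw [← Subgroup.map_commutator, ← Subgroup.map_sup, ← Subgroup.map_sup]
      congr 1
      apply le_antisymm
      · exact sup_le_sup_right (Subgroup.commutator_le_left _ _) _
      · apply sup_le _ le_sup_right
        intro w hw
        have h1 : α w ∈ K k := hw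
        have h2 : K k ≤ ((K k).comap α).map α ⊔ F := by
          intro x hx
          obtain ⟨u, hu, hux⟩ := hcov k x hx
          rw [Subgroup.map_comap_eq, inf_comm]
          have : x = u * (u⁻¹ * x) := by group
          rw [this]
          exact Subgroup.mul_mem_sup hu hux
        have h3 : α w ∈ (⁅(K k).comap α, (K k).comap α⁆).map α ⊔ F := by
          rw [Subgroup.map_commutator, ← nl_comm_sup]
          apply Subgroup.mem_sup_left
          rw [← hp k] at h1
          exact Subgroup.commutator_mono h2 h2 h1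
        obtain ⟨c, hc, g, hg, hcg⟩ := Subgroup.mem_sup_of_normal_right.mp h3
        obtain ⟨c', hc', rfl⟩ := hc
        have h4 : w = c' * (c'⁻¹ * w) := by group
        rw [h4]
        apply Subgroup.mul_mem_sup hc'
        change α (c'⁻¹ * w) ∈ F
        rw [map_mul, map_inv, ← hcg, inv_mul_cancel_left]
        exact hg)
    (by
      intro i k hik
      rw [← Subgroup.map_commutator]
      apply Subgroup.map_mono
      refine (Subgroup.commutator_le_inf _ _).trans ?_
      rw [← Subgroup.comap_inf]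
      exact Subgroup.comap_mono (hKF i k hik))
  have hlift : ∀ k, ∃ w : FreeGroup (Fin k0), β w ∈ B k ∧ ∃ z ∈ A, α w * z = ⁅y k, y' k⁆ := by
    intro k
    have hBn := (hB k).1
    have hcn : ((B k).comap β).Normal := inferInstance
    have h1 : (K k).comap α ≤ F.comap α ⊔ (B k).comap β := by
      intro w hw
      have h2 : β w ∈ B k ⊔ (F.comap α).map β := (hB k).2 (Subgroup.mem_map_of_mem β hw)
      obtain ⟨b, hb, g, hg, hbg⟩ := Subgroup.mem_sup_of_normal_right.mp h2
      obtain ⟨g', hg', rfl⟩ := hg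
      have h3 : w = (w * g'⁻¹) * g' := by group
      rw [h3, sup_comm]
      apply Subgroup.mul_mem_sup _ hg'
      change β (w * g'⁻¹) ∈ B k
      rw [map_mul, map_inv, ← hbg, mul_inv_cancel_right]
      exact hb
    obtain ⟨hy1, u, hu⟩ := hy k
    obtain ⟨hy1', u', hu'⟩ := hy' k
    have huK : u ∈ (K k).comap α := by
      change α u ∈ K k
      rw [hu]
      exact hy1
    have huK' : u' ∈ (K k).comap α := by
      change α u' ∈ K k
      rw [hu']
      exact hy1'
    have h4 : ⁅u, u'⁆ ∈ ⁅F.comap α, F.comap α⁆ ⊔ (B k).comap β := by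
      rw [← nl_comm_sup]
      apply Subgroup.mem_sup_left
      exact Subgroup.commutator_mem_commutator (h1 huK) (h1 huK')
    rw [sup_comm] at h4
    obtain ⟨w, hw, c, hc, hwc⟩ := Subgroup.mem_sup_of_normal_right.mp h4
    refine ⟨w, hw, α c, ?_, ?_⟩
    · apply hFF
      have h5 : (⁅F.comap α, F.comap α⁆).map α ≤ ⁅F, F⁆ := by
        rw [Subgroup.map_commutator]
        exact Subgroup.commutator_mono (Subgroup.map_comap_le _ _) (Subgroup.map_comap_le _ _)
      exact h5 (Subgroup.mem_map_of_mem α hc)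
    · rw [← map_mul, hwc, map_commutatorElement, hu, hu']
  choose w hw1 z hz hwz using hlift
  refine ⟨w, fun k a ha => ?_, fun φ => ?_⟩
  · rw [← hwz k]
    have h1 : z k * a⁻¹ = a⁻¹ * z k := hA _ (hz k) _ (A.inv_mem (hA2 ha))
    simp only [commutatorElement_def]
    calc a * α (w k) * a⁻¹ * (α (w k))⁻¹
        = a * α (w k) * (a⁻¹ * z k) * (z k)⁻¹ * (α (w k))⁻¹ := by group
      _ = a * α (w k) * (z k * a⁻¹) * (z k)⁻¹ * (α (w k))⁻¹ := by rw [h1]
      _ = a * (α (w k) * z k) * a⁻¹ * (α (w k) * z k)⁻¹ := by group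
  · obtain ⟨k, hk⟩ := hBπ ((Pi.evalMonoidHom (fun _ : Fin k0 → Q => Q) φ).comp
      (evl k0 Q).range.subtype)
    refine ⟨k, ?_⟩
    have h1 := hk (hw1 k)
    rw [MonoidHom.mem_ker] at h1
    rw [← evl_apply]
    exact h1

end SA
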