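import Pool.Agent.SA.OPc

/-! MODULE SA-OPa: intersection of the kernels of the maps killing the letters of one colour.
Plan. `kil c k` is idempotent, and `kil c j`, `kil c k` commute. `ker (kil c k)` is the normal closure of
the letters of colour `k` (for the quotient by the normal closure `kil c k` is the identity: the
homomorphisms `mk` and `mk ∘ kil c k` agree on letters). For `i ≠ j` and `x ∈ ker (kil c i)`:
`x * (kil c j x)⁻¹ ∈ ⁅ker (kil c i), ker (kil c j)⁆`: the set of such `x` is a subgroup
(the commutator subgroup is normal), and for `x = g y g⁻¹`, `y` a letter of colour `i`, `g0 = kil c j g`, `r = g * g0⁻¹ ∈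
ker (kil c j)`, `u = g0 y g0⁻¹ ∈ ker (kil c i)`, `kil c j x = u` and `x * u⁻¹ = ⁅r, u⁆`.
Main theorem by induction on the list `l` (`a :: l'`): for `l' = []` trivial. For `l' ≠ []` let
`x` be in all kernels. By induction `x ∈ T = ⨆ (l'' ~ l') lnc (l''.map ker)`. Let `P` be the right hand side.
The set of `y` with `y * (kil c a y)⁻¹ ∈ P` is a subgroup (`P` normal) and contains every `lnc (l''.map ..)`
by `lnc_insert` (`δ = kil c a`, indices = elements of `l''`, all `≠ a` by `Nodup`; use
`ι = {k // k ≠ a}` or restrict suitably; `l1 ++ a :: l2` is a permutation of `a :: l'`). Since `kil c a x = 1`: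
`x ∈ P`. -/

namespace SA

open scoped commutatorElement

private theorem kil_of {X : Type} (c : X → ℕ) (k : ℕ) (a : X) :
    kil c k (FreeGroup.of a) = if c a = k then 1 else FreeGroup.of a := by
  unfold kil
  rw [FreeGroup.lift_apply_of]

private theorem kil_kil {X : Type} (c : X → ℕ) (k : ℕ) (x : FreeGroup X) :
    kil c k (kil c k x) = kil c k x := by
  have h : (kil c k).comp (kil c k) = kil c k := by
    apply FreeGroup.ext_hom
    intro a
    rw [MonoidHom.comp_apply, kil_of]
    by_cases h : c a = k
    · rw [if_pos h, map_one]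
    · rw [if_neg h, kil_of, if_neg h]
  exact DFunLike.congr_fun h x

private theorem kil_comm {X : Type} (c : X → ℕ) (j k : ℕ) (x : FreeGroup X) :
    kil c j (kil c k x) = kil c k (kil c j x) := by
  have h : (kil c j).comp (kil c k) = (kil c k).comp (kil c j) := by
    apply FreeGroup.ext_hom
    intro a
    rw [MonoidHom.comp_apply, MonoidHom.comp_apply, kil_of, kil_of]
    by_cases h1 : c a = k
    · by_cases h2 : c a = j
      · rw [if_pos h1, if_pos h2, map_one, map_one]
      · rw [if_pos h1, if_neg h2, map_one, kil_of, if_pos h1]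
    · by_cases h2 : c a = j
      · rw [if_neg h1, if_pos h2, map_one, kil_of, if_pos h2]
      · rw [if_neg h1, if_neg h2, kil_of, kil_of, if_neg h1, if_neg h2]
  exact DFunLike.congr_fun h x

private theorem ker_le {X : Type} (c : X → ℕ) (k : ℕ) :
    (kil c k).ker ≤ Subgroup.normalClosure {y | ∃ a, c a = k ∧ FreeGroup.of a = y} := by
  intro x hx
  have h : (QuotientGroup.mk' (Subgroup.normalClosure
      {y : FreeGroup X | ∃ a, c a = k ∧ FreeGroup.of a = y})).comp (kil c k) =
      QuotientGroup.mk' _ := by
    apply FreeGroup.ext_hom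
    intro a
    rw [MonoidHom.comp_apply, kil_of]
    by_cases h : c a = k
    · rw [if_pos h, map_one]
      symm
      rw [← MonoidHom.mem_ker, QuotientGroup.ker_mk']
      exact Subgroup.subset_normalClosure ⟨a, h, rfl⟩
    · rw [if_neg h]
  have h2 := DFunLike.congr_fun h x
  rw [MonoidHom.comp_apply, MonoidHom.mem_ker.1 hx, map_one] at h2
  have h3 := MonoidHom.mem_ker.2 h2.symm
  rwa [QuotientGroup.ker_mk'] at h3

private theorem mk_eq {F : Type} [Group F] (P : Subgroup F) [P.Normal] (δ : F →* F) (x : F) :
    x ∈ (QuotientGroup.mk' P).eqLocus ((QuotientGroup.mk' P).comp δ) ↔ x * (δ x)⁻¹ ∈ P := by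
  have h : x * (δ x)⁻¹ ∈ P ↔ QuotientGroup.mk' P (x * (δ x)⁻¹) = 1 := by
    rw [← MonoidHom.mem_ker, QuotientGroup.ker_mk']
  rw [h, map_mul, map_inv, mul_inv_eq_one]
  exact Iff.rfl

private theorem eqLocus_normal {F : Type} [Group F] (P : Subgroup F) [P.Normal] (δ : F →* F)
    (S : Set F) (hS : ∀ y ∈ S, ∀ g : F, g * y * g⁻¹ * (δ (g * y * g⁻¹))⁻¹ ∈ P) :
    ∀ x ∈ Subgroup.normalClosure S, x * (δ x)⁻¹ ∈ P := by
  intro x hx
  rw [← mk_eq]
  have h1 : Subgroup.normalClosure S ≤
      (QuotientGroup.mk' P).eqLocus ((QuotientGroup.mk' P).comp δ) := by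
    unfold Subgroup.normalClosure
    rw [Subgroup.closure_le]
    intro z hz
    obtain ⟨y, hy, hyz⟩ := Group.mem_conjugatesOfSet_iff.1 hz
    obtain ⟨g, rfl⟩ := isConj_iff.1 hyz
    exact (mk_eq P δ _).2 (hS y hy g)
  exact h1 hx

private theorem kil_mod {X : Type} (c : X → ℕ) {i j : ℕ} (hij : i ≠ j) (x : FreeGroup X)
    (hx : x ∈ (kil c i).ker) : x * (kil c j x)⁻¹ ∈ ⁅(kil c i).ker, (kil c j).ker⁆ := by
  apply eqLocus_normal _ (kil c j) _ _ x (ker_le c i hx)
  rintro y ⟨a, ha, rfl⟩ g
  have hδy : kil c j (FreeGroup.of a) = FreeGroup.of a := by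
    rw [kil_of, if_neg (by rw [ha]; exact hij)]
  have hy : FreeGroup.of a ∈ (kil c i).ker := by
    rw [MonoidHom.mem_ker, kil_of, if_pos ha]
  have hr : g * (kil c j g)⁻¹ ∈ (kil c j).ker := by
    rw [MonoidHom.mem_ker, map_mul, map_inv, kil_kil, mul_inv_cancel]
  have hu : kil c j g * FreeGroup.of a * (kil c j g)⁻¹ ∈ (kil c i).ker :=
    (MonoidHom.normal_ker (kil c i)).conj_mem _ hy _
  have h1 := Subgroup.commutator_mem_commutator hr hu
  rw [Subgroup.commutator_comm] at h1
  rw [map_mul, map_mul, map_inv, hδy]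
  have h2 : ⁅g * (kil c j g)⁻¹, kil c j g * FreeGroup.of a * (kil c j g)⁻¹⁆ =
      g * FreeGroup.of a * g⁻¹ * (kil c j g * FreeGroup.of a * (kil c j g)⁻¹)⁻¹ := by
    rw [commutatorElement_def]
    group
  rwa [h2] at h1

theorem op_free {X : Type} (c : X → ℕ) (l : List ℕ) (hl : l.Nodup) (hne : l ≠ [])
    (x : FreeGroup X) (hx : ∀ k ∈ l, kil c k x = 1) :
    x ∈ ⨆ (l' : List ℕ) (_ : l'.Perm l), lnc (l'.map fun k => (kil c k).ker) := by
  induction l generalizing x with
  | nil => exact absurd rfl hne
  | cons a l ih =>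
    have hxa : kil c a x = 1 := hx a List.mem_cons_self
    by_cases h0 : l = []
    · subst h0
      refine Subgroup.mem_iSup_of_mem [a] (Subgroup.mem_iSup_of_mem (List.Perm.refl _) ?_)
      exact MonoidHom.mem_ker.2 hxa
    · have ih' := ih (List.nodup_cons.1 hl).2 h0 x (fun k hk => hx k (List.mem_cons_of_mem _ hk))
      have hal : a ∉ l := (List.nodup_cons.1 hl).1
      have hPn : (⨆ (l' : List ℕ) (_ : l'.Perm (a :: l)),
          lnc (l'.map fun k => (kil c k).ker)).Normal := by
        refine @Subgroup.iSup_normal _ _ _ _ fun l' => @Subgroup.iSup_normal _ _ _ _ fun _ => ?_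
        apply lnc_normal
        intro N hN
        obtain ⟨k, -, rfl⟩ := List.mem_map.1 hN
        exact MonoidHom.normal_ker _
      have hmain : ∀ l'' : List ℕ, l''.Perm l → ∀ y ∈ lnc (l''.map fun k => (kil c k).ker),
          y * (kil c a y)⁻¹ ∈ ⨆ (l' : List ℕ) (_ : l'.Perm (a :: l)),
            lnc (l'.map fun k => (kil c k).ker) := by
        intro l'' hl'' y hy
        have hne' : ∀ k ∈ l'', k ≠ a := by
          intro k hk hka
          rw [hka] at hk
          exact hal (hl''.mem_iff.1 hk)
        obtain ⟨m, hm⟩ : ∃ m : List {k : ℕ // k ≠ a}, m.map Subtype.val = l'' := by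
          refine ⟨l''.pmap Subtype.mk hne', ?_⟩
          rw [List.map_pmap]
          simp
        have hm0 : m ≠ [] := by
          intro h
          rw [h, List.map_nil] at hm
          rw [← hm] at hl''
          exact h0 hl''.nil_eq.symm
        have hins := lnc_insert (kil c a) (kil_kil c a)
          (fun k : {k : ℕ // k ≠ a} => (kil c k.1).ker) (fun i => MonoidHom.normal_ker _)
          (by
            intro i z hz
            rw [MonoidHom.mem_ker] at hz ⊢
            rw [kil_comm, hz, map_one])
          (by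
            intro i z hz
            exact kil_mod c i.2 z hz) m hm0 y (by
            have h1 : m.map (fun k : {k : ℕ // k ≠ a} => (kil c k.1).ker) =
                l''.map fun k => (kil c k).ker := by
              rw [← hm, List.map_map]
              rfl
            rw [h1]
            exact hy)
        refine (?_ : (⨆ (l1 : List {k : ℕ // k ≠ a}) (l2 : List {k : ℕ // k ≠ a})
          (_ : l1 ++ l2 = m), lnc (l1.map (fun k : {k : ℕ // k ≠ a} => (kil c k.1).ker) ++
            (kil c a).ker :: l2.map (fun k : {k : ℕ // k ≠ a} => (kil c k.1).ker))) ≤ _) hins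
        refine iSup_le fun l1 => iSup_le fun l2 => iSup_le fun h12 => ?_
        refine le_iSup_of_le (l1.map Subtype.val ++ a :: l2.map Subtype.val)
          (le_iSup_of_le ?_ ?_)
        · have h1 : (l1.map Subtype.val ++ l2.map Subtype.val).Perm l := by
            rw [← List.map_append, h12, hm]
            exact hl''
          exact List.perm_middle.trans (h1.cons a)
        · rw [List.map_append, List.map_cons, List.map_map, List.map_map]
          exact le_rfl
      have hx1 : x * (kil c a x)⁻¹ ∈ ⨆ (l' : List ℕ) (_ : l'.Perm (a :: l)),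
            lnc (l'.map fun k => (kil c k).ker) := by
        have := hPn
        rw [← mk_eq]
        have h1 : (⨆ (l' : List ℕ) (_ : l'.Perm l), lnc (l'.map fun k => (kil c k).ker)) ≤
            (QuotientGroup.mk' (⨆ (l' : List ℕ) (_ : l'.Perm (a :: l)),
              lnc (l'.map fun k => (kil c k).ker))).eqLocus
              ((QuotientGroup.mk' _).comp (kil c a)) := by
          refine iSup_le fun l'' => iSup_le fun hl'' => ?_
          intro y hy
          exact (mk_eq _ _ _).2 (hmain l'' hl'' y hy)
        exact h1 ih'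
      rwa [hxa, inv_one, mul_one] at hx1

end SA
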