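import Pool.Agent.SA.Defs

/-! MODULE SA-OPc: commutator calculus for the Oates-Powell lemma.
`δ` is an idempotent endomorphism of `FF` with kernel `R`; `Rs i` are normal subgroups stable under `δ` with
`x * (δ x)⁻¹ ∈ ⁅Rs i, R⁆` for `x ∈ Rs i`. For a nonempty list `l` of indices and `x ∈ lnc (l.map Rs)` the
element `x * (δ x)⁻¹` is in the product of all left normed commutators obtained by inserting
`R` somewhere in the list. -/

namespace SA

open scoped commutatorElement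

variable {FF : Type} [Group FF]

private theorem opc_foldl_normal (l : List (Subgroup FF)) :
    ∀ N : Subgroup FF, N.Normal → (∀ M ∈ l, M.Normal) →
      (l.foldl (fun K M => ⁅K, M⁆) N).Normal := by
  induction l with
  | nil => intro N hN _; exact hN
  | cons M l ih =>
    intro N hN hl
    have hM : M.Normal := hl M List.mem_cons_self
    exact ih ⁅N, M⁆ (Subgroup.commutator_normal N M) fun M' hM' => hl M' (List.mem_cons_of_mem _ hM')

/-- the elements which commute with `R` modulo `Q` -/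
private def opcCen (Q R : Subgroup FF) [hQ : Q.Normal] : Subgroup FF where
  carrier := {g | ∀ c ∈ R, ⁅g, c⁆ ∈ Q}
  one_mem' := by
    intro c _
    rw [commutatorElement_one_left]
    exact Q.one_mem
  mul_mem' := by
    intro a b ha hb c hc
    rw [commutatorElement_mul_left_eq_conj_mul]
    exact Q.mul_mem (hQ.conj_mem _ (hb c hc) a) (ha c hc)
  inv_mem' := by
    intro a ha c hc
    rw [commutatorElement_inv_left]
    have h1 := hQ.conj_mem _ (Q.inv_mem (ha c hc)) a⁻¹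
    rwa [commutatorElement_inv, inv_inv] at h1

private theorem opc_three (Q C R' R : Subgroup FF) [hQ : Q.Normal]
    (h1 : ⁅⁅C, R'⁆, R⁆ ≤ Q) (h2 : ⁅⁅C, R⁆, R'⁆ ≤ Q) : ⁅C, ⁅R', R⁆⁆ ≤ Q := by
  have hk : ∀ X : Subgroup FF, X ≤ Q ↔ X.map (QuotientGroup.mk' Q) = ⊥ := by
    intro X
    rw [Subgroup.map_eq_bot_iff, QuotientGroup.ker_mk']
  rw [Subgroup.commutator_comm, hk, Subgroup.map_commutator, Subgroup.map_commutator]
  refine Subgroup.commutator_commutator_eq_bot_of_rotate ?_ ?_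
  · rw [← Subgroup.map_commutator, ← Subgroup.map_commutator, ← hk, Subgroup.commutator_comm R C]
    exact h2
  · rw [← Subgroup.map_commutator, ← Subgroup.map_commutator, ← hk]
    exact h1

private theorem opc_step (δ : FF →* FF) (Q Q1 C R' R : Subgroup FF) [hQ : Q.Normal]
    [hC : C.Normal] [hR' : R'.Normal]
    (h0 : ∀ x ∈ R', δ x ∈ R') (h1 : ∀ x ∈ R', x * (δ x)⁻¹ ∈ ⁅R', R⁆)
    (h2 : ∀ x ∈ C, x * (δ x)⁻¹ ∈ Q1) (h3 : ∀ g ∈ Q1, ∀ c ∈ R', ⁅g, c⁆ ∈ Q)
    (h4 : ⁅C, ⁅R', R⁆⁆ ≤ Q) (x : FF) (hx : x ∈ ⁅C, R'⁆) : x * (δ x)⁻¹ ∈ Q := by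
  let π := QuotientGroup.mk' Q
  have hπ : ∀ g, g ∈ Q ↔ π g = 1 := by
    intro g
    rw [← MonoidHom.mem_ker, QuotientGroup.ker_mk']
  have key : ⁅C, R'⁆ ≤ MonoidHom.eqLocus π (π.comp δ) := by
    rw [Subgroup.commutator_le]
    intro u hu v hv
    show π ⁅u, v⁆ = π (δ ⁅u, v⁆)
    have ha : u * (δ u)⁻¹ ∈ Q1 := h2 u hu
    have ht : v * (δ v)⁻¹ ∈ ⁅R', R⁆ := h1 v hv
    have hδv : δ v ∈ R' := h0 v hv
    have e1 : ⁅u, v⁆ = ⁅u, v * (δ v)⁻¹⁆ * (v * (δ v)⁻¹) * ⁅u, δ v⁆ * (v * (δ v)⁻¹)⁻¹ := by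
      rw [← commutatorElement_mul_right_eq_mul_conj, inv_mul_cancel_right]
    have e2 : π ⁅u, v * (δ v)⁻¹⁆ = 1 :=
      (hπ _).1 (h4 (Subgroup.commutator_mem_commutator hu ht))
    have huC : ⁅u, δ v⁆ ∈ C := by
      have h5 := Subgroup.commutator_mem_commutator hu hδv
      exact Subgroup.commutator_le_left C R' h5
    have e3 : π ⁅⁅u, δ v⁆, v * (δ v)⁻¹⁆ = 1 :=
      (hπ _).1 (h4 (Subgroup.commutator_mem_commutator huC ht))
    rw [map_commutatorElement, commutatorElement_eq_one_iff_mul_comm] at e3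
    have e4 : π ⁅u, v⁆ = π ⁅u, δ v⁆ := by
      rw [e1, map_mul, map_mul, map_mul, e2, one_mul, ← e3, map_inv, mul_inv_cancel_right]
    have f1 : ⁅u, δ v⁆ = (u * (δ u)⁻¹) * ⁅δ u, δ v⁆ * (u * (δ u)⁻¹)⁻¹ *
        ⁅u * (δ u)⁻¹, δ v⁆ := by
      rw [← commutatorElement_mul_left_eq_conj_mul, inv_mul_cancel_right]
    have f2 : π ⁅u * (δ u)⁻¹, δ v⁆ = 1 := (hπ _).1 (h3 _ ha _ hδv)
    have hdR : ⁅δ u, δ v⁆ ∈ R' := by
      rw [commutatorElement_def]
      exact R'.mul_mem (hR'.conj_mem _ hδv (δ u)) (R'.inv_mem hδv)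
    have f3 : π ⁅u * (δ u)⁻¹, ⁅δ u, δ v⁆⁆ = 1 := (hπ _).1 (h3 _ ha _ hdR)
    rw [map_commutatorElement, commutatorElement_eq_one_iff_mul_comm] at f3
    have f4 : π ⁅u, δ v⁆ = π ⁅δ u, δ v⁆ := by
      rw [f1, map_mul, f2, mul_one, map_mul, map_mul, f3, map_inv, mul_inv_cancel_right]
    rw [e4, f4, map_commutatorElement δ]
  have h5 : π x = π (δ x) := key hx
  rw [hπ, map_mul, map_inv, h5, mul_inv_cancel]

theorem lnc_normal (l : List (Subgroup FF)) (hl : ∀ N ∈ l, N.Normal) : (lnc l).Normal := by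
  cases l with
  | nil => exact Subgroup.normal_top
  | cons N l =>
    exact opc_foldl_normal l N (hl N List.mem_cons_self)
      fun M hM => hl M (List.mem_cons_of_mem _ hM)

theorem lnc_append {l : List (Subgroup FF)} (hl : l ≠ []) (N : Subgroup FF) :
    lnc (l ++ [N]) = ⁅lnc l, N⁆ := by
  cases l with
  | nil => exact absurd rfl hl
  | cons M l =>
    show (l ++ [N]).foldl (fun K M => ⁅K, M⁆) M = ⁅l.foldl (fun K M => ⁅K, M⁆) M, N⁆
    rw [List.foldl_append]
    rfl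

theorem lnc_insert (δ : FF →* FF) (hδ : ∀ x, δ (δ x) = δ x) {ι : Type} (Rs : ι → Subgroup FF)
    (hn : ∀ i, (Rs i).Normal) (h0 : ∀ i, ∀ x ∈ Rs i, δ x ∈ Rs i)
    (h1 : ∀ i, ∀ x ∈ Rs i, x * (δ x)⁻¹ ∈ ⁅Rs i, δ.ker⁆) (l : List ι) (hl : l ≠ []) (x : FF)
    (hx : x ∈ lnc (l.map Rs)) :
    x * (δ x)⁻¹ ∈ ⨆ (l1 : List ι) (l2 : List ι) (_ : l1 ++ l2 = l),
      lnc (l1.map Rs ++ δ.ker :: l2.map Rs) := by
  have hall : ∀ l1 l2 : List ι, (lnc (l1.map Rs ++ δ.ker :: l2.map Rs)).Normal := by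
    intro l1 l2
    refine lnc_normal _ fun N hN => ?_
    rcases List.mem_append.1 hN with h | h
    · obtain ⟨i, -, rfl⟩ := List.mem_map.1 h
      exact hn i
    · rcases List.mem_cons.1 h with h | h
      · rw [h]
        exact MonoidHom.normal_ker δ
      · obtain ⟨i, -, rfl⟩ := List.mem_map.1 h
        exact hn i
  have hQn : ∀ l : List ι, (⨆ (l1 : List ι) (l2 : List ι) (_ : l1 ++ l2 = l),
      lnc (l1.map Rs ++ δ.ker :: l2.map Rs)).Normal := by
    intro l
    have : ∀ (l1 l2 : List ι) (_ : l1 ++ l2 = l),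
      (lnc (l1.map Rs ++ δ.ker :: l2.map Rs)).Normal := fun l1 l2 _ => hall l1 l2
    infer_instance
  have hle : ∀ l1 l2 : List ι, lnc (l1.map Rs ++ δ.ker :: l2.map Rs) ≤
      ⨆ (m1 : List ι) (m2 : List ι) (_ : m1 ++ m2 = l1 ++ l2),
        lnc (m1.map Rs ++ δ.ker :: m2.map Rs) := fun l1 l2 =>
    le_iSup_of_le l1 (le_iSup_of_le l2 (le_iSup_of_le rfl le_rfl))
  induction l using List.reverseRecOn generalizing x with
  | nil => exact absurd rfl hl
  | append_singleton l j ih =>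
    by_cases hl0 : l = []
    · subst hl0
      have h2 : x * (δ x)⁻¹ ∈ ⁅Rs j, δ.ker⁆ := h1 j x hx
      exact hle [j] [] h2
    · have hm : l.map Rs ≠ [] := fun h => hl0 (List.map_eq_nil_iff.1 h)
      have hCn : (lnc (l.map Rs)).Normal := by
        refine lnc_normal _ fun N hN => ?_
        obtain ⟨i, -, rfl⟩ := List.mem_map.1 hN
        exact hn i
      have hRj : (Rs j).Normal := hn j
      have hQ2 := hQn (l ++ [j])
      have hxC : x ∈ ⁅lnc (l.map Rs), Rs j⁆ := by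
        rw [List.map_append] at hx
        rw [← lnc_append hm]
        exact hx
      have hA : ∀ g ∈ (⨆ (l1 : List ι) (l2 : List ι) (_ : l1 ++ l2 = l),
          lnc (l1.map Rs ++ δ.ker :: l2.map Rs)), ∀ c ∈ Rs j,
          ⁅g, c⁆ ∈ (⨆ (l1 : List ι) (l2 : List ι) (_ : l1 ++ l2 = l ++ [j]),
            lnc (l1.map Rs ++ δ.ker :: l2.map Rs)) := by
        have h2 : (⨆ (l1 : List ι) (l2 : List ι) (_ : l1 ++ l2 = l),
          lnc (l1.map Rs ++ δ.ker :: l2.map Rs)) ≤
            opcCen (⨆ (l1 : List ι) (l2 : List ι) (_ : l1 ++ l2 = l ++ [j]),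
            lnc (l1.map Rs ++ δ.ker :: l2.map Rs)) (Rs j) := by
          refine iSup_le fun l1 => iSup_le fun l2 => iSup_le fun h12 => ?_
          intro g hg c hc
          have h3 : ⁅g, c⁆ ∈ lnc (l1.map Rs ++ δ.ker :: (l2 ++ [j]).map Rs) := by
            have h4 : l1.map Rs ++ δ.ker :: (l2 ++ [j]).map Rs =
                (l1.map Rs ++ δ.ker :: l2.map Rs) ++ [Rs j] := by
              rw [List.map_append, List.append_assoc]
              rfl
            rw [h4, lnc_append (by simp)]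
            exact Subgroup.commutator_mem_commutator hg hc
          have h5 := hle l1 (l2 ++ [j]) h3
          rwa [← List.append_assoc, h12] at h5
        exact fun g hg c hc => h2 hg c hc
      have hB : ⁅⁅lnc (l.map Rs), Rs j⁆, δ.ker⁆ ≤
          (⨆ (l1 : List ι) (l2 : List ι) (_ : l1 ++ l2 = l ++ [j]),
            lnc (l1.map Rs ++ δ.ker :: l2.map Rs)) := by
        have h2 := hle (l ++ [j]) []
        rw [List.append_nil] at h2
        refine le_trans (le_of_eq ?_) h2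
        have h3 : (l ++ [j]).map Rs ≠ [] := by simp
        show _ = lnc ((l ++ [j]).map Rs ++ [δ.ker])
        rw [lnc_append h3, List.map_append]
        congr 1
        exact (lnc_append hm (Rs j)).symm
      have hB' : ⁅⁅lnc (l.map Rs), δ.ker⁆, Rs j⁆ ≤
          (⨆ (l1 : List ι) (l2 : List ι) (_ : l1 ++ l2 = l ++ [j]),
            lnc (l1.map Rs ++ δ.ker :: l2.map Rs)) := by
        rw [Subgroup.commutator_le]
        intro g hg c hc
        refine hA g ?_ c hc
        have h2 := hle l []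
        rw [List.append_nil] at h2
        refine h2 ?_
        show g ∈ lnc (l.map Rs ++ [δ.ker])
        rw [lnc_append hm]
        exact hg
      have hT := opc_three _ (lnc (l.map Rs)) (Rs j) δ.ker hB hB'
      exact opc_step δ _ _ (lnc (l.map Rs)) (Rs j) δ.ker (h0 j) (h1 j)
        (fun y hy => ih hl0 y hy) hA hT x hxC

end SA
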