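import Pool.Agent.SA.Av

/-! MODULE SA-Pr: projection to the part of `V` fixed by `C` and moved by the members of `𝒮`.
Plan. `V` is abelian. For `D = C` and for every `D ∈ 𝒮` take `e_D` from `exists_avg` (`D ≤ N` normalizes `V`).
Start: `x0 = e_C x`: in `V`, fixed by `C` (`fix`), `x * x0⁻¹ ∈ B` (`cong`, `h1`). Treat the members of `𝒮` one after
the other (`𝒮` is finite, as `H` is: induction over a finite subset / list `l` with: there is `x' ∈ V` fixed by
`C`, `x * x'⁻¹ ∈ B`, `x' ∈ ⁅V, D⁆` for all `D ∈ l`). Step `D`: `x'' = x' * (e_D x')⁻¹`. In `⁅V, D⁆` (`cong` with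
`B := ⁅V, D⁆`: `d x d⁻¹ x⁻¹ = ⁅d, x⁆ ∈ ⁅D, V⁆ = ⁅V, D⁆`). Fixed by `C`: `e_D (c x' c⁻¹) = c * e_D x' * c⁻¹` (`conj`; `c ∈ N`
normalizes `D`). In `⁅V, D'⁆` for the earlier `D'`: `inv` (`⁅V, D'⁆` is normalized by `D ≤ N`). Congruent mod
`B`: `e_D x' ≡ e_D x mod B` (`mul`, `inv` for `B`), and `e_D x ∈ B`: if `x = v * b`, `v ∈ ⁅V, D⁆`, `b ∈ B`:
`e_D x = e_D v * e_D b = e_D b ∈ B` (`kill`; `⁅V, D⁆ ≤ V`, abelian so `⊔` is the product); if the second alternative
holds: `e_D x ∈ V` is fixed by `D`, so in `B`. -/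

namespace SA

variable {H : Type} [Group H]

open scoped commutatorElement in
private theorem comm_le (N V D : Subgroup H) (hDN : D ≤ N) (nV : Nrm N V) : ⁅V, D⁆ ≤ V := by
  rw [Subgroup.commutator_le]
  intro v hv d hd
  have h1 := V.mul_mem hv (nV d (hDN hd) _ (V.inv_mem hv))
  have h2 : v * (d * v⁻¹ * d⁻¹) = ⁅v, d⁆ := by rw [commutatorElement_def]; group
  rwa [h2] at h1

open scoped commutatorElement in
private theorem comm_nrm (N V D : Subgroup H) (nV : Nrm N V) (nD : Nrm N D) :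
    Nrm N ⁅V, D⁆ := by
  intro g hg x hx
  have h1 : ⁅V, D⁆ ≤ Subgroup.comap (MulAut.conj g).toMonoidHom ⁅V, D⁆ := by
    rw [Subgroup.commutator_le]
    intro v hv d hd
    rw [Subgroup.mem_comap]
    have h2 := Subgroup.commutator_mem_commutator (nV g hg v hv) (nD g hg d hd)
    have h3 : (MulAut.conj g).toMonoidHom ⁅v, d⁆ = ⁅g * v * g⁻¹, g * d * g⁻¹⁆ := by
      change g * ⁅v, d⁆ * g⁻¹ = _
      simp only [commutatorElement_def]; group
    rw [h3]
    exact h2
  exact h1 hx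

open scoped commutatorElement in
theorem proj [Finite H] {q : ℕ} (hq : q.Prime) (hab : QAb q H) (N V B C : Subgroup H)
    (𝒮 : Set (Subgroup H)) (hV : IsPGroup q V) (hBV : B ≤ V) (hCN : C ≤ N)
    (hSN : ∀ D ∈ 𝒮, D ≤ N) (nV : Nrm N V) (nB : Nrm N B) (nS : ∀ D ∈ 𝒮, Nrm N D) (x : H)
    (hx : x ∈ V) (h1 : ∀ c ∈ C, c * x * c⁻¹ * x⁻¹ ∈ B)
    (h2 : ∀ D ∈ 𝒮, x ∈ ⁅V, D⁆ ⊔ B ∨ ∀ y ∈ V, (∀ c ∈ D, c * y * c⁻¹ = y) → y ∈ B) :
    ∃ x' ∈ V, x * x'⁻¹ ∈ B ∧ (∀ c ∈ C, c * x' * c⁻¹ = x') ∧ ∀ D ∈ 𝒮, x' ∈ ⁅V, D⁆ := by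
  classical
  have hcomm : ∀ a ∈ V, ∀ b ∈ V, a * b = b * a := hab V hV
  have hfin : 𝒮.Finite := Set.toFinite 𝒮
  have key : ∀ S : Finset (Subgroup H), (∀ D ∈ S, D ∈ 𝒮) →
      ∃ x' ∈ V, x * x'⁻¹ ∈ B ∧ (∀ c ∈ C, c * x' * c⁻¹ = x') ∧ ∀ D ∈ S, x' ∈ ⁅V, D⁆ := by
    intro S
    induction S using Finset.induction_on with
    | empty =>
      intro _
      obtain ⟨e, he⟩ := exists_avg hq hab V C hV (fun c hc v hv => nV c (hCN hc) v hv)
      exact ⟨e x, he.mem x hx, he.cong B x hx h1, he.fix x hx, fun D hD => by simp at hD⟩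
    | insert D S hDS ih =>
      intro hS
      have hD : D ∈ 𝒮 := hS D (Finset.mem_insert_self D S)
      obtain ⟨x', hx', hxB, hxC, hxS⟩ := ih fun D' hD' => hS D' (Finset.mem_insert_of_mem hD')
      obtain ⟨e, he⟩ := exists_avg hq hab V D hV (fun c hc v hv => nV c (hSN D hD hc) v hv)
      have he1 : e 1 = 1 := by
        have h3 := he.mul 1 V.one_mem 1 V.one_mem
        rw [one_mul] at h3
        exact mul_left_cancel (a := e 1) (by rw [mul_one]; exact h3.symm)
      have heinv : ∀ y ∈ V, e y⁻¹ = (e y)⁻¹ := by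
        intro y hy
        have h3 := he.mul y hy y⁻¹ (V.inv_mem hy)
        rw [mul_inv_cancel, he1] at h3
        exact (inv_eq_of_mul_eq_one_right h3.symm).symm
      have hBinv : ∀ b ∈ B, e b ∈ B := fun b hb =>
        he.inv B (fun c hc b' hb' => nB c (hSN D hD hc) b' hb') b (hBV hb) hb
      have hex : e x ∈ B := by
        rcases h2 D hD with h3 | h3
        · let Y : Subgroup H :=
            { carrier := {y | y ∈ V ∧ e y ∈ B}
              one_mem' := ⟨V.one_mem, by rw [he1]; exact B.one_mem⟩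
              mul_mem' := by
                rintro a b ⟨ha, ha'⟩ ⟨hb, hb'⟩
                refine ⟨V.mul_mem ha hb, ?_⟩
                rw [he.mul a ha b hb]
                exact B.mul_mem ha' hb'
              inv_mem' := by
                rintro a ⟨ha, ha'⟩
                refine ⟨V.inv_mem ha, ?_⟩
                rw [heinv a ha]
                exact B.inv_mem ha' }
          have hY : ⁅V, D⁆ ⊔ B ≤ Y := by
            refine sup_le ?_ ?_
            · intro y hy
              refine ⟨comm_le N V D (hSN D hD) nV hy, ?_⟩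
              rw [he.kill y hy]
              exact B.one_mem
            · intro y hy
              exact ⟨hBV hy, hBinv y hy⟩
          exact (hY h3).2
        · exact h3 _ (he.mem x hx) (he.fix x hx)
      have hex' : e x' ∈ B := by
        have h3 : x' = (x * x'⁻¹)⁻¹ * x := by group
        rw [h3, he.mul _ (V.inv_mem (hBV hxB)) x hx]
        exact B.mul_mem (hBinv _ (B.inv_mem hxB)) hex
      have heV : e x' ∈ V := he.mem x' hx'
      refine ⟨x' * (e x')⁻¹, V.mul_mem hx' (V.inv_mem heV), ?_, ?_, ?_⟩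
      · have h3 : x * (x' * (e x')⁻¹)⁻¹ = x * x'⁻¹ * e x' := by
          rw [mul_inv_rev, inv_inv, hcomm _ heV _ (V.inv_mem hx'), mul_assoc]
        rw [h3]
        exact B.mul_mem hxB hex'
      · intro c hc
        have h3 := he.conj c (fun d hd => nS D hD c (hCN hc) d hd)
          (fun v hv => nV c (hCN hc) v hv) x' hx'
        rw [hxC c hc] at h3
        have h4 : c * (x' * (e x')⁻¹) * c⁻¹ = c * x' * c⁻¹ * (c * e x' * c⁻¹)⁻¹ := by group
        rw [h4, hxC c hc, ← h3]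
      · intro D' hD'
        rcases Finset.mem_insert.1 hD' with rfl | h3
        · refine he.cong ⁅V, D'⁆ x' hx' fun c hc => ?_
          rw [Subgroup.commutator_comm]
          exact Subgroup.commutator_mem_commutator hc hx'
        · have hD'S : D' ∈ 𝒮 := hS D' hD'
          have h4 := comm_nrm N V D' nV (nS D' hD'S)
          refine Subgroup.mul_mem _ (hxS D' h3) (Subgroup.inv_mem _ ?_)
          exact he.inv ⁅V, D'⁆ (fun c hc b hb => h4 c (hSN D hD hc) b hb) x' hx' (hxS D' h3)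
  obtain ⟨x', a1, a2, a3, a4⟩ := key hfin.toFinset (fun D hD => hfin.mem_toFinset.1 hD)
  exact ⟨x', a1, a2, a3, fun D hD => a4 D (hfin.mem_toFinset.2 hD)⟩

end SA
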