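import Pool.Agent.SA.Fox
import Pool.Agent.SA.Sig1

/-! MODULE SA-Sig2: leading symbols of the images of the basis elements at level 2.
Plan. Apply `fox_chain` (`e = 0`) to `p = p1 e b s`, `p' = p1 e b s'`, `σ = sig b γ.g`, `Φ = pull1 e b γ.g`
(`hΦ`: `lift_p1`, `mu1_sig`): `L (sgl 0 (i, x)) = shf (Φ x) (fx2 (σ (of i)))`. For `i = inl j`: `σ (of i) = of (inl j)`,
`fx_of`, so `L (sgl 0 (inl j, x)) = sgl 0 (inl j, Φ x)` (`shf g (sgl (i, y)) = sgl (i, g y)`). For `i = inr i0`: by induction on a
list `l`: `fx2 ((l.map z).prod) = ∑ over the positions of sgl 0 (inr k, product of the p1 (inr k') of the earlier k')`, so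
`L (sgl 0 (inr i0, x)) = ∑ k ∈ blk, sgl 0 (inr k, Φ x * ∏_{k' ∈ blk, k' < k} p1 (inr k'))` (`List.finRange` is sorted). The first
element of `blk γ.g i0` is `γ.f i0` (`γ.gf`, `γ.le`): its term is `sgl 0 (lam γ (inr i0, x))`, value `1` at `lam γ (..)`; the
other terms have `k ≠ γ.f i0` (different symbols), so `L (sgl 0 y) (lam γ y) = 1`, and a symbol
`y' = (inr k, Φ x * ∏ ..)` with `k > γ.f i0` in the block satisfies `slt y' (lam γ y)`: `hd` is the same
(`getLeft?` is `none`; `fst` at `(inl j, ·)` and `snd` are not changed by the `p1 (inr k') = ⟨sgl (inr k', 1), 1⟩`), the letters at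
positions `< γ.f i0` are the same (no `k'` of the block is there; marks are `false` in both), and at the position
`γ.f i0` the letter of `y'` is unmarked while that of `lam γ y` is marked, so `lcode` is smaller
(`rk < Nat.card`). -/

namespace SA

/-- the word of a list of letters `z_k` -/
private def s2w (b : ℕ) {s' : ℕ} (l : List (Fin s')) : Gam b s' :=
  (l.map (fun k => FreeGroup.of (Sum.inr k))).prod

/-- the product of the images of the letters `z_k` -/
private noncomputable def s2p (e b : ℕ) {s' : ℕ} (l : List (Fin s')) : P1 e b s' :=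
  (l.map (fun k => p1 e b s' (Sum.inr k))).prod

private theorem s2_supp {e b s' : ℕ} (l : List (Fin s')) (z : Sy e b s')
    (hz : fx 0 (p1 e b s') (s2w b l) z ≠ 0) :
    ∃ l1 k l2, l = l1 ++ k :: l2 ∧ z = (Sum.inr k, s2p e b l1) := by
  induction l generalizing z with
  | nil =>
    exfalso
    apply hz
    unfold s2w
    rw [List.map_nil, List.prod_nil, fx_one]
    rfl
  | cons k0 l ih =>
    have h1 : s2w b (k0 :: l) = FreeGroup.of (Sum.inr k0) * s2w b l := by
      unfold s2w
      rw [List.map_cons, List.prod_cons]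
    rw [h1, fx_mul, fx_of, FreeGroup.lift_apply_of, Pi.add_apply, shf_apply] at hz
    by_cases h2 : sgl 0 ((Sum.inr k0 : Ix b s'), (1 : P1 e b s')) z = 0
    · rw [h2, zero_add] at hz
      obtain ⟨l1, k, l2, h3, h4⟩ := ih _ hz
      refine ⟨k0 :: l1, k, l2, by rw [h3]; rfl, ?_⟩
      have h5 := (Prod.ext_iff.1 h4).1
      have h6 := (Prod.ext_iff.1 h4).2
      refine Prod.ext h5 ?_
      have h7 : z.2 = p1 e b s' (Sum.inr k0) * s2p e b l1 := inv_mul_eq_iff_eq_mul.1 h6
      rw [h7]
      unfold s2p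
      rw [List.map_cons, List.prod_cons]
    · refine ⟨[], k0, l, rfl, ?_⟩
      have h3 : z = ((Sum.inr k0 : Ix b s'), (1 : P1 e b s')) := by
        by_contra h4
        exact h2 (if_neg h4)
      rw [h3]
      unfold s2p
      rw [List.map_nil, List.prod_nil]

private theorem s2_val {e b s' : ℕ} (k0 : Fin s') (l : List (Fin s')) (hk : k0 ∉ l) :
    fx 0 (p1 e b s') (s2w b (k0 :: l)) (Sum.inr k0, 1) = 1 := by
  have h1 : s2w b (k0 :: l) = FreeGroup.of (Sum.inr k0) * s2w b l := by
    unfold s2w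
    rw [List.map_cons, List.prod_cons]
  rw [h1, fx_mul, fx_of, Pi.add_apply]
  have h2 : sgl 0 ((Sum.inr k0 : Ix b s'), (1 : P1 e b s')) (Sum.inr k0, 1) = 1 := if_pos rfl
  have h3 : shf (FreeGroup.lift (p1 e b s') (FreeGroup.of (Sum.inr k0)))
      (fx 0 (p1 e b s') (s2w b l)) (Sum.inr k0, 1) = 0 := by
    by_contra h4
    rw [shf_apply] at h4
    obtain ⟨l1, k, l2, h5, h6⟩ := s2_supp l _ h4
    have h7 : k0 = k := Sum.inr_injective (Prod.ext_iff.1 h6).1
    apply hk
    rw [h5, h7]
    exact List.mem_append_right _ List.mem_cons_self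
  rw [h2, h3, add_zero]

private theorem s2_p1 (e b s' : ℕ) (k : Fin s') :
    p1 e b s' (Sum.inr k) = ⟨sgl e (Sum.inr k, 1), 1⟩ := by
  unfold p1 mu1
  rw [mu_of]
  rfl

private theorem s2_prod {e b s' : ℕ} (l : List (Fin s')) :
    (s2p e b l).snd = 1 ∧ (∀ j u, (s2p e b l).fst (Sum.inl j, u) = 0) ∧
      ∀ k, k ∉ l → ∀ u, (s2p e b l).fst (Sum.inr k, u) = 0 := by
  induction l with
  | nil => exact ⟨rfl, fun _ _ => rfl, fun _ _ _ => rfl⟩
  | cons k0 l ih =>
    obtain ⟨h1, h2, h3⟩ := ih
    have h4 : s2p e b (k0 :: l) = p1 e b s' (Sum.inr k0) * s2p e b l := by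
      unfold s2p
      rw [List.map_cons, List.prod_cons]
    have h5 : ∀ z, (s2p e b (k0 :: l)).fst z =
        sgl e ((Sum.inr k0 : Ix b s'), (1 : PiG b)) z + (s2p e b l).fst z := by
      intro z
      rw [h4, s2_p1, Mg.mul_fst, shf_one]
      rfl
    refine ⟨?_, ?_, ?_⟩
    · rw [h4, s2_p1, Mg.mul_snd, h1, one_mul]
    · intro j u
      have h6 : sgl e ((Sum.inr k0 : Ix b s'), (1 : PiG b)) (Sum.inl j, u) = 0 :=
        if_neg fun h => Sum.inl_ne_inr (Prod.ext_iff.1 h).1
      rw [h5, h2, h6, add_zero]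
    · intro k hk u
      have h6 : sgl e ((Sum.inr k0 : Ix b s'), (1 : PiG b)) (Sum.inr k, u) = 0 :=
        if_neg fun h => hk (by
          rw [Sum.inr_injective (Prod.ext_iff.1 h).1]
          exact List.mem_cons_self)
      rw [h5, h3 k (fun h => hk (List.mem_cons_of_mem _ h)) u, h6, add_zero]

private theorem s2_mul {e b s' : ℕ} (x : P1 e b s') (l : List (Fin s')) :
    (x * s2p e b l).snd = x.snd ∧
      (∀ j u, (x * s2p e b l).fst (Sum.inl j, u) = x.fst (Sum.inl j, u)) ∧
      ∀ k, k ∉ l → ∀ u, (x * s2p e b l).fst (Sum.inr k, u) = x.fst (Sum.inr k, u) := by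
  obtain ⟨h1, h2, h3⟩ := s2_prod (e := e) (b := b) l
  refine ⟨?_, ?_, ?_⟩
  · rw [Mg.mul_snd, h1, mul_one]
  · intro j u
    rw [Mg.mul_fst, Pi.add_apply, shf_apply, h2, add_zero]
  · intro k hk u
    rw [Mg.mul_fst, Pi.add_apply, shf_apply, h3 k hk, add_zero]

private theorem s2_pw {s s' : ℕ} (g : Fin s' → Fin s) (i : Fin s) :
    (blk g i).Pairwise (· < ·) :=
  (List.pairwise_lt_finRange s').filter _

private theorem s2_mem {s s' : ℕ} (g : Fin s' → Fin s) (i : Fin s) (k : Fin s') :
    k ∈ blk g i ↔ g k = i := by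
  unfold blk
  rw [List.mem_filter]
  constructor
  · intro h
    exact of_decide_eq_true h.2
  · intro h
    exact ⟨List.mem_finRange k, decide_eq_true h⟩

private theorem s2_head {s s' : ℕ} (γ : OS s s') (i : Fin s) :
    ∃ l, blk γ.g i = γ.f i :: l := by
  have h1 : γ.f i ∈ blk γ.g i := (s2_mem _ _ _).2 (γ.gf i)
  have h2 := s2_pw γ.g i
  rcases hb : blk γ.g i with _ | ⟨k, l⟩
  · rw [hb] at h1
    exact absurd h1 List.not_mem_nil
  · rw [hb] at h1 h2
    rcases List.mem_cons.1 h1 with h3 | h3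
    · exact ⟨l, by rw [h3]⟩
    · exfalso
      have h4 : k < γ.f i := (List.pairwise_cons.1 h2).1 _ h3
      have h5 : γ.g k = i := (s2_mem γ.g i k).1 (by rw [hb]; exact List.mem_cons_self)
      have h6 := γ.le k
      rw [h5] at h6
      exact absurd h4 (not_lt.2 h6)

theorem exists_sig2 {e b s s' : ℕ} [NeZero e] (γ : OS s s') :
    ∃ L : Om 0 (P1 e b s) (Ix b s) →+ Om 0 (P1 e b s') (Ix b s'),
      (∀ w, fx2 e b s' (sig b γ.g w) = L (fx2 e b s w)) ∧
      ∀ y : Sy e b s, L (sgl 0 y) (lam e b γ y) = 1 ∧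
        ∀ y' : Sy e b s', L (sgl 0 y) y' ≠ 0 → y' = lam e b γ y ∨ slt y' (lam e b γ y) := by
  obtain ⟨L, hL, hLs⟩ := fox_chain (e := 0) (p1 e b s) (p1 e b s') (sig b γ.g) (pull1 e b γ.g)
    (by
      intro w
      rw [lift_p1, lift_p1, mu1_sig])
  refine ⟨L, hL, ?_⟩
  rintro ⟨i, x⟩
  have hy : ∀ z : Sy e b s', L (sgl 0 (i, x)) z = fx 0 (p1 e b s') (sig b γ.g (FreeGroup.of i))
      (z.1, (pull1 e b γ.g x)⁻¹ * z.2) := by
    intro z
    rw [hLs, shf_apply]
  rcases i with j | i0
  · have h1 : sig b γ.g (FreeGroup.of (Sum.inl j)) = FreeGroup.of (Sum.inl j) := by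
      unfold sig
      rw [FreeGroup.lift_apply_of]
      rfl
    have h2 : lam e b γ (Sum.inl j, x) = (Sum.inl j, pull1 e b γ.g x) := rfl
    rw [h1] at hy
    constructor
    · rw [hy, h2, fx_of]
      show sgl 0 ((Sum.inl j : Ix b s'), (1 : P1 e b s'))
        (Sum.inl j, (pull1 e b γ.g x)⁻¹ * pull1 e b γ.g x) = 1
      rw [inv_mul_cancel]
      exact if_pos rfl
    · intro y' hne
      left
      rw [hy, fx_of] at hne
      have h3 : (y'.1, (pull1 e b γ.g x)⁻¹ * y'.2) =
          ((Sum.inl j : Ix b s'), (1 : P1 e b s')) := by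
        by_contra h4
        exact hne (if_neg h4)
      rw [h2]
      refine Prod.ext (Prod.ext_iff.1 h3).1 ?_
      have h5 : (pull1 e b γ.g x)⁻¹ * y'.2 = 1 := (Prod.ext_iff.1 h3).2
      exact (inv_mul_eq_one.1 h5).symm
  · have h1 : sig b γ.g (FreeGroup.of (Sum.inr i0)) = s2w b (blk γ.g i0) := by
      unfold sig
      rw [FreeGroup.lift_apply_of]
      rfl
    have h2 : lam e b γ (Sum.inr i0, x) = (Sum.inr (γ.f i0), pull1 e b γ.g x) := rfl
    obtain ⟨l, hl⟩ := s2_head γ i0
    have hpw := s2_pw γ.g i0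
    rw [hl] at hpw
    have hlt := (List.pairwise_cons.1 hpw).1
    rw [h1, hl] at hy
    constructor
    · rw [hy, h2]
      show fx 0 (p1 e b s') (s2w b (γ.f i0 :: l))
        (Sum.inr (γ.f i0), (pull1 e b γ.g x)⁻¹ * pull1 e b γ.g x) = 1
      rw [inv_mul_cancel]
      exact s2_val _ _ fun h => lt_irrefl _ (hlt _ h)
    · intro y' hne
      rw [hy] at hne
      obtain ⟨l1, k, l2, h3, h4⟩ := s2_supp _ _ hne
      have h5 : y'.1 = Sum.inr k := (Prod.ext_iff.1 h4).1
      have h6 : y'.2 = pull1 e b γ.g x * s2p e b l1 :=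
        inv_mul_eq_iff_eq_mul.1 (Prod.ext_iff.1 h4).2
      rcases l1 with _ | ⟨k1, l1⟩
      · left
        have h7 : γ.f i0 = k := (List.cons_eq_cons.1 h3).1
        rw [h2]
        refine Prod.ext ?_ ?_
        · rw [h5, h7]
        · rw [h6]
          unfold s2p
          rw [List.map_nil, List.prod_nil, mul_one]
      · right
        have h7 : γ.f i0 = k1 ∧ l = l1 ++ k :: l2 := List.cons_eq_cons.1 h3
        have hk : γ.f i0 < k := hlt k (by
          rw [h7.2]
          exact List.mem_append_right _ List.mem_cons_self)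
        have hl1 : ∀ j ∈ k1 :: l1, γ.f i0 ≤ j := by
          intro j hj
          rcases List.mem_cons.1 hj with hj | hj
          · rw [hj, h7.1]
          · refine (hlt j ?_).le
            rw [h7.2]
            exact List.mem_append_left _ hj
        obtain ⟨m1, m2, m3⟩ := s2_mul (pull1 e b γ.g x) (k1 :: l1)
        have hy' : y' = (Sum.inr k, pull1 e b γ.g x * s2p e b (k1 :: l1)) := Prod.ext h5 h6
        right
        refine ⟨?_, γ.f i0, ?_, ?_⟩
        · rw [h2, hy']
          unfold hd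
          refine Prod.ext rfl (Prod.ext ?_ m1)
          funext z
          exact m2 z.1 z.2
        · intro j hj
          rw [h2, hy']
          unfold ltr
          refine Prod.ext ?_ ?_
          · funext u
            exact m3 j (fun h => absurd (hl1 j h) (not_le.2 hj)) u
          · have a1 : ¬ ((Sum.inr k : Ix b s') = Sum.inr j) := fun h =>
              absurd (Sum.inr_injective h) (ne_of_gt (hj.trans hk))
            have a2 : ¬ ((Sum.inr (γ.f i0) : Ix b s') = Sum.inr j) := fun h =>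
              absurd (Sum.inr_injective h) (ne_of_gt hj)
            show decide ((Sum.inr k : Ix b s') = Sum.inr j) =
              decide ((Sum.inr (γ.f i0) : Ix b s') = Sum.inr j)
            rw [decide_eq_false a1, decide_eq_false a2]
        · rw [h2, hy']
          unfold lcode ltr
          have a1 : ¬ ((Sum.inr k : Ix b s') = Sum.inr (γ.f i0)) := fun h =>
            absurd (Sum.inr_injective h) (ne_of_gt hk)
          show rk _ _ + (if decide ((Sum.inr k : Ix b s') = Sum.inr (γ.f i0)) = true then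
              Nat.card (PiG b → ZMod e) else 0) <
            rk _ _ + (if decide ((Sum.inr (γ.f i0) : Ix b s') = Sum.inr (γ.f i0)) = true then
              Nat.card (PiG b → ZMod e) else 0)
          rw [decide_eq_false a1, decide_eq_true rfl, if_pos rfl, if_neg Bool.false_ne_true,
            add_zero]
          refine lt_of_lt_of_le ?_ (Nat.le_add_left _ _)
          unfold rk
          exact (Finite.equivFin _ _).isLt

end SA
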