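import Pool.Agent.SA.Pr
import Pool.Agent.SA.Cnt
import Pool.Agent.SA.Lft

/-! MODULE SA-StarA: lifting elements with exact kernels.
Plan. `α = lift f`, `β = evl k0 Q`, `Γ = (Fin k0 → Q) → Q` (finite, `QAb q Γ` by `qAb_pi`), `H0 = range α`, `S` from
`lift_sylow`. `D1 = {w | β w normalizes S}` (subgroup of the free group; `Γ` is finite so `∀ s ∈ S, g s g⁻¹ ∈ S` is the
normalizer), `N = β(D1)`, `D2 = {w | α w ∈ F, β w ∈ S} ≤ D1` (`S` is a group). `Z = {z ∈ F ⊓ H0 | z commutes with all of A2}`,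
normalized by `H0`, contains `A ⊓ H0` (`A` abelian, `A2 ≤ A`). `B = β(D2 ⊓ α⁻¹ Z) ≤ S`, normalized by `N` (`α(D1) ≤ H0`).
KEY: if `w w' ∈ D2`, `β w = β w'` then `α (w * w'⁻¹) ∈ Z` (`w * w'⁻¹ ∈ ker β = LawN k0 Q`, `hcent`). So for `w ∈ D2`:
`β w ∈ B → α w ∈ Z`. `c k = β(D1 ⊓ α⁻¹ (C k))`, normalized by `N`, `≤ N`. Choose `v k ∈ D2` with `α (v k) = p k`
(`lift_sylow`). Check the hypotheses of `proj` in `Γ` for `N, V = S, B, C = c k`,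
`𝒮 = {β(D1 ⊓ α⁻¹ C') | C' normal, C k < C'}`, `x = β (v k)`: (h1) for `d ∈ D1`, `α d ∈ C k`: `d * v k * d⁻¹ * (v k)⁻¹ ∈ D2` and
its `α` is in `A ⊓ H0 ≤ Z` (`hfix`). (h2, first alternative) `hmov`: `p k = y * a`, `y ∈ ⁅F ⊓ H0, C' ⊓ H0⁆`,
`a ∈ A ⊓ H0`; `y = α y'` with `y' ∈ ⁅D2, D1 ⊓ α⁻¹ C'⁆` (closure induction, lifts by `lift_sylow`), `β y' ∈ ⁅S, c'⁆`,
`y' ∈ D2`, and `β (y'⁻¹ * v k) ∈ B`. Result `x' k ∈ S` with `β (v k) * (x' k)⁻¹ ∈ B`, so `x' k = β (w k)` with `w k ∈ D2` and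
`α (w k) = z * p k` or `p k * z`, `z ∈ Z`; so `⁅a, α (w k)⁆ = ⁅a, p k⁆` for `a ∈ A2` (`z` commutes with `a` and with
`p a p⁻¹ ∈ A2`). `count` in `Γ` with `N, V = S, c, P = C` (`Subgroup H` ordered by `≤`, `hCi`), `x = x'`,
`π` = evaluation at `φ`: `hmov` of `count`: not `C i ≤ C k` gives `C k < C i ⊔ C k = C'` normal, `x' k ∈ ⁅S, β(D1 ⊓ α⁻¹ C')⁆`, and
`β(D1 ⊓ α⁻¹ (C i ⊔ C k)) ≤ c i ⊔ c k`, because `(C i ⊔ C k) ⊓ H0 = (C i ⊓ H0) ⊔ (C k ⊓ H0)` (by `hgen`: `Z0 = ⨅ C k`, every element of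
`C i` is `h * z`, `h ∈ C i ⊓ H0`, `z ∈ Z0`) and the lifts of `lift_sylow` (`w * (w1 * w2)⁻¹ ∈ D1 ⊓ ker α ≤ D1 ⊓ α⁻¹ (C k)`).
So for some `k` `β (w k) φ = lift φ (w k) = 1` (`evl_apply`). -/

namespace SA

open scoped commutatorElement

variable {Q H : Type} [Group Q] [Group H]

private theorem mem_D1 {Γ W : Type} [Group W] [Group Γ] [Finite Γ] (β : W →* Γ) (S : Subgroup Γ)
    (w : W) : w ∈ (Subgroup.normalizer (S : Set Γ)).comap β ↔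
      ∀ s ∈ S, β w * s * (β w)⁻¹ ∈ S := by
  rw [Subgroup.mem_comap]
  constructor
  · intro h s hs
    exact (Subgroup.mem_set_normalizer_iff.1 h s).1 hs
  · intro h
    exact Subgroup.mem_normalizer_fintype fun n hn => h n hn

private theorem star_core {Γ W : Type} [Group W] [Group Γ] [Finite Γ] {q : ℕ} (hq : q.Prime)
    (hab : QAb q Γ) (α : W →* H) (β : W →* Γ) (A F A2 : Subgroup H) [hAn : A.Normal]
    [hFn : F.Normal] (hAF : A ≤ F)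
    (hA : ∀ a ∈ A, ∀ b ∈ A, a * b = b * a) (hA2 : A2 ≤ A)
    (hA2n : ∀ g ∈ α.range, ∀ a ∈ A2, g * a * g⁻¹ ∈ A2)
    (hcent : ∀ w, β w = 1 → ∀ a ∈ A2, α w * a = a * α w)
    (S : Subgroup Γ) (hS : IsPGroup q S)
    (hS2 : ∀ w, α w ∈ F → ∃ w', α w' = α w ∧ β w' ∈ S)
    (hS3 : ∀ w, ∃ w', α w' = α w ∧ ∀ s ∈ S, β w' * s * (β w')⁻¹ ∈ S)
    {t : ℕ} (C : Fin t → Subgroup H) [hCn : ∀ k, (C k).Normal]
    (hCi : Function.Injective C) (hgen : α.range ⊔ ⨅ k, C k = ⊤)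
    (p : Fin t → H) (hp0 : ∀ k, p k ∈ α.range) (hpF : ∀ k, p k ∈ F)
    (hfix : ∀ k, ∀ c ∈ C k, p k * c * (p k)⁻¹ * c⁻¹ ∈ A)
    (hmov : ∀ k, ∀ C' : Subgroup H, C'.Normal → C k < C' →
      p k ∈ ⁅F ⊓ α.range, C' ⊓ α.range⁆ ⊔ (A ⊓ α.range))
    (Q' : Type) [Group Q'] [Finite Q'] (ht : Nat.card Q' < 2 ^ t) :
    ∃ w : Fin t → W, (∀ k, ∀ a ∈ A2, ⁅a, α (w k)⁆ = ⁅a, p k⁆) ∧
      ∀ π : Γ →* Q', ∃ k, π (β (w k)) = 1 := by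
  classical
  obtain ⟨D1, hD1⟩ : ∃ D1 : Subgroup W, D1 = (Subgroup.normalizer (S : Set Γ)).comap β := ⟨_, rfl⟩
  obtain ⟨D2, hD2⟩ : ∃ D2 : Subgroup W, D2 = F.comap α ⊓ S.comap β := ⟨_, rfl⟩
  have mD1 : ∀ w, w ∈ D1 ↔ ∀ s ∈ S, β w * s * (β w)⁻¹ ∈ S := fun w => by
    rw [hD1]
    exact mem_D1 β S w
  have mD2 : ∀ w, w ∈ D2 ↔ α w ∈ F ∧ β w ∈ S := fun w => by
    rw [hD2, Subgroup.mem_inf, Subgroup.mem_comap, Subgroup.mem_comap]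
  have hD21 : D2 ≤ D1 := fun w hw => (mD1 w).2 fun s hs =>
    S.mul_mem (S.mul_mem ((mD2 w).1 hw).2 hs) (S.inv_mem ((mD2 w).1 hw).2)
  have hconj : ∀ d ∈ D1, ∀ w ∈ D2, d * w * d⁻¹ ∈ D2 := fun d hd w hw => by
    rw [mD2, map_mul, map_mul, map_mul, map_mul, map_inv, map_inv]
    exact ⟨hFn.conj_mem _ ((mD2 w).1 hw).1 _, (mD1 d).1 hd _ ((mD2 w).1 hw).2⟩
  -- the group `Z`
  obtain ⟨Z, hZ⟩ : ∃ Z : Subgroup H, Z = F ⊓ α.range ⊓ Subgroup.centralizer (A2 : Set H) :=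
    ⟨_, rfl⟩
  have mZ : ∀ z, z ∈ Z ↔ (z ∈ F ∧ z ∈ α.range) ∧ ∀ a ∈ A2, a * z = z * a := fun z => by
    rw [hZ, Subgroup.mem_inf, Subgroup.mem_inf, Subgroup.mem_centralizer_iff]
    rfl
  have hZn : ∀ h ∈ α.range, ∀ z ∈ Z, h * z * h⁻¹ ∈ Z := fun h hh z hz => by
    rw [mZ] at hz ⊢
    refine ⟨⟨hFn.conj_mem _ hz.1.1 _, mul_mem (mul_mem hh hz.1.2) (inv_mem hh)⟩, ?_⟩
    intro a ha
    have h1 := hA2n h⁻¹ (inv_mem hh) a ha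
    have h2 := hz.2 _ h1
    have h3 : h * (h⁻¹ * a * h⁻¹⁻¹ * z) * h⁻¹ = h * (z * (h⁻¹ * a * h⁻¹⁻¹)) * h⁻¹ := by rw [h2]
    have h4 : h * (h⁻¹ * a * h⁻¹⁻¹ * z) * h⁻¹ = a * (h * z * h⁻¹) := by group
    have h5 : h * (z * (h⁻¹ * a * h⁻¹⁻¹)) * h⁻¹ = h * z * h⁻¹ * a := by group
    rw [h4, h5] at h3
    exact h3
  have hAZ : A ⊓ α.range ≤ Z := fun a ha => by
    rw [mZ]
    exact ⟨⟨hAF ha.1, ha.2⟩, fun b hb => hA b (hA2 hb) a ha.1⟩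
  obtain ⟨B, hB⟩ : ∃ B : Subgroup Γ, B = (D2 ⊓ Z.comap α).map β := ⟨_, rfl⟩
  have mB : ∀ b, b ∈ B ↔ ∃ w, (w ∈ D2 ∧ α w ∈ Z) ∧ β w = b := fun b => by
    rw [hB, Subgroup.mem_map]
    rfl
  have hBS : B ≤ S := fun b hb => by
    obtain ⟨w, ⟨hw, _⟩, rfl⟩ := (mB b).1 hb
    exact ((mD2 w).1 hw).2
  -- key fact
  have hker : ∀ w ∈ D2, β w = 1 → α w ∈ Z := fun w hw h1 => by
    rw [mZ]
    exact ⟨⟨((mD2 w).1 hw).1, ⟨w, rfl⟩⟩, fun a ha => (hcent w h1 a ha).symm⟩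
  obtain ⟨N, hN⟩ : ∃ N : Subgroup Γ, N = D1.map β := ⟨_, rfl⟩
  have nS : Nrm N S := by
    intro g hg x hx
    rw [hN, Subgroup.mem_map] at hg
    obtain ⟨d, hd, rfl⟩ := hg
    exact (mD1 d).1 hd x hx
  have nB : Nrm N B := by
    intro g hg x hx
    rw [hN, Subgroup.mem_map] at hg
    obtain ⟨d, hd, rfl⟩ := hg
    obtain ⟨w, ⟨hw, hwZ⟩, rfl⟩ := (mB x).1 hx
    rw [mB]
    refine ⟨d * w * d⁻¹, ⟨hconj d hd w hw, ?_⟩, by rw [map_mul, map_mul, map_inv]⟩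
    rw [map_mul, map_mul, map_inv]
    exact hZn _ ⟨d, rfl⟩ _ hwZ
  -- the groups of a normal subgroup
  obtain ⟨cc, hcc⟩ : ∃ cc : Subgroup H → Subgroup Γ, cc = fun K => (D1 ⊓ K.comap α).map β :=
    ⟨_, rfl⟩
  have mcc : ∀ K g, g ∈ cc K ↔ ∃ w, (w ∈ D1 ∧ α w ∈ K) ∧ β w = g := fun K g => by
    rw [hcc, Subgroup.mem_map]
    rfl
  have hccN : ∀ K, cc K ≤ N := fun K g hg => by
    obtain ⟨w, ⟨hw, _⟩, rfl⟩ := (mcc K g).1 hg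
    rw [hN]
    exact Subgroup.mem_map_of_mem β hw
  have ncc : ∀ K : Subgroup H, K.Normal → Nrm N (cc K) := by
    intro K hK g hg x hx
    rw [hN, Subgroup.mem_map] at hg
    obtain ⟨d, hd, rfl⟩ := hg
    obtain ⟨w, ⟨hw, hwK⟩, rfl⟩ := (mcc K x).1 hx
    rw [mcc]
    refine ⟨d * w * d⁻¹, ⟨D1.mul_mem (D1.mul_mem hd hw) (D1.inv_mem hd), ?_⟩,
      by rw [map_mul, map_mul, map_inv]⟩
    rw [map_mul, map_mul, map_inv]
    exact hK.conj_mem _ hwK _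
  -- images
  have hmapD2 : F ⊓ α.range ≤ D2.map α := fun x hx => by
    obtain ⟨hxF, w, rfl⟩ := hx
    obtain ⟨w', hw', hw'S⟩ := hS2 w hxF
    refine ⟨w', (mD2 w').2 ⟨by rw [hw']; exact hxF, hw'S⟩, hw'⟩
  have hmapD1 : ∀ K : Subgroup H, K ⊓ α.range ≤ (D1 ⊓ K.comap α).map α := fun K x hx => by
    obtain ⟨hxK, w, rfl⟩ := hx
    obtain ⟨w', hw', hw'S⟩ := hS3 w
    refine ⟨w', ⟨(mD1 w').2 hw'S, ?_⟩, hw'⟩
    show α w' ∈ K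
    rw [hw']
    exact hxK
  have hmapA : A ⊓ α.range ≤ (D2 ⊓ A.comap α).map α := fun x hx => by
    obtain ⟨hxA, w, rfl⟩ := hx
    obtain ⟨w', hw', hw'S⟩ := hS2 w (hAF hxA)
    refine ⟨w', ⟨(mD2 w').2 ⟨by rw [hw']; exact hAF hxA, hw'S⟩, ?_⟩, hw'⟩
    show α w' ∈ A
    rw [hw']
    exact hxA
  have hv : ∀ k, ∃ v ∈ D2, α v = p k := fun k => by
    obtain ⟨v, hv1, hv2⟩ := hmapD2 (⟨hpF k, hp0 k⟩ : p k ∈ F ⊓ α.range)
    exact ⟨v, hv1, hv2⟩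
  choose v hvD hvp using hv
  -- projection
  have hproj : ∀ k, ∃ x' ∈ S, β (v k) * x'⁻¹ ∈ B ∧ (∀ c ∈ cc (C k), c * x' * c⁻¹ = x') ∧
      ∀ D ∈ {D : Subgroup Γ | ∃ C' : Subgroup H, C'.Normal ∧ C k < C' ∧ D = cc C'},
        x' ∈ ⁅S, D⁆ := by
    intro k
    refine proj hq hab N S B (cc (C k)) _ hS hBS (hccN _) ?_ nS nB ?_ (β (v k))
      ((mD2 _).1 (hvD k)).2 ?_ ?_
    · rintro D ⟨C', _, _, rfl⟩
      exact hccN C'
    · rintro D ⟨C', hC', _, rfl⟩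
      exact ncc C' hC'
    · intro c hc
      obtain ⟨d, ⟨hd, hdC⟩, rfl⟩ := (mcc _ c).1 hc
      rw [mB]
      refine ⟨d * v k * d⁻¹ * (v k)⁻¹,
        ⟨D2.mul_mem (hconj d hd _ (hvD k)) (D2.inv_mem (hvD k)), ?_⟩, by
          simp only [map_mul, map_inv]⟩
      have h1 := A.inv_mem (hfix k (α d) hdC)
      have h2 : (p k * α d * (p k)⁻¹ * (α d)⁻¹)⁻¹ = α (d * v k * d⁻¹ * (v k)⁻¹) := by
        rw [map_mul, map_mul, map_mul, map_inv, map_inv, hvp k]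
        group
      rw [h2] at h1
      exact hAZ ⟨h1, ⟨_, rfl⟩⟩
    · rintro D ⟨C', hC', hlt, rfl⟩
      left
      have h1 := hmov k C' hC' hlt
      have h2 : ⁅F ⊓ α.range, C' ⊓ α.range⁆ ⊔ (A ⊓ α.range) ≤
          (⁅D2, D1 ⊓ C'.comap α⁆ ⊔ (D2 ⊓ A.comap α)).map α := by
        rw [Subgroup.map_sup]
        exact sup_le_sup (Subgroup.commutator_le_map_commutator hmapD2 (hmapD1 C')) hmapA
      obtain ⟨y, hy, hyp⟩ := h2 h1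
      have hy' : y ∈ ⁅D2, D1 ⊓ C'.comap α⁆ ⊔ (D2 ⊓ A.comap α) := hy
      have h3 : ⁅D2, D1 ⊓ C'.comap α⁆ ⊔ (D2 ⊓ A.comap α) ≤ D2 := by
        refine sup_le ?_ inf_le_left
        rw [Subgroup.commutator_le]
        intro g1 hg1 g2 hg2
        rw [commutatorElement_def]
        have h4 := hconj g2 hg2.1 g1⁻¹ (D2.inv_mem hg1)
        have h5 : g1 * g2 * g1⁻¹ * g2⁻¹ = g1 * (g2 * g1⁻¹ * g2⁻¹) := by group
        rw [h5]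
        exact D2.mul_mem hg1 h4
      have hyD2 := h3 hy'
      have h6 : β y ∈ ⁅S, cc C'⁆ ⊔ B := by
        have h7 : β y ∈ (⁅D2, D1 ⊓ C'.comap α⁆ ⊔ (D2 ⊓ A.comap α)).map β :=
          Subgroup.mem_map_of_mem β hy'
        rw [Subgroup.map_sup, Subgroup.map_commutator] at h7
        refine (sup_le_sup (Subgroup.commutator_mono ?_ ?_) ?_) h7
        · rintro _ ⟨w, hw, rfl⟩
          exact ((mD2 w).1 hw).2
        · rw [hcc]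
        · rintro _ ⟨w, hw, rfl⟩
          rw [mB]
          exact ⟨w, ⟨hw.1, hAZ ⟨hw.2, ⟨w, rfl⟩⟩⟩, rfl⟩
      have h8 : β (y⁻¹ * v k) ∈ B := by
        rw [mB]
        refine ⟨y⁻¹ * v k, ⟨D2.mul_mem (D2.inv_mem hyD2) (hvD k), ?_⟩, rfl⟩
        rw [map_mul, map_inv, hvp k]
        have h9 : α y = p k := hyp
        rw [h9, inv_mul_cancel]
        exact Z.one_mem
      have h9 : β (v k) = β y * β (y⁻¹ * v k) := by
        rw [← map_mul, mul_inv_cancel_left]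
      rw [h9]
      exact mul_mem h6 (le_sup_right (a := ⁅S, cc C'⁆) h8)
  choose x' hxS hxB hxfix hxmov using hproj
  -- the words
  have hw : ∀ k, ∃ w, β w = x' k ∧ ∀ a ∈ A2, ⁅a, α w⁆ = ⁅a, p k⁆ := by
    intro k
    obtain ⟨b, ⟨hbD, hbZ⟩, hb⟩ := (mB _).1 (hxB k)
    refine ⟨b⁻¹ * v k, ?_, ?_⟩
    · rw [map_mul, map_inv, hb]
      group
    · intro a ha
      rw [map_mul, map_inv, hvp k, commutatorElement_def, commutatorElement_def]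
      have h1 := hA2n (p k) (hp0 k) a⁻¹ (A2.inv_mem ha)
      have h2 := ((mZ _).1 (Z.inv_mem hbZ)).2 _ h1
      have h3 : a * ((α b)⁻¹ * p k) * a⁻¹ * ((α b)⁻¹ * p k)⁻¹ =
          a * ((α b)⁻¹ * (p k * a⁻¹ * (p k)⁻¹)) * (α b)⁻¹⁻¹ := by group
      rw [h3, ← h2]
      group
  choose w hwx hwc using hw
  refine ⟨w, hwc, fun π => ?_⟩
  have hmov2 : ∀ i k, ¬ C i ≤ C k → x' k ∈ ⁅S, cc (C i) ⊔ cc (C k)⁆ := by
    intro i k hik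
    have hlt : C k < C i ⊔ C k := by
      refine lt_of_le_of_ne le_sup_right fun h => hik ?_
      rw [h]
      exact le_sup_left
    have h1 := hxmov k (cc (C i ⊔ C k)) ⟨C i ⊔ C k, inferInstance, hlt, rfl⟩
    refine Subgroup.commutator_mono le_rfl ?_ h1
    intro g hg
    obtain ⟨u, ⟨huD, huC⟩, rfl⟩ := (mcc _ g).1 hg
    obtain ⟨a, ha, b, hb, hab'⟩ := Subgroup.mem_sup_of_normal_left.1 huC
    have ha' : a ∈ α.range ⊔ ⨅ k, C k := by rw [hgen]; exact Subgroup.mem_top a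
    have hIn : (⨅ k, C k).Normal := by
      constructor
      intro n hn g
      rw [Subgroup.mem_iInf] at hn ⊢
      exact fun j => (hCn j).conj_mem n (hn j) g
    obtain ⟨h, hh, z, hz, hhz⟩ := Subgroup.mem_sup_of_normal_right.1 ha'
    rw [Subgroup.mem_iInf] at hz
    have hhC : h ∈ C i := by
      have : h = a * z⁻¹ := by rw [← hhz]; group
      rw [this]
      exact (C i).mul_mem ha ((C i).inv_mem (hz i))
    have hzb : h⁻¹ * α u = z * b := by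
      rw [← hab', ← hhz]
      group
    have hzbC : h⁻¹ * α u ∈ C k := by
      rw [hzb]
      exact (C k).mul_mem (hz k) hb
    have hzbR : h⁻¹ * α u ∈ α.range := mul_mem (inv_mem hh) ⟨u, rfl⟩
    obtain ⟨w1, hw1, hw1α⟩ := hmapD1 (C i) ⟨hhC, hh⟩
    obtain ⟨w2, hw2, hw2α⟩ := hmapD1 (C k) ⟨hzbC, hzbR⟩
    have hw1' : α w1 = h := hw1α
    have hw2' : α w2 = h⁻¹ * α u := hw2α
    have h3 : β (u * (w1 * w2)⁻¹) ∈ cc (C k) := by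
      rw [mcc]
      refine ⟨u * (w1 * w2)⁻¹, ⟨D1.mul_mem huD (D1.inv_mem (D1.mul_mem hw1.1 hw2.1)), ?_⟩, rfl⟩
      have : α (u * (w1 * w2)⁻¹) = 1 := by
        rw [map_mul, map_inv, map_mul, hw1', hw2']
        group
      rw [this]
      exact (C k).one_mem
    have h4 : β w1 ∈ cc (C i) := by
      rw [mcc]
      exact ⟨w1, hw1, rfl⟩
    have h5 : β w2 ∈ cc (C k) := by
      rw [mcc]
      exact ⟨w2, hw2, rfl⟩
    have h6 : β u = β (u * (w1 * w2)⁻¹) * (β w1 * β w2) := by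
      rw [← map_mul, ← map_mul, inv_mul_cancel_right]
    rw [h6]
    exact mul_mem (le_sup_right (a := cc (C i)) h3)
      (mul_mem (le_sup_left (b := cc (C k)) h4) (le_sup_right (a := cc (C i)) h5))
  obtain ⟨k, hk⟩ := count hq hab N S hS nS (fun k => cc (C k)) (fun k => hccN _)
    (fun k => ncc _ (hCn k)) C hCi x' hxS hxfix hmov2 π ht
  refine ⟨k, ?_⟩
  rw [hwx k]
  exact hk

theorem star_a [Finite Q] {q : ℕ} (hq : q.Prime) (hQ : QAb q Q) [Finite H] {k0 : ℕ}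
    (f : Fin k0 → H) (A F A2 : Subgroup H) [A.Normal] [F.Normal] (hAF : A ≤ F)
    (hF : IsPGroup q F) (hA : ∀ a ∈ A, ∀ b ∈ A, a * b = b * a) (hA2 : A2 ≤ A)
    (hA2n : ∀ g ∈ (FreeGroup.lift f).range, ∀ a ∈ A2, g * a * g⁻¹ ∈ A2)
    (hcent : ∀ w ∈ LawN k0 Q, ∀ a ∈ A2, FreeGroup.lift f w * a = a * FreeGroup.lift f w)
    {t : ℕ} (ht : Nat.card Q < 2 ^ t) (C : Fin t → Subgroup H) [∀ k, (C k).Normal]
    (hCi : Function.Injective C) (hgen : (FreeGroup.lift f).range ⊔ ⨅ k, C k = ⊤)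
    (p : Fin t → H) (hp0 : ∀ k, p k ∈ (FreeGroup.lift f).range) (hpF : ∀ k, p k ∈ F)
    (hfix : ∀ k, ∀ c ∈ C k, p k * c * (p k)⁻¹ * c⁻¹ ∈ A)
    (hmov : ∀ k, ∀ C' : Subgroup H, C'.Normal → C k < C' →
      p k ∈ ⁅F ⊓ (FreeGroup.lift f).range, C' ⊓ (FreeGroup.lift f).range⁆ ⊔
        (A ⊓ (FreeGroup.lift f).range)) :
    ∃ w : Fin t → FreeGroup (Fin k0),
      (∀ k, ∀ a ∈ A2, ⁅a, FreeGroup.lift f (w k)⁆ = ⁅a, p k⁆) ∧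
      ∀ φ : Fin k0 → Q, ∃ k, FreeGroup.lift φ (w k) = 1 := by
  obtain ⟨S, hS, _, hS2, hS3⟩ := lift_sylow (Q := Q) hq F hF f
  have hab : QAb q ((Fin k0 → Q) → Q) := qAb_pi hQ (Fin k0 → Q)
  obtain ⟨w, hw1, hw2⟩ := star_core hq hab (FreeGroup.lift f) (evl k0 Q) A F A2 hAF hA hA2 hA2n
    (fun w hw a ha => hcent w (fun φ => by
      rw [← evl_apply, hw]
      rfl) a ha) S hS hS2 hS3 C hCi hgen p hp0 hpF hfix hmov Q ht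
  refine ⟨w, hw1, fun φ => ?_⟩
  obtain ⟨k, hk⟩ := hw2 (Pi.evalMonoidHom (fun _ : Fin k0 → Q => Q) φ)
  refine ⟨k, ?_⟩
  rw [← evl_apply]
  exact hk

end SA
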