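import Pool.Agent.SA.StarA
import Pool.Agent.SA.ClB
import Pool.Agent.SA.Ver
import Pool.Agent.SA.BasicB

/-! MODULE SA-StarB: the main commutator identity.
Plan. `A = ver n0 (G ⧸ AG) H`. `a ↦ itc a (List.ofFn p)` is multiplicative on `A` (`A` abelian normal:
`⁅x y, p⁆ = ⁅x, p⁆ * ⁅y, p⁆` for `x y ∈ A`, and `⁅x, p⁆ ∈ A`), so by `ver_eq_closure` we may assume
`a = lift h u`, `u ∈ LawN n0 (G ⧸ AG)`, `h : Fin n0 → H`. Put `m = AG.index`, `Z = ⨅ k, C k`: index `≤ m ^ t`
(`Subgroup.index_iInf_le` or induction); choose `r : Fin (m ^ t) → H` meeting all cosets of `Z`. Let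
`k0 = n0 + t + m ^ t`, `f : Fin k0 → H` the concatenation of `h`, `p`, `r` (`Fin.append`, or transport from
`Fin n0 ⊕ Fin t ⊕ Fin (m ^ t)`). `H0 = range (lift f)`. `A2 = (ver n0 (G ⧸ AG) H0).map H0.subtype ≤ A`, normalized by `H0`,
contains `a`. Hypotheses of `star_a` with `Q = G ⧸ AG` (`Nat.card = AG.index`): `hcent`: for `w ∈ LawN k0 Q` and a
generator `lift g v` of `A2`, `v ∈ LawN n0 Q`, `g : Fin n0 → H0`, `g i = lift f (g' i)`: the word `⁅w, lift g' v⁆ ∈
FreeGroup (Fin k0)` is a law of `G` (both values are in `AG`), and `Loc k0 G H` (`loc_mono`). `hmov`: `claim_b` with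
`C = C k` (`H0 ⊔ C k = ⊤`, `F ≤ C k`) and `mem_Nk`. Result: words `w k`. Let `W = itc (lift (h') u) (List.ofFn w) ∈
FreeGroup (Fin k0)`, `h' i = of (index of h i)`. `W` is a law of `G`: for `φ : Fin k0 → G` the value of the first entry
is in `AG`, all partial commutators are in `AG`, and for some `k` `lift φ (w k) ∈ AG` (apply `star_a` to
`φ` mod `AG`), so the partial commutator becomes `1` there. So `lift f W = 1`, i.e.
`itc a (lift f (w k)) = 1`, and by the first property of the `w k` (all partial commutators are in `A2`) this is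
`itc a (List.ofFn p)`. -/

namespace SA

variable {G H : Type} [Group G] [Group H]

open scoped commutatorElement

section Aux

variable {K K' : Type} [Group K] [Group K']

private theorem sb_hom {α : Type} (φ : K →* K') (f : α → K) (w : FreeGroup α) :
    φ (FreeGroup.lift f w) = FreeGroup.lift (fun i => φ (f i)) w := by
  have h : φ.comp (FreeGroup.lift f) = FreeGroup.lift (fun i => φ (f i)) := by
    apply FreeGroup.ext_hom
    intro i
    simp
  exact DFunLike.congr_fun h w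

private theorem sb_itc_cons (a y : K) (l : List K) : itc a (y :: l) = itc ⁅a, y⁆ l := rfl

private theorem sb_itc_one (l : List K) : itc (1 : K) l = 1 := by
  induction l with
  | nil => rfl
  | cons y l ih => rw [sb_itc_cons, commutatorElement_one_left, ih]

private theorem sb_itc_map (φ : K →* K') (l : List K) : ∀ a, φ (itc a l) = itc (φ a) (l.map φ) := by
  induction l with
  | nil => intro a; rfl
  | cons y l ih =>
    intro a
    rw [List.map_cons, sb_itc_cons, sb_itc_cons, ih, map_commutatorElement]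

private theorem sb_comm_mem (A : Subgroup K) [hA : A.Normal] {a : K} (ha : a ∈ A) (y : K) :
    ⁅a, y⁆ ∈ A := by
  have h1 : ⁅a, y⁆ = a * (y * a⁻¹ * y⁻¹) := by
    rw [commutatorElement_def]
    group
  rw [h1]
  exact A.mul_mem ha (hA.conj_mem _ (A.inv_mem ha) y)

private theorem sb_itc_mem (A : Subgroup K) [A.Normal] (l : List K) :
    ∀ a ∈ A, itc a l ∈ A := by
  induction l with
  | nil => intro a ha; exact ha
  | cons y l ih =>
    intro a ha
    rw [sb_itc_cons]
    exact ih _ (sb_comm_mem A ha y)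

private theorem sb_comm_mul (A : Subgroup K) [hn : A.Normal]
    (hA : ∀ a ∈ A, ∀ b ∈ A, a * b = b * a) {a b : K} (ha : a ∈ A) (hb : b ∈ A) (y : K) :
    ⁅a * b, y⁆ = ⁅a, y⁆ * ⁅b, y⁆ := by
  have h1 : y * b⁻¹ * y⁻¹ ∈ A := hn.conj_mem _ (A.inv_mem hb) y
  have h2 : y * a⁻¹ * y⁻¹ ∈ A := hn.conj_mem _ (A.inv_mem ha) y
  have h3 : ⁅a * b, y⁆ = a * (b * (y * b⁻¹ * y⁻¹) * (y * a⁻¹ * y⁻¹)) := by
    rw [commutatorElement_def]
    group
  have h4 : ⁅a, y⁆ * ⁅b, y⁆ = a * ((y * a⁻¹ * y⁻¹) * (b * (y * b⁻¹ * y⁻¹))) := by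
    rw [commutatorElement_def, commutatorElement_def]
    group
  rw [h3, h4, hA _ (A.mul_mem hb h1) _ h2]

private theorem sb_itc_mul (A : Subgroup K) [A.Normal]
    (hA : ∀ a ∈ A, ∀ b ∈ A, a * b = b * a) (l : List K) :
    ∀ a ∈ A, ∀ b ∈ A, itc (a * b) l = itc a l * itc b l := by
  induction l with
  | nil => intro a _ b _; rfl
  | cons y l ih =>
    intro a ha b hb
    rw [sb_itc_cons, sb_itc_cons, sb_itc_cons, sb_comm_mul A hA ha hb y,
      ih _ (sb_comm_mem A ha y) _ (sb_comm_mem A hb y)]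

private theorem sb_itc_kill (A : Subgroup K) [A.Normal]
    (hA : ∀ a ∈ A, ∀ b ∈ A, a * b = b * a) (l : List K) (y : K) (hy : y ∈ l) (hyA : y ∈ A) :
    ∀ a ∈ A, itc a l = 1 := by
  induction l with
  | nil => exact absurd hy List.not_mem_nil
  | cons z l ih =>
    intro a ha
    rw [sb_itc_cons]
    rcases List.mem_cons.1 hy with h | h
    · subst h
      have h1 : ⁅a, y⁆ = 1 := commutatorElement_eq_one_iff_mul_comm.2 (hA a ha y hyA)
      rw [h1, sb_itc_one]
    · exact ih h _ (sb_comm_mem A ha z)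

private theorem sb_itc_congr (A2 : Subgroup K) : ∀ {t : ℕ} (x y : Fin t → K),
    (∀ k, ∀ a ∈ A2, y k * a * (y k)⁻¹ ∈ A2) → (∀ k, ∀ a ∈ A2, ⁅a, x k⁆ = ⁅a, y k⁆) →
    ∀ a ∈ A2, itc a (List.ofFn x) = itc a (List.ofFn y) := by
  intro t
  induction t with
  | zero =>
    intro x y _ _ a _
    rw [List.ofFn_zero, List.ofFn_zero]
  | succ t ih =>
    intro x y hy hxy a ha
    rw [List.ofFn_succ, List.ofFn_succ, sb_itc_cons, sb_itc_cons, hxy 0 a ha]
    refine ih (fun i => x i.succ) (fun i => y i.succ) (fun k => hy k.succ)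
      (fun k => hxy k.succ) _ ?_
    have h1 : ⁅a, y 0⁆ = a * (y 0 * a⁻¹ * (y 0)⁻¹) := by
      rw [commutatorElement_def]
      group
    rw [h1]
    exact A2.mul_mem ha (hy 0 _ (A2.inv_mem ha))

end Aux

private theorem sb_val_mem (AG : Subgroup G) [AG.Normal] {k : ℕ} {w : FreeGroup (Fin k)}
    (hw : w ∈ LawN k (G ⧸ AG)) (φ : Fin k → G) : FreeGroup.lift φ w ∈ AG := by
  have h1 := hw (fun i => QuotientGroup.mk' AG (φ i))
  rw [← sb_hom (QuotientGroup.mk' AG) φ w] at h1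
  exact (QuotientGroup.eq_one_iff _).1 h1

/-- representatives -/
private theorem sb_reps [Finite H] {t m : ℕ} (C : Fin t → Subgroup H)
    (hidx : ∀ k, (C k).index ≤ m) :
    ∃ r : Fin (m ^ t) → H, ∀ x : H, ∃ j, (r j)⁻¹ * x ∈ ⨅ k, C k := by
  classical
  have h1 : (⨅ k, C k).index ≤ m ^ t := by
    refine (Subgroup.index_iInf_le C).trans ?_
    refine (Finset.prod_le_pow_card _ _ m fun k _ => hidx k).trans (le_of_eq ?_)
    rw [Finset.card_univ, Fintype.card_fin]
  have h2 : 0 < (⨅ k, C k).index := Nat.pos_of_ne_zero Subgroup.FiniteIndex.index_ne_zero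
  have h3 : Nat.card (H ⧸ ⨅ k, C k) ≤ m ^ t := h1
  haveI : Fintype (H ⧸ ⨅ k, C k) := Fintype.ofFinite _
  haveI : Nonempty (Fin (m ^ t)) := ⟨⟨0, by omega⟩⟩
  let e := Finite.equivFin (H ⧸ ⨅ k, C k)
  refine ⟨fun j => if hj : (j : ℕ) < Nat.card (H ⧸ ⨅ k, C k) then (e.symm ⟨j, hj⟩).out else 1,
    fun x => ?_⟩
  refine ⟨⟨e (x : H ⧸ ⨅ k, C k), lt_of_lt_of_le (e _).2 h3⟩, ?_⟩
  have h4 : ((e (x : H ⧸ ⨅ k, C k) : Fin _) : ℕ) < Nat.card (H ⧸ ⨅ k, C k) := (e _).2
  simp only [h4, dite_true]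
  rw [← QuotientGroup.eq]
  rw [Fin.eta, Equiv.symm_apply_apply]
  exact QuotientGroup.out_eq' _

theorem star (AG : Subgroup G) [AG.Normal] [AG.FiniteIndex]
    (hAG : ∀ a ∈ AG, ∀ b ∈ AG, a * b = b * a) {q : ℕ} (hq : q.Prime) (hQ : QAb q (G ⧸ AG))
    [Finite H] {n0 n : ℕ} (hL : Loc n G H) (F : Subgroup H) [F.Normal] (hF : IsPGroup q F)
    (hAF : ver n0 (G ⧸ AG) H ≤ F)
    (hA : ∀ a ∈ ver n0 (G ⧸ AG) H, ∀ b ∈ ver n0 (G ⧸ AG) H, a * b = b * a)
    (hab : QAb q (H ⧸ ver n0 (G ⧸ AG) H)) {t : ℕ} (ht : AG.index < 2 ^ t)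
    (hn : n0 + t + AG.index ^ t ≤ n) (C : Fin t → Subgroup H) [∀ k, (C k).Normal]
    (hCi : Function.Injective C) (hFC : ∀ k, F ≤ C k) (hidx : ∀ k, (C k).index ≤ AG.index)
    (p : Fin t → H) (hp : ∀ k, p k ∈ Nk (ver n0 (G ⧸ AG) H) F (C k)) (a : H)
    (ha : a ∈ ver n0 (G ⧸ AG) H) : itc a (List.ofFn p) = 1 := by
  -- reduction to values of words
  have hred : ∀ u ∈ LawN n0 (G ⧸ AG), ∀ h : Fin n0 → H,
      itc (FreeGroup.lift h u) (List.ofFn p) = 1 := by
    intro u hu h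
    obtain ⟨r, hr⟩ := sb_reps C hidx
    set k0 := n0 + t + AG.index ^ t with hk0
    let f : Fin k0 → H := Fin.append (Fin.append h p) r
    have hfh : ∀ i, f (Fin.castAdd _ (Fin.castAdd _ i)) = h i := by
      intro i
      simp only [f, Fin.append_left]
    have hfp : ∀ i, f (Fin.castAdd _ (Fin.natAdd _ i)) = p i := by
      intro i
      simp only [f, Fin.append_left, Fin.append_right]
    have hfr : ∀ i, f (Fin.natAdd _ i) = r i := by
      intro i
      simp only [f, Fin.append_right]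
    have hmem : ∀ i, f i ∈ (FreeGroup.lift f).range := fun i =>
      ⟨FreeGroup.of i, by simp⟩
    have hh0 : ∀ i, h i ∈ (FreeGroup.lift f).range := fun i => by
      rw [← hfh]; exact hmem _
    have hp0 : ∀ i, p i ∈ (FreeGroup.lift f).range := fun i => by
      rw [← hfp]; exact hmem _
    have hr0 : ∀ i, r i ∈ (FreeGroup.lift f).range := fun i => by
      rw [← hfr]; exact hmem _
    have hLk : Loc k0 G H := loc_mono hn hL
    -- the verbal subgroup of the range
    set A2 : Subgroup H := (ver n0 (G ⧸ AG) (FreeGroup.lift f).range).map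
      (FreeGroup.lift f).range.subtype with hA2d
    have hA2 : A2 ≤ ver n0 (G ⧸ AG) H := map_ver_le _
    have hA2n : ∀ g ∈ (FreeGroup.lift f).range, ∀ a ∈ A2, g * a * g⁻¹ ∈ A2 := by
      rintro g hg _ ⟨x, hx, rfl⟩
      refine ⟨(⟨g, hg⟩ : (FreeGroup.lift f).range) * x * (⟨g, hg⟩ : (FreeGroup.lift f).range)⁻¹,
        (ver_normal n0 (G ⧸ AG) (FreeGroup.lift f).range).conj_mem x hx _, ?_⟩
      rfl
    have haA2 : FreeGroup.lift h u ∈ A2 := by
      refine ⟨FreeGroup.lift (fun i => (⟨h i, hh0 i⟩ : (FreeGroup.lift f).range)) u,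
        mem_ver hu _, ?_⟩
      rw [sb_hom]
      rfl
    have hcent : ∀ w ∈ LawN k0 (G ⧸ AG), ∀ a ∈ A2,
        FreeGroup.lift f w * a = a * FreeGroup.lift f w := by
      intro w hw
      have h1 : A2 ≤ Subgroup.centralizer {FreeGroup.lift f w} := by
        rw [hA2d, ver_eq_closure, MonoidHom.map_closure, Subgroup.closure_le]
        rintro _ ⟨_, ⟨v, hv, g, rfl⟩, rfl⟩
        rw [SetLike.mem_coe, Subgroup.mem_centralizer_iff]
        rintro _ rfl
        choose g' hg' using fun i => (g i).2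
        have h2 : (FreeGroup.lift f).range.subtype (FreeGroup.lift g v) =
            FreeGroup.lift f (FreeGroup.lift g' v) := by
          rw [sb_hom, sb_hom]
          congr 1
          congr 1
          funext i
          exact (hg' i).symm
        rw [h2]
        have h3 : w * FreeGroup.lift g' v * w⁻¹ * (FreeGroup.lift g' v)⁻¹ ∈ LawN k0 G := by
          intro φ
          have h4 : FreeGroup.lift φ w ∈ AG := sb_val_mem AG hw φ
          have h5 : FreeGroup.lift φ (FreeGroup.lift g' v) ∈ AG := by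
            rw [sb_hom]
            exact sb_val_mem AG hv _
          rw [map_mul, map_mul, map_mul, map_inv, map_inv, hAG _ h4 _ h5]
          group
        have h6 := hLk h3 f
        rw [map_mul, map_mul, map_mul, map_inv, map_inv, mul_inv_eq_one,
          mul_inv_eq_iff_eq_mul] at h6
        exact h6
      intro a ha
      exact (Subgroup.mem_centralizer_iff.1 (h1 ha)) _ rfl
    have hgen : (FreeGroup.lift f).range ⊔ ⨅ k, C k = ⊤ := by
      rw [eq_top_iff]
      intro x _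
      obtain ⟨j, hj⟩ := hr x
      have h1 : x = r j * ((r j)⁻¹ * x) := by group
      rw [h1]
      exact Subgroup.mul_mem_sup (hr0 j) hj
    have hgen' : ∀ k, (FreeGroup.lift f).range ⊔ C k = ⊤ := by
      intro k
      rw [eq_top_iff, ← hgen]
      exact sup_le_sup_left (iInf_le _ k) _
    haveI : Finite (G ⧸ AG) := Subgroup.finite_quotient_of_finiteIndex
    obtain ⟨w, hw1, hw2⟩ := star_a hq hQ f (ver n0 (G ⧸ AG) H) F A2 hAF hF hA hA2 hA2n hcent
      (t := t) ht C hCi hgen p hp0 (fun k => (mem_Nk.1 (hp k)).1)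
      (fun k => (mem_Nk.1 (hp k)).2.1)
      (fun k C' hC' hlt => claim_b hq (ver n0 (G ⧸ AG) H) F hAF hF hab (C k) C'
        (FreeGroup.lift f).range (hFC k) hlt.le (hgen' k) (p k) (mem_Nk.1 (hp k)).1 (hp0 k)
        (mem_Nk.1 (hp k)).2.1 ((mem_Nk.1 (hp k)).2.2 C' hC' hlt))
    -- the word
    let h' : Fin n0 → FreeGroup (Fin k0) := fun i =>
      FreeGroup.of (Fin.castAdd _ (Fin.castAdd _ i))
    have hW : itc (FreeGroup.lift h' u) (List.ofFn w) ∈ LawN k0 G := by
      intro φ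
      rw [sb_itc_map, List.map_ofFn]
      obtain ⟨k, hk⟩ := hw2 (fun i => QuotientGroup.mk' AG (φ i))
      rw [← sb_hom (QuotientGroup.mk' AG) φ (w k)] at hk
      refine sb_itc_kill AG hAG _ (FreeGroup.lift φ (w k)) ?_
        ((QuotientGroup.eq_one_iff _).1 hk) _ ?_
      · rw [List.mem_ofFn]
        exact ⟨k, rfl⟩
      · rw [sb_hom]
        exact sb_val_mem AG hu _
    have hW1 := hLk hW f
    rw [sb_itc_map, List.map_ofFn, sb_hom] at hW1
    have h3 : (fun i => FreeGroup.lift f (h' i)) = h := by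
      funext i
      simp only [h', FreeGroup.lift_apply_of]
      exact hfh i
    rw [h3] at hW1
    rw [← hW1]
    exact (sb_itc_congr A2 _ _ (fun k a ha => hA2n _ (hp0 k) a ha)
      (fun k a ha => hw1 k a ha) _ haA2).symm
  have hcl : ver n0 (G ⧸ AG) H ≤ ver n0 (G ⧸ AG) H := le_rfl
  rw [ver_eq_closure] at ha
  refine (Subgroup.closure_induction (p := fun x _ => x ∈ ver n0 (G ⧸ AG) H ∧
    itc x (List.ofFn p) = 1) ?_ ?_ ?_ ?_ ha).2
  · rintro _ ⟨u, hu, h, rfl⟩
    exact ⟨mem_ver hu h, hred u hu h⟩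
  · exact ⟨one_mem _, sb_itc_one _⟩
  · rintro x y _ _ ⟨hx, hx'⟩ ⟨hy, hy'⟩
    refine ⟨mul_mem hx hy, ?_⟩
    rw [sb_itc_mul _ hA _ x hx y hy, hx', hy', one_mul]
  · rintro x _ ⟨hx, hx'⟩
    refine ⟨inv_mem hx, ?_⟩
    have h1 := sb_itc_mul _ hA (List.ofFn p) x hx x⁻¹ (inv_mem hx)
    rw [mul_inv_cancel, sb_itc_one, hx', one_mul] at h1
    exact h1.symm

end SA
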