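import Pool.Agent.SA.NDefs

/-! MODULE SA-WqoA: words over a finite alphabet with ordered surjections are well quasi-ordered.
By Higman's lemma for the words with marked first occurrences; the set of the occurring letters is fixed
first (pigeonhole). -/

namespace SA

private theorem wqo_os {Λ : Type} {s s' : ℕ} (w : Fin s → Λ) (w' : Fin s' → Λ)
    (hr : Set.range w = Set.range w') (f : Fin s → Fin s') (hf : StrictMono f)
    (hc : ∀ i, w' (f i) = w i)
    (hm : ∀ i, (∀ j < i, w j ≠ w i) → ∀ j < f i, w' j ≠ w' (f i)) :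
    ∃ γ : OS s s', ∀ k, w' k = w (γ.g k) := by
  classical
  have h1 : ∀ k, ∃ x, w x = w' k ∧ f x ≤ k ∧ ∀ y, f y = k → x = y := by
    intro k
    by_cases h : ∃ y, f y = k
    · obtain ⟨y, hy⟩ := h
      refine ⟨y, ?_, hy.le, fun z hz => hf.injective (hy.trans hz.symm)⟩
      rw [← hy, hc]
    · have h2 : w' k ∈ Set.range w := by
        rw [hr]
        exact Set.mem_range_self k
      obtain ⟨x0, hx0⟩ := h2
      obtain ⟨x, hx, hmin⟩ := (Finset.univ.filter fun x => w x = w' k).exists_min_image id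
        ⟨x0, by simp [hx0]⟩
      rw [Finset.mem_filter] at hx
      refine ⟨x, hx.2, ?_, fun y hy => absurd ⟨y, hy⟩ h⟩
      by_contra hlt
      refine hm x (fun j hj hjx => ?_) k (not_le.1 hlt) ?_
      · have h3 := hmin j (by rw [Finset.mem_filter]; exact ⟨Finset.mem_univ _, hjx.trans hx.2⟩)
        exact absurd hj (not_lt.2 h3)
      · rw [hc, hx.2]
  choose g hg1 hg2 hg3 using h1
  exact ⟨⟨g, f, hf, fun i => hg3 (f i) i rfl, hg2⟩, fun k => (hg1 k).symm⟩

open Classical in
/-- the letters with marked first occurrences -/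
private noncomputable def wcode {Λ : Type} {s : ℕ} (w : Fin s → Λ) (k : Fin s) : Λ × Bool :=
  (w k, decide (∀ j < k, w j ≠ w k))

theorem wqo_words {Λ : Type} [Finite Λ] (σ : ℕ → Σ s : ℕ, (Fin s → Λ)) :
    ∃ i j, i < j ∧ ∃ γ : OS (σ i).1 (σ j).1, ∀ k, (σ j).2 k = (σ i).2 (γ.g k) := by
  classical
  obtain ⟨S, hS⟩ := Finite.exists_infinite_fiber (fun n => Set.range (σ n).2)
  have hS' := Set.infinite_coe_iff.1 hS
  obtain ⟨φ, hφ, hφS⟩ := Nat.exists_strictMono_subsequence
    (P := fun n => Set.range (σ n).2 = S) (fun N => by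
      obtain ⟨n, hn, hN⟩ := hS'.exists_gt N
      exact ⟨n, hN, hn⟩)
  obtain ⟨m, n, hmn, hsub⟩ :=
    (Set.PartiallyWellOrderedOn.partiallyWellOrderedOn_sublistForall₂ (α := Λ × Bool) Eq
      (s := Set.univ) Set.finite_univ.partiallyWellOrderedOn).exists_lt
      (f := fun n => List.ofFn (wcode (σ (φ n)).2)) (fun n x _ => Set.mem_univ x)
  rw [List.sublistForall₂_iff] at hsub
  obtain ⟨l, hl1, hl2⟩ := hsub
  rw [List.forall₂_eq_eq_eq] at hl1
  subst hl1
  rw [List.sublist_iff_exists_fin_orderEmbedding_get_eq] at hl2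
  obtain ⟨F, hF⟩ := hl2
  refine ⟨φ m, φ n, hφ hmn, ?_⟩
  have hcode : ∀ i : Fin (σ (φ m)).1, wcode (σ (φ n)).2 (Fin.cast List.length_ofFn
      (F (Fin.cast List.length_ofFn.symm i))) = wcode (σ (φ m)).2 i := by
    intro i
    have h := hF (Fin.cast List.length_ofFn.symm i)
    rw [List.get_ofFn, List.get_ofFn] at h
    exact h.symm
  refine wqo_os _ _ ((hφS m).trans (hφS n).symm)
    (fun i => Fin.cast List.length_ofFn (F (Fin.cast List.length_ofFn.symm i))) ?_ ?_ ?_
  · intro i j hij
    exact F.strictMono (show Fin.cast List.length_ofFn.symm i < Fin.cast List.length_ofFn.symm j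
      from hij)
  · intro i
    exact congrArg Prod.fst (hcode i)
  · intro i hi
    have h := congrArg Prod.snd (hcode i)
    simp only [wcode] at h
    rw [decide_eq_true hi, decide_eq_true_iff] at h
    exact h

end SA
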